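import Pool.Agent.H249.EY

set_option autoImplicit false
open Set Filter Topology
open H535R3 (Sol fl P Cc Kx MM)

namespace Pool.Agent.H249

/-- The extremal displacement. -/
noncomputable def ms (σ b a ε : ℝ) : ℝ :=
  if 0 < σ then min (dp b a ε) (dq b a ε) else max (dp b a ε) (dq b a ε)

lemma ms_cont (σ : ℝ) : Continuous fun x : ℝ × ℝ × ℝ => ms σ x.1 x.2.1 x.2.2 := by
  unfold ms
  by_cases h : 0 < σ
  · simp only [if_pos h]; exact dp_cont.min dq_cont
  · simp only [if_neg h]; exact dp_cont.max dq_cont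

lemma ms_cont_eps (σ b a : ℝ) : Continuous fun ε => ms σ b a ε :=
  (ms_cont σ).comp (by fun_prop : Continuous fun ε : ℝ => ((b, a, ε) : ℝ × ℝ × ℝ))

lemma ms_or (σ b a ε : ℝ) : ms σ b a ε = dp b a ε ∨ ms σ b a ε = dq b a ε := by
  unfold ms
  by_cases h : 0 < σ
  · simp only [if_pos h]; exact min_choice _ _
  · simp only [if_neg h]; exact max_choice _ _

/-- Cases of admissible parity. -/
theorem caseB {n : ℕ} {μ ε0 σ : ℝ} {k : ℤ} (hμ : 0 < μ) (hε : 0 < ε0) (h0 : 0 ≤ k) (h1 : k ≤ n)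
    (hev : Even ((n:ℤ) + 1 + k)) (h : ms σ ((n:ℝ) + 1) (2 * μ) ε0 = 2 * Real.pi * k)
    (hlt : ∀ᶠ ε in 𝓝 ε0, ε < ε0 → ms σ ((n:ℝ) + 1) (2 * μ) ε < 2 * Real.pi * k) : False := by
  have hne := no_ident (n := n) (k := k) hμ hε h0 h1
  set Λ := 2 * Real.pi * (k:ℝ) with hΛ
  have cp := (dp_cont_eps ((n:ℝ) + 1) (2 * μ)).tendsto ε0
  have cq := (dq_cont_eps ((n:ℝ) + 1) (2 * μ)).tendsto ε0
  by_cases hσ : 0 < σ
  · simp only [ms, if_pos hσ] at h hlt
    have hp : Λ ≤ dp ((n:ℝ) + 1) (2 * μ) ε0 := h ▸ min_le_left _ _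
    have hq : Λ ≤ dq ((n:ℝ) + 1) (2 * μ) ε0 := h ▸ min_le_right _ _
    have hor : dp ((n:ℝ) + 1) (2 * μ) ε0 = Λ ∨ dq ((n:ℝ) + 1) (2 * μ) ε0 = Λ := by
      rcases min_choice (dp ((n:ℝ) + 1) (2 * μ) ε0) (dq ((n:ℝ) + 1) (2 * μ) ε0) with h2 | h2
      · left; rw [← h2]; exact h
      · right; rw [← h2]; exact h
    have hnot : ¬ (dp ((n:ℝ) + 1) (2 * μ) ε0 = Λ ∧ dq ((n:ℝ) + 1) (2 * μ) ε0 = Λ) :=
      fun h2 => hne (both_eq h2.1 h2.2)
    rcases hor with h2 | h2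
    · have h3 : Λ < dq ((n:ℝ) + 1) (2 * μ) ε0 := lt_of_le_of_ne hq fun h => hnot ⟨h2, h.symm⟩
      have h4 := (cross_p hε hev hne h2).and ((cq.eventually (lt_mem_nhds h3)).and hlt)
      obtain ⟨ε, h5, h6, h7, h8⟩ := ((freq_lt ε0).and_eventually h4).exists
      have := h8 h5
      exact absurd (lt_min (h6.1 h5) h7) (not_lt.2 this.le)
    · have h3 : Λ < dp ((n:ℝ) + 1) (2 * μ) ε0 := lt_of_le_of_ne hp fun h => hnot ⟨h.symm, h2⟩
      have h4 := (cross_q hε hev hne h2).and ((cp.eventually (lt_mem_nhds h3)).and hlt)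
      obtain ⟨ε, h5, h6, h7, h8⟩ := ((freq_lt ε0).and_eventually h4).exists
      have := h8 h5
      exact absurd (lt_min h7 (h6.1 h5)) (not_lt.2 this.le)
  · simp only [ms, if_neg hσ] at h hlt
    rcases max_choice (dp ((n:ℝ) + 1) (2 * μ) ε0) (dq ((n:ℝ) + 1) (2 * μ) ε0) with h2 | h2
    · rw [h] at h2
      have h4 := (cross_p hε hev hne h2.symm).and hlt
      obtain ⟨ε, h5, h6, h8⟩ := ((freq_lt ε0).and_eventually h4).exists
      have := h8 h5
      exact absurd (lt_max_of_lt_left (h6.1 h5)) (not_lt.2 this.le)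
    · rw [h] at h2
      have h4 := (cross_q hε hev hne h2.symm).and hlt
      obtain ⟨ε, h5, h6, h8⟩ := ((freq_lt ε0).and_eventually h4).exists
      have := h8 h5
      exact absurd (lt_max_of_lt_right (h6.1 h5)) (not_lt.2 this.le)

lemma stay_lt {p : ℝ → ℝ} (hp : Continuous p) {u v c : ℝ} (hav : ∀ x ∈ uIcc u v, p x ≠ c)
    (h : p u < c) : p v < c := by
  by_contra hcon
  push Not at hcon
  obtain ⟨x, hx, hxc⟩ := intermediate_value_uIcc (f := p) (a := u) (b := v) hp.continuousOn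
    (show c ∈ uIcc (p u) (p v) from ⟨(min_le_left _ _).trans h.le, hcon.trans (le_max_right _ _)⟩)
  exact hav x hx hxc

lemma stay_gt {p : ℝ → ℝ} (hp : Continuous p) {u v c : ℝ} (hav : ∀ x ∈ uIcc u v, p x ≠ c)
    (h : c < p u) : c < p v := by
  have := stay_lt (p := fun x => -p x) hp.neg (u := u) (v := v) (c := -c)
    (fun x hx h => hav x hx (neg_injective h)) (by simpa using h)
  simpa using this

/-- Unimodality in the variable `ε`. -/
lemma uni_eps {n : ℕ} {μ u x v : ℝ} (hu0 : 0 < u) (hux : u < x) (hxv : x < v)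
    (hpos : ∀ ε ∈ Icc u v, 0 < ff n μ ((ε / 2) ^ 2)) (hu : 4 ≤ ff n μ ((u / 2) ^ 2))
    (hv : 4 ≤ ff n μ ((v / 2) ^ 2)) : 4 < ff n μ ((x / 2) ^ 2) := by
  refine uni_between (FF_diff n μ) (FF_type n μ) (FF_zeros n μ) (FF_zero n μ) (FF_real n μ)
    (u := (u / 2) ^ 2) (v := (v / 2) ^ 2) ?_ hu hv (by norm_num) ?_ ?_
  · intro ξ hξ
    have h0 : 0 ≤ ξ := le_trans (by positivity) hξ.1
    have h1 := hpos (2 * √ξ) ⟨by
      have := (Real.le_sqrt' (by positivity : 0 < u / 2)).2 hξ.1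
      linarith, by
      have : √ξ ≤ v / 2 := Real.sqrt_le_iff.2 ⟨by linarith, hξ.2⟩
      linarith⟩
    rwa [show 2 * √ξ / 2 = √ξ by ring, Real.sq_sqrt h0] at h1
  · nlinarith
  · nlinarith

/-- Cases of the other parity. -/
theorem caseA {n : ℕ} {μ ε0 σ : ℝ} {k : ℤ} (hμ : 0 < μ) (hε : 0 < ε0) (h0 : 0 ≤ k) (h1 : k ≤ n)
    (hodd : Odd ((n:ℤ) + 1 + k)) (h : ms σ ((n:ℝ) + 1) (2 * μ) ε0 = 2 * Real.pi * k)
    (hlt : ∀ᶠ ε in 𝓝 ε0, ε < ε0 → ms σ ((n:ℝ) + 1) (2 * μ) ε < 2 * Real.pi * k) : False := by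
  have hpi := Real.pi_pos
  have hb : (0:ℝ) < (n:ℝ) + 1 := by positivity
  set p : ℝ → ℝ := fun ε => dp ((n:ℝ) + 1) (2 * μ) ε with hp
  set q : ℝ → ℝ := fun ε => dq ((n:ℝ) + 1) (2 * μ) ε with hq
  set m : ℝ → ℝ := fun ε => ms σ ((n:ℝ) + 1) (2 * μ) ε with hm
  set f : ℝ → ℝ := fun ε => ff n μ ((ε / 2) ^ 2) with hf
  have pc : Continuous p := dp_cont_eps _ _
  have qc : Continuous q := dq_cont_eps _ _
  have mc : Continuous m := ms_cont_eps _ _ _
  have fc : Continuous f := (ff_cont n μ).comp (by fun_prop)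
  have hpq : ∀ ε, |p ε - q ε| < Real.pi := fun ε => dp_dq _ _ _
  -- values of `f` at the levels
  have f4 : ∀ ε, (p ε = 2 * Real.pi * k ∨ q ε = 2 * Real.pi * k) → f ε = 4 := by
    intro ε h2
    have := ff_par (n := n) (μ := μ) (ε := ε) (k := k) h2
    rw [hodd.neg_one_zpow] at this
    simp only [hf]
    rw [this]; norm_num
  have f0 : ∀ ε, ∀ j : ℤ, Even ((n:ℤ) + 1 + j) → (p ε = 2 * Real.pi * j ∨ q ε = 2 * Real.pi * j) →
      f ε = 0 := by
    intro ε j hj h2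
    have := ff_par (n := n) (μ := μ) (ε := ε) (k := j) h2
    rw [hj.neg_one_zpow] at this
    simp only [hf]
    rw [this]; norm_num
  have hev1 : Even ((n:ℤ) + 1 + (k + 1)) := by
    rw [← add_assoc]; exact hodd.add_one
  have hev2 : Even ((n:ℤ) + 1 + (k - 1)) := by
    have := hodd.sub_odd odd_one
    rwa [show (n:ℤ) + 1 + k - 1 = (n:ℤ) + 1 + (k - 1) by ring] at this
  have hpq0 : p ε0 = 2 * Real.pi * k ∨ q ε0 = 2 * Real.pi * k := by
    rcases ms_or σ ((n:ℝ) + 1) (2 * μ) ε0 with h2 | h2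
    · left; rw [hp]; simp only; rw [← h2]; exact h
    · right; rw [hq]; simp only; rw [← h2]; exact h
  have hf0 : f ε0 = 4 := f4 ε0 hpq0
  -- both displacements at a level point
  have near : ∀ ε, ∀ j : ℤ, (p ε = 2 * Real.pi * j ∨ q ε = 2 * Real.pi * j) →
      (2 * Real.pi * j - Real.pi < p ε ∧ p ε < 2 * Real.pi * j + Real.pi) ∧
      (2 * Real.pi * j - Real.pi < q ε ∧ q ε < 2 * Real.pi * j + Real.pi) := by
    intro ε j h2
    have h3 := abs_lt.1 (hpq ε)
    rcases h2 with h2 | h2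
    · refine ⟨⟨?_, ?_⟩, ?_, ?_⟩ <;> linarith
    · refine ⟨⟨?_, ?_⟩, ?_, ?_⟩ <;> linarith
  -- the left end
  obtain ⟨δ, hδ, hMδ⟩ := MM_small' n hμ
  set ε1 := min (2 * δ) (ε0 / 2) with hε1
  have hε1p : 0 < ε1 := by positivity
  have hε1lt : ε1 < ε0 := (min_le_right _ _).trans_lt (by linarith)
  have hfε1 : f ε1 ≤ 0 := by
    have h2 : MM n (ε1 / 2) ≤ μ := by
      refine (H535R3.MM_mono (by positivity) ?_).trans hMδ
      have := min_le_left (2 * δ) (ε0 / 2)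
      rw [← hε1] at this
      linarith
    obtain ⟨x, hx⟩ := (lock_axis hμ hε1p).2 h2
    exact ff_even (even_axis n) hx
  obtain ⟨t, ht1, ht2, ht3, ht4⟩ := H535R3.first_zero (f := fun t => f (-t)) (a := -ε0) (b := -ε1)
    (by linarith) (by fun_prop) (by simp only [neg_neg]; rw [hf0]; norm_num)
    (by simpa using hfε1)
  set α := -t with hα
  have hα0 : 0 < α := by linarith
  have hα1 : α < ε0 := by linarith
  have hfα : f α = 0 := ht3
  have hfpos : ∀ ε, α < ε → ε ≤ ε0 → 0 < f ε := by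
    intro ε h2 h3
    have := ht4 (-ε) (by linarith) (by linarith)
    simpa using this
  -- bounds on `(α, ε0]`
  have hn0 := near ε0 k hpq0
  have bnd : ∀ ε, α < ε → ε ≤ ε0 → (2 * Real.pi * ((k - 1 : ℤ) : ℝ) < p ε ∧
      p ε < 2 * Real.pi * ((k + 1 : ℤ) : ℝ)) ∧ (2 * Real.pi * ((k - 1 : ℤ) : ℝ) < q ε ∧
      q ε < 2 * Real.pi * ((k + 1 : ℤ) : ℝ)) := by
    intro ε h2 h3
    have hsub : ∀ x ∈ uIcc ε0 ε, 0 < f x := by
      intro x hx
      rw [uIcc_of_ge h3] at hx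
      exact hfpos x (h2.trans_le hx.1) hx.2
    have a1 : ∀ x ∈ uIcc ε0 ε, p x ≠ 2 * Real.pi * ((k - 1 : ℤ) : ℝ) := fun x hx h4 =>
      (hsub x hx).ne' (f0 x _ hev2 (Or.inl h4))
    have a2 : ∀ x ∈ uIcc ε0 ε, p x ≠ 2 * Real.pi * ((k + 1 : ℤ) : ℝ) := fun x hx h4 =>
      (hsub x hx).ne' (f0 x _ hev1 (Or.inl h4))
    have a3 : ∀ x ∈ uIcc ε0 ε, q x ≠ 2 * Real.pi * ((k - 1 : ℤ) : ℝ) := fun x hx h4 =>
      (hsub x hx).ne' (f0 x _ hev2 (Or.inr h4))
    have a4 : ∀ x ∈ uIcc ε0 ε, q x ≠ 2 * Real.pi * ((k + 1 : ℤ) : ℝ) := fun x hx h4 =>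
      (hsub x hx).ne' (f0 x _ hev1 (Or.inr h4))
    refine ⟨⟨stay_gt pc a1 ?_, stay_lt pc a2 ?_⟩, stay_gt qc a3 ?_, stay_lt qc a4 ?_⟩
    · push_cast; linarith [hn0.1.1]
    · push_cast; linarith [hn0.1.2]
    · push_cast; linarith [hn0.2.1]
    · push_cast; linarith [hn0.2.2]
  have evα : ∀ᶠ ε in 𝓝[>] α, α < ε ∧ ε ≤ ε0 := by
    filter_upwards [self_mem_nhdsWithin, mem_nhdsWithin_of_mem_nhds (Iic_mem_nhds hα1)] with ε h2 h3
    exact ⟨h2, h3⟩
  have tpα := (pc.tendsto α).mono_left (nhdsWithin_le_nhds (s := Ioi α))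
  have tqα := (qc.tendsto α).mono_left (nhdsWithin_le_nhds (s := Ioi α))
  have bα : (2 * Real.pi * ((k - 1 : ℤ) : ℝ) ≤ p α ∧ p α ≤ 2 * Real.pi * ((k + 1 : ℤ) : ℝ)) ∧
      (2 * Real.pi * ((k - 1 : ℤ) : ℝ) ≤ q α ∧ q α ≤ 2 * Real.pi * ((k + 1 : ℤ) : ℝ)) := by
    refine ⟨⟨ge_of_tendsto tpα ?_, le_of_tendsto tpα ?_⟩, ge_of_tendsto tqα ?_, le_of_tendsto tqα ?_⟩
    · filter_upwards [evα] with ε h2; exact (bnd ε h2.1 h2.2).1.1.le
    · filter_upwards [evα] with ε h2; exact (bnd ε h2.1 h2.2).1.2.le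
    · filter_upwards [evα] with ε h2; exact (bnd ε h2.1 h2.2).2.1.le
    · filter_upwards [evα] with ε h2; exact (bnd ε h2.1 h2.2).2.2.le
  -- the number at `α`
  have hup : 2 * Real.pi * k < p α ∧ 2 * Real.pi * k < q α := by
    obtain ⟨j, hj, hjx⟩ := ff_le (n := n) (μ := μ) hα0 hfα.le
    have hprod := lock_iff.1 hjx
    change (p α - 2 * Real.pi * j) * (q α - 2 * Real.pi * j) ≤ 0 at hprod
    have hjk : j ≠ k := by
      rintro rfl
      exact (Int.not_even_iff_odd.2 hodd) hj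
    have hj1 : j ≤ k + 1 := by
      by_contra hcon
      push Not at hcon
      have h2 : ((k + 1 : ℤ) : ℝ) < j := by exact_mod_cast hcon
      have h3 := mul_pos_of_neg_of_neg (a := p α - 2 * Real.pi * j) (b := q α - 2 * Real.pi * j)
        (by nlinarith [bα.1.2]) (by nlinarith [bα.2.2])
      linarith
    have hj2 : k - 1 ≤ j := by
      by_contra hcon
      push Not at hcon
      have h2 : (j:ℝ) < ((k - 1 : ℤ) : ℝ) := by exact_mod_cast hcon
      have h3 := mul_pos (a := p α - 2 * Real.pi * j) (b := q α - 2 * Real.pi * j)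
        (by nlinarith [bα.1.1]) (by nlinarith [bα.2.1])
      linarith
    rcases (by omega : j = k + 1 ∨ j = k - 1) with rfl | rfl
    · have h2 : p α = 2 * Real.pi * ((k + 1 : ℤ) : ℝ) ∨ q α = 2 * Real.pi * ((k + 1 : ℤ) : ℝ) := by
        by_contra hcon
        push Not at hcon
        have h3 := mul_pos_of_neg_of_neg (sub_neg.2 (lt_of_le_of_ne bα.1.2 hcon.1))
          (sub_neg.2 (lt_of_le_of_ne bα.2.2 hcon.2))
        linarith
      have h3 := near α (k + 1) h2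
      push_cast at h3
      constructor <;> linarith [h3.1.1, h3.2.1]
    · exfalso
      have hj0 : 0 ≤ k - 1 := by
        by_contra hcon
        exact no_neg hb (by omega) hjx
      have hne := no_ident (n := n) (k := k - 1) hμ hα0 hj0 (by omega)
      have h2 : p α = 2 * Real.pi * ((k - 1 : ℤ) : ℝ) ∨ q α = 2 * Real.pi * ((k - 1 : ℤ) : ℝ) := by
        by_contra hcon
        push Not at hcon
        have h3 := mul_pos (sub_pos.2 (lt_of_le_of_ne bα.1.1 (Ne.symm hcon.1)))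
          (sub_pos.2 (lt_of_le_of_ne bα.2.1 (Ne.symm hcon.2)))
        linarith
      have hle : ∀ᶠ ε in 𝓝 α, ε ≤ ε0 := Iic_mem_nhds hα1
      rcases h2 with h2 | h2
      · obtain ⟨ε, h5, h6, h7⟩ := ((freq_gt α).and_eventually
          ((cross_p hα0 hj hne h2).and hle)).exists
        have h8 := h6.2 h5
        have h9 := (bnd ε h5 h7).1.1
        exact lt_asymm h8 h9
      · obtain ⟨ε, h5, h6, h7⟩ := ((freq_gt α).and_eventually
          ((cross_q hα0 hj hne h2).and hle)).exists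
        have h8 := h6.2 h5
        have h9 := (bnd ε h5 h7).2.1
        exact lt_asymm h8 h9
  have hmα : 2 * Real.pi * k < m α := by
    rcases ms_or σ ((n:ℝ) + 1) (2 * μ) α with h2 | h2
    · rw [hm]; simp only; rw [h2]; exact hup.1
    · rw [hm]; simp only; rw [h2]; exact hup.2
  -- a point with smaller value
  obtain ⟨ε2, hε2lt, hε2a, hε2α⟩ := ((freq_lt ε0).and_eventually
    (hlt.and (lt_mem_nhds hα1 : ∀ᶠ ε in 𝓝 ε0, α < ε))).exists
  have hmε2 : m ε2 < 2 * Real.pi * k := hε2a hε2lt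
  obtain ⟨ε3, ⟨hε3a, hε3b⟩, hε3m⟩ := intermediate_value_Icc' hε2α.le mc.continuousOn
    (show 2 * Real.pi * (k:ℝ) ∈ Icc (m ε2) (m α) from ⟨hmε2.le, hmα.le⟩)
  have hε3α : α < ε3 := lt_of_le_of_ne hε3a (by rintro rfl; linarith)
  have hε32 : ε3 < ε2 := lt_of_le_of_ne hε3b (by rintro rfl; linarith)
  have hf3 : f ε3 = 4 := by
    apply f4
    rcases ms_or σ ((n:ℝ) + 1) (2 * μ) ε3 with h2 | h2
    · left; rw [hp]; simp only; rw [← h2]; exact hε3m
    · right; rw [hq]; simp only; rw [← h2]; exact hε3m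
  by_cases hσ : 0 < σ
  swap
  · -- the left boundary
    have hgt : 4 < f ε2 := uni_eps (hα0.trans hε3α) hε32 hε2lt
      (fun ε hε' => hfpos ε (hε3α.trans_le hε'.1) hε'.2) hf3.ge hf0.ge
    obtain ⟨j, hj, hjx⟩ := ff_ge (n := n) (μ := μ) (hα0.trans hε2α) hgt.le
    have hprod := lock_iff.1 hjx
    change (p ε2 - 2 * Real.pi * j) * (q ε2 - 2 * Real.pi * j) ≤ 0 at hprod
    have hb2 := bnd ε2 hε2α hε2lt.le
    have hj1 : j < k + 1 := by
      by_contra hcon
      push Not at hcon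
      have h2 : ((k + 1 : ℤ) : ℝ) ≤ j := by exact_mod_cast hcon
      have h3 := mul_pos_of_neg_of_neg (a := p ε2 - 2 * Real.pi * j) (b := q ε2 - 2 * Real.pi * j)
        (by nlinarith [hb2.1.2]) (by nlinarith [hb2.2.2])
      linarith
    have hj2 : k - 1 < j := by
      by_contra hcon
      push Not at hcon
      have h2 : (j:ℝ) ≤ ((k - 1 : ℤ) : ℝ) := by exact_mod_cast hcon
      have h3 := mul_pos (a := p ε2 - 2 * Real.pi * j) (b := q ε2 - 2 * Real.pi * j)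
        (by nlinarith [hb2.1.1]) (by nlinarith [hb2.2.1])
      linarith
    obtain rfl : j = k := by omega
    simp only [hm, ms, if_neg hσ] at hmε2
    have h4 : p ε2 < 2 * Real.pi * j := lt_of_le_of_lt (le_max_left _ _) hmε2
    have h5 : q ε2 < 2 * Real.pi * j := lt_of_le_of_lt (le_max_right _ _) hmε2
    have := mul_pos_of_neg_of_neg (sub_neg.2 h4) (sub_neg.2 h5)
    linarith
  · -- the right boundary
    have claim2 : ∀ ε, ε0 < ε → (∀ x, ε0 ≤ x → x ≤ ε → 0 < f x) → f ε < 4 := by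
      intro ε h2 h3
      by_contra hcon
      push Not at hcon
      have := uni_eps (n := n) (μ := μ) (hα0.trans hε3α) (hε32.trans hε2lt) h2 (fun x hx => by
        rcases le_total x ε0 with h4 | h4
        · exact hfpos x (hε3α.trans_le hx.1) h4
        · exact h3 x h4 hx.2) hf3.ge hcon
      have h5 : 4 < f ε0 := this
      linarith
    obtain ⟨ε4, hε4, hfε4⟩ : ∃ ε, ε0 < ε ∧ f ε ≤ 0 := by
      by_contra hcon
      push Not at hcon
      set E := max ε0 ((n:ℝ) + 1 + 2 * μ) + 1 with hE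
      have hE0 : ε0 < E := by
        have := le_max_left ε0 ((n:ℝ) + 1 + 2 * μ)
        linarith
      have hE1 : (n:ℝ) + 1 + 2 * μ < E := by
        have := le_max_right ε0 ((n:ℝ) + 1 + 2 * μ)
        linarith
      obtain ⟨x, hx⟩ := lock_zero hb (by positivity : 0 ≤ 2 * μ) hE1
      have hposE := hcon E hE0
      rcases Int.even_or_odd ((n:ℤ) + 1 + 0) with hk | hk
      · have := ff_even (n := n) (μ := μ) hk hx
        change f E ≤ 0 at this
        linarith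
      · have h2 := ff_odd (n := n) (μ := μ) hk hx
        change 4 ≤ f E at h2
        have h3 := claim2 E hE0 (fun x hx1 hx2 => by
          rcases hx1.eq_or_lt with h4 | h4
          · rw [← h4, hf0]; norm_num
          · exact hcon x h4)
        linarith
    obtain ⟨β, hβ1, hβ2, hβ3, hβ4⟩ := H535R3.first_zero (f := f) (a := ε0) (b := ε4) hε4.le
      fc.continuousOn (by rw [hf0]; norm_num) hfε4
    have hβ0 : 0 < β := hε.trans hβ1
    have hlt4 : ∀ ε, ε0 < ε → ε < β → f ε < 4 := fun ε h2 h3 =>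
      claim2 ε h2 fun x hx1 hx2 => hβ4 x hx1 (hx2.trans_lt h3)
    -- bounds to the right
    have hub : ∀ ε, ε0 ≤ ε → ε < β → p ε < 2 * Real.pi * ((k + 1 : ℤ) : ℝ) ∧
        q ε < 2 * Real.pi * ((k + 1 : ℤ) : ℝ) := by
      intro ε h2 h3
      have hsub : ∀ x ∈ uIcc ε0 ε, 0 < f x := by
        intro x hx
        rw [uIcc_of_le h2] at hx
        exact hβ4 x hx.1 (hx.2.trans_lt h3)
      refine ⟨stay_lt pc (fun x hx h4 => (hsub x hx).ne' (f0 x _ hev1 (Or.inl h4))) ?_,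
        stay_lt qc (fun x hx h4 => (hsub x hx).ne' (f0 x _ hev1 (Or.inr h4))) ?_⟩
      · push_cast; linarith [hn0.1.2]
      · push_cast; linarith [hn0.2.2]
    have hms0 : 2 * Real.pi * k ≤ p ε0 ∧ 2 * Real.pi * k ≤ q ε0 := by
      simp only [ms, if_pos hσ] at h
      rw [← h]
      exact ⟨min_le_left _ _, min_le_right _ _⟩
    have hne0 : 2 * Real.pi * k < p ε0 ∨ 2 * Real.pi * k < q ε0 := by
      by_contra hcon
      push Not at hcon
      exact no_ident (n := n) (k := k) hμ hε h0 h1 (both_eq (le_antisymm hcon.1 hms0.1) (le_antisymm hcon.2 hms0.2))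
    have hnolock : ∀ ε, ε0 < ε → ε < β → 0 < (p ε - 2 * Real.pi * k) * (q ε - 2 * Real.pi * k) := by
      intro ε h2 h3
      by_contra hcon
      push Not at hcon
      obtain ⟨x, hx⟩ := lock_iff.2 hcon
      have h4 := ff_odd (n := n) (μ := μ) hodd hx
      change 4 ≤ f ε at h4
      linarith [hlt4 ε h2 h3]
    obtain ⟨ε5, hε5a, hε5b, hε5c⟩ : ∃ ε, (ε0 < ε ∧ ε < β) ∧ 2 * Real.pi * k < p ε ∧ 2 * Real.pi * k < q ε := by
      have hltβ : ∀ᶠ ε in 𝓝 ε0, ε < β := gt_mem_nhds hβ1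
      rcases hne0 with h2 | h2
      · obtain ⟨ε, h3, h4, h5⟩ := ((freq_gt ε0).and_eventually
          (hltβ.and ((pc.tendsto ε0).eventually (lt_mem_nhds h2)))).exists
        refine ⟨ε, ⟨h3, h4⟩, h5, ?_⟩
        have := hnolock ε h3 h4
        exact sub_pos.1 (pos_of_mul_pos_right this (sub_pos.2 h5).le |> fun h => h)
      · obtain ⟨ε, h3, h4, h5⟩ := ((freq_gt ε0).and_eventually
          (hltβ.and ((qc.tendsto ε0).eventually (lt_mem_nhds h2)))).exists
        refine ⟨ε, ⟨h3, h4⟩, ?_, h5⟩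
        have := hnolock ε h3 h4
        exact sub_pos.1 (pos_of_mul_pos_left this (sub_pos.2 h5).le |> fun h => h)
    have hlb : ∀ ε, ε0 < ε → ε < β → 2 * Real.pi * k < p ε ∧ 2 * Real.pi * k < q ε := by
      intro ε h2 h3
      have hsub : ∀ x ∈ uIcc ε5 ε, ε0 < x ∧ x < β := by
        intro x hx
        exact ⟨lt_of_lt_of_le (lt_min hε5a.1 h2) hx.1, lt_of_le_of_lt hx.2 (max_lt hε5a.2 h3)⟩
      refine ⟨stay_gt pc (fun x hx h4 => ?_) hε5b, stay_gt qc (fun x hx h4 => ?_) hε5c⟩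
      · have h5 := hsub x hx
        linarith [f4 x (Or.inl h4), hlt4 x h5.1 h5.2]
      · have h5 := hsub x hx
        linarith [f4 x (Or.inr h4), hlt4 x h5.1 h5.2]
    have evβ : ∀ᶠ ε in 𝓝[<] β, ε0 < ε ∧ ε < β := by
      filter_upwards [self_mem_nhdsWithin, mem_nhdsWithin_of_mem_nhds (Ioi_mem_nhds hβ1)] with ε h2 h3
      exact ⟨h3, h2⟩
    have tpβ := (pc.tendsto β).mono_left (nhdsWithin_le_nhds (s := Iio β))
    have tqβ := (qc.tendsto β).mono_left (nhdsWithin_le_nhds (s := Iio β))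
    have bβ : (2 * Real.pi * (k : ℝ) ≤ p β ∧ p β ≤ 2 * Real.pi * ((k + 1 : ℤ) : ℝ)) ∧
        (2 * Real.pi * (k : ℝ) ≤ q β ∧ q β ≤ 2 * Real.pi * ((k + 1 : ℤ) : ℝ)) := by
      refine ⟨⟨ge_of_tendsto tpβ ?_, le_of_tendsto tpβ ?_⟩, ge_of_tendsto tqβ ?_, le_of_tendsto tqβ ?_⟩
      · filter_upwards [evβ] with ε h2; exact (hlb ε h2.1 h2.2).1.le
      · filter_upwards [evβ] with ε h2; exact (hub ε h2.1.le h2.2).1.le
      · filter_upwards [evβ] with ε h2; exact (hlb ε h2.1 h2.2).2.le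
      · filter_upwards [evβ] with ε h2; exact (hub ε h2.1.le h2.2).2.le
    obtain ⟨j, hj, hjx⟩ := ff_le (n := n) (μ := μ) hβ0 (show f β ≤ 0 from hβ3.le)
    have hprod := lock_iff.1 hjx
    change (p β - 2 * Real.pi * j) * (q β - 2 * Real.pi * j) ≤ 0 at hprod
    have hjk : j ≠ k := by
      rintro rfl
      exact (Int.not_even_iff_odd.2 hodd) hj
    have hj1 : j ≤ k + 1 := by
      by_contra hcon
      push Not at hcon
      have h2 : ((k + 1 : ℤ) : ℝ) < j := by exact_mod_cast hcon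
      have h3 := mul_pos_of_neg_of_neg (a := p β - 2 * Real.pi * j) (b := q β - 2 * Real.pi * j)
        (by nlinarith [bβ.1.2]) (by nlinarith [bβ.2.2])
      linarith
    have hj2 : k ≤ j := by
      by_contra hcon
      push Not at hcon
      have h2 : (j:ℝ) < (k : ℝ) := by exact_mod_cast hcon
      have h3 := mul_pos (a := p β - 2 * Real.pi * j) (b := q β - 2 * Real.pi * j)
        (by nlinarith [bβ.1.1]) (by nlinarith [bβ.2.1])
      linarith
    obtain rfl : j = k + 1 := by omega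
    have h2 : p β = 2 * Real.pi * ((k + 1 : ℤ) : ℝ) ∨ q β = 2 * Real.pi * ((k + 1 : ℤ) : ℝ) := by
      by_contra hcon
      push Not at hcon
      have h3 := mul_pos_of_neg_of_neg (sub_neg.2 (lt_of_le_of_ne bβ.1.2 hcon.1))
        (sub_neg.2 (lt_of_le_of_ne bβ.2.2 hcon.2))
      linarith
    by_cases hkn : k + 1 ≤ n
    · have hne := no_ident (n := n) (k := k + 1) hμ hβ0 (by omega) hkn
      have hgeβ : ∀ᶠ ε in 𝓝 β, ε0 < ε := lt_mem_nhds hβ1
      rcases h2 with h2 | h2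
      · obtain ⟨ε, h5, h6, h7⟩ := ((freq_lt β).and_eventually
          ((cross_p hβ0 hj hne h2).and hgeβ)).exists
        exact lt_asymm (h6.1 h5) (hub ε h7.le h5).1
      · obtain ⟨ε, h5, h6, h7⟩ := ((freq_lt β).and_eventually
          ((cross_q hβ0 hj hne h2).and hgeβ)).exists
        exact lt_asymm (h6.1 h5) (hub ε h7.le h5).2
    · obtain rfl : k = n := by omega
      have h3 := (lock_axis hμ hβ0).1 hjx
      have h4 : MM n (ε0 / 2) ≤ μ := (H535R3.MM_mono (by positivity) (by linarith)).trans h3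
      obtain ⟨x, hx⟩ := (lock_axis hμ hε).2 h4
      have h5 := ff_even (n := n) (μ := μ) (even_axis n) hx
      change f ε0 ≤ 0 at h5
      linarith

end Pool.Agent.H249
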