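import Pool.Agent.H249.CA

set_option autoImplicit false
open Set Filter Topology
open H535R3 (Sol fl P Cc Kx MM)

namespace Pool.Agent.H249

/-- At an identity point the displacement changes sign with the forcing. -/
lemma ident_cross {n : ℕ} {μ ε : ℝ} (hμ : 0 < μ) (hε : 0 < ε)
    (hall : ∀ x, P ((n:ℝ) + 1) (2 * μ) ε x = x + 2 * Real.pi * (((n:ℤ) + 1 : ℤ) : ℝ)) :
    ∃ τ : ℝ, |τ| = 1 ∧
      (∀ᶠ s in 𝓝[>] (0:ℝ), 2 * Real.pi * (((n:ℤ) + 1 : ℤ) : ℝ) < dp ((n:ℝ) + 1) (2 * μ + τ * s) ε) ∧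
      (∀ᶠ s in 𝓝[>] (0:ℝ), dp ((n:ℝ) + 1) (2 * μ - τ * s) ε < 2 * Real.pi * (((n:ℤ) + 1 : ℤ) : ℝ)) := by
  have h1 := hall (Real.pi / 2)
  obtain ⟨hC, hCper⟩ := H535R3.Cc_per h1
  set φ := fl ((n:ℝ) + 1) (2 * μ) ε (Real.pi / 2) with hφ
  have hI := H535R3.Ic_ne (n := n) (μ := μ) (e := ε / 2) hμ (by positivity) (by
    rw [show 2 * (ε / 2) = ε by ring]; exact hall)
  rw [show 2 * (ε / 2) = ε by ring, H535R3.shift_int (by
    intro t
    rw [Real.cos_add_two_pi, hCper t])] at hI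
  set J := ∫ t in (0:ℝ)..(2 * Real.pi), Real.cos t * Real.exp (ε * Cc φ t) with hJ
  have hJ2 : ∀ c : ℝ, ∫ t in (0:ℝ)..(2 * Real.pi), (0 + c * Real.cos t) * Real.exp (ε * Cc φ t) = c * J := by
    intro c
    rw [hJ, ← intervalIntegral.integral_const_mul]
    congr 1
    funext t
    ring
  have hPJ : P ((n:ℝ) + 1) (2 * μ) ε (Real.pi / 2) - Real.pi / 2 =
      2 * Real.pi * (((n:ℤ) + 1 : ℤ) : ℝ) := by rw [h1]; ring
  have up : ∀ c : ℝ, 0 < c * J → ∀ᶠ s in 𝓝[>] (0:ℝ),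
      2 * Real.pi * (((n:ℤ) + 1 : ℤ) : ℝ) < dp ((n:ℝ) + 1) (2 * μ + c * s) ε := by
    intro c hc
    have := H535R3.push_up (η := 0) (σ := c) hC (by rw [hJ2]; exact hc)
    filter_upwards [this] with s hs
    rw [zero_mul, add_zero] at hs
    rw [dp]
    linarith
  have down : ∀ c : ℝ, c * J < 0 → ∀ᶠ s in 𝓝[>] (0:ℝ),
      dp ((n:ℝ) + 1) (2 * μ + c * s) ε < 2 * Real.pi * (((n:ℤ) + 1 : ℤ) : ℝ) := by
    intro c hc
    have := H535R3.push_down (η := 0) (σ := c) hC (by rw [hJ2]; exact hc)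
    filter_upwards [this] with s hs
    rw [zero_mul, add_zero] at hs
    rw [dp]
    linarith
  rcases lt_or_gt_of_ne hI with h | h
  · refine ⟨-1, by norm_num, up (-1) (by linarith), ?_⟩
    have := down 1 (by linarith)
    filter_upwards [this] with s hs
    rw [show 2 * μ - -1 * s = 2 * μ + 1 * s by ring]
    exact hs
  · refine ⟨1, by norm_num, up 1 (by linarith), ?_⟩
    have := down (-1) (by linarith)
    filter_upwards [this] with s hs
    rw [show 2 * μ - 1 * s = 2 * μ + -1 * s by ring]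
    exact hs

lemma dp_cont_a (b ε : ℝ) : Continuous fun a => dp b a ε :=
  dp_cont.comp (by fun_prop : Continuous fun a : ℝ => ((b, a, ε) : ℝ × ℝ × ℝ))

lemma dq_cont_a (b ε : ℝ) : Continuous fun a => dq b a ε :=
  dq_cont.comp (by fun_prop : Continuous fun a : ℝ => ((b, a, ε) : ℝ × ℝ × ℝ))

/-- At the Perron value both displacements are at most the axis level. -/
lemma at_perron {n : ℕ} {ε : ℝ} (hε : 0 < ε) :
    dp ((n:ℝ) + 1) (2 * MM n (ε / 2)) ε ≤ 2 * Real.pi * (((n:ℤ) + 1 : ℤ) : ℝ) ∧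
      dq ((n:ℝ) + 1) (2 * MM n (ε / 2)) ε ≤ 2 * Real.pi * (((n:ℤ) + 1 : ℤ) : ℝ) := by
  have hM : 0 < MM n (ε / 2) := H535R3.MM_pos n (by positivity)
  have hev : ∀ᶠ μ in 𝓝[<] (MM n (ε / 2)), 0 < μ ∧ μ < MM n (ε / 2) := by
    filter_upwards [self_mem_nhdsWithin, mem_nhdsWithin_of_mem_nhds (Ioi_mem_nhds hM)] with μ h1 h2
    exact ⟨h2, h1⟩
  have c1 : Continuous fun μ : ℝ => dp ((n:ℝ) + 1) (2 * μ) ε := (dp_cont_a _ _).comp (by fun_prop)
  have c2 : Continuous fun μ : ℝ => dq ((n:ℝ) + 1) (2 * μ) ε := (dq_cont_a _ _).comp (by fun_prop)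
  constructor
  · refine le_of_tendsto ((c1.tendsto (MM n (ε / 2))).mono_left
      (nhdsWithin_le_nhds (s := Iio (MM n (ε / 2))))) ?_
    filter_upwards [hev] with μ h
    have := H535R3.below h.1 hε h.2 (Real.pi / 2)
    rw [dp]; linarith
  · refine le_of_tendsto ((c2.tendsto (MM n (ε / 2))).mono_left
      (nhdsWithin_le_nhds (s := Iio (MM n (ε / 2))))) ?_
    filter_upwards [hev] with μ h
    have := H535R3.below h.1 hε h.2 (-(Real.pi / 2))
    rw [dq]; linarith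

lemma ms_of_both {σ b a ε c : ℝ} (h1 : dp b a ε = c) (h2 : dq b a ε = c) : ms σ b a ε = c := by
  rcases ms_or σ b a ε with h | h
  · rw [h, h1]
  · rw [h, h2]

/-- The case of the axis number. -/
theorem caseC {n : ℕ} {μ0 ε0 σ : ℝ} (hμ : 0 < μ0) (hε : 0 < ε0)
    (h : ms σ ((n:ℝ) + 1) (2 * μ0) ε0 = 2 * Real.pi * (((n:ℤ) + 1 : ℤ) : ℝ))
    {δ : ℝ} (hδ : 0 < δ) (h3 : ∀ ε a, ε0 - δ < ε → ε < ε0 → |a - 2 * μ0| < δ →
      ms σ ((n:ℝ) + 1) a ε ≠ 2 * Real.pi * (((n:ℤ) + 1 : ℤ) : ℝ)) : False := by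
  set Λ := 2 * Real.pi * (((n:ℤ) + 1 : ℤ) : ℝ) with hΛ
  have hpq0 : dp ((n:ℝ) + 1) (2 * μ0) ε0 = Λ ∨ dq ((n:ℝ) + 1) (2 * μ0) ε0 = Λ := by
    rcases ms_or σ ((n:ℝ) + 1) (2 * μ0) ε0 with h2 | h2
    · left; rw [← h2]; exact h
    · right; rw [← h2]; exact h
  have hlock : ∃ x, P ((n:ℝ) + 1) (2 * μ0) ε0 x = x + 2 * Real.pi * (((n:ℤ) + 1 : ℤ) : ℝ) := by
    rw [lock_iff]
    rcases hpq0 with h2 | h2
    · rw [h2, ← hΛ, sub_self, zero_mul]
    · rw [h2, ← hΛ, sub_self, mul_zero]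
  have hM0 := (lock_axis hμ hε).1 hlock
  by_cases hboth : dp ((n:ℝ) + 1) (2 * μ0) ε0 = Λ ∧ dq ((n:ℝ) + 1) (2 * μ0) ε0 = Λ
  · have hall := both_eq hboth.1 hboth.2
    have hM : MM n (ε0 / 2) < μ0 := by
      refine lt_of_le_of_ne hM0 (Ne.symm ?_)
      exact H535R3.not_ident_MM (n := n) (μ := μ0) (e := ε0 / 2) (by positivity) (by
        rw [show 2 * (ε0 / 2) = ε0 by ring]; exact hall)
    obtain ⟨τ, hτ, hup, hdown⟩ := ident_cross hμ hε hall
    -- a small step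
    have hsmall : ∀ᶠ s in 𝓝[>] (0:ℝ), s < δ ∧ s < 2 * (μ0 - MM n (ε0 / 2)) := by
      have h1 : 0 < 2 * (μ0 - MM n (ε0 / 2)) := by linarith
      filter_upwards [mem_nhdsWithin_of_mem_nhds (Iio_mem_nhds hδ),
        mem_nhdsWithin_of_mem_nhds (Iio_mem_nhds h1)] with s h2 h3
      exact ⟨h2, h3⟩
    obtain ⟨s, ⟨⟨hs1, hs2⟩, hs3, hs4⟩, hs0⟩ := ((hup.and hdown).and hsmall |>.and
      (self_mem_nhdsWithin : ∀ᶠ s in 𝓝[>] (0:ℝ), 0 < s)).exists
    -- move `ε`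
    have hev : ∀ᶠ ε in 𝓝 ε0, Λ < dp ((n:ℝ) + 1) (2 * μ0 + τ * s) ε ∧
        dp ((n:ℝ) + 1) (2 * μ0 - τ * s) ε < Λ ∧ ε0 - δ < ε ∧ 0 < ε :=
      (((dp_cont_eps _ _).tendsto ε0).eventually (lt_mem_nhds hs1)).and
        ((((dp_cont_eps _ _).tendsto ε0).eventually (gt_mem_nhds hs2)).and
          ((lt_mem_nhds (by linarith)).and (lt_mem_nhds hε)))
    obtain ⟨ε, h5, h6, h7, h8, h9⟩ := ((freq_lt ε0).and_eventually hev).exists
    obtain ⟨a, ha, haΛ⟩ := intermediate_value_uIcc (f := fun a => dp ((n:ℝ) + 1) a ε)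
      (a := 2 * μ0 - τ * s) (b := 2 * μ0 + τ * s) (dp_cont_a _ _).continuousOn
      (show Λ ∈ uIcc _ _ from ⟨(min_le_left _ _).trans h7.le, h6.le.trans (le_max_right _ _)⟩)
    have hda : |a - 2 * μ0| ≤ s := by
      have h10 : |τ * s| = s := by rw [abs_mul, hτ, one_mul, abs_of_pos hs0]
      rw [abs_le]
      have h11 := abs_le.1 h10.le
      rcases le_total (τ * s) 0 with h12 | h12
      · rw [uIcc_of_ge (by linarith)] at ha
        exact ⟨by linarith [ha.1], by linarith [ha.2]⟩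
      · rw [uIcc_of_le (by linarith)] at ha
        exact ⟨by linarith [ha.1], by linarith [ha.2]⟩
    have ha2 := abs_le.1 hda
    have hMa : MM n (ε / 2) < a / 2 := by
      have : MM n (ε / 2) ≤ MM n (ε0 / 2) := H535R3.MM_mono (by positivity) (by linarith)
      linarith
    have hMp : 0 < MM n (ε / 2) := H535R3.MM_pos n (by positivity)
    have hpf := para_free (n := n) (μ := a / 2) (ε0 := ε) (by linarith) h9 hMa
    rw [show 2 * (a / 2) = a by ring] at hpf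
    have hq := hpf.1 haΛ
    exact h3 ε a h8 h5 (lt_of_le_of_lt hda hs3) (ms_of_both haΛ hq)
  · rcases hM0.lt_or_eq with hM | hM
    · have hpf := para_free hμ hε hM
      apply hboth
      rcases hpq0 with h2 | h2
      · exact ⟨h2, hpf.1 h2⟩
      · exact ⟨hpf.2 h2, h2⟩
    · by_cases hσ : 0 < σ
      · -- the minimum
        obtain ⟨g1, g2⟩ := at_perron (n := n) hε
        rw [hM] at g1 g2
        simp only [ms, if_pos hσ] at h
        apply hboth
        exact ⟨le_antisymm g1 (h ▸ min_le_left _ _), le_antisymm g2 (h ▸ min_le_right _ _)⟩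
      · -- the Perron curve
        have hc : ContinuousAt (fun ε => 2 * MM n (ε / 2)) ε0 := by
          have h1 := (H535R3.MM_cont n).continuousAt (x := ε0 / 2) (Ioi_mem_nhds (by positivity))
          exact (ContinuousAt.comp (f := fun ε : ℝ => ε / 2) h1 (by fun_prop)).const_mul 2
        have hev : ∀ᶠ ε in 𝓝 ε0, |2 * MM n (ε / 2) - 2 * μ0| < δ ∧ ε0 - δ < ε ∧ 0 < ε := by
          refine Eventually.and ?_ ((lt_mem_nhds (by linarith)).and (lt_mem_nhds hε))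
          have h1 := hc.tendsto.eventually (Metric.ball_mem_nhds _ hδ)
          filter_upwards [h1] with ε h2
          rw [Real.dist_eq, hM] at h2
          exact h2
        obtain ⟨ε, h5, h6, h7, h8⟩ := ((freq_lt ε0).and_eventually hev).exists
        refine h3 ε _ h7 h5 h6 ?_
        obtain ⟨g1, g2⟩ := at_perron (n := n) h8
        have hMp : 0 < MM n (ε / 2) := H535R3.MM_pos n (by positivity)
        have hl := lock_iff.1 ((lock_axis (n := n) (μ := MM n (ε / 2)) hMp h8).2 le_rfl)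
        rw [← hΛ] at g1 g2 hl
        simp only [ms, if_neg hσ]
        refine le_antisymm (max_le g1 g2) ?_
        by_contra hcon
        push Not at hcon
        have k1 := (le_max_left _ _).trans_lt hcon
        have k2 := (le_max_right _ _).trans_lt hcon
        have := mul_pos_of_neg_of_neg (sub_neg.2 k1) (sub_neg.2 k2)
        linarith

/-- The extremal displacement is not constant in the forcing. -/
theorem lemmaD {n : ℕ} {a0 ε0 σ : ℝ} {k : ℤ} (hε : 0 < ε0) {δ : ℝ} (hδ : 0 < δ)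
    (h : ∀ a, |a - a0| < δ → ms σ ((n:ℝ) + 1) a ε0 = 2 * Real.pi * k) : False := by
  set Λ := 2 * Real.pi * (((n:ℤ) + 1 : ℤ) : ℝ) with hΛ
  set c : ℝ := 2 - 2 * (-1 : ℝ) ^ ((n:ℤ) + 1 + k) with hc
  -- constancy on an interval
  have h1 : ∀ μ : ℝ, |μ - a0 / 2| < δ / 2 → FF n μ (((ε0 / 2) ^ 2 : ℝ) : ℂ) = (c : ℂ) := by
    intro μ hμ
    have h2 := h (2 * μ) (by
      have : 2 * μ - a0 = 2 * (μ - a0 / 2) := by ring
      rw [this, abs_mul, abs_two]
      linarith)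
    rw [FF_real, ff_par (n := n) (μ := μ) (ε := ε0) (k := k) (by
      rcases ms_or σ ((n:ℝ) + 1) (2 * μ) ε0 with h3 | h3
      · left; rw [← h3]; exact h2
      · right; rw [← h3]; exact h2)]
  have hG : Differentiable ℂ (fun m : ℂ => 2 - Th (((n:ℤ) + 1 : ℤ) : ℂ) m (((ε0 / 2) ^ 2 : ℝ) : ℂ)) :=
    (Th_diff_m _ _).const_sub 2
  have hGc : (fun m : ℂ => 2 - Th (((n:ℤ) + 1 : ℤ) : ℂ) m (((ε0 / 2) ^ 2 : ℝ) : ℂ)) = fun _ => (c:ℂ) := by
    have hA : AnalyticOnNhd ℂ (fun m : ℂ => 2 - Th (((n:ℤ) + 1 : ℤ) : ℂ) m (((ε0 / 2) ^ 2 : ℝ) : ℂ)) univ :=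
      hG.differentiableOn.analyticOnNhd isOpen_univ
    refine hA.eq_of_frequently_eq (z₀ := ((a0 / 2 : ℝ) : ℂ)) analyticOnNhd_const ?_
    have ht : Tendsto (fun x : ℝ => (x : ℂ)) (𝓝[≠] (a0 / 2)) (𝓝[≠] (((a0 / 2 : ℝ)) : ℂ)) := by
      refine tendsto_nhdsWithin_iff.2 ⟨?_, ?_⟩
      · exact (Complex.continuous_ofReal.tendsto _).mono_left nhdsWithin_le_nhds
      · filter_upwards [self_mem_nhdsWithin] with x hx
        intro h
        exact hx (Complex.ofReal_injective h)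
    refine ht.frequently (Eventually.frequently ?_)
    have : ∀ᶠ x in 𝓝 (a0 / 2), |x - a0 / 2| < δ / 2 := by
      have := Metric.ball_mem_nhds (a0 / 2) (show 0 < δ / 2 by positivity)
      filter_upwards [this] with x hx
      rwa [Metric.mem_ball, Real.dist_eq] at hx
    filter_upwards [mem_nhdsWithin_of_mem_nhds this] with x hx
    exact h1 x hx
  have hff : ∀ μ : ℝ, ff n μ ((ε0 / 2) ^ 2) = c := by
    intro μ
    have h2 := congrFun hGc (μ : ℂ)
    have h3 : FF n μ (((ε0 / 2) ^ 2 : ℝ) : ℂ) = (c:ℂ) := h2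
    rw [FF_real] at h3
    exact_mod_cast h3
  have hMp : 0 < MM n (ε0 / 2) := H535R3.MM_pos n (by positivity)
  -- the constant is zero
  have hc0 : c = 0 := by
    obtain ⟨x, hx⟩ := (lock_axis (n := n) hMp hε).2 le_rfl
    have h2 := ff_even (even_axis n) hx
    rw [hff] at h2
    rcases Int.even_or_odd ((n:ℤ) + 1 + k) with hk | hk
    · rw [hc, hk.neg_one_zpow]; norm_num
    · rw [hc, hk.neg_one_zpow] at h2
      norm_num at h2
  -- identity above the Perron value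
  have hid : ∀ μ : ℝ, MM n (ε0 / 2) < μ → dp ((n:ℝ) + 1) (2 * μ) ε0 = Λ ∧ dq ((n:ℝ) + 1) (2 * μ) ε0 = Λ := by
    intro μ hμ
    have hμp : 0 < μ := hMp.trans hμ
    obtain ⟨x, hx⟩ := (lock_axis hμp hε).2 hμ.le
    have h2 := ff_lock hx
    rw [hff, hc0, (even_axis n).neg_one_zpow, one_mul] at h2
    have hK : Kx ((n:ℝ) + 1) (2 * μ) ε0 x = 0 := by
      set K := Kx ((n:ℝ) + 1) (2 * μ) ε0 x
      have h3 : Real.exp K * Real.exp (-K) = 1 := by
        rw [← Real.exp_add, add_neg_cancel, Real.exp_zero]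
      have h4 : (Real.exp K - 1) ^ 2 = 0 := by
        have h5 : Real.exp (-K) = 2 - Real.exp K := by linarith
        rw [h5] at h3
        nlinarith
      have h6 : Real.exp K = 1 := by
        have := pow_eq_zero_iff (n := 2) (by norm_num) |>.1 h4
        linarith
      exact Real.exp_eq_one_iff K |>.1 h6
    have hpf := para_free hμp hε hμ
    have hor : dp ((n:ℝ) + 1) (2 * μ) ε0 = Λ ∨ dq ((n:ℝ) + 1) (2 * μ) ε0 = Λ := by
      by_cases hs : Real.sin (((Real.pi - x) - x) / 2) = 0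
      · rcases H535R3.sym_of_cos hx hs with h7 | h7
        · left; rw [dp, h7]; ring
        · right; rw [dq, h7]; ring
      · rcases H535R3.dich hx (H535R3.P_reflect hx) hs with h7 | h7
        · left; rw [dp, h7.1]; ring
        · exact absurd hK h7.1
    rcases hor with h7 | h7
    · exact ⟨h7, hpf.1 h7⟩
    · exact ⟨hpf.2 h7, h7⟩
  have hμ1 : MM n (ε0 / 2) < MM n (ε0 / 2) + 1 := by linarith
  obtain ⟨g1, g2⟩ := hid _ hμ1
  obtain ⟨τ, hτ, hup, -⟩ := ident_cross (n := n) (by linarith) hε (both_eq g1 g2)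
  have hsmall : ∀ᶠ s in 𝓝[>] (0:ℝ), s < 1 := mem_nhdsWithin_of_mem_nhds (Iio_mem_nhds one_pos)
  obtain ⟨s, ⟨hs1, hs2⟩, hs0⟩ := ((hup.and hsmall).and
    (self_mem_nhdsWithin : ∀ᶠ s in 𝓝[>] (0:ℝ), 0 < s)).exists
  have h8 : -1 < τ * s := by
    have : |τ * s| < 1 := by rw [abs_mul, hτ, one_mul, abs_of_pos hs0]; exact hs2
    exact (abs_lt.1 this).1
  have h9 := (hid (MM n (ε0 / 2) + 1 + τ * s / 2) (by linarith)).1
  rw [show 2 * (MM n (ε0 / 2) + 1 + τ * s / 2) = 2 * (MM n (ε0 / 2) + 1) + τ * s by ring] at h9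
  rw [h9] at hs1
  exact lt_irrefl _ hs1

end Pool.Agent.H249
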