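import Pool.Agent.H249.RT

set_option autoImplicit false
open Complex Set Filter Topology ComplexConjugate
open H535R3 (Sol fl P Cc Kx ZSol ZZ zv)

namespace Pool.Agent.H249

/-- Equality of the numbers of two fixed points. -/
lemma num_unique {b a ε x y : ℝ} {k k' : ℤ} (hx : P b a ε x = x + 2 * Real.pi * k)
    (hy : P b a ε y = y + 2 * Real.pi * k') : k = k' := by
  -- reduce `y` to `[x, x + 2π)`
  obtain ⟨m, h1, h2⟩ := H535R3.exists_shift x y
  set y' := y + 2 * Real.pi * m with hy'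
  have hy2 : P b a ε y' = y' + 2 * Real.pi * k' := by
    rw [hy', H535R3.P_add, hy]; ring
  have h3 : P b a ε x ≤ P b a ε y' := (H535R3.P_mono b a ε).monotone h1
  have h4 : P b a ε y' < P b a ε (x + 2 * Real.pi * (1:ℤ)) :=
    (H535R3.P_mono b a ε) (by push_cast; linarith)
  rw [H535R3.P_add b a ε x 1, hx, hy2] at h4
  rw [hx, hy2] at h3
  have hpi := Real.pi_pos
  have h5 : (k:ℝ) < k' + 1 := by
    by_contra h
    push Not at h
    nlinarith
  have h6 : (k':ℝ) < k + 1 := by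
    by_contra h
    push Not at h
    push_cast at h4
    nlinarith
  have h7 : k < k' + 1 := by exact_mod_cast h5
  have h8 : k' < k + 1 := by exact_mod_cast h6
  omega

lemma hone {l : ℤ} {μ e x0 : ℝ} {k : ℤ}
    (hx : P l (2 * μ) (2 * e) x0 = x0 + 2 * Real.pi * k) (hK : Kx l (2 * μ) (2 * e) x0 = 0)
    (hpar : (-1 : ℝ) ^ (l + k) = 1)
    (hne : ¬ ∀ x, P l (2 * μ) (2 * e) x = x + 2 * Real.pi * k) (Y : ℝ → ℂ × ℂ)
    (hY : RSol l μ ((e ^ 2 : ℝ) : ℂ) Y) (hYp : Y (2 * Real.pi) = Y 0) :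
    ∃ c : ℂ, ∀ t, Y t = c • XZ l μ e (ZZ (2 * e) (fl l (2 * μ) (2 * e) x0)) t := by
  set X := XZ l μ e (ZZ (2 * e) (fl l (2 * μ) (2 * e) x0)) with hXd
  have hX : RSol l μ ((e ^ 2 : ℝ) : ℂ) X := XZ_sol (H535R3.ZZ_sol (H535R3.fl_sol _ _ _ _))
  have hz0 := H535R3.ZZ_ne (2 * e) (fl l (2 * μ) (2 * e) x0) 0
  have hX0 : (X 0).1 ≠ 0 := by rw [hXd, XZ_zero]; exact hz0
  have hXp : X (2 * Real.pi) = X 0 := by
    have hzp : ((-1:ℝ)) ^ (l + k) = (-1) ^ l * (-1) ^ k := zpow_add₀ (by norm_num) _ _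
    have h1 := ZZ_two_pi hx
    rw [hK, Real.exp_zero, mul_one] at h1
    rw [hXd, XZ_two_pi, XZ_zero, h1, map_mul, conj_ofReal]
    have h2 : ((((-1:ℝ)) ^ l : ℝ) : ℂ) * (((-1:ℝ) ^ k : ℝ) : ℂ) = 1 := by
      rw [← ofReal_mul, ← hzp, hpar, ofReal_one]
    congr 1
    · rw [← mul_assoc, h2, one_mul]
    · rw [← mul_assoc (((-1:ℝ) ^ l : ℝ) : ℂ), h2, one_mul]
  by_cases hW : (X 0).1 * (Y 0).2 - (Y 0).1 * (X 0).2 = 0
  · refine ⟨(Y 0).1 / (X 0).1, fun t => ?_⟩
    have h1 := hX.lin hX ((Y 0).1 / (X 0).1) 0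
    have h2 := hY.unique h1 (t0 := 0) (by
      apply Prod.ext
      · simp only [zero_mul, add_zero]; field_simp
      · simp only [zero_mul, add_zero]
        field_simp
        linear_combination hW)
    have h3 := congrFun h2 t
    rw [h3]
    simp only [zero_mul, add_zero]
    rfl
  · exfalso
    apply hne
    -- all solutions are periodic
    have hall : ∀ V : ℝ → ℂ × ℂ, RSol l μ ((e ^ 2 : ℝ) : ℂ) V → V (2 * Real.pi) = V 0 := by
      intro V hV
      set W := (X 0).1 * (Y 0).2 - (Y 0).1 * (X 0).2 with hWd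
      have h1 := hX.lin hY (((V 0).1 * (Y 0).2 - (V 0).2 * (Y 0).1) / W)
        (((X 0).1 * (V 0).2 - (X 0).2 * (V 0).1) / W)
      have h2 := hV.unique h1 (t0 := 0) (by
        apply Prod.ext
        · simp only; field_simp; rw [hWd]; ring
        · simp only; field_simp; rw [hWd]; ring)
      rw [h2]
      simp only [hXp, hYp]
    have hx2 : ∃ k' : ℤ, P l (2 * μ) (2 * e) (x0 + Real.pi) = x0 + Real.pi + 2 * Real.pi * k' := by
      have hs := H535R3.fl_sol l (2 * μ) (2 * e) (x0 + Real.pi)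
      have h1 := hall _ (XZ_sol (H535R3.ZZ_sol hs))
      rw [XZ_two_pi, XZ_zero, Prod.ext_iff] at h1
      have h2 := h1.1
      simp only at h2
      obtain ⟨k', hk'⟩ := fixed_of_im hs (by
        rw [← h2, map_mul, conj_ofReal]
        rw [show ((((-1:ℝ)) ^ l : ℝ) : ℂ) * conj (ZZ (2 * e) (fl l (2 * μ) (2 * e) (x0 + Real.pi)) (2 * Real.pi)) *
          ZZ (2 * e) (fl l (2 * μ) (2 * e) (x0 + Real.pi)) (2 * Real.pi) =
          (((-1:ℝ) ^ l * normSq (ZZ (2 * e) (fl l (2 * μ) (2 * e) (x0 + Real.pi)) (2 * Real.pi)) : ℝ) : ℂ) by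
            push_cast
            rw [← mul_conj]; ring]
        exact ofReal_im _)
      rw [H535R3.fl_zero] at hk'
      exact ⟨k', hk'⟩
    obtain ⟨k', hk'⟩ := hx2
    have hkk := num_unique hx hk'
    subst hkk
    rcases H535R3.dich hx hk' (by
      rw [show (x0 + Real.pi - x0) / 2 = Real.pi / 2 by ring, Real.sin_pi_div_two]
      exact one_ne_zero) with h | h
    · exact h.1
    · exact absurd hK h.1

/-- Positivity of the weighted mean of the sine. -/
theorem S_pos {l : ℤ} (hl : 1 ≤ l) {μ e x0 : ℝ} {k : ℤ} (he : 0 < e)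
    (hx : P l (2 * μ) (2 * e) x0 = x0 + 2 * Real.pi * k) (hK : Kx l (2 * μ) (2 * e) x0 = 0)
    (hpar : (-1 : ℝ) ^ (l + k) = 1)
    (hne : ¬ ∀ x, P l (2 * μ) (2 * e) x = x + 2 * Real.pi * k) :
    0 < ∫ t in (0:ℝ)..(2 * Real.pi), Real.exp (2 * e * Cc (fl l (2 * μ) (2 * e) x0) t) *
      Real.sin (fl l (2 * μ) (2 * e) x0 t) := by
  set φ := fl l (2 * μ) (2 * e) x0 with hφ
  have hφs : Sol l (2 * μ) (2 * e) φ := H535R3.fl_sol _ _ _ _
  have hφc := hφs.cont
  have hCc : Continuous (Cc φ) :=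
    continuous_iff_continuousAt.2 fun t => (H535R3.Cc_deriv hφc t).continuousAt
  set X := XZ l μ e (ZZ (2 * e) φ) with hXd
  have hX : RSol l μ ((e ^ 2 : ℝ) : ℂ) X := XZ_sol (H535R3.ZZ_sol hφs)
  have hz0 := H535R3.ZZ_ne (2 * e) φ 0
  have hX0 : X 0 ≠ 0 := by
    rw [hXd, XZ_zero]
    intro h
    rw [Prod.ext_iff] at h
    exact hz0 h.1
  have hXp : X (2 * Real.pi) = X 0 := by
    have hzp : ((-1:ℝ)) ^ (l + k) = (-1) ^ l * (-1) ^ k := zpow_add₀ (by norm_num) _ _
    have h1 := ZZ_two_pi hx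
    rw [hK, Real.exp_zero, mul_one, ← hφ] at h1
    rw [hXd, XZ_two_pi, XZ_zero, h1, map_mul, conj_ofReal]
    have h2 : ((((-1:ℝ)) ^ l : ℝ) : ℂ) * (((-1:ℝ) ^ k : ℝ) : ℂ) = 1 := by
      rw [← ofReal_mul, ← hzp, hpar, ofReal_one]
    congr 1
    · rw [← mul_assoc, h2, one_mul]
    · rw [← mul_assoc (((-1:ℝ) ^ l : ℝ) : ℂ), h2, one_mul]
  have hξ : ((e ^ 2 : ℝ) : ℂ) ≠ 0 := by exact_mod_cast (pow_pos he 2).ne'
  obtain ⟨q, hq, hint⟩ := pairing_neg hl hξ hX hXp hX0 (hone hx hK hpar hne)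
  -- the integrand
  have hF : ∀ t, conj (X t).1 * (X t).2 =
      ((-(e * (Real.exp (2 * e * Cc φ t) * Real.sin (φ t))) : ℝ) : ℂ) +
        ((-(e * (Real.exp (2 * e * Cc φ t) * Real.cos (φ t))) : ℝ) : ℂ) * I := by
    intro t
    have hu : conj (UB l μ t) * UB l μ t = 1 := by
      rw [mul_comm, mul_conj, normSq_eq_norm_sq, UB_norm]; simp
    have hz : conj (ZZ (2 * e) φ t) * conj (ZZ (2 * e) φ t) =
        (Real.exp (2 * e * Cc φ t) : ℝ) * (((Real.sin (φ t) : ℝ) : ℂ) + ((Real.cos (φ t) : ℝ) : ℂ) * I) := by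
      rw [← map_mul, ZZ, ← exp_add]
      rw [show ((2 * e / 2 * Cc φ t : ℝ) : ℂ) + I * (((φ t - Real.pi / 2) / 2 : ℝ) : ℂ) +
        (((2 * e / 2 * Cc φ t : ℝ) : ℂ) + I * (((φ t - Real.pi / 2) / 2 : ℝ) : ℂ)) =
        ((2 * e * Cc φ t : ℝ) : ℂ) + ((φ t - Real.pi / 2 : ℝ) : ℂ) * I by push_cast; ring]
      rw [exp_add, ← ofReal_exp, exp_mul_I, ← ofReal_cos, ← ofReal_sin, Real.cos_sub_pi_div_two,
        Real.sin_sub_pi_div_two]
      simp only [map_mul, map_add, conj_ofReal, conj_I]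
      push_cast
      ring
    simp only [hXd, XZ, map_mul]
    push_cast
    have e1 : conj (UB l μ t) * conj (ZZ (2 * e) φ t) * -(e * (UB l μ t * conj (ZZ (2 * e) φ t))) =
        -(e:ℂ) * (conj (UB l μ t) * UB l μ t) * (conj (ZZ (2 * e) φ t) * conj (ZZ (2 * e) φ t)) := by
      ring
    rw [e1, hu, hz]
    push_cast
    ring
  -- shift the interval
  have hper : Function.Periodic (fun t => conj (X t).1 * (X t).2) (2 * Real.pi) := fun t => by
    simp only [hX.per hXp t]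
  have hsh := hper.intervalIntegral_add_eq (-Real.pi) 0
  rw [show -Real.pi + 2 * Real.pi = Real.pi by ring, zero_add, hint] at hsh
  have hXc := hX.cont
  have hre : ∫ t in (0:ℝ)..(2 * Real.pi), (-(e * (Real.exp (2 * e * Cc φ t) * Real.sin (φ t)))) = q := by
    have h1 := congrArg Complex.re hsh
    rw [ofReal_re] at h1
    rw [h1]
    have h2 := (Complex.reCLM.intervalIntegral_comp_comm (μ := MeasureTheory.volume)
      (f := fun t => conj (X t).1 * (X t).2) (a := 0) (b := 2 * Real.pi)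
      (Continuous.intervalIntegrable (by fun_prop) _ _))
    simp only [reCLM_apply] at h2
    rw [← h2]
    congr 1
    funext t
    rw [hF t, add_re, ofReal_re, re_ofReal_mul, I_re, mul_zero, add_zero]
  rw [intervalIntegral.integral_neg, intervalIntegral.integral_const_mul] at hre
  set S := ∫ t in (0:ℝ)..(2 * Real.pi), Real.exp (2 * e * Cc φ t) * Real.sin (φ t) with hS
  by_contra hcon
  push Not at hcon
  nlinarith

lemma fl_close (b a ε0 x0 : ℝ) : ∃ L, 0 ≤ L ∧ ∀ ε, ∀ t ∈ Icc (0:ℝ) (2 * Real.pi),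
    |fl b a ε x0 t - fl b a ε0 x0 t| ≤ L * |ε - ε0| := by
  refine ⟨1 / (|ε0| + 1) * (Real.exp ((|ε0| + 1) * (2 * Real.pi)) - 1), ?_, fun ε t ht => ?_⟩
  · have : 1 ≤ Real.exp ((|ε0| + 1) * (2 * Real.pi)) := Real.one_le_exp (by positivity)
    have : 0 ≤ Real.exp ((|ε0| + 1) * (2 * Real.pi)) - 1 := by linarith
    positivity
  · have h := H535R3.fl_dist b a ε0 x0 b a ε x0 t ht
    have hK : ((H535R3.KK ε0 : NNReal) : ℝ) = |ε0| + 1 := rfl
    have hKp : (0:ℝ) < |ε0| + 1 := by positivity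
    rw [gronwallBound_of_K_ne_0 (by rw [hK]; exact hKp.ne'), hK, dist_self] at h
    simp only [sub_self, abs_zero, zero_add, zero_mul, sub_zero] at h
    rw [dist_comm, Real.dist_eq] at h
    refine h.trans ?_
    have h1 : Real.exp ((|ε0| + 1) * t) ≤ Real.exp ((|ε0| + 1) * (2 * Real.pi)) :=
      Real.exp_le_exp.2 (mul_le_mul_of_nonneg_left ht.2 hKp.le)
    calc |ε - ε0| / (|ε0| + 1) * (Real.exp ((|ε0| + 1) * t) - 1)
        ≤ |ε - ε0| / (|ε0| + 1) * (Real.exp ((|ε0| + 1) * (2 * Real.pi)) - 1) := by gcongr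
      _ = _ := by ring

/-- Crossing in the parameter. -/
theorem crossing {b a ε0 x0 : ℝ} {k : ℤ} (hx : P b a ε0 x0 = x0 + 2 * Real.pi * k)
    (hS : 0 < ∫ t in (0:ℝ)..(2 * Real.pi), Real.exp (ε0 * Cc (fl b a ε0 x0) t) *
      Real.sin (fl b a ε0 x0 t)) :
    ∀ᶠ ε in 𝓝 ε0, (ε < ε0 → x0 + 2 * Real.pi * k < P b a ε x0) ∧
      (ε0 < ε → P b a ε x0 < x0 + 2 * Real.pi * k) := by
  obtain ⟨L, hL0, hL⟩ := fl_close b a ε0 x0
  have hpi := Real.pi_pos
  set φ0 := fl b a ε0 x0 with hφ0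
  have s0 : Sol b a ε0 φ0 := H535R3.fl_sol _ _ _ _
  have c0 := s0.cont
  have hsol : ∀ ε, Sol b a ε (fl b a ε x0) := fun ε => H535R3.fl_sol _ _ _ _
  have hc : ∀ ε, Continuous (fl b a ε x0) := fun ε => (hsol ε).cont
  have hCcont : ∀ {φ : ℝ → ℝ}, Continuous φ → Continuous (Cc φ) := fun h =>
    continuous_iff_continuousAt.2 fun t => (H535R3.Cc_deriv h t).continuousAt
  -- continuity of the solution and of its integral
  have l1 : ∀ t ∈ Icc (0:ℝ) (2 * Real.pi), Tendsto (fun ε => fl b a ε x0 t) (𝓝 ε0) (𝓝 (φ0 t)) := by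
    intro t ht
    rw [tendsto_iff_dist_tendsto_zero]
    refine squeeze_zero (fun _ => dist_nonneg) (fun ε => ?_) (g := fun ε => L * |ε - ε0|) ?_
    · rw [Real.dist_eq]; exact hL ε t ht
    · have : Continuous fun ε : ℝ => L * |ε - ε0| := by fun_prop
      simpa using this.tendsto ε0
  have l2 : ∀ t ∈ Icc (0:ℝ) (2 * Real.pi), Tendsto (fun ε => Cc (fl b a ε x0) t) (𝓝 ε0) (𝓝 (Cc φ0 t)) := by
    intro t ht
    rw [tendsto_iff_dist_tendsto_zero]
    refine squeeze_zero (fun _ => dist_nonneg) (fun ε => ?_) (g := fun ε => L * |ε - ε0| * (2 * Real.pi)) ?_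
    · have h1 := hc ε
      rw [Real.dist_eq, Cc, Cc, ← intervalIntegral.integral_sub
        (Continuous.intervalIntegrable (by fun_prop) _ _) (Continuous.intervalIntegrable (by fun_prop) _ _)]
      have h2 : ‖∫ s in (0:ℝ)..t, (Real.cos (fl b a ε x0 s) - Real.cos (φ0 s))‖ ≤ L * |ε - ε0| * |t - 0| := by
        refine intervalIntegral.norm_integral_le_of_norm_le_const fun s hs => ?_
        rw [uIoc_of_le ht.1] at hs
        rw [Real.norm_eq_abs]
        exact (Real.abs_cos_sub_cos_le _ _).trans (hL ε s ⟨hs.1.le, hs.2.trans ht.2⟩)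
      rw [Real.norm_eq_abs, sub_zero, abs_of_nonneg ht.1] at h2
      refine h2.trans ?_
      have := abs_nonneg (ε - ε0)
      gcongr
      exact ht.2
    · have : Continuous fun ε : ℝ => L * |ε - ε0| * (2 * Real.pi) := by fun_prop
      simpa using this.tendsto ε0
  set J : ℝ → ℝ := fun ε => ∫ t in (0:ℝ)..(2 * Real.pi),
    Real.exp (ε / 2 * (Cc (fl b a ε x0) t + Cc φ0 t)) *
      (Real.cos ((fl b a ε x0 t - φ0 t) / 2) * Real.sin (φ0 t)) with hJ
  have hJlim : Tendsto J (𝓝 ε0) (𝓝 (∫ t in (0:ℝ)..(2 * Real.pi), Real.exp (ε0 * Cc φ0 t) *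
      Real.sin (φ0 t))) := by
    refine intervalIntegral.tendsto_integral_filter_of_dominated_convergence
      (fun _ => Real.exp ((|ε0| + 1) / 2 * (2 * Real.pi + 2 * Real.pi))) ?_ ?_ ?_ ?_
    · refine Eventually.of_forall fun ε => ?_
      have h1 := hc ε
      have h2 := hCcont (hc ε)
      have h3 := hCcont c0
      exact (by fun_prop : Continuous fun t => Real.exp (ε / 2 * (Cc (fl b a ε x0) t + Cc φ0 t)) *
        (Real.cos ((fl b a ε x0 t - φ0 t) / 2) * Real.sin (φ0 t))).aestronglyMeasurable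
    · filter_upwards [Metric.ball_mem_nhds ε0 one_pos] with ε hε
      refine Eventually.of_forall fun t ht => ?_
      rw [uIoc_of_le (by positivity)] at ht
      rw [Metric.mem_ball, Real.dist_eq] at hε
      have hε2 : |ε| ≤ |ε0| + 1 := by
        have := abs_add_le (ε - ε0) ε0
        rw [sub_add_cancel] at this
        linarith
      have hCb : ∀ {φ : ℝ → ℝ}, |Cc φ t| ≤ 2 * Real.pi := by
        intro φ
        have h2 : ‖∫ s in (0:ℝ)..t, Real.cos (φ s)‖ ≤ 1 * |t - 0| :=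
          intervalIntegral.norm_integral_le_of_norm_le_const fun s hs => by
            rw [Real.norm_eq_abs]; exact Real.abs_cos_le_one _
        rw [Real.norm_eq_abs, sub_zero, one_mul, abs_of_pos ht.1] at h2
        exact h2.trans ht.2
      rw [Real.norm_eq_abs, abs_mul, abs_mul, abs_of_pos (Real.exp_pos _)]
      have h3 := Real.abs_cos_le_one ((fl b a ε x0 t - φ0 t) / 2)
      have h4 := Real.abs_sin_le_one (φ0 t)
      have h5 : Real.exp (ε / 2 * (Cc (fl b a ε x0) t + Cc φ0 t)) ≤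
          Real.exp ((|ε0| + 1) / 2 * (2 * Real.pi + 2 * Real.pi)) := by
        refine Real.exp_le_exp.2 ((le_abs_self _).trans ?_)
        rw [abs_mul, abs_div, abs_two]
        have h6 := (abs_add_le (Cc (fl b a ε x0) t) (Cc φ0 t)).trans (add_le_add hCb hCb)
        gcongr
      calc _ ≤ Real.exp ((|ε0| + 1) / 2 * (2 * Real.pi + 2 * Real.pi)) * (1 * 1) := by gcongr
        _ = _ := by ring
    · exact intervalIntegrable_const
    · refine Eventually.of_forall fun t ht => ?_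
      rw [uIoc_of_le (by positivity)] at ht
      have ht' : t ∈ Icc (0:ℝ) (2 * Real.pi) := ⟨ht.1.le, ht.2⟩
      have h1 := l1 t ht'
      have h2 := l2 t ht'
      have h3 : Tendsto (fun ε : ℝ => ε / 2 * (Cc (fl b a ε x0) t + Cc φ0 t)) (𝓝 ε0)
          (𝓝 (ε0 / 2 * (Cc φ0 t + Cc φ0 t))) :=
        (tendsto_id.div_const 2).mul (h2.add_const _)
      have h4 : Tendsto (fun ε : ℝ => Real.cos ((fl b a ε x0 t - φ0 t) / 2)) (𝓝 ε0)
          (𝓝 (Real.cos ((φ0 t - φ0 t) / 2))) :=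
        (Real.continuous_cos.tendsto _).comp ((h1.sub_const _).div_const 2)
      have h5 := ((Real.continuous_exp.tendsto _).comp h3).mul (h4.mul_const (Real.sin (φ0 t)))
      rw [sub_self, zero_div, Real.cos_zero, one_mul,
        show ε0 / 2 * (Cc φ0 t + Cc φ0 t) = ε0 * Cc φ0 t by ring] at h5
      exact h5
  have hev1 : ∀ᶠ ε in 𝓝 ε0, 0 < J ε := hJlim.eventually (lt_mem_nhds hS)
  have hev2 : ∀ᶠ ε in 𝓝 ε0, L * |ε - ε0| < Real.pi := by
    have : Continuous fun ε : ℝ => L * |ε - ε0| := by fun_prop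
    have h1 := this.tendsto ε0
    simp only [sub_self, abs_zero, mul_zero] at h1
    exact h1.eventually (gt_mem_nhds hpi)
  filter_upwards [hev1, hev2] with ε hJp hsm
  -- the identity
  have hd : ∀ t, HasDerivAt (fun t => Real.exp (ε / 2 * (Cc (fl b a ε x0) t + Cc φ0 t)) *
      Real.sin ((fl b a ε x0 t - φ0 t) / 2))
      ((ε0 - ε) / 2 * (Real.exp (ε / 2 * (Cc (fl b a ε x0) t + Cc φ0 t)) *
        (Real.cos ((fl b a ε x0 t - φ0 t) / 2) * Real.sin (φ0 t)))) t := by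
    intro t
    have h1 := (((H535R3.Cc_deriv (hc ε) t).add (H535R3.Cc_deriv c0 t)).const_mul (ε / 2)).exp
    have h2 := ((((hsol ε) t).sub (s0 t)).div_const 2).sin
    refine (h1.mul h2).congr_deriv ?_
    simp only [Pi.add_apply, Pi.sub_apply]
    set u := fl b a ε x0 t
    set v := φ0 t
    have t1 : Real.cos u + Real.cos v = 2 * Real.cos ((u + v) / 2) * Real.cos ((u - v) / 2) :=
      Real.cos_add_cos u v
    have t2 : Real.sin u - Real.sin v = 2 * Real.sin ((u - v) / 2) * Real.cos ((u + v) / 2) :=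
      Real.sin_sub_sin u v
    rw [t1]
    have t3 : Real.sin u = Real.sin v + 2 * Real.sin ((u - v) / 2) * Real.cos ((u + v) / 2) := by
      linarith
    rw [t3]
    ring
  have h1 := hc ε
  have h2 := hCcont (hc ε)
  have h3 := hCcont c0
  have hint := intervalIntegral.integral_eq_sub_of_hasDerivAt (a := 0) (b := 2 * Real.pi)
    (fun t _ => hd t) (Continuous.intervalIntegrable (by fun_prop) _ _)
  rw [intervalIntegral.integral_const_mul] at hint
  have e0 : fl b a ε x0 0 - φ0 0 = 0 := by rw [hφ0, H535R3.fl_zero, H535R3.fl_zero, sub_self]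
  rw [e0, zero_div, Real.sin_zero, mul_zero, sub_zero] at hint
  have hP0 : φ0 (2 * Real.pi) = x0 + 2 * Real.pi * k := hx
  have hPε : fl b a ε x0 (2 * Real.pi) = P b a ε x0 := rfl
  rw [hP0, hPε] at hint
  have hb := hL ε (2 * Real.pi) ⟨by positivity, le_rfl⟩
  rw [hP0, hPε] at hb
  have hb2 := abs_lt.1 (hb.trans_lt hsm)
  set D := P b a ε x0 - (x0 + 2 * Real.pi * k) with hD
  have hE : 0 < Real.exp (ε / 2 * (Cc (fl b a ε x0) (2 * Real.pi) + Cc φ0 (2 * Real.pi))) :=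
    Real.exp_pos _
  have hint2 : (ε0 - ε) / 2 * J ε =
      Real.exp (ε / 2 * (Cc (fl b a ε x0) (2 * Real.pi) + Cc φ0 (2 * Real.pi))) * Real.sin (D / 2) := hint
  constructor
  · intro hlt
    by_contra hcon
    push Not at hcon
    have h4 : D / 2 ≤ 0 := by rw [hD]; linarith
    have h5 : Real.sin (D / 2) ≤ 0 := Real.sin_nonpos_of_nonpos_of_neg_pi_le h4 (by linarith)
    have h6 : 0 < (ε0 - ε) / 2 * J ε := mul_pos (by linarith) hJp
    have h7 := mul_nonpos_of_nonneg_of_nonpos hE.le h5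
    linarith
  · intro hlt
    by_contra hcon
    push Not at hcon
    have h4 : 0 ≤ D / 2 := by rw [hD]; linarith
    have h5 : 0 ≤ Real.sin (D / 2) := Real.sin_nonneg_of_nonneg_of_le_pi h4 (by linarith)
    have h6 : (ε0 - ε) / 2 * J ε < 0 := mul_neg_of_neg_of_pos (by linarith) hJp
    have h7 := mul_nonneg hE.le h5
    linarith

end Pool.Agent.H249
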