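import Pool.Agent.H683.CV.Lem

/-!
# CV S_VAL: removing one element changes val by at most one (helper249, for helper683)
-/

set_option autoImplicit false

open Pool.Agent.H683.CV

namespace Pool.Agent.H249.CV

/-- counting a disjunction -/
theorem countP_le_add {α : Type} (P Q R : α → Bool) (l : List α)
    (h : ∀ x ∈ l, P x = true → Q x = true ∨ R x = true) :
    l.countP P ≤ l.countP Q + l.countP R := by
  induction l with
  | nil => simp
  | cons a l ih =>
    have h1 := ih fun x hx => h x (List.mem_cons_of_mem a hx)
    rw [List.countP_cons, List.countP_cons, List.countP_cons]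
    by_cases hP : P a = true
    · rw [if_pos hP]
      rcases h a List.mem_cons_self hP with hQ | hR
      · rw [if_pos hQ]
        omega
      · rw [if_pos hR]
        omega
    · rw [if_neg hP]
      omega

/-- shift by one -/
theorem countP_shift (n : ℕ) (P P' : ℕ → Bool) (h : ∀ m, P (m + 1) = true → P' m = true) :
    (List.range n).countP P ≤ (List.range n).countP P' + 1 := by
  cases n with
  | zero => simp
  | succ n =>
    have h1 : (List.range (n + 1)).countP P ≤ (List.range n).countP P' + 1 := by
      rw [List.range_succ_eq_map, List.countP_cons, List.countP_map]
      have h2 : (List.range n).countP (P ∘ Nat.succ) ≤ (List.range n).countP P' :=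
        List.countP_mono_left fun m _ hm => h m hm
      have h3 : (if P 0 = true then 1 else 0) ≤ 1 := by
        by_cases h0 : P 0 = true
        · rw [if_pos h0]
        · rw [if_neg h0]; exact Nat.zero_le _
      omega
    have h4 : (List.range n).countP P' ≤ (List.range (n + 1)).countP P' :=
      List.Sublist.countP_le (List.range_sublist.2 (Nat.le_succ n))
    omega

/-- **(S_VAL)** -/
theorem VAL : S_VAL := by
  intro M S Z p w r A A' j hA
  unfold val
  rw [← List.countP_eq_length_filter, ← List.countP_eq_length_filter]
  refine countP_shift _ _ _ fun m hm => ?_
  rw [List.any_eq_true] at hm ⊢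
  obtain ⟨J, hJ, hm⟩ := hm
  rw [Bool.and_eq_true, decide_eq_true_iff] at hm
  refine ⟨J, hJ, ?_⟩
  rw [Bool.and_eq_true, decide_eq_true_iff]
  constructor
  · have h1 := hm.1
    unfold sub at h1 ⊢
    rw [List.all_eq_true] at h1 ⊢
    intro i hi
    have h2 := h1 i hi
    rw [hA i (List.mem_range.1 hi)]
    cases hb : bt A i with
    | false => rfl
    | true =>
      rw [hb] at h2
      have h3 : bt J i = true := h2
      rw [h3, Bool.or_true]
  · have h1 : dif p A' J ≤ dif p A J + 1 := by
      unfold dif
      rw [← List.countP_eq_length_filter, ← List.countP_eq_length_filter]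
      have h2 : (List.range p).countP (fun i => decide (i = j)) ≤ 1 := by
        have h3 := List.nodup_iff_count_le_one.1 (List.nodup_range (n := p)) j
        have h4 : (List.range p).count j = (List.range p).countP (fun i => decide (i = j)) := by
          rw [List.count_eq_countP]
          exact List.countP_congr fun i _ => by simp
        rw [← h4]
        exact h3
      refine (countP_le_add _ (fun i => bt J i && !bt A i) (fun i => decide (i = j)) _
        fun i hi hP => ?_).trans (Nat.add_le_add_left h2 _)
      rw [hA i (List.mem_range.1 hi), Bool.and_eq_true] at hP
      by_cases hij : i = j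
      · exact Or.inr (decide_eq_true hij)
      · refine Or.inl ?_
        have h5 : decide (i = j) = false := decide_eq_false hij
        rw [h5, Bool.not_false, Bool.and_true] at hP
        rw [Bool.and_eq_true]
        exact hP
    have h2 := hm.2
    omega

end Pool.Agent.H249.CV
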