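import Pool.Agent.H857.EF.Core

/-!
# Abelian fourfolds with exotic Tate classes: S14, S15, S16 (for helper857)
-/

set_option autoImplicit false

namespace Pool.Agent.H249.EF

open Module Polynomial Pool.Agent.W521.Descent Pool.Agent.W521.Density Pool.Agent.W521.Count
  Pool.Agent.X297.UB Pool.Agent.H857.PB Pool.Agent.H857.PA Pool.Agent.H857.HK Pool.Agent.H857.EF

theorem matched_map {P P' : ℂ → ℂ → Prop} {g : ℂ → ℂ} {S : ℂ → Prop}
    (hP : ∀ a b, S a → S b → P a b → P' (g a) (g b)) {L : List ℂ} (h : Matched P L) :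
    (∀ z ∈ L, S z) → Matched P' (L.map g) := by
  induction h with
  | nil =>
    intro _
    exact Matched.nil
  | @cons a b L L' hab _ hperm ih =>
    intro hS
    have hmem : ∀ z ∈ a :: b :: L, S z := fun z hz => hS z (hperm.mem_iff.2 hz)
    refine Matched.cons (hP a b (hmem a (by simp)) (hmem b (by simp)) hab)
      (ih fun z hz => hmem z (by simp [hz])) ?_
    exact hperm.map g

theorem exists_lift {S : ℂ → Prop} {g : ℂ → ℂ} (M : List ℂ)
    (hM : ∀ w ∈ M, ∃ z, S z ∧ w = g z) : ∃ L : List ℂ, (∀ z ∈ L, S z) ∧ M = L.map g := by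
  induction M with
  | nil => exact ⟨[], by simp, rfl⟩
  | cons w M ih =>
    obtain ⟨L, hL, hLM⟩ := ih fun v hv => hM v (by simp [hv])
    obtain ⟨z, hz, hzw⟩ := hM w (by simp)
    refine ⟨z :: L, ?_, ?_⟩
    · intro v hv
      rcases List.mem_cons.1 hv with rfl | hv
      · exact hz
      · exact hL v hv
    · rw [List.map_cons, ← hLM, hzw]

/-- The common argument: relations between the powers of the roots come from pairs. -/
theorem matched_pow (h11 : S11) {q m : ℕ} (hq : 1 < q) (hm : KillsPairs m) {f : ℤ[X]}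
    (hf : f ∈ weilPolys q 4) (hex : ¬ ExL q f) {k : ℕ} (hk : 0 < k) (M : List ℂ)
    (hM : ∀ w ∈ M, ∃ z, aeval z f = 0 ∧ w = z ^ (m * k)) (n : ℤ) {N : ℕ} (hN : 0 < N)
    (hprod : M.prod ^ N = (((q : ℂ) ^ (m * k)) ^ n) ^ N) :
    Matched (fun y z => y * z = (q : ℂ) ^ (m * k)) M := by
  obtain ⟨L, hL, rfl⟩ := exists_lift (g := fun z => z ^ (m * k)) M hM
  have hmk : 0 < m * k := Nat.mul_pos hm.1 hk
  have h1 : (L.map fun z => z ^ (m * k)).prod = L.prod ^ (m * k) := by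
    have h2 : ∀ K : List ℂ, (K.map fun z => z ^ (m * k)).prod = K.prod ^ (m * k) := by
      intro K
      induction K with
      | nil => simp
      | cons a K ih => rw [List.map_cons, List.prod_cons, List.prod_cons, ih, mul_pow]
    exact h2 L
  rw [h1] at hprod
  have h3 := h11 q f hq hf.2.2.2 hex L hL ⟨m * k * N, Nat.mul_pos hmk hN, n, by
    rw [pow_mul, hprod, ← zpow_natCast, ← zpow_natCast, ← zpow_mul, ← zpow_mul]
    congr 1
    push_cast
    ring⟩
  refine matched_map (S := fun z => aeval z f = 0) ?_ h3 hL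
  intro a b ha hb hab
  have h4 := hm.2 q (by omega) f hf a b ha hb hab
  show a ^ (m * k) * b ^ (m * k) = (q : ℂ) ^ (m * k)
  rw [← mul_pow, pow_mul, h4, pow_mul]

theorem span_pow {V : Type} [AddCommGroup V] [Module ℂ V] (F : V →ₗ[ℂ] V) (E : Set ℂ)
    (hF : Submodule.span ℂ {v : V | ∃ μ : ℂ, μ ∈ E ∧ F v = μ • v} = ⊤) (s : ℕ) :
    Submodule.span ℂ {v : V | ∃ μ : ℂ, μ ∈ {ν | ∃ μ ∈ E, ν = μ ^ s} ∧ (F ^ s) v = μ • v} = ⊤ := by
  rw [eq_top_iff, ← hF]
  refine Submodule.span_mono ?_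
  rintro v ⟨μ, hμ, hv⟩
  refine ⟨μ ^ s, ⟨μ, hμ, rfl⟩, ?_⟩
  induction s with
  | zero => simp
  | succ m ih => rw [pow_succ', Module.End.mul_apply, ih, map_smul, hv, smul_smul, pow_succ]

theorem divisorProducts_le {V : Type} [AddCommGroup V] [Module ℂ V] (Q : ℂ) (F : V →ₗ[ℂ] V)
    (n : ℕ) (x : ExteriorAlgebra ℂ V) (hx : x ∈ Pool.Agent.W521.Pole.divisorProducts Q F n) :
    x ∈ Algebra.adjoin ℂ
      {y : ExteriorAlgebra ℂ V | y ∈ ⋀[ℂ]^2 V ∧ ExteriorAlgebra.map F y = Q • y} := by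
  unfold Pool.Agent.W521.Pole.divisorProducts at hx
  induction n generalizing x with
  | zero =>
    rw [pow_zero] at hx
    obtain ⟨c, rfl⟩ := Submodule.mem_one.1 hx
    exact Subalgebra.algebraMap_mem _ c
  | succ n ih =>
    rw [pow_succ] at hx
    induction hx using Submodule.mul_induction_on' with
    | mem_mul_mem a ha b hb =>
      exact Subalgebra.mul_mem _ (ih a ha) (Algebra.span_le_adjoin ℂ _ hb)
    | add a _ b _ ha hb => exact Subalgebra.add_mem _ ha hb

/-- The roots of the power polynomial. -/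
theorem root_powerPoly {f g : ℤ[X]} {m : ℕ} (hg : IsPowerPoly f m g) {z : ℂ}
    (hz : aeval z g = 0) : ∃ w, aeval w f = 0 ∧ z = w ^ m := by
  have h1 : z ∈ (g.map (Int.castRingHom ℂ)).roots := by
    rw [mem_roots (hg.1.map _).ne_zero, IsRoot.def, eval_map, ← hz]
    rfl
  rw [hg.2, Multiset.mem_map] at h1
  obtain ⟨w, hw, rfl⟩ := h1
  refine ⟨w, ?_, rfl⟩
  have h2 := (mem_roots'.1 hw).2
  rw [IsRoot.def, eval_map] at h2
  exact h2

theorem s14 (h10 : S10) (h11 : S11) (h12 : S12) : S14 := by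
  intro q hq f hf hex
  by_contra hL
  obtain ⟨m, hm⟩ := h12
  obtain ⟨V, i1, i2, i3, F, hF, i, s, x, hs, hx, hFx, hno⟩ := hex
  refine hno m hm.1 ?_
  have hF' : Submodule.span ℂ {v : V | ∃ μ : ℂ, μ ∈ {z : ℂ | aeval z f = 0} ∧ F v = μ • v} = ⊤ :=
    hF
  refine h10 V (F ^ (s * m)) _ (span_pow F _ hF' (s * m)) ((q : ℂ) ^ (s * m)) i 1 ?_ x hx ?_
  · intro M hM _ hprod
    have h1 := matched_pow h11 hq hm hf hL hs M (by
      intro w hw
      obtain ⟨z, hz, h2⟩ := hM w hw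
      exact ⟨z, hz, by rw [h2, mul_comm]⟩) (i : ℤ) one_pos (by
        rw [hprod, zpow_natCast, mul_comm s m])
    rwa [mul_comm m s] at h1
  · have h1 := Pool.Agent.W521.Pole.map_pow_apply (F ^ s) m x _ hFx
    rw [← pow_mul] at h1
    rw [pow_one, h1, pow_one]
    congr 1
    rw [← pow_mul, ← pow_mul, ← pow_mul]
    congr 1
    ring

theorem s15 (h10 : S10) (h11 : S11) : S15 := by
  intro q m hq hm f hf hL g hg V _ _ _ F hF s hs n
  have hcast : ((((q ^ m : ℕ) : ℕ) : ℝ) : ℂ) = (((q ^ m : ℕ) : ℕ) : ℂ) := by push_cast; rfl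
  have hq1 : (1 : ℝ) < ((q ^ m : ℕ) : ℝ) := by
    have : 1 < q ^ m := Nat.one_lt_pow hm.1.ne' hq
    exact_mod_cast this
  have hspan : Submodule.span ℂ
      {v : V | ∃ μ : ℂ, μ ∈ {z : ℂ | aeval z g = 0} ∧ F v = μ • v} = ⊤ := by
    rw [← hF]
    congr 1
    ext v
    constructor
    · rintro ⟨μ, hi, h⟩
      exact ⟨(), μ, hi, h⟩
    · rintro ⟨_, μ, hi, h⟩
      exact ⟨μ, hi, h⟩
  have key := Pool.Agent.W521.Pole.zeta_order_ext ((q ^ m : ℕ) : ℝ) hq1 F {z : ℂ | aeval z g = 0} ?_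
    hspan s hs ?_ n
  · rw [hcast] at key
    exact key
  · intro μ hμ
    obtain ⟨w, hw, rfl⟩ := root_powerPoly hg hμ
    rw [norm_pow, ← pow_mul, mul_comm, pow_mul, hf.2.2.2 w hw]
    push_cast
    rfl
  · intro i x hx hFx
    rw [hcast] at hFx ⊢
    refine divisorProducts_le _ F i x ?_
    refine h10 V F _ hspan (((q ^ m : ℕ) : ℕ) : ℂ) i s ?_ x hx hFx
    intro M hM _ hprod
    have h1 := matched_pow h11 hq hm hf hL one_pos M (by
      intro w hw
      obtain ⟨z, hz, h2⟩ := root_powerPoly hg (hM w hw)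
      exact ⟨z, hz, by rw [h2, mul_one]⟩) (i : ℤ) hs (by
        rw [hprod, zpow_natCast, mul_one]
        push_cast
        rfl)
    rw [mul_one] at h1
    push_cast
    exact h1

theorem s16 (h11 : S11) : S16 := by
  intro q m hq hm f hf hL g hg
  refine ⟨fun _ => hg.1, rfl, ?_⟩
  rintro s hs ρ hρ n c s' hs' hn ys hys hprod hpair
  have hρ1 : ρ = 1 := hρ
  rw [hρ1, mul_one] at hprod
  have hM : Matched (fun y z => y * z = (q : ℂ) ^ (m * s))
      (ys.map fun z : {z : ℂ // ∃ _ : Unit, aeval z g = 0} => (z : ℂ) ^ s) := by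
    refine matched_pow h11 hq hm hf hL hs _ ?_ c hs' ?_
    · intro w hw
      obtain ⟨⟨z, _, hz⟩, -, rfl⟩ := List.mem_map.1 hw
      obtain ⟨v, hv, rfl⟩ := root_powerPoly hg hz
      exact ⟨v, hv, (pow_mul v m s).symm⟩
    · rw [hprod]
      push_cast
      rw [pow_mul]
  have hpair' : (ys.map fun z : {z : ℂ // ∃ _ : Unit, aeval z g = 0} => (z : ℂ) ^ s).Pairwise
      (fun y z => y * z ≠ (q : ℂ) ^ (m * s)) := by
    rw [List.pairwise_map]
    refine hpair.imp ?_
    intro a b hab h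
    apply hab
    rw [h, pow_mul]
    push_cast
    rfl
  generalize hK : (ys.map fun z : {z : ℂ // ∃ _ : Unit, aeval z g = 0} => (z : ℂ) ^ s) = K at *
  cases hM with
  | nil =>
    have h1 : (ys.map fun z : {z : ℂ // ∃ _ : Unit, aeval z g = 0} => (z : ℂ) ^ s).length = 0 := by
      rw [hK]
      rfl
    rw [List.length_map] at h1
    omega
  | @cons a b L _ hab _ hperm =>
    have h1 := (hperm.pairwise_iff (R := fun y z : ℂ => y * z ≠ (q : ℂ) ^ (m * s))
      (fun {x y} h h' => h (by rw [mul_comm]; exact h'))).1 hpair'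
    rw [List.pairwise_cons] at h1
    exact h1.1 b (by simp) hab

end Pool.Agent.H249.EF
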