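import Pool.Agent.H249.PQ

set_option autoImplicit false
open Set Filter Topology
open H535R3 (Sol fl P Cc Kx MM)

namespace Pool.Agent.H249

/-- The Perron value tends to zero. -/
lemma MM_small' (n : ℕ) {c : ℝ} (hc : 0 < c) : ∃ δ, 0 < δ ∧ MM n δ ≤ c := by
  set s : ℝ := min 1 (c / (2 * (n + 1))) with hs
  have hn : (0:ℝ) < (n:ℝ) + 1 := by positivity
  have hs0 : 0 < s := by positivity
  have hs1 : s ≤ 1 := min_le_left _ _
  have hs2 : (n + 1) * s ≤ c / 2 := by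
    have : s ≤ c / (2 * (n + 1)) := min_le_right _ _
    rw [le_div_iff₀ (by positivity)] at this
    linarith
  set δ : ℝ := s ^ n * (c / 2) with hδd
  have hδ : 0 < δ := by positivity
  refine ⟨δ, hδ, ?_⟩
  obtain ⟨v, hv⟩ := H535R3.MM_spec n hδ
  refine H535R3.pf_le (x := fun i => (s⁻¹) ^ (i : ℕ)) hδ hv (fun i => by positivity) (fun i => ?_)
  have hsi : 1 ≤ s⁻¹ := (one_le_inv₀ hs0).2 hs1
  have hi : (i : ℕ) ≤ n := Nat.lt_succ_iff.1 i.2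
  rw [H535R3.Lop_apply]
  have h1 : H535R3.ext (fun i : Fin (n + 1) => (s⁻¹) ^ (i : ℕ)) (n - (i : ℕ)) = (s⁻¹) ^ (n - (i : ℕ)) := by
    unfold H535R3.ext
    rw [dif_pos ⟨by omega, by omega⟩]
    simp only
    congr 1; omega
  have h2 : ((n:ℝ) + 1 - (i : ℕ)) * H535R3.ext (fun i : Fin (n + 1) => (s⁻¹) ^ (i : ℕ)) ((i : ℕ) - 1) ≤
      (n + 1) * (s * (s⁻¹) ^ (i : ℕ)) := by
    have hii : (0:ℝ) ≤ ((i : ℕ) : ℝ) := Nat.cast_nonneg _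
    have h5 : (0:ℝ) ≤ (n:ℝ) + 1 - (i : ℕ) := by
      have : ((i : ℕ) : ℝ) ≤ n + 1 := by exact_mod_cast i.2.le
      linarith
    by_cases h0 : (i : ℕ) = 0
    · rw [h0]
      have : H535R3.ext (fun i : Fin (n + 1) => (s⁻¹) ^ (i : ℕ)) (((0:ℕ):ℤ) - 1) = 0 :=
        H535R3.ext_of_lt _ (by norm_num)
      rw [this, mul_zero]
      positivity
    · have h3 : H535R3.ext (fun i : Fin (n + 1) => (s⁻¹) ^ (i : ℕ)) ((i : ℕ) - 1) = (s⁻¹) ^ ((i : ℕ) - 1) := by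
        unfold H535R3.ext
        rw [dif_pos ⟨by omega, by omega⟩]
        simp only
        congr 1; omega
      have h4 : (s⁻¹) ^ ((i : ℕ) - 1) = s * (s⁻¹) ^ (i : ℕ) := by
        obtain ⟨k, hk⟩ := Nat.exists_eq_succ_of_ne_zero h0
        rw [hk, Nat.succ_sub_one, pow_succ]
        field_simp
      rw [h3, h4]
      gcongr
      linarith
  have h6 : δ * (s⁻¹) ^ (n - (i : ℕ)) ≤ c / 2 * (s⁻¹) ^ (i : ℕ) := by
    have h7 : (s⁻¹) ^ (n - (i : ℕ)) ≤ (s⁻¹) ^ n := pow_le_pow_right₀ hsi (Nat.sub_le _ _)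
    have h8 : (1:ℝ) ≤ (s⁻¹) ^ (i : ℕ) := one_le_pow₀ hsi
    calc δ * (s⁻¹) ^ (n - (i : ℕ)) ≤ δ * (s⁻¹) ^ n := by gcongr
      _ = c / 2 := by rw [hδd, inv_pow]; field_simp
      _ ≤ c / 2 * (s⁻¹) ^ (i : ℕ) := by nlinarith
  rw [h1]
  have h9 : (0:ℝ) < (s⁻¹) ^ (i : ℕ) := by positivity
  nlinarith

/-- The entire function. -/
noncomputable def FF (n : ℕ) (μ : ℝ) (ξ : ℂ) : ℂ := 2 - Th (((n:ℤ) + 1 : ℤ) : ℂ) μ ξ

/-- Its values at real points. -/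
noncomputable def ff (n : ℕ) (μ : ℝ) (ξ : ℝ) : ℝ := (FF n μ ξ).re

lemma FF_diff (n : ℕ) (μ : ℝ) : Differentiable ℂ (FF n μ) := (Th_diff_xi _ _).const_sub 2

lemma FF_real (n : ℕ) (μ ξ : ℝ) : FF n μ ξ = ((ff n μ ξ : ℝ) : ℂ) := by
  apply Complex.ext
  · simp [ff]
  · rw [Complex.ofReal_im, FF, Complex.sub_im, Th_im]
    simp

lemma FF_zeros (n : ℕ) (μ : ℝ) (z : ℂ) (h : FF n μ z = 0) : z.im = 0 := zeros_real h

lemma FF_type (n : ℕ) (μ : ℝ) : MinType (FF n μ) := minType_F _ _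

lemma ff_cont (n : ℕ) (μ : ℝ) : Continuous (ff n μ) := by
  have h := (FF_diff n μ).continuous
  exact Complex.continuous_re.comp (h.comp Complex.continuous_ofReal)

lemma cast_b (n : ℕ) : ((((n:ℤ) + 1 : ℤ)) : ℝ) = (n:ℝ) + 1 := by push_cast; ring

/-- Value of `ff` at a locked point. -/
lemma ff_lock {n : ℕ} {μ ε x : ℝ} {k : ℤ}
    (h : P ((n:ℝ) + 1) (2 * μ) ε x = x + 2 * Real.pi * k) :
    ff n μ ((ε / 2) ^ 2) = 2 - (-1 : ℝ) ^ ((n:ℤ) + 1 + k) *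
      (Real.exp (Kx ((n:ℝ) + 1) (2 * μ) ε x) + Real.exp (-Kx ((n:ℝ) + 1) (2 * μ) ε x)) := by
  have h1 := Th_of_lock (l := (n:ℤ) + 1) (μ := μ) (e := ε / 2) (x := x) (k := k) (by
    rw [cast_b, show 2 * (ε / 2) = ε by ring]; exact h)
  rw [cast_b, show 2 * (ε / 2) = ε by ring] at h1
  rw [ff, FF, h1, Complex.sub_re, Complex.ofReal_re]
  simp

lemma two_le_exp (K : ℝ) : 2 ≤ Real.exp K + Real.exp (-K) := by
  have h1 := Real.exp_pos K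
  have h2 : Real.exp K * Real.exp (-K) = 1 := by rw [← Real.exp_add, add_neg_cancel, Real.exp_zero]
  nlinarith [sq_nonneg (Real.exp K - 1), sq_nonneg (Real.exp K - Real.exp (-K)), Real.exp_pos (-K)]

lemma ff_even {n : ℕ} {μ ε x : ℝ} {k : ℤ} (hk : Even ((n:ℤ) + 1 + k))
    (h : P ((n:ℝ) + 1) (2 * μ) ε x = x + 2 * Real.pi * k) : ff n μ ((ε / 2) ^ 2) ≤ 0 := by
  rw [ff_lock h, hk.neg_one_zpow, one_mul]
  linarith [two_le_exp (Kx ((n:ℝ) + 1) (2 * μ) ε x)]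

lemma ff_odd {n : ℕ} {μ ε x : ℝ} {k : ℤ} (hk : Odd ((n:ℤ) + 1 + k))
    (h : P ((n:ℝ) + 1) (2 * μ) ε x = x + 2 * Real.pi * k) : 4 ≤ ff n μ ((ε / 2) ^ 2) := by
  rw [ff_lock h, hk.neg_one_zpow]
  linarith [two_le_exp (Kx ((n:ℝ) + 1) (2 * μ) ε x)]

lemma ff_exists {n : ℕ} {μ ε : ℝ} (hε : 0 < ε)
    (h : ff n μ ((ε / 2) ^ 2) ≤ 0 ∨ 4 ≤ ff n μ ((ε / 2) ^ 2)) :
    ∃ (x : ℝ) (k : ℤ), P ((n:ℝ) + 1) (2 * μ) ε x = x + 2 * Real.pi * k := by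
  have h1 := (Th_real (l := (n:ℤ) + 1) (μ := μ) (e := ε / 2) (by positivity)).2
  rw [cast_b, show 2 * (ε / 2) = ε by ring] at h1
  apply h1
  have h2 : ff n μ ((ε / 2) ^ 2) = 2 - (Th (((n:ℤ) + 1 : ℤ) : ℂ) μ (((ε / 2) ^ 2 : ℝ) : ℂ)).re := by
    rw [ff, FF, Complex.sub_re]; simp
  rw [h2] at h
  rcases h with h | h
  · exact le_trans (by linarith) (le_abs_self _)
  · exact le_trans (by linarith) (neg_le_abs _)

/-- A point where `ff ≤ 0` is locked with an admissible number. -/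
lemma ff_le {n : ℕ} {μ ε : ℝ} (hε : 0 < ε) (h : ff n μ ((ε / 2) ^ 2) ≤ 0) :
    ∃ k : ℤ, Even ((n:ℤ) + 1 + k) ∧ ∃ x, P ((n:ℝ) + 1) (2 * μ) ε x = x + 2 * Real.pi * k := by
  obtain ⟨x, k, hx⟩ := ff_exists hε (Or.inl h)
  refine ⟨k, ?_, x, hx⟩
  rcases Int.even_or_odd ((n:ℤ) + 1 + k) with hk | hk
  · exact hk
  · have := ff_odd hk hx
    linarith

lemma ff_ge {n : ℕ} {μ ε : ℝ} (hε : 0 < ε) (h : 4 ≤ ff n μ ((ε / 2) ^ 2)) :
    ∃ k : ℤ, Odd ((n:ℤ) + 1 + k) ∧ ∃ x, P ((n:ℝ) + 1) (2 * μ) ε x = x + 2 * Real.pi * k := by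
  obtain ⟨x, k, hx⟩ := ff_exists hε (Or.inr h)
  refine ⟨k, ?_, x, hx⟩
  rcases Int.even_or_odd ((n:ℤ) + 1 + k) with hk | hk
  · have := ff_even hk hx
    linarith
  · exact hk

/-- Values at parabolic points. -/
lemma ff_par {n : ℕ} {μ ε : ℝ} {k : ℤ} (h : dp ((n:ℝ) + 1) (2 * μ) ε = 2 * Real.pi * k ∨
    dq ((n:ℝ) + 1) (2 * μ) ε = 2 * Real.pi * k) :
    ff n μ ((ε / 2) ^ 2) = 2 - 2 * (-1 : ℝ) ^ ((n:ℤ) + 1 + k) := by
  rcases h with h | h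
  · obtain ⟨h1, h2⟩ := dp_eq h
    rw [ff_lock h1, h2]
    simp only [neg_zero, Real.exp_zero]
    ring
  · obtain ⟨h1, h2⟩ := dq_eq h
    rw [ff_lock h1, h2]
    simp only [neg_zero, Real.exp_zero]
    ring

/-- The zero at the origin. -/
lemma FF_zero (n : ℕ) (μ : ℝ) : FF n μ 0 = 0 := by
  have h := Th_of_lock (l := (n:ℤ) + 1) (μ := μ) (e := 0) (x := 0) (k := (n:ℤ) + 1) (by
    rw [mul_zero, H535R3.P_zero])
  have hK : Kx (((n:ℤ) + 1 : ℤ) : ℝ) (2 * μ) (2 * 0) 0 = 0 := by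
    rw [Kx]; simp
  rw [hK, (Even.neg_one_zpow (⟨_, rfl⟩ : Even ((n:ℤ) + 1 + ((n:ℤ) + 1))))] at h
  simp only [neg_zero, Real.exp_zero, one_mul] at h
  norm_num at h
  rw [FF]
  push_cast
  rw [h]
  norm_num

/-- No identity monodromy with small number. -/
lemma no_ident {n : ℕ} {μ ε : ℝ} (hμ : 0 < μ) (hε : 0 < ε) {k : ℤ} (h0 : 0 ≤ k) (h1 : k ≤ n) :
    ¬ ∀ x, P ((n:ℝ) + 1) (2 * μ) ε x = x + 2 * Real.pi * k := by
  intro hall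
  have he : 0 < ε / 2 := by positivity
  obtain ⟨j, hj⟩ := H535R3.ident_int (b := (n:ℝ) + 1) (μ := μ) (e := ε / 2) (r := k) hμ (by positivity)
    (by rw [show 2 * (ε / 2) = ε by ring]; exact hall)
  have hj2 : (n:ℤ) + 1 - k = 2 * j := by
    have : (n:ℝ) + 1 - k = 2 * j := by linarith
    exact_mod_cast this
  -- `k = 1 - n + 2 m` with `m = n - j`
  have hw := H535R3.wind_gen (n := n) (m := (n:ℤ) - j) (μ := μ) (e := ε / 2) hμ he (by omega) (by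
    intro x
    rw [show 2 * (ε / 2) = ε by ring, hall x]
    congr 2
    have : k = 1 - (n:ℤ) + 2 * ((n:ℤ) - j) := by omega
    exact_mod_cast this)
  omega

end Pool.Agent.H249
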