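import Pool.Agent.H249.EX

set_option autoImplicit false
open Set Filter Topology
open H535R3 (Sol fl P Cc Kx MM)

namespace Pool.Agent.H249

/-- Crossing of an admissible level by the displacement of `π / 2`. -/
lemma cross_p {n : ℕ} {μ ε0 : ℝ} {k : ℤ} (hε : 0 < ε0) (hk : Even ((n:ℤ) + 1 + k))
    (hne : ¬ ∀ x, P ((n:ℝ) + 1) (2 * μ) ε0 x = x + 2 * Real.pi * k)
    (h : dp ((n:ℝ) + 1) (2 * μ) ε0 = 2 * Real.pi * k) :
    ∀ᶠ ε in 𝓝 ε0, (ε < ε0 → 2 * Real.pi * k < dp ((n:ℝ) + 1) (2 * μ) ε) ∧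
      (ε0 < ε → dp ((n:ℝ) + 1) (2 * μ) ε < 2 * Real.pi * k) := by
  obtain ⟨h1, h2⟩ := dp_eq h
  have hS := S_pos (l := (n:ℤ) + 1) (by omega) (μ := μ) (e := ε0 / 2) (x0 := Real.pi / 2) (k := k)
    (by positivity)
  rw [cast_b, show 2 * (ε0 / 2) = ε0 by ring] at hS
  have hcr := crossing h1 (hS h1 h2 hk.neg_one_zpow hne)
  filter_upwards [hcr] with ε hε'
  refine ⟨fun h3 => ?_, fun h3 => ?_⟩
  · have := hε'.1 h3
    rw [dp]; linarith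
  · have := hε'.2 h3
    rw [dp]; linarith

/-- Crossing of an admissible level by the displacement of `- π / 2`. -/
lemma cross_q {n : ℕ} {μ ε0 : ℝ} {k : ℤ} (hε : 0 < ε0) (hk : Even ((n:ℤ) + 1 + k))
    (hne : ¬ ∀ x, P ((n:ℝ) + 1) (2 * μ) ε0 x = x + 2 * Real.pi * k)
    (h : dq ((n:ℝ) + 1) (2 * μ) ε0 = 2 * Real.pi * k) :
    ∀ᶠ ε in 𝓝 ε0, (ε < ε0 → 2 * Real.pi * k < dq ((n:ℝ) + 1) (2 * μ) ε) ∧
      (ε0 < ε → dq ((n:ℝ) + 1) (2 * μ) ε < 2 * Real.pi * k) := by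
  obtain ⟨h1, h2⟩ := dq_eq h
  have hS := S_pos (l := (n:ℤ) + 1) (by omega) (μ := μ) (e := ε0 / 2) (x0 := -(Real.pi / 2)) (k := k)
    (by positivity)
  rw [cast_b, show 2 * (ε0 / 2) = ε0 by ring] at hS
  have hcr := crossing h1 (hS h1 h2 hk.neg_one_zpow hne)
  filter_upwards [hcr] with ε hε'
  refine ⟨fun h3 => ?_, fun h3 => ?_⟩
  · have := hε'.1 h3
    rw [dq]; linarith
  · have := hε'.2 h3
    rw [dq]; linarith

lemma exists_up {b a ε : ℝ} (hb : 0 < b) : ∃ y, y < P b a ε y := by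
  obtain ⟨y, hy⟩ := H535R3.zero_b (-a) ε
  have h1 := H535R3.fl_flip 0 a ε (-y) (2 * Real.pi)
  rw [neg_zero, neg_neg] at h1
  have h2 : P 0 (-a) ε y = -P 0 a ε (-y) := h1
  refine ⟨-y, ?_⟩
  have h3 : P 0 a ε (-y) < P b a ε (-y) := H535R3.P_lt_of_b hb
  linarith

/-- No negative numbers. -/
lemma no_neg {b a ε : ℝ} (hb : 0 < b) {k : ℤ} (hk : k < 0) :
    ¬ ∃ x, P b a ε x = x + 2 * Real.pi * k := by
  rintro ⟨x, hx⟩
  obtain ⟨y, hy⟩ := exists_up (a := a) (ε := ε) hb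
  refine H535R3.lock_lt (x := y) (y := x) (r := k) ?_ hx
  have h1 : (k:ℝ) + 1 ≤ 0 := by exact_mod_cast (by omega : k + 1 ≤ 0)
  have hpi := Real.pi_pos
  nlinarith

/-- Locking with number zero for large `ε`. -/
lemma lock_zero {b a ε : ℝ} (hb : 0 < b) (ha : 0 ≤ a) (h : b + a < ε) :
    ∃ x, P b a ε x = x + 2 * Real.pi * ((0:ℤ):ℝ) := by
  obtain ⟨y, hy⟩ := exists_up (a := a) (ε := ε) hb
  have h1 := H535R3.trap ha h
  have hc : Continuous fun x => P b a ε x - x := (H535R3.continuous_Px b a ε).sub continuous_id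
  obtain ⟨x, hx⟩ := mem_range_of_exists_le_of_exists_ge hc (c := 0)
    ⟨Real.pi / 2, by linarith⟩ ⟨y, by linarith⟩
  exact ⟨x, by push_cast; linarith⟩

/-- Locking with the number of the axis. -/
lemma lock_axis {n : ℕ} {μ ε : ℝ} (hμ : 0 < μ) (hε : 0 < ε) :
    (∃ x, P ((n:ℝ) + 1) (2 * μ) ε x = x + 2 * Real.pi * (((n:ℤ) + 1 : ℤ) : ℝ)) ↔ MM n (ε / 2) ≤ μ := by
  have h := H535R3.axis_iff n (a := 2 * μ) (ε := ε) (by positivity) hε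
  rw [show (2 * MM n (ε / 2) ≤ 2 * μ) ↔ MM n (ε / 2) ≤ μ by
    constructor <;> intro h <;> linarith] at h
  exact h

lemma axis_le' {n : ℕ} {μ ε : ℝ} (hμ : 0 < μ) (hε : 0 < ε) :
    ¬ (2 * Real.pi * (((n:ℤ) + 1 : ℤ) : ℝ) < dp ((n:ℝ) + 1) (2 * μ) ε ∧
      2 * Real.pi * (((n:ℤ) + 1 : ℤ) : ℝ) < dq ((n:ℝ) + 1) (2 * μ) ε) := by
  rintro ⟨h1, h2⟩
  obtain ⟨y, hy⟩ := H535R3.axis_le n hμ.le hε
  have hc : Continuous fun x => P ((n:ℝ) + 1) (2 * μ) ε x - x :=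
    (H535R3.continuous_Px _ _ _).sub continuous_id
  obtain ⟨x, hx⟩ := mem_range_of_exists_le_of_exists_ge hc (c := 2 * Real.pi * (((n:ℤ) + 1 : ℤ) : ℝ))
    ⟨y, by linarith⟩ ⟨Real.pi / 2, by rw [dp] at h1; linarith⟩
  have h3 := lock_iff.1 ⟨x, (by linarith : P ((n:ℝ) + 1) (2 * μ) ε x =
    x + 2 * Real.pi * (((n:ℤ) + 1 : ℤ) : ℝ))⟩
  have h4 := mul_pos (sub_pos.2 h1) (sub_pos.2 h2)
  linarith

lemma dp_cont_eps (b a : ℝ) : Continuous fun ε => dp b a ε :=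
  dp_cont.comp (by fun_prop : Continuous fun ε : ℝ => ((b, a, ε) : ℝ × ℝ × ℝ))

lemma dq_cont_eps (b a : ℝ) : Continuous fun ε => dq b a ε :=
  dq_cont.comp (by fun_prop : Continuous fun ε : ℝ => ((b, a, ε) : ℝ × ℝ × ℝ))

lemma even_axis (n : ℕ) : Even ((n:ℤ) + 1 + ((n:ℤ) + 1)) := ⟨_, rfl⟩

lemma freq_gt (x : ℝ) : ∃ᶠ y in 𝓝 x, x < y := by
  have h : ∀ᶠ y in 𝓝[>] x, x < y := self_mem_nhdsWithin
  exact h.frequently.filter_mono nhdsWithin_le_nhds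

lemma freq_lt (x : ℝ) : ∃ᶠ y in 𝓝 x, y < x := by
  have h : ∀ᶠ y in 𝓝[<] x, y < x := self_mem_nhdsWithin
  exact h.frequently.filter_mono nhdsWithin_le_nhds

/-- Above the Perron value the two displacements reach the axis level together. -/
lemma para_free {n : ℕ} {μ ε0 : ℝ} (hμ : 0 < μ) (hε : 0 < ε0) (hM : MM n (ε0 / 2) < μ) :
    dp ((n:ℝ) + 1) (2 * μ) ε0 = 2 * Real.pi * (((n:ℤ) + 1 : ℤ) : ℝ) ↔
      dq ((n:ℝ) + 1) (2 * μ) ε0 = 2 * Real.pi * (((n:ℤ) + 1 : ℤ) : ℝ) := by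
  set Λ := 2 * Real.pi * (((n:ℤ) + 1 : ℤ) : ℝ) with hΛ
  have hM2 : ∀ᶠ ε in 𝓝 ε0, 0 < ε ∧ MM n (ε / 2) < μ := by
    have hc : ContinuousAt (fun ε => MM n (ε / 2)) ε0 := by
      have h1 := (H535R3.MM_cont n).continuousAt (x := ε0 / 2) (Ioi_mem_nhds (by positivity))
      exact ContinuousAt.comp (f := fun ε : ℝ => ε / 2) h1 (by fun_prop)
    exact (lt_mem_nhds hε).and (hc.eventually (gt_mem_nhds hM))
  -- a common argument
  have key : ∀ f g : ℝ → ℝ, Continuous g → (∀ ε, dp ((n:ℝ) + 1) (2 * μ) ε = f ε ∧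
      dq ((n:ℝ) + 1) (2 * μ) ε = g ε ∨ dp ((n:ℝ) + 1) (2 * μ) ε = g ε ∧
      dq ((n:ℝ) + 1) (2 * μ) ε = f ε) → (∀ᶠ ε in 𝓝 ε0, (ε < ε0 → Λ < f ε) ∧ (ε0 < ε → f ε < Λ)) →
      g ε0 = Λ := by
    intro f g hg hfg hcr
    by_contra hne
    rcases lt_or_gt_of_ne hne with hlt | hgt
    · -- unlocked for larger `ε`
      have h1 := ((hg.tendsto ε0).eventually (gt_mem_nhds hlt)).and (hcr.and hM2)
      have h2 := freq_gt ε0
      obtain ⟨ε, h3, h4, h5, h6, h7⟩ := (h2.and_eventually h1).exists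
      have h8 := h5.2 h3
      have h9 := (lock_axis (n := n) hμ h6).2 h7.le
      have h10 := lock_iff.1 h9
      have h11 : 0 < (f ε - Λ) * (g ε - Λ) := mul_pos_of_neg_of_neg (by linarith) (by linarith)
      rcases hfg ε with ⟨e1, e2⟩ | ⟨e1, e2⟩
      · rw [e1, e2] at h10; linarith
      · rw [e1, e2] at h10; linarith
    · have h1 := ((hg.tendsto ε0).eventually (lt_mem_nhds hgt)).and (hcr.and hM2)
      have h2 := freq_lt ε0
      obtain ⟨ε, h3, h4, h5, h6, h7⟩ := (h2.and_eventually h1).exists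
      have h8 := h5.1 h3
      have h9 := axis_le' (n := n) hμ h6
      rcases hfg ε with ⟨e1, e2⟩ | ⟨e1, e2⟩
      · rw [e1, e2] at h9; exact h9 ⟨h8, h4⟩
      · rw [e1, e2] at h9; exact h9 ⟨h4, h8⟩
  constructor
  · intro h
    by_contra hq
    have hne : ¬ ∀ x, P ((n:ℝ) + 1) (2 * μ) ε0 x = x + 2 * Real.pi * (((n:ℤ) + 1 : ℤ) : ℝ) := by
      intro hall
      apply hq
      rw [dq, hall]; ring
    exact hq (key _ _ (dq_cont_eps _ _) (fun ε => Or.inl ⟨rfl, rfl⟩) (cross_p hε (even_axis n) hne h))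
  · intro h
    by_contra hq
    have hne : ¬ ∀ x, P ((n:ℝ) + 1) (2 * μ) ε0 x = x + 2 * Real.pi * (((n:ℤ) + 1 : ℤ) : ℝ) := by
      intro hall
      apply hq
      rw [dp, hall]; ring
    exact hq (key _ _ (dp_cont_eps _ _) (fun ε => Or.inr ⟨rfl, rfl⟩) (cross_q hε (even_axis n) hne h))

end Pool.Agent.H249
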