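import Pool.Agent.H249.LS

set_option autoImplicit false
open Complex Set Filter Topology ComplexConjugate
open H535R3 (cf cf_expand cf_bound exp_per summable_inv_sq)

namespace Pool.Agent.H249

lemma norm_em (k : ℤ) (t : ℝ) : ‖exp (-(I * k * (t:ℂ)))‖ = 1 := by
  rw [show -(I * k * (t:ℂ)) = ((-(k * t) : ℝ) : ℂ) * I by push_cast; ring]
  exact norm_exp_ofReal_mul_I _

lemma norm_ep (k : ℤ) (t : ℝ) : ‖exp (I * k * (t:ℂ))‖ = 1 := by
  rw [show I * k * (t:ℂ) = (((k * t) : ℝ) : ℂ) * I by push_cast; ring]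
  exact norm_exp_ofReal_mul_I _

lemma cf_add {f g : ℝ → ℂ} (hf : Continuous f) (hg : Continuous g) (k : ℤ) :
    cf (fun t => f t + g t) k = cf f k + cf g k := by
  unfold cf
  rw [← mul_add, ← intervalIntegral.integral_add (Continuous.intervalIntegrable (by fun_prop) _ _)
    (Continuous.intervalIntegrable (by fun_prop) _ _)]
  congr 2
  funext t
  ring

lemma cf_cmul (c : ℂ) (f : ℝ → ℂ) (k : ℤ) : cf (fun t => c * f t) k = c * cf f k := by
  unfold cf
  have : ∀ t : ℝ, c * f t * exp (-(I * k * t)) = c * (f t * exp (-(I * k * t))) := fun t => by ring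
  simp_rw [this]
  rw [intervalIntegral.integral_const_mul]
  ring

lemma cf_shift (f : ℝ → ℂ) (j k : ℤ) : cf (fun t => exp (I * j * t) * f t) k = cf f (k - j) := by
  unfold cf
  congr 2
  funext t
  have : exp (-(I * ((k - j : ℤ) : ℂ) * t)) = exp (I * j * t) * exp (-(I * k * t)) := by
    rw [← exp_add]; congr 1; push_cast; ring
  rw [this]
  ring

lemma cf_deriv {f f' : ℝ → ℂ} (hf : ∀ t, HasDerivAt f (f' t) t) (hc : Continuous f')
    (hper : ∀ t, f (t + 2 * Real.pi) = f t) (k : ℤ) : cf f' k = I * k * cf f k := by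
  have hcf : Continuous f := continuous_iff_continuousAt.2 fun t => (hf t).continuousAt
  have hd : ∀ t : ℝ, HasDerivAt (fun t : ℝ => f t * exp (-(I * k * t)))
      (f' t * exp (-(I * k * t)) - (I * k) * (f t * exp (-(I * k * t)))) t := by
    intro t
    have h1 : HasDerivAt (fun t : ℝ => exp (-(I * k * (t : ℂ)))) (exp (-(I * k * t)) * (-(I * k))) t := by
      have h2 : HasDerivAt (fun t : ℝ => -(I * k * (t : ℂ))) (-(I * k * 1)) t :=
        ((ofRealCLM.hasDerivAt (x := t)).const_mul (I * k)).neg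
      rw [mul_one] at h2
      exact h2.cexp
    exact ((hf t).mul h1).congr_deriv (by ring)
  have hint := intervalIntegral.integral_eq_sub_of_hasDerivAt (a := -Real.pi) (b := Real.pi)
    (fun t _ => hd t) (Continuous.intervalIntegrable (by fun_prop) _ _)
  have hbd : f Real.pi * exp (-(I * k * (Real.pi : ℝ))) =
      f (-Real.pi) * exp (-(I * k * ((-Real.pi : ℝ) : ℂ))) := by
    have h1 := hper (-Real.pi)
    have h2 := exp_per k (-Real.pi)
    rw [show -Real.pi + 2 * Real.pi = Real.pi by ring] at h1 h2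
    rw [h1, h2]
  rw [hbd, sub_self, intervalIntegral.integral_sub (Continuous.intervalIntegrable (by fun_prop) _ _)
    (Continuous.intervalIntegrable (by fun_prop) _ _), intervalIntegral.integral_const_mul,
    sub_eq_zero] at hint
  unfold cf
  rw [hint]
  ring

lemma RSol.per {l m ξ : ℂ} {X : ℝ → ℂ × ℂ} (hX : RSol l m ξ X) (h : X (2 * Real.pi) = X 0) (t : ℝ) :
    X (t + 2 * Real.pi) = X t := by
  have h1 : RSol l m ξ (fun t => X (t + 2 * Real.pi)) := by
    intro t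
    have h2 := (hX (t + 2 * Real.pi)).comp_add_const t (2 * Real.pi)
    refine h2.congr_deriv ?_
    simp only [vR, Real.cos_add_two_pi]
  have := h1.unique hX (t0 := 0) (by simpa using h)
  exact congrFun this t

section rec
variable {l m ξ : ℂ} {X : ℝ → ℂ × ℂ}

/-- first component coefficients -/
noncomputable def cR (X : ℝ → ℂ × ℂ) (k : ℤ) : ℂ := cf (fun t => (X t).1) k
/-- second component coefficients -/
noncomputable def cH (X : ℝ → ℂ × ℂ) (k : ℤ) : ℂ := cf (fun t => (X t).2) k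

lemma RSol.rec1 (hX : RSol l m ξ X) (h : X (2 * Real.pi) = X 0) (k : ℤ) : cH X k = k * cR X k := by
  have hc := hX.cont
  have h1 := cf_deriv hX.fst (by fun_prop) (fun t => by rw [hX.per h]) k
  rw [cf_cmul] at h1
  have h2 : I * (cf (fun t => (X t).2) k - k * cf (fun t => (X t).1) k) = 0 := by
    linear_combination h1
  exact sub_eq_zero.1 ((mul_eq_zero.1 h2).resolve_left I_ne_zero)

lemma RSol.rec2 (hX : RSol l m ξ X) (h : X (2 * Real.pi) = X 0) (k : ℤ) :
    (k + l) * cH X k + m * (cH X (k - 1) + cH X (k + 1)) = -ξ * cR X k := by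
  have hc := hX.cont
  have h1 := cf_deriv hX.snd (by fun_prop) (fun t => by rw [hX.per h]) k
  have e : (fun t : ℝ => -(I * (l + 2 * m * Real.cos t) * (X t).2) - I * ξ * (X t).1) =
      fun t : ℝ => ((-(I * l)) * (X t).2 + (-(I * m)) * (exp (I * (1:ℤ) * t) * (X t).2)) +
        ((-(I * m)) * (exp (I * (-1:ℤ) * t) * (X t).2) + (-(I * ξ)) * (X t).1) := by
    funext t
    have h3 : ((Real.cos t : ℝ) : ℂ) = (exp (I * (1:ℤ) * t) + exp (I * (-1:ℤ) * t)) / 2 := by
      rw [ofReal_cos, Complex.cos]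
      congr 2
      · congr 1; push_cast; ring
      · congr 1; push_cast; ring
    rw [h3]
    ring
  rw [e, cf_add (by fun_prop) (by fun_prop), cf_add (by fun_prop) (by fun_prop),
    cf_add (by fun_prop) (by fun_prop), cf_cmul, cf_cmul, cf_cmul, cf_cmul, cf_shift, cf_shift,
    show k - -1 = k + 1 by ring] at h1
  have h2 : I * ((k + l) * cH X k + m * (cH X (k - 1) + cH X (k + 1)) + ξ * cR X k) = 0 := by
    simp only [cH, cR]
    linear_combination -h1
  linear_combination (mul_eq_zero.1 h2).resolve_left I_ne_zero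

lemma RSol.bdd (hX : RSol l m ξ X) (h : X (2 * Real.pi) = X 0) :
    ∃ C, ∀ k : ℤ, ‖cR X k‖ + ‖cH X k‖ ≤ C := by
  have hc := hX.cont
  obtain ⟨C, hC⟩ := (isCompact_Icc (a := (0:ℝ)) (b := 2 * Real.pi)).exists_bound_of_continuousOn hc.continuousOn
  have hall : ∀ t, ‖X t‖ ≤ C := by
    intro t
    have hp : Function.Periodic X (2 * Real.pi) := hX.per h
    obtain ⟨y, hy, hxy⟩ := hp.exists_mem_Ico₀ Real.two_pi_pos t
    rw [hxy]
    exact hC y ⟨hy.1, hy.2.le⟩
  refine ⟨C + C, fun k => add_le_add ?_ ?_⟩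
  · exact cf_bound (fun t => (norm_fst_le _).trans (hall t)) k
  · exact cf_bound (fun t => (norm_snd_le _).trans (hall t)) k

lemma RSol.decay (hX : RSol l m ξ X) (h : X (2 * Real.pi) = X 0) (j : ℕ) :
    ∃ D, ∀ k : ℤ, (‖cR X k‖ + ‖cH X k‖) * (1 + |(k:ℝ)|) ^ j ≤ D := by
  induction j with
  | zero => simpa using hX.bdd h
  | succ j ih =>
    obtain ⟨D, hD⟩ := ih
    have hD0 : 0 ≤ D := by
      refine le_trans ?_ (hD 0)
      positivity
    refine ⟨D + (1 + ‖l‖) * D + ‖m‖ * (2 ^ j * D + 2 ^ j * D) + ‖ξ‖ * D, fun k => ?_⟩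
    set w := (1 + |(k:ℝ)|) ^ j with hw
    have hw0 : 0 < w := by positivity
    have hR : ∀ k : ℤ, ‖cR X k‖ * (1 + |(k:ℝ)|) ^ j ≤ D := fun k => by
      refine le_trans ?_ (hD k)
      have := norm_nonneg (cH X k)
      gcongr
      linarith
    have hH : ∀ k : ℤ, ‖cH X k‖ * (1 + |(k:ℝ)|) ^ j ≤ D := fun k => by
      refine le_trans ?_ (hD k)
      have := norm_nonneg (cR X k)
      gcongr
      linarith
    have hs : ∀ k' : ℤ, |(k:ℝ)| ≤ 1 + |(k':ℝ)| → ‖cH X k'‖ * w ≤ 2 ^ j * D := by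
      intro k' hk'
      have h1 : w ≤ (2 * (1 + |(k':ℝ)|)) ^ j := by
        rw [hw]
        gcongr
        have := abs_nonneg (k':ℝ)
        linarith
      calc ‖cH X k'‖ * w ≤ ‖cH X k'‖ * (2 * (1 + |(k':ℝ)|)) ^ j := by gcongr
        _ = 2 ^ j * (‖cH X k'‖ * (1 + |(k':ℝ)|) ^ j) := by rw [mul_pow]; ring
        _ ≤ _ := by gcongr; exact hH k'
    have h1 : ‖cH X (k - 1)‖ * w ≤ 2 ^ j * D := by
      apply hs
      push_cast
      have := abs_add_le ((k:ℝ) - 1) 1
      rw [sub_add_cancel, abs_one] at this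
      linarith
    have h2 : ‖cH X (k + 1)‖ * w ≤ 2 ^ j * D := by
      apply hs
      push_cast
      have := abs_sub ((k:ℝ) + 1) 1
      rw [add_sub_cancel_right, abs_one] at this
      linarith
    have e1 : |(k:ℝ)| * ‖cR X k‖ = ‖cH X k‖ := by
      rw [hX.rec1 h k, norm_mul]
      congr 1
      rw [Complex.norm_intCast]
    have e2 : |(k:ℝ)| * ‖cH X k‖ ≤ ‖l‖ * ‖cH X k‖ + ‖m‖ * (‖cH X (k - 1)‖ + ‖cH X (k + 1)‖) +
        ‖ξ‖ * ‖cR X k‖ := by
      have e3 : (k:ℂ) * cH X k = -(l * cH X k) - m * (cH X (k - 1) + cH X (k + 1)) - ξ * cR X k := by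
        linear_combination hX.rec2 h k
      have e4 : |(k:ℝ)| * ‖cH X k‖ = ‖(k:ℂ) * cH X k‖ := by rw [norm_mul, Complex.norm_intCast]
      rw [e4, e3]
      refine (norm_sub_le _ _).trans ?_
      refine (add_le_add (norm_sub_le _ _) le_rfl).trans ?_
      rw [norm_neg, norm_mul, norm_mul, norm_mul]
      gcongr
      exact norm_add_le _ _
    have n1 := hR k
    have n2 := hH k
    rw [← hw] at n1 n2
    have nl := norm_nonneg l
    have nm := norm_nonneg m
    have nξ := norm_nonneg ξ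
    calc (‖cR X k‖ + ‖cH X k‖) * (1 + |(k:ℝ)|) ^ (j + 1)
        = (‖cR X k‖ + |(k:ℝ)| * ‖cR X k‖ + (‖cH X k‖ + |(k:ℝ)| * ‖cH X k‖)) * w := by
          rw [pow_succ, hw]; ring
      _ ≤ (‖cR X k‖ + ‖cH X k‖ + (‖cH X k‖ + (‖l‖ * ‖cH X k‖ + ‖m‖ * (‖cH X (k - 1)‖ + ‖cH X (k + 1)‖) +
        ‖ξ‖ * ‖cR X k‖))) * w := by rw [e1]; gcongr
      _ = (‖cR X k‖ + ‖cH X k‖) * w + (1 + ‖l‖) * (‖cH X k‖ * w) +
        ‖m‖ * (‖cH X (k - 1)‖ * w + ‖cH X (k + 1)‖ * w) + ‖ξ‖ * (‖cR X k‖ * w) := by ring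
      _ ≤ _ := by
        gcongr
        exact hD k

end rec

/-- Vanishing of one half of the coefficients. -/
lemma half_zero {m : ℝ} {d : ℕ → ℝ} {ζ : ℂ} (hζ : ζ.im ≠ 0) {w : ℕ → ℂ} (h0 : w 0 = 0)
    (hrec : ∀ j : ℕ, (d j : ℂ) * w (j + 1) + m * (w j + w (j + 2)) = ζ * (w (j + 1) / ((j:ℂ) + 1)))
    (hlim : Tendsto (fun j => ‖w (j + 1)‖ * ‖w j‖) atTop (𝓝 0)) (j : ℕ) : w j = 0 := by
  set S : ℕ → ℝ := fun N => ∑ j ∈ Finset.range N, normSq (w (j + 1)) / ((j:ℝ) + 1) with hS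
  set T : ℕ → ℝ := fun N => (w (N + 1) * conj (w N)).im with hT
  have hTS : ∀ N, m * T N = ζ.im * S N := by
    intro N
    induction N with
    | zero => simp [hT, hS, h0]
    | succ N ih =>
      have h1 : (((d N : ℂ) * w (N + 1) + m * (w N + w (N + 2))) * conj (w (N + 1))).im =
          (ζ * (w (N + 1) / ((N:ℂ) + 1)) * conj (w (N + 1))).im := by rw [hrec N]
      have e1 : (((d N : ℂ) * w (N + 1) + m * (w N + w (N + 2))) * conj (w (N + 1))).im =
          m * (T (N + 1) - T N) := by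
        simp only [hT]
        simp only [mul_im, mul_re, add_im, add_re, conj_re, conj_im, ofReal_re, ofReal_im]
        ring
      have e2 : (ζ * (w (N + 1) / ((N:ℂ) + 1)) * conj (w (N + 1))).im =
          ζ.im * (normSq (w (N + 1)) / ((N:ℝ) + 1)) := by
        have : ζ * (w (N + 1) / ((N:ℂ) + 1)) * conj (w (N + 1)) =
            ζ * ((normSq (w (N + 1)) / ((N:ℝ) + 1) : ℝ) : ℂ) := by
          push_cast
          rw [← mul_conj]
          ring
        rw [this, im_mul_ofReal]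
      rw [e1, e2] at h1
      have h2 : S (N + 1) = S N + normSq (w (N + 1)) / ((N:ℝ) + 1) := Finset.sum_range_succ _ _
      rw [h2, mul_add, ← h1, ← ih]
      ring
  have hTlim : Tendsto T atTop (𝓝 0) := by
    refine squeeze_zero_norm (fun j => ?_) hlim
    rw [Real.norm_eq_abs]
    refine (abs_im_le_norm _).trans (le_of_eq ?_)
    rw [norm_mul, RCLike.norm_conj]
  have hSlim : Tendsto S atTop (𝓝 0) := by
    have h1 : S = fun N => m / ζ.im * T N := by
      funext N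
      have := hTS N
      field_simp
      linarith
    rw [h1]
    simpa using hTlim.const_mul (m / ζ.im)
  have hSmono : Monotone S := by
    refine monotone_nat_of_le_succ fun N => ?_
    have h2 : S (N + 1) = S N + normSq (w (N + 1)) / ((N:ℝ) + 1) := Finset.sum_range_succ _ _
    rw [h2]
    have : 0 ≤ normSq (w (N + 1)) / ((N:ℝ) + 1) := div_nonneg (normSq_nonneg _) (by positivity)
    linarith
  rcases j with _ | j
  · exact h0
  · have h1 : S (j + 1) ≤ 0 := hSmono.ge_of_tendsto hSlim (j + 1)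
    have h2 : S (j + 1) = S j + normSq (w (j + 1)) / ((j:ℝ) + 1) := Finset.sum_range_succ _ _
    have h3 : 0 ≤ S j := Finset.sum_nonneg fun i _ => div_nonneg (normSq_nonneg _) (by positivity)
    have h4 : normSq (w (j + 1)) / ((j:ℝ) + 1) ≤ 0 := by linarith
    have h5 : normSq (w (j + 1)) ≤ 0 := by
      by_contra h
      push Not at h
      have : 0 < normSq (w (j + 1)) / ((j:ℝ) + 1) := by positivity
      linarith
    exact normSq_eq_zero.1 (le_antisymm h5 (normSq_nonneg _))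

lemma prod_lim {D : ℝ} {w : ℕ → ℂ} (h : ∀ j : ℕ, ‖w j‖ * (1 + (j:ℝ)) ≤ D) :
    Tendsto (fun j => ‖w (j + 1)‖ * ‖w j‖) atTop (𝓝 0) := by
  have hD : 0 ≤ D := le_trans (by positivity) (h 0)
  have hb : ∀ j : ℕ, ‖w j‖ ≤ D := fun j => by
    refine le_trans ?_ (h j)
    have : (0:ℝ) ≤ j := Nat.cast_nonneg j
    have := norm_nonneg (w j)
    nlinarith
  refine squeeze_zero (fun j => by positivity) (g := fun j : ℕ => D * (D / ((j:ℝ) + 1))) (fun j => ?_) ?_
  · refine mul_le_mul (hb _) ?_ (norm_nonneg _) hD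
    rw [le_div_iff₀ (by positivity), add_comm (j:ℝ) 1]
    exact h j
  · have h1 : Tendsto (fun j : ℕ => D * (1 / ((j:ℝ) + 1))) atTop (𝓝 (D * 0)) :=
      tendsto_one_div_add_atTop_nhds_zero_nat.const_mul D
    have h2 := h1.const_mul D
    simp only [mul_zero] at h2
    refine h2.congr fun j => ?_
    ring

lemma zero_of_cf {G : ℝ → ℂ} (hcont : Continuous G) (hper : ∀ t, G (t + 2 * Real.pi) = G t)
    (h : ∀ k, cf G k = 0) (t : ℝ) : G t = 0 := by
  have hs : Summable (cf G) := by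
    rw [show cf G = fun _ => 0 from funext h]; exact summable_zero
  have h1 := cf_expand hcont hper hs t
  simp only [h, zero_mul] at h1
  exact h1.unique hasSum_zero

/-- The second component determines a periodic solution. -/
lemma RSol.zero_of_snd {l m ξ : ℂ} (hξ : ξ ≠ 0) {X : ℝ → ℂ × ℂ} (hX : RSol l m ξ X)
    (h : ∀ t, (X t).2 = 0) (t : ℝ) : X t = 0 := by
  have h1 : HasDerivAt (fun t => (X t).2) 0 t := by
    rw [show (fun t => (X t).2) = fun _ => (0:ℂ) from funext h]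
    exact hasDerivAt_const _ _
  have h2 := (hX.snd t).unique h1
  rw [h t, mul_zero, neg_zero, zero_sub, neg_eq_zero, mul_eq_zero] at h2
  have h3 : (X t).1 = 0 := h2.resolve_left (mul_ne_zero I_ne_zero hξ)
  exact Prod.ext h3 (h t)

/-- All zeros of `2 - Θ` are real. -/
theorem zeros_real {l : ℤ} {m : ℝ} {ξ : ℂ} (h : 2 - Th l m ξ = 0) : ξ.im = 0 := by
  by_contra him
  obtain ⟨X, hX, hX0, hper⟩ := eigen_exists (l := l) (m := (m:ℂ)) (ξ := ξ) (κ := 1) (by
    linear_combination h)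
  rw [one_smul] at hper
  have hξ : ξ ≠ 0 := fun h => him (by rw [h]; rfl)
  obtain ⟨D, hD⟩ := hX.decay hper 1
  have hH : ∀ k : ℤ, ‖cH X k‖ * (1 + |(k:ℝ)|) ≤ D := fun k => by
    refine le_trans ?_ (hD k)
    have := norm_nonneg (cR X k)
    rw [pow_one]
    gcongr
    linarith
  have hH0 : cH X 0 = 0 := by rw [hX.rec1 hper 0]; simp
  have hpos : ∀ j : ℕ, cH X (j : ℤ) = 0 := by
    have w0 : cH X ((0:ℕ):ℤ) = 0 := by rw [Nat.cast_zero]; exact hH0
    have wrec : ∀ j : ℕ, (((j:ℝ) + 1 + l : ℝ) : ℂ) * cH X ((j + 1 : ℕ) : ℤ) +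
        m * (cH X (j : ℤ) + cH X ((j + 2 : ℕ) : ℤ)) = (-ξ) * (cH X ((j + 1 : ℕ) : ℤ) / ((j:ℂ) + 1)) := by
      intro j
      have h1 := hX.rec2 hper ((j + 1 : ℕ) : ℤ)
      have h2 := hX.rec1 hper ((j + 1 : ℕ) : ℤ)
      have e1 : (((j + 1 : ℕ) : ℤ) - 1) = (j : ℤ) := by push_cast; ring
      have e2 : (((j + 1 : ℕ) : ℤ) + 1) = ((j + 2 : ℕ) : ℤ) := by push_cast; ring
      rw [e1, e2] at h1
      have hj : ((j:ℂ) + 1) ≠ 0 := by exact_mod_cast Nat.succ_ne_zero j
      have h3 : cH X ((j + 1 : ℕ) : ℤ) / ((j:ℂ) + 1) = cR X ((j + 1 : ℕ) : ℤ) := by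
        rw [h2]
        push_cast
        field_simp
      rw [h3, ← h1]
      push_cast
      ring
    have wl : ∀ j : ℕ, ‖cH X (j : ℤ)‖ * (1 + (j:ℝ)) ≤ D := by
      intro j
      have := hH (j : ℤ)
      rwa [Int.cast_natCast, Nat.abs_cast] at this
    exact half_zero (m := m) (d := fun j => (j:ℝ) + 1 + l) (ζ := -ξ) (by simpa using him)
      (w := fun j => cH X (j : ℤ)) w0 wrec (prod_lim (D := D) (w := fun j => cH X (j : ℤ)) wl)
  have hneg : ∀ j : ℕ, cH X (-(j : ℤ)) = 0 := by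
    have w0 : cH X (-((0:ℕ):ℤ)) = 0 := by rw [Nat.cast_zero, neg_zero]; exact hH0
    have wrec : ∀ j : ℕ, (((l:ℝ) - ((j:ℝ) + 1) : ℝ) : ℂ) * cH X (-((j + 1 : ℕ) : ℤ)) +
        m * (cH X (-(j : ℤ)) + cH X (-((j + 2 : ℕ) : ℤ))) =
          ξ * (cH X (-((j + 1 : ℕ) : ℤ)) / ((j:ℂ) + 1)) := by
      intro j
      have h1 := hX.rec2 hper (-((j + 1 : ℕ) : ℤ))
      have h2 := hX.rec1 hper (-((j + 1 : ℕ) : ℤ))
      have e1 : (-((j + 1 : ℕ) : ℤ) - 1) = -((j + 2 : ℕ) : ℤ) := by push_cast; ring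
      have e2 : (-((j + 1 : ℕ) : ℤ) + 1) = -(j : ℤ) := by push_cast; ring
      rw [e1, e2] at h1
      have hj : ((j:ℂ) + 1) ≠ 0 := by exact_mod_cast Nat.succ_ne_zero j
      have h3 : cH X (-((j + 1 : ℕ) : ℤ)) / ((j:ℂ) + 1) = -cR X (-((j + 1 : ℕ) : ℤ)) := by
        rw [h2]
        push_cast
        field_simp
      rw [h3, mul_neg, ← neg_mul, ← h1]
      push_cast
      ring
    have wl : ∀ j : ℕ, ‖cH X (-(j : ℤ))‖ * (1 + (j:ℝ)) ≤ D := by
      intro j
      have := hH (-(j : ℤ))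
      rwa [Int.cast_neg, abs_neg, Int.cast_natCast, Nat.abs_cast] at this
    exact half_zero (m := m) (d := fun j => (l:ℝ) - ((j:ℝ) + 1)) (ζ := ξ) him
      (w := fun j => cH X (-(j : ℤ))) w0 wrec (prod_lim (D := D) (w := fun j => cH X (-(j : ℤ))) wl)
  have hall : ∀ k : ℤ, cH X k = 0 := by
    intro k
    obtain ⟨n, rfl | rfl⟩ := k.eq_nat_or_neg
    · exact hpos n
    · exact hneg n
  have hc := hX.cont
  have hz := zero_of_cf (G := fun t => (X t).2) (by fun_prop) (fun t => by rw [hX.per hper]) hall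
  exact hX0 (hX.zero_of_snd hξ hz 0)

end Pool.Agent.H249
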