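import Pool.Agent.H867.FT.Gen6
import Pool.Agent.H176.FT867COH

/-!
# CH2: existence of good presentations, infinite F-finite residue field (helper249, for helper867)

Adaptation of `Pool.Agent.H176.FT867COH`.
-/

set_option autoImplicit false

namespace Pool.Agent.H249.FT867CH2

open Pool.Agent.H867.FT IsLocalRing
open Pool.Agent.H176.FT867COH (finite_frac anInd_zero isRed_congr)
open scoped nonZeroDivisors

theorem pres {S : Type} [CommRing S] [IsLocalRing S] [IsNoetherianRing S]
    [IsAdicComplete (maximalIdeal S) S] (h2 : S_EVL) (h4 : S_INJ)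
    (h5 : S_FIN) (σ : ResidueField S →+* S) (hσ : ∀ a, residue S (σ a) = a) {m : ℕ}
    (x : Fin m → S) (hx : IsRed x) (ha : AnInd x) :
    ∃ φ : MvPowerSeries (Fin m) (ResidueField S) →+* S,
      (∀ c, φ (MvPowerSeries.C c) = σ c) ∧
      (∀ i, φ (MvPowerSeries.X i) = x i) ∧ Function.Injective φ ∧ φ.Finite := by
  obtain ⟨φ, hφC, hφX⟩ := h2 (ResidueField S) S σ m x hx.1
  refine ⟨φ, hφC, hφX, ?_, ?_⟩
  · refine h4 (ResidueField S) S m φ (fun i => by rw [hφX]; exact hx.1 i) ?_
    have e : (fun i : Fin m => φ (MvPowerSeries.X i)) = x := funext hφX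
    rw [e]
    exact ha
  · obtain ⟨hx1, r, hr⟩ := hx
    let _ : Algebra (MvPowerSeries (Fin m) (ResidueField S)) S := φ.toAlgebra
    show Module.Finite (MvPowerSeries (Fin m) (ResidueField S)) S
    refine h5 (ResidueField S) S m (r + 1) (fun s => ?_) (fun i => ?_) ?_
    · refine ⟨residue S s, ?_⟩
      have e : algebraMap (MvPowerSeries (Fin m) (ResidueField S)) S
          (MvPowerSeries.C (residue S s)) = σ (residue S s) := hφC _
      rw [e]
      refine (residue_eq_zero_iff _).1 ?_
      rw [map_sub, hσ, sub_self]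
    · have e : algebraMap (MvPowerSeries (Fin m) (ResidueField S)) S (MvPowerSeries.X i) = x i :=
        hφX i
      rw [e]
      exact hx1 i
    · have e : (fun i : Fin m => algebraMap (MvPowerSeries (Fin m) (ResidueField S)) S
          (MvPowerSeries.X i)) = x := funext hφX
      rw [e, hr]
      exact Ideal.mul_le_inf.trans inf_le_left

/-- a domain whose maximal ideal is not zero has no empty reduction -/
theorem pos_of_isRed {S : Type} [CommRing S] [IsDomain S] [IsLocalRing S]
    (hne : maximalIdeal S ≠ ⊥) {m : ℕ} {x : Fin m → S} (hx : IsRed x) : 1 ≤ m := by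
  rcases m with _ | m
  · exfalso
    obtain ⟨_, r, hr⟩ := hx
    have e : Ideal.span (Set.range x) = ⊥ := by
      rw [Ideal.span_eq_bot]
      rintro _ ⟨i, rfl⟩
      exact i.elim0
    rw [e, Ideal.bot_mul] at hr
    apply hne
    rw [eq_bot_iff]
    intro y hy
    have h1 : y ^ (r + 1) ∈ maximalIdeal S ^ (r + 1) := Ideal.pow_mem_pow hy _
    rw [hr, Ideal.mem_bot] at h1
    rw [Ideal.mem_bot]
    exact pow_eq_zero_iff (Nat.succ_ne_zero r) |>.1 h1
  · omega

theorem ch2 (h0 : Pool.Agent.H867.FT.S_PBE) (h1 : Pool.Agent.H867.FT.S_COF)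
    (h2 : Pool.Agent.H867.FT.S_EVL) (h3 : Pool.Agent.H867.FT.S_RED)
    (h4 : Pool.Agent.H867.FT.S_INJ) (h5 : Pool.Agent.H867.FT.S_FIN)
    (h6 : Pool.Agent.H867.FT.S_PBF) (h7 : Pool.Agent.H867.FT.S_SEP)
    (h8 : Pool.Agent.H867.FT.S_DMS) : Pool.Agent.H867.FT.S_CH2 := by
  intro p _ S _ _ _ _ _ _ _ _ hfrob hne
  classical
  obtain ⟨s, t, ht⟩ := h0 p (ResidueField S) hfrob
  have hlift : ∀ i, ∃ y : S, residue S y = t i := fun i => residue_surjective (t i)
  choose τ hτ using hlift
  have hτt : (fun i => residue S (τ i)) = t := funext hτ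
  obtain ⟨σ, hσ, hστ⟩ := h1 p S s τ (by rw [hτt]; exact ht)
  have hex : ∃ m : ℕ, ∃ x : Fin m → S, IsRed x := by
    obtain ⟨m, x, hx⟩ := Submodule.fg_iff_exists_fin_generating_family.1
      (IsNoetherian.noetherian (maximalIdeal S))
    refine ⟨m, x, fun i => ?_, 0, ?_⟩
    · rw [← hx]
      exact Submodule.subset_span ⟨i, rfl⟩
    · rw [zero_add, pow_one, pow_zero, mul_one]
      exact hx.symm
  obtain ⟨m, hm, hmin'⟩ : ∃ m : ℕ, (∃ x : Fin m → S, IsRed x) ∧
      ∀ n < m, ¬ ∃ x : Fin n → S, IsRed x :=
    ⟨Nat.find hex, Nat.find_spec hex, fun n hn => Nat.find_min hex hn⟩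
  have hmin : ∀ x : Fin m → S, IsRed x → AnInd x := by
    rcases m with _ | m
    · intro x _
      exact anInd_zero x
    · intro x hx
      by_contra hna
      exact hmin' m (Nat.lt_succ_self m) (h3 S m x hx hna)
  obtain ⟨x, hx⟩ := hm
  have hm1 : 1 ≤ m := pos_of_isRed hne hx
  obtain ⟨φ, hφC, hφX, hφi, hφf⟩ := pres h2 h4 h5 σ hσ x hx (hmin x hx)
  have : CharP (FractionRing S) p :=
    charP_of_injective_algebraMap (IsFractionRing.injective S (FractionRing S)) p
  obtain ⟨τ', x', hτ', hx', hadj⟩ : ∃ (τ' : Fin s → S) (x' : Fin m → S),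
      (∀ i, τ' i - τ i ∈ maximalIdeal S ^ 2) ∧ (∀ i, x' i - x i ∈ maximalIdeal S ^ 2) ∧
      IntermediateField.adjoin (frobenius (FractionRing S) p).fieldRange
        ((Set.range fun i => algebraMap S (FractionRing S) (τ' i)) ∪
          Set.range fun i => algebraMap S (FractionRing S) (x' i)) = ⊤ := by
    let _ : Algebra (MvPowerSeries (Fin m) (ResidueField S)) S := φ.toAlgebra
    have : Module.Finite (MvPowerSeries (Fin m) (ResidueField S)) S := hφf
    have : FaithfulSMul (MvPowerSeries (Fin m) (ResidueField S)) S :=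
      (faithfulSMul_iff_algebraMap_injective _ _).2 hφi
    exact h6 p (ResidueField S) s m t ht hm1 S (FractionRing S) τ x
  have hτ't : (fun i => residue S (τ' i)) = t := by
    funext i
    have h9 : residue S (τ' i - τ i) = 0 :=
      (residue_eq_zero_iff _).2 (Ideal.pow_le_self two_ne_zero (hτ' i))
    rw [map_sub, sub_eq_zero] at h9
    rw [h9, hτ]
  obtain ⟨σ', hσ', hστ'⟩ := h1 p S s τ' (by rw [hτ't]; exact ht)
  have hxr := isRed_congr hx hx'
  obtain ⟨ψ, hψC, hψX, hψi, hψf⟩ := pres h2 h4 h5 σ' hσ' x' hxr (hmin x' hxr)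
  refine ⟨ResidueField S, inferInstance, inferInstance, inferInstance, m, ψ.toAlgebra, hfrob, ?_⟩
  let _ : Algebra (MvPowerSeries (Fin m) (ResidueField S)) S := ψ.toAlgebra
  have hfin : Module.Finite (MvPowerSeries (Fin m) (ResidueField S)) S := hψf
  have hfai : FaithfulSMul (MvPowerSeries (Fin m) (ResidueField S)) S :=
    (faithfulSMul_iff_algebraMap_injective _ _).2 hψi
  refine ⟨hfin, hfai, ?_, ?_, h8 (ResidueField S) m S, ?_⟩
  · intro y
    refine ⟨residue S y, ?_⟩
    have e : algebraMap (MvPowerSeries (Fin m) (ResidueField S)) S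
        (MvPowerSeries.C (residue S y)) = σ' (residue S y) := hψC _
    rw [e]
    refine (residue_eq_zero_iff _).1 ?_
    rw [map_sub, hσ', sub_self]
  · obtain ⟨_, r, hr⟩ := hxr
    refine ⟨r, ?_⟩
    rw [(Pool.Agent.H707.FT867.psg (ResidueField S) m).1, Ideal.map_span, ← Set.range_comp, hr]
    have e : (algebraMap (MvPowerSeries (Fin m) (ResidueField S)) S) ∘
        (fun i : Fin m => (MvPowerSeries.X i : MvPowerSeries (Fin m) (ResidueField S))) = x' :=
      funext hψX
    rw [e]
  · intro L K _ _ _ _ _ _ _ _ _ _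
    have : CharP K p := charP_of_injective_algebraMap (IsFractionRing.injective S K) p
    have : IsDomain (MvPowerSeries (Fin m) (ResidueField S)) := NoZeroDivisors.to_isDomain _
    have : FiniteDimensional L K :=
      finite_frac (MvPowerSeries (Fin m) (ResidueField S)) S L K
    refine h7 p L K ?_
    rw [eq_top_iff]
    intro w _
    let e : FractionRing S ≃ₐ[S] K := FractionRing.algEquiv S K
    have key : ∀ z : FractionRing S, e z ∈
        IntermediateField.adjoin (frobenius K p).fieldRange (Set.range (algebraMap L K)) := by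
      intro z
      have hz : z ∈ IntermediateField.adjoin (frobenius (FractionRing S) p).fieldRange
          ((Set.range fun i => algebraMap S (FractionRing S) (τ' i)) ∪
            Set.range fun i => algebraMap S (FractionRing S) (x' i)) := by
        rw [hadj]
        exact IntermediateField.mem_top
      induction hz using IntermediateField.adjoin_induction with
      | mem y hy =>
        rcases hy with ⟨i, rfl⟩ | ⟨i, rfl⟩
        · refine IntermediateField.subset_adjoin _ _ ?_
          refine ⟨algebraMap (MvPowerSeries (Fin m) (ResidueField S)) L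
            (MvPowerSeries.C (residue S (τ' i))), ?_⟩
          rw [← IsScalarTower.algebraMap_apply, IsScalarTower.algebraMap_apply _ S K]
          have e1 : algebraMap (MvPowerSeries (Fin m) (ResidueField S)) S
              (MvPowerSeries.C (residue S (τ' i))) = τ' i := (hψC _).trans (hστ' i)
          rw [e1]
          exact (e.commutes (τ' i)).symm
        · refine IntermediateField.subset_adjoin _ _ ?_
          refine ⟨algebraMap (MvPowerSeries (Fin m) (ResidueField S)) L (MvPowerSeries.X i), ?_⟩
          rw [← IsScalarTower.algebraMap_apply, IsScalarTower.algebraMap_apply _ S K]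
          have e1 : algebraMap (MvPowerSeries (Fin m) (ResidueField S)) S (MvPowerSeries.X i) =
            x' i := hψX i
          rw [e1]
          exact (e.commutes (x' i)).symm
      | algebraMap y =>
        obtain ⟨y, y', rfl⟩ := y
        have e2 : e (frobenius (FractionRing S) p y') = frobenius K p (e y') := by
          rw [frobenius_def, frobenius_def, map_pow]
        show e (frobenius (FractionRing S) p y') ∈ _
        rw [e2]
        exact IntermediateField.algebraMap_mem _
          (⟨frobenius K p (e y'), ⟨e y', rfl⟩⟩ : (frobenius K p).fieldRange)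
      | add a b _ _ ha hb =>
        rw [map_add]
        exact add_mem ha hb
      | inv a _ ha =>
        rw [map_inv₀]
        exact inv_mem ha
      | mul a b _ _ ha hb =>
        rw [map_mul]
        exact mul_mem ha hb
    have h9 := key (e.symm w)
    rw [AlgEquiv.apply_symm_apply] at h9
    exact h9

end Pool.Agent.H249.FT867CH2
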