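import Pool.Agent.H249.RD

set_option autoImplicit false
open Set Filter Topology
open H535R3 (Sol fl P Cc Kx MM)

namespace Pool.Agent.H249

/-- The locking property of the frozen form. -/
lemma lock_frozen {ω : ℝ} (hω : 0 < ω) (B A : ℝ) (s : ℤ) :
    (∀ φ : ℝ → ℝ,
      (∀ t : ℝ, HasDerivAt φ (-Real.sin (φ t) + B + A * Real.cos (ω * t)) t) →
      Tendsto (fun t : ℝ => φ t / (ω * t)) atTop (𝓝 (s : ℝ))) ↔
    ∃ x, P (B / ω) (A / ω) (1 / ω) x = x + 2 * Real.pi * s := by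
  have h := H535R3.mem_LL hω s B A
  have h1 : ((B, A) ∈ H535R3.LL ω s) ↔ (∀ φ : ℝ → ℝ,
      (∀ t : ℝ, HasDerivAt φ (-Real.sin (φ t) + B + A * Real.cos (ω * t)) t) →
      Tendsto (fun t : ℝ => φ t / t) atTop (𝓝 ((s : ℝ) * ω))) := Iff.rfl
  rw [h1] at h
  have h2 : ((B / ω, A / ω) ∈ H535R3.Ls s (1 / ω)) ↔
    ∃ x, P (B / ω) (A / ω) (1 / ω) x = x + 2 * Real.pi * s := Iff.rfl
  rw [h2] at h
  rw [← h]
  refine forall_congr' fun φ => imp_congr_right fun _ => ?_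
  constructor
  · intro h3
    have h4 := h3.mul_const ω
    refine h4.congr fun t => ?_
    by_cases ht : t = 0
    · simp [ht]
    · field_simp
  · intro h3
    have h4 := h3.div_const ω
    rw [mul_div_cancel_right₀ _ hω.ne'] at h4
    refine h4.congr fun t => ?_
    by_cases ht : t = 0
    · simp [ht]
    · field_simp

/-- Boundary points in the frozen form. -/
lemma bd_frozen {σ : ℝ} (hσ : σ = 1 ∨ σ = -1) {s : ℤ} {L Bd : ℝ → ℝ → ℝ → Prop}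
    (hL : ∀ ω B A, L ω B A ↔
        ∀ φ : ℝ → ℝ,
          (∀ t : ℝ, HasDerivAt φ (-Real.sin (φ t) + B + A * Real.cos (ω * t)) t) →
          Tendsto (fun t : ℝ => φ t / (ω * t)) atTop (𝓝 (s : ℝ)))
    (hBd : ∀ ω B A, Bd ω B A ↔ (L ω B A ∧ ∀ B' : ℝ, 0 < σ * (B' - B) → ¬ L ω B' A))
    {ω : ℝ} (hω : 0 < ω) (B A : ℝ) :
    Bd ω B A ↔ ms σ (B / ω) (A / ω) (1 / ω) = 2 * Real.pi * s := by
  rw [← bd_iff hσ, hBd, hL, lock_frozen hω]
  refine and_congr_right fun _ => ⟨fun h b' hb' => ?_, fun h B' hB' => ?_⟩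
  · have h1 := h (ω * b') (by
      have : σ * (ω * b' - B) = ω * (σ * (b' - B / ω)) := by field_simp
      rw [this]; positivity)
    rw [hL, lock_frozen hω, mul_div_cancel_left₀ _ hω.ne'] at h1
    exact h1
  · rw [hL, lock_frozen hω]
    refine h (B' / ω) ?_
    have : σ * (B' / ω - B / ω) = (σ * (B' - B)) / ω := by field_simp
    rw [this]; positivity

theorem frozen_form (ω₀ : ℝ) (hω₀ : 0 < ω₀) (l : ℕ) (hl : 1 ≤ l) (s : ℕ) (A₀ : ℝ) (hA₀ : 0 < A₀)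
    (σ : ℝ) (hσ : σ = 1 ∨ σ = -1) (L : ℝ → ℝ → ℝ → Prop)
    (hL : ∀ ω B A, L ω B A ↔
        ∀ φ : ℝ → ℝ,
          (∀ t : ℝ, HasDerivAt φ (-Real.sin (φ t) + B + A * Real.cos (ω * t)) t) →
          Tendsto (fun t : ℝ => φ t / (ω * t)) atTop (𝓝 ((s : ℤ) : ℝ)))
    (Bd : ℝ → ℝ → ℝ → Prop)
    (hBd : ∀ ω B A, Bd ω B A ↔ (L ω B A ∧ ∀ B' : ℝ, 0 < σ * (B' - B) → ¬ L ω B' A)) :
    ¬ (Bd ω₀ ((l : ℝ) * ω₀) A₀ ∧
        (∃ ε > (0 : ℝ), ∀ B A : ℝ, |B - (l : ℝ) * ω₀| < ε → |A - A₀| < ε →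
            Bd ω₀ B A → (l : ℝ) * ω₀ ≤ B) ∧
        (∃ ε > (0 : ℝ), ∃ δ > (0 : ℝ), ∀ ω A : ℝ, ω₀ < ω → ω < ω₀ + δ →
            |(l : ℝ) * ω - (l : ℝ) * ω₀| < ε → |A - A₀| < ε →
            ¬ Bd ω ((l : ℝ) * ω) A)) := by
  rintro ⟨H1, ⟨ε2, hε2, H2⟩, ε3, hε3, δ3, hδ3, H3⟩
  obtain ⟨n, rfl⟩ : ∃ n, l = n + 1 := ⟨l - 1, by omega⟩
  have hcast : (((n + 1 : ℕ)) : ℝ) = (n:ℝ) + 1 := by push_cast; ring
  rw [hcast] at H1 H2 H3
  rw [bd_frozen hσ hL hBd hω₀, mul_div_cancel_right₀ _ hω₀.ne'] at H1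
  refine scaled (n := n) (k := (s:ℤ)) (ε0 := 1 / ω₀) (a0 := A₀ / ω₀) (σ := σ) (by positivity)
    (by positivity) (by positivity) H1 ?_ ?_
  · refine ⟨ε2 / ω₀, by positivity, fun b a hb ha h => ?_⟩
    have h1 := H2 (b * ω₀) (a * ω₀) (by
      rw [← sub_mul, abs_mul, abs_of_pos hω₀]
      rwa [lt_div_iff₀ hω₀] at hb) (by
      have : a * ω₀ - A₀ = (a - A₀ / ω₀) * ω₀ := by field_simp
      rw [this, abs_mul, abs_of_pos hω₀]
      rwa [lt_div_iff₀ hω₀] at ha) (by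
      rw [bd_frozen hσ hL hBd hω₀, mul_div_cancel_right₀ _ hω₀.ne', mul_div_cancel_right₀ _ hω₀.ne']
      exact h)
    exact le_of_mul_le_mul_right h1 hω₀
  · -- the third hypothesis in the scaled variables
    have hne : (1 / ω₀ : ℝ) ≠ 0 := by positivity
    have hc1 : ContinuousAt (fun x : ℝ × ℝ => 1 / x.1) (1 / ω₀, A₀ / ω₀) :=
      ContinuousAt.div continuousAt_const continuousAt_fst hne
    have hc2 : ContinuousAt (fun x : ℝ × ℝ => ((n:ℝ) + 1) * (1 / x.1) - ((n:ℝ) + 1) * ω₀)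
        (1 / ω₀, A₀ / ω₀) := (hc1.const_mul _).sub continuousAt_const
    have hc3 : ContinuousAt (fun x : ℝ × ℝ => x.2 * (1 / x.1) - A₀) (1 / ω₀, A₀ / ω₀) :=
      (continuousAt_snd.mul hc1).sub continuousAt_const
    have e1 : ∀ᶠ x : ℝ × ℝ in 𝓝 (1 / ω₀, A₀ / ω₀), 0 < x.1 :=
      continuousAt_fst.eventually (lt_mem_nhds (by positivity : (0:ℝ) < 1 / ω₀))
    have e2 : ∀ᶠ x : ℝ × ℝ in 𝓝 (1 / ω₀, A₀ / ω₀), 1 / x.1 < ω₀ + δ3 :=
      hc1.eventually (gt_mem_nhds (by simp only; rw [one_div_one_div]; linarith))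
    have e3 : ∀ᶠ x : ℝ × ℝ in 𝓝 (1 / ω₀, A₀ / ω₀), |((n:ℝ) + 1) * (1 / x.1) - ((n:ℝ) + 1) * ω₀| < ε3 :=
      hc2.abs.eventually (gt_mem_nhds (by simp only; rw [one_div_one_div, sub_self, abs_zero]; exact hε3))
    have e4 : ∀ᶠ x : ℝ × ℝ in 𝓝 (1 / ω₀, A₀ / ω₀), |x.2 * (1 / x.1) - A₀| < ε3 :=
      hc3.abs.eventually (gt_mem_nhds (by
        simp only; rw [one_div_one_div, div_mul_cancel₀ _ hω₀.ne', sub_self, abs_zero]; exact hε3))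
    have hall := (e1.and e2).and (e3.and e4)
    rw [Metric.eventually_nhds_iff] at hall
    obtain ⟨δ, hδ, hall⟩ := hall
    refine ⟨δ, hδ, fun ε a g1 g2 g3 hbd => ?_⟩
    obtain ⟨⟨f1, f2⟩, f3, f4⟩ := hall (y := (ε, a)) (by
      rw [Prod.dist_eq, max_lt_iff, Real.dist_eq, Real.dist_eq]
      exact ⟨by rw [abs_lt]; constructor <;> linarith, g3⟩)
    simp only at f1 f2 f3 f4
    have hωp : 0 < 1 / ε := by positivity
    refine H3 (1 / ε) (a * (1 / ε)) ?_ f2 f3 f4 ?_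
    · rw [lt_one_div hω₀ f1]; exact g2
    · rw [bd_frozen hσ hL hBd hωp, mul_div_cancel_right₀ _ hωp.ne', mul_div_cancel_right₀ _ hωp.ne',
        one_div_one_div]
      exact hbd

end Pool.Agent.H249
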