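import Mathlib
import Pool.Agent.H638.GM.StmB

/-! Project GM part B (helper638): LBM from LBC. -/

set_option autoImplicit false

open MeasureTheory Set Filter Topology
open scoped ENNReal NNReal

namespace Pool.Agent.H249.GMBLBM

open Pool.Agent.H638.GM

theorem main (h : S_LBC) : S_LBM := by
  intro g x r hr hr2
  rw [MeasureTheory.Measure.hausdorffMeasure_apply]
  refine le_iSup₂_of_le (1 : ℝ≥0∞) one_pos ?_
  refine le_iInf fun t => le_iInf fun ht => le_iInf fun _ => ?_
  refine (h g x r hr hr2 t ht).trans (ENNReal.tsum_le_tsum fun n => ?_)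
  rcases (t n).eq_empty_or_nonempty with h0 | h0
  · rw [h0, Metric.ediam_empty, zero_pow two_ne_zero]
    exact zero_le
  · refine le_trans ?_ (le_iSup (fun _ : (t n).Nonempty => Metric.ediam (t n) ^ (2 : ℝ)) h0)
    rw [ENNReal.rpow_two]

end Pool.Agent.H249.GMBLBM
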