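import Pool.Agent.H979.GW.StmA

/-!
# GW PERT: perturbation of the Perron eigenvalue
-/

set_option autoImplicit false

open Filter Topology

namespace Pool.Agent.H249

open Pool.Agent.H979.GW

theorem gw_pert {Q : Type} [Fintype Q] [DecidableEq Q] : S_PERT Q := by
  intro A D ρ e m C r pf hρ hA hD δ hδ
  have hρ0 : ρ ≠ 0 := hρ.ne'
  obtain ⟨β, hβ⟩ : ∃ β : ℝ, β = ρ⁻¹ * (∑ a, m a * ∑ b, D a b * e b) := ⟨_, rfl⟩
  rw [← hβ]
  obtain ⟨h, hh⟩ : ∃ h : Q → ℝ, ∀ a, h a = ρ⁻¹ * (∑ b, D a b * e b) - β * e a := ⟨_, fun _ => rfl⟩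
  -- `m(h) = 0`
  have hm : ∑ b, m b * h b = 0 := by
    have h1 : ∑ b, m b * h b = ρ⁻¹ * (∑ a, m a * ∑ b, D a b * e b) - β * ∑ b, m b * e b := by
      rw [Finset.mul_sum, Finset.mul_sum, ← Finset.sum_sub_distrib]
      refine Finset.sum_congr rfl fun b _ => ?_
      rw [hh]; ring
    rw [h1, pf.m_e, ← hβ]; ring
  have hM : ∀ b, |h b| ≤ ∑ a, |h a| := fun b =>
    Finset.single_le_sum (f := fun a => |h a|) (fun a _ => abs_nonneg (h a)) (Finset.mem_univ b)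
  obtain ⟨M, hMe⟩ : ∃ M : ℝ, M = ∑ a, |h a| := ⟨_, rfl⟩
  rw [← hMe] at hM
  -- the iterates
  obtain ⟨X, hX⟩ : ∃ X : ℕ → Q → ℝ, ∀ j a, X j a = (ρ⁻¹) ^ j * (A ^ j).mulVec h a :=
    ⟨_, fun _ _ => rfl⟩
  have hX0 : ∀ a, X 0 a = h a := fun a => by rw [hX]; simp
  have hXb : ∀ j a, |X j a| ≤ C * r ^ j * M := by
    intro j a
    have := pf.conv h M hM j a
    rw [hm, zero_mul, sub_zero, ← hX] at this
    exact this
  have hXs : ∀ j a, ∑ b, A a b * X j b = ρ * X (j + 1) a := by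
    intro j a
    have h1 : (A ^ (j + 1)).mulVec h a = ∑ b, A a b * (A ^ j).mulVec h b := by
      rw [pow_succ', ← Matrix.mulVec_mulVec]
      rfl
    rw [hX (j + 1) a, h1, Finset.mul_sum, Finset.mul_sum]
    refine Finset.sum_congr rfl fun b _ => ?_
    rw [hX, pow_succ]
    field_simp
  -- the lower bound for `e`
  obtain ⟨S, hS⟩ : ∃ S : ℝ, S = ∑ a, (e a)⁻¹ := ⟨_, rfl⟩
  have hS0 : 0 ≤ S := by
    rw [hS]
    exact Finset.sum_nonneg fun a _ => inv_nonneg.2 (pf.e_pos a).le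
  have hSe : ∀ a, 1 ≤ S * e a := by
    intro a
    have h1 : (e a)⁻¹ ≤ S := by
      rw [hS]
      exact Finset.single_le_sum (f := fun a => (e a)⁻¹)
        (fun a _ => inv_nonneg.2 (pf.e_pos a).le) (Finset.mem_univ a)
    have h2 := mul_le_mul_of_nonneg_right h1 (pf.e_pos a).le
    rwa [inv_mul_cancel₀ (pf.e_pos a).ne'] at h2
  obtain ⟨N, hN⟩ : ∃ N : ℕ, C * r ^ N * M * S ≤ δ / 2 := by
    have h1 : Tendsto (fun n : ℕ => C * r ^ n * M * S) atTop (𝓝 (C * 0 * M * S)) :=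
      (((tendsto_pow_atTop_nhds_zero_of_lt_one pf.r_nonneg pf.r_lt).const_mul C).mul_const
        M).mul_const S
    rw [mul_zero, zero_mul, zero_mul] at h1
    exact (h1.eventually_le_const (by positivity : (0 : ℝ) < δ / 2)).exists
  have hXN : ∀ a, |X N a| ≤ δ / 2 * e a := by
    intro a
    have h0 : 0 ≤ C * r ^ N * M := (abs_nonneg _).trans (hXb N a)
    calc |X N a| ≤ C * r ^ N * M := hXb N a
      _ = C * r ^ N * M * 1 := (mul_one _).symm
      _ ≤ C * r ^ N * M * (S * e a) := mul_le_mul_of_nonneg_left (hSe a) h0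
      _ = C * r ^ N * M * S * e a := by ring
      _ ≤ δ / 2 * e a := mul_le_mul_of_nonneg_right hN (pf.e_pos a).le
  -- the corrector
  obtain ⟨χ, hχ⟩ : ∃ χ : Q → ℝ, ∀ a, χ a = -∑ j ∈ Finset.range N, X j a := ⟨_, fun _ => rfl⟩
  have hχs : ∀ a, ∑ b, A a b * χ b = ρ * (χ a + h a - X N a) := by
    intro a
    have h1 : ∑ b, A a b * χ b = -∑ j ∈ Finset.range N, ∑ b, A a b * X j b := by
      rw [Finset.sum_comm, ← Finset.sum_neg_distrib]
      refine Finset.sum_congr rfl fun b _ => ?_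
      rw [hχ, mul_neg, Finset.mul_sum]
    have h2 : ∑ j ∈ Finset.range N, X (j + 1) a = ∑ j ∈ Finset.range N, X j a + X N a - X 0 a := by
      have := Finset.sum_range_succ (fun j => X j a) N
      have h3 := Finset.sum_range_succ' (fun j => X j a) N
      linarith
    rw [h1, Finset.sum_congr rfl fun j _ => hXs j a, ← Finset.mul_sum, h2, hX0, hχ]
    ring
  obtain ⟨K, hK⟩ : ∃ K : ℝ, K = ∑ a, |χ a| * (e a)⁻¹ := ⟨_, rfl⟩
  obtain ⟨K', hK'⟩ : ∃ K' : ℝ, K' = ∑ a, |ρ⁻¹ * ∑ b, D a b * χ b| * (e a)⁻¹ := ⟨_, rfl⟩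
  have hK0 : 0 ≤ K := by
    rw [hK]
    exact Finset.sum_nonneg fun a _ => mul_nonneg (abs_nonneg _) (inv_nonneg.2 (pf.e_pos a).le)
  have hK0' : 0 ≤ K' := by
    rw [hK']
    exact Finset.sum_nonneg fun a _ => mul_nonneg (abs_nonneg _) (inv_nonneg.2 (pf.e_pos a).le)
  have bd : ∀ (F : Q → ℝ) (a : Q), |F a| ≤ (∑ a, |F a| * (e a)⁻¹) * e a := by
    intro F a
    have h1 : |F a| * (e a)⁻¹ ≤ ∑ a, |F a| * (e a)⁻¹ :=
      Finset.single_le_sum (f := fun a => |F a| * (e a)⁻¹)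
        (fun a _ => mul_nonneg (abs_nonneg _) (inv_nonneg.2 (pf.e_pos a).le)) (Finset.mem_univ a)
    have h2 := mul_le_mul_of_nonneg_right h1 (pf.e_pos a).le
    rwa [inv_mul_cancel_right₀ (pf.e_pos a).ne'] at h2
  have hχK : ∀ a, |χ a| ≤ K * e a := fun a => by rw [hK]; exact bd χ a
  have hDK : ∀ a, |ρ⁻¹ * ∑ b, D a b * χ b| ≤ K' * e a := fun a => by
    rw [hK']; exact bd (fun a => ρ⁻¹ * ∑ b, D a b * χ b) a
  obtain ⟨R, hR⟩ : ∃ R : ℝ, R = K' + |β - δ| * K := ⟨_, rfl⟩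
  have hR0 : 0 ≤ R := by rw [hR]; positivity
  refine ⟨min (1 / (2 * (K + 1))) (δ / (2 * (R + 1))), lt_min (by positivity) (by positivity), ?_⟩
  intro θ hθ hθ0
  have h1 : θ * K ≤ 1 / 2 := by
    have h2 := hθ0.trans (min_le_left _ _)
    rw [le_div_iff₀ (by positivity)] at h2
    nlinarith
  have h2 : θ * R ≤ δ / 2 := by
    have h2 := hθ0.trans (min_le_right _ _)
    rw [le_div_iff₀ (by positivity)] at h2
    nlinarith
  have hθχ : ∀ a, |θ * χ a| ≤ e a / 2 := by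
    intro a
    rw [abs_mul, abs_of_pos hθ]
    calc θ * |χ a| ≤ θ * (K * e a) := mul_le_mul_of_nonneg_left (hχK a) hθ.le
      _ = θ * K * e a := by ring
      _ ≤ 1 / 2 * e a := mul_le_mul_of_nonneg_right h1 (pf.e_pos a).le
      _ = e a / 2 := by ring
  refine ⟨fun a => e a + θ * χ a, fun a => ?_, fun a => ?_, fun a => ?_⟩
  · have := (abs_le.1 (hθχ a)).1
    show e a / 2 ≤ e a + θ * χ a
    linarith
  · have := (abs_le.1 (hθχ a)).2
    have := pf.e_pos a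
    show e a + θ * χ a ≤ 2 * e a
    linarith
  · show ∑ b, (A a b - θ * D a b) * (e b + θ * χ b) ≤ ρ * (1 - θ * (β - δ)) * (e a + θ * χ a)
    have e1 : ∑ b, (A a b - θ * D a b) * (e b + θ * χ b) = ∑ b, A a b * e b +
        θ * ∑ b, A a b * χ b - θ * ∑ b, D a b * e b - θ ^ 2 * ∑ b, D a b * χ b := by
      rw [Finset.mul_sum, Finset.mul_sum, Finset.mul_sum, ← Finset.sum_add_distrib,
        ← Finset.sum_sub_distrib, ← Finset.sum_sub_distrib]
      refine Finset.sum_congr rfl fun b _ => ?_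
      ring
    have e2 : ∑ b, D a b * e b = ρ * (h a + β * e a) := by
      rw [hh]; field_simp; ring
    have e3 : ∑ b, D a b * χ b = ρ * (ρ⁻¹ * ∑ b, D a b * χ b) := by
      field_simp
    obtain ⟨y, hy⟩ : ∃ y : ℝ, y = ρ⁻¹ * ∑ b, D a b * χ b := ⟨_, rfl⟩
    rw [e1, e3, ← hy, e2, hχs, pf.right]
    have b1 : -X N a ≤ δ / 2 * e a := (neg_le_abs _).trans (hXN a)
    have b2 : -y ≤ K' * e a := (neg_le_abs _).trans (by rw [hy]; exact hDK a)
    have b3 : (β - δ) * χ a ≤ |β - δ| * (K * e a) := by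
      refine (le_abs_self _).trans ?_
      rw [abs_mul]
      exact mul_le_mul_of_nonneg_left (hχK a) (abs_nonneg _)
    have b4 : θ * (-y + (β - δ) * χ a) ≤ δ / 2 * e a := by
      calc θ * (-y + (β - δ) * χ a) ≤ θ * (K' * e a + |β - δ| * (K * e a)) :=
            mul_le_mul_of_nonneg_left (add_le_add b2 b3) hθ.le
        _ = θ * R * e a := by rw [hR]; ring
        _ ≤ δ / 2 * e a := mul_le_mul_of_nonneg_right h2 (pf.e_pos a).le
    have b5 : 0 ≤ ρ * θ * (δ * e a - (-X N a + θ * (-y + (β - δ) * χ a))) := by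
      apply mul_nonneg (mul_nonneg hρ.le hθ.le)
      linarith
    linarith [b5]

end Pool.Agent.H249
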