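import Mathlib
import Pool.Agent.H812.Gi.Spec

/-!
# Project GI: from a leaf to the starting line (`GEnd`)
-/

set_option autoImplicit false

open Real Filter Topology Set
open scoped ContDiff

namespace Pool.Agent.H249.GiEnd

open Pool.Agent.W811.Stu Pool.Agent.H812.Tm Pool.Agent.H812.Gi

/-! ### general facts on `Tr` -/

lemma Tr_trans {d : ℕ → ℕ} {c c' c'' : ℝ → P3} {s0 t0 r0 : ℝ} (h1 : Tr d c s0 c' t0)
    (h2 : Tr d c' t0 c'' r0) : Tr d c s0 c'' r0 := by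
  obtain ⟨C1, hC1, H1⟩ := h1
  obtain ⟨C2, hC2, H2⟩ := h2
  refine ⟨C1 * C2, mul_pos hC1 hC2, fun ε hε => ?_⟩
  obtain ⟨η2, hη2, M2, K2⟩ := H2 ε hε
  obtain ⟨η1, hη1, M1, K1⟩ := H1 η2 hη2
  refine ⟨η1, hη1, max M1 M2, fun M hM => ?_⟩
  obtain ⟨f, hf⟩ := K1 M (le_trans (le_max_left _ _) hM)
  obtain ⟨g, hg⟩ := K2 M (le_trans (le_max_right _ _) hM)
  refine ⟨fun s => g (f s), fun s hs hz => ?_⟩
  obtain ⟨a1, a2, a3⟩ := hf s hs hz
  obtain ⟨b1, b2, b3⟩ := hg (f s) a1 a2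
  refine ⟨b1, b2, fun s' hs' hz' => ?_⟩
  obtain ⟨a1', a2', -⟩ := hf s' hs' hz'
  have e1 := a3 s' hs' hz'
  have e2 := b3 (f s') a1' a2'
  calc |s - s'| ≤ C1 * |f s - f s'| := e1
    _ ≤ C1 * (C2 * |g (f s) - g (f s')|) := mul_le_mul_of_nonneg_left e2 hC1.le
    _ = C1 * C2 * |g (f s) - g (f s')| := by ring

lemma Tr_congr {d d' : ℕ → ℕ} {c c' e e' : ℝ → P3} {s0 t0 : ℝ} (k : ℕ)
    (h1 : ∀ M s, ZM d M c s ↔ ZM d' (k + M) e s) (h2 : ∀ M s, ZM d M c' s ↔ ZM d' (k + M) e' s)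
    (h : Tr d c s0 c' t0) : Tr d' e s0 e' t0 := by
  obtain ⟨C, hC, H⟩ := h
  refine ⟨C, hC, fun ε hε => ?_⟩
  obtain ⟨η, hη, M0, K⟩ := H ε hε
  refine ⟨η, hη, k + M0, fun M hM => ?_⟩
  obtain ⟨N, rfl⟩ : ∃ N, M = k + N := ⟨M - k, by omega⟩
  obtain ⟨f, hf⟩ := K N (by omega)
  refine ⟨f, fun s hs hz => ?_⟩
  obtain ⟨a1, a2, a3⟩ := hf s hs ((h1 N s).2 hz)
  exact ⟨a1, (h2 N (f s)).1 a2, fun s' hs' hz' => a3 s' hs' ((h1 N s').2 hz')⟩

lemma ZM_shift (d : ℕ → ℕ) (n M : ℕ) (c : ℝ → P3) (s : ℝ) :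
    ZM (shd d n) M c s ↔ ZM d (n + M) (fun s => borb d n (c s)) s := by
  unfold ZM
  rw [orb_add, orb_borb]
  rfl

lemma Tr_shift {d : ℕ → ℕ} {n : ℕ} {c c' : ℝ → P3} {s0 t0 : ℝ} (h : Tr (shd d n) c s0 c' t0) :
    Tr d (fun s => borb d n (c s)) s0 (fun s => borb d n (c' s)) t0 :=
  Tr_congr n (fun M s => ZM_shift d n M c s) (fun M s => ZM_shift d n M c' s) h

lemma shd_zero (d : ℕ → ℕ) : shd d 0 = d := by
  funext k; unfold shd; rw [zero_add]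

/-! ### the symmetry -/

/-- changes of signs -/
def sg2 (a b : ℝ) (p : P3) : P3 := ⟨a * p.z, b * p.y, a * b * p.x⟩

lemma stepR_sg2 {a b : ℝ} (hb : b * b = 1) (p : P3) :
    stepR (sg2 a b p) = sg2 (a * b) b (stepR p) := by
  unfold sg2 stepR
  ext
  · rfl
  · rfl
  · simp only
    linear_combination (2 * a * p.x * p.y - a * (2 * p.x * p.y - p.z)) * hb

lemma stepS_sg2 (a b : ℝ) (p : P3) : stepS (sg2 a b p) = sg2 b a (stepS p) := by
  unfold sg2 stepS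
  ext
  · rfl
  · rfl
  · simp only; ring

lemma iter_sg2 (k : ℕ) : ∀ {a b : ℝ}, a * a = 1 → b * b = 1 → ∃ a' b' : ℝ, a' * a' = 1 ∧
    b' * b' = 1 ∧ ∀ p, stepR^[k] (sg2 a b p) = sg2 a' b' (stepR^[k] p) := by
  induction k with
  | zero => intro a b ha hb; exact ⟨a, b, ha, hb, fun p => rfl⟩
  | succ k ih =>
    intro a b ha hb
    obtain ⟨a', b', ha', hb', h⟩ := ih (a := a * b) (b := b)
      (by linear_combination b * b * ha + hb) hb
    refine ⟨a', b', ha', hb', fun p => ?_⟩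
    rw [Function.iterate_succ_apply, Function.iterate_succ_apply, stepR_sg2 hb, h]

lemma orb_sg2 (d : ℕ → ℕ) (M : ℕ) : ∃ a b : ℝ, a * a = 1 ∧ b * b = 1 ∧
    ∀ p, orb d (sg2 1 (-1) p) M = sg2 a b (orb d p M) := by
  induction M with
  | zero => exact ⟨1, -1, by norm_num, by norm_num, fun p => rfl⟩
  | succ M ih =>
    obtain ⟨a, b, ha, hb, h⟩ := ih
    obtain ⟨a', b', ha', hb', h'⟩ := iter_sg2 (d M) ha hb
    refine ⟨b', a', hb', ha', fun p => ?_⟩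
    show stepS (stepR^[d M] (orb d (sg2 1 (-1) p) M)) = sg2 b' a' (stepS (stepR^[d M] (orb d p M)))
    rw [h, h', stepS_sg2]

/-- the symmetry of trace space -/
def sgm (p : P3) : P3 := sg2 1 (-1) p

lemma sgm_z (p : P3) : (sgm p).z = p.z := by unfold sgm sg2; simp
lemma sgm_y (p : P3) : (sgm p).y = -p.y := by unfold sgm sg2; simp
lemma sgm_x (p : P3) : (sgm p).x = -p.x := by unfold sgm sg2; simp

lemma sgm_sgm (p : P3) : sgm (sgm p) = p := by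
  ext
  · rw [sgm_z, sgm_z]
  · rw [sgm_y, sgm_y, neg_neg]
  · rw [sgm_x, sgm_x, neg_neg]

lemma abs_eq_one_of {b : ℝ} (hb : b * b = 1) : |b| = 1 := by
  rcases mul_self_eq_one_iff.1 hb with h | h
  · rw [h, abs_one]
  · rw [h, abs_neg, abs_one]

lemma abs_orb_sgm (d : ℕ → ℕ) (p : P3) (M : ℕ) : |(orb d (sgm p) M).y| = |(orb d p M).y| := by
  obtain ⟨a, b, -, hb, h⟩ := orb_sg2 d M
  unfold sgm
  rw [h]
  show |b * (orb d p M).y| = _
  rw [abs_mul, abs_eq_one_of hb, one_mul]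

lemma ZM_sgm (d : ℕ → ℕ) (M : ℕ) (c : ℝ → P3) (s : ℝ) :
    ZM d M (fun s => sgm (c s)) s ↔ ZM d M c s := by
  unfold ZM
  rw [← abs_eq_zero, abs_orb_sgm, abs_eq_zero]

lemma Alive_sgm {d : ℕ → ℕ} {p : P3} (h : Alive d p) : Alive d (sgm p) := by
  intro m
  rw [abs_orb_sgm, abs_orb_sgm]
  exact h m

lemma Unb_sgm {d : ℕ → ℕ} {c : ℝ → P3} {s0 : ℝ} (h : Unb d c s0) :
    Unb d (fun s => sgm (c s)) s0 := by
  intro C
  obtain ⟨M, hM⟩ := h C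
  refine ⟨M, ?_⟩
  obtain ⟨a, b, -, hb, hab⟩ := orb_sg2 d M
  have e : (fun s => (orb d (sgm (c s)) M).y) = fun s => b * (orb d (c s) M).y := by
    funext s
    unfold sgm
    rw [hab]
    rfl
  show C < |deriv (fun s => (orb d (sgm (c s)) M).y) s0|
  rw [e, deriv_const_mul_field, abs_mul, abs_eq_one_of hb, one_mul]
  exact hM

/-! ### the starting line -/

lemma OnS_lin (δ E : ℝ) : OnS δ (lin (2 * δ) E) := by
  unfold OnS lin
  simp only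
  ring

lemma OnS_sgm {δ : ℝ} {p : P3} (h : OnS δ p) : OnS δ (sgm p) := by
  unfold OnS at *
  rw [sgm_x, sgm_y, sgm_z]
  linear_combination h

lemma cases_one {δ : ℝ} {p : P3} (hp : OnS δ p) (hz : p.z = 1) :
    ∃ E, lin (2 * δ) E = p ∨ sgm (lin (2 * δ) E) = p := by
  unfold OnS at hp
  rw [hz] at hp
  have h : (p.y - p.x - δ) * (p.y - p.x + δ) = 0 := by linear_combination hp
  rcases mul_eq_zero.1 h with h | h
  · refine ⟨2 * p.y, Or.inl ?_⟩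
    unfold lin
    ext
    · simp [hz]
    · simp
    · simp only; linarith
  · refine ⟨-(2 * p.y), Or.inr ?_⟩
    ext
    · rw [sgm_z]; unfold lin; simp [hz]
    · rw [sgm_y]; unfold lin; simp only; linarith
    · rw [sgm_x]; unfold lin; simp only; linarith

lemma lin_smooth (δ E : ℝ) : ContDiffAt ℝ 1 (fun s => tp (lin (2 * δ) s)) E := by
  have : (fun s => tp (lin (2 * δ) s)) = fun s : ℝ => ((s - 2 * δ) / 2, s / 2, (1 : ℝ)) := rfl
  rw [this]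
  fun_prop

lemma lin_smooth' (δ E : ℝ) : ContDiffAt ℝ 1 (fun s => tp (sgm (lin (2 * δ) s))) E := by
  have : (fun s => tp (sgm (lin (2 * δ) s))) =
      fun s : ℝ => (-((s - 2 * δ) / 2), -(s / 2), (1 : ℝ)) := by
    funext s
    unfold tp
    rw [sgm_z, sgm_y, sgm_x]
    rfl
  rw [this]
  fun_prop

/-! ### the points of a leaf -/

lemma zh_mem_WS (hC : SCoord) (hE : SEsc) {δ : ℝ} (hδ : δ ≠ 0) {d : ℕ → ℕ} (hd : ∀ k, 1 ≤ d k)
    {v : ℝ × ℝ} (hv : v ∈ U) (ha : Alive d (ze δ v)) : zh δ v ∈ WS δ d := by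
  refine mem_WS_of_alive hE hδ hd (zh_FS hC hv) 0 ?_ ?_
  · show |v.1| ≤ 1
    exact le_of_lt hv
  · rw [shd_zero]
    exact ha

lemma exists_bound {δ : ℝ} (hδ : δ ≠ 0) : ∃ C : ℝ, ∀ d : ℕ → ℕ, (∀ k, 1 ≤ d k) → ∀ p : P3,
    OnS δ p → |p.z| ≤ 1 → Alive d p → ‖tp p‖ ≤ C := by
  obtain ⟨C, -, hC⟩ := Pool.Agent.W816.Stu.bddL δ hδ
  refine ⟨C, fun d hd p hp hz ha => ?_⟩
  rcases ha 1 with h | h
  · have := (hC d hd p hp hz 1 h 0 (by omega)).2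
    exact norm_tp_le this.1 this.2.1 this.2.2
  · have := (hC d hd p hp hz 2 h 0 (by omega)).2
    exact norm_tp_le this.1 this.2.1 this.2.2

lemma tendsto_rk : Tendsto rk atTop (𝓝 1) := by
  have h1 : Tendsto (fun k : ℕ => 1 / ((k : ℝ) + 1)) atTop (𝓝 0) :=
    tendsto_one_div_add_atTop_nhds_zero_nat
  have h2 : Tendsto (fun k : ℕ => 1 / (((k + 1 : ℕ) : ℝ) + 1)) atTop (𝓝 0) :=
    h1.comp (tendsto_add_atTop_nat 1)
  have h3 : Tendsto (fun k : ℕ => 1 - 1 / (((k + 1 : ℕ) : ℝ) + 1)) atTop (𝓝 (1 - 0)) :=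
    tendsto_const_nhds.sub h2
  rw [sub_zero] at h3
  refine h3.congr fun k => ?_
  unfold rk
  push_cast
  congr 2
  ring

lemma vc_smooth (hC : SCoord) {δ : ℝ} {z s : ℝ} (hz : |z| < 1) :
    ContDiffAt ℝ 1 (fun t => tp (ze δ (z, t))) s := by
  have h1 : ContDiffAt ℝ ∞ (zh δ) (z, s) := zh_smoothAt hC δ hz
  have h2 : ContDiffAt ℝ ∞ (fun t : ℝ => (z, t)) s := by fun_prop
  have h3 : ContDiffAt ℝ ∞ (zh δ ∘ fun t : ℝ => (z, t)) s := ContDiffAt.comp s h1 h2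
  exact h3.of_le (by norm_num)

/-- the statement for stage `0` -/
lemma end0 (hSl : GSlide) (hSw : GSw) (hUn : GUnb) (hH : GHit) (hLeaf : SLeaf) (hE : SEsc)
    (hC : SCoord) {δ κ : ℝ} {θ : ℝ → ℝ} {d : ℕ → ℕ} (hx : Cx δ κ θ d) {v : ℝ × ℝ} (hv : v ∈ U)
    (ha : Alive d (ze δ v)) :
    ∃ E : ℝ, Tr d (fun t => ze δ (v.1, t)) v.2 (lin (2 * δ)) E := by
  obtain ⟨hδ, hκ1, hκ, hθ, hd⟩ := id hx
  obtain ⟨ψ, hψ0, hψ⟩ := hLeaf δ κ d θ hδ hκ1 hκ hd hθ v hv ha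
  have hψL : Leaf θ δ (shd d 0) ψ := by rw [shd_zero]; exact hψ
  obtain ⟨C, hCb⟩ := exists_bound hδ
  have hrk : ∀ k, |rk k| < 1 := fun k => by rw [abs_of_pos (rk_pos k)]; exact rk_lt k
  have hqW : ∀ k, zh δ (rk k, ψ (rk k)) ∈ WS δ d := fun k =>
    zh_mem_WS hC hE hδ hd (v := (rk k, ψ (rk k))) (hrk k) (hψ _ (hrk k)).2
  have hqb : ∀ k, zh δ (rk k, ψ (rk k)) ∈ Metric.closedBall (0 : ℝ × ℝ × ℝ) C := fun k => by
    rw [mem_closedBall_zero_iff]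
    exact hCb d hd _ ((hC δ).1 (rk k, ψ (rk k)) (hrk k)) (hrk k).le (hψ _ (hrk k)).2
  obtain ⟨q, -, φ, hφ, hlim⟩ := (isCompact_closedBall (0 : ℝ × ℝ × ℝ) C).tendsto_subseq hqb
  have hqWS : q ∈ WS δ d := (isClosed_WS δ d).mem_of_tendsto hlim
    (Eventually.of_forall fun k => hqW (φ k))
  have hq1 : q.2.2 = 1 := by
    have h1 : Tendsto (fun k => (zh δ (rk (φ k), ψ (rk (φ k)))).2.2) atTop (𝓝 q.2.2) :=
      ((continuous_snd.comp continuous_snd).tendsto q).comp hlim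
    have h2 : Tendsto (fun k => rk (φ k)) atTop (𝓝 1) := tendsto_rk.comp hφ.tendsto_atTop
    exact tendsto_nhds_unique h1 h2
  obtain ⟨m, hm⟩ := exists_strip hE hδ hd hqWS
  have hd' : ∀ k, 1 ≤ shd d m k := fun k => hd _
  obtain ⟨v1, hv1, hv1q⟩ := exists_zh (δ := δ) hC (q := fo d m q) (by rw [FS_fo]; exact hqWS.1) hm
  have hze1 : ze δ v1 = orb d (pt q) m := tp_inj hv1q
  have hAt1 : At δ d m v1 := ⟨hv1, by rw [hze1]; exact alive_of_mem_WS hE hδ hd hqWS m hm.le⟩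
  have hb1 : (borb d m (ze δ v1)).z = 1 := by rw [hze1, borb_orb]; exact hq1
  obtain ⟨ρ, hρ, hhit⟩ := hH δ κ θ d hx m v1 hAt1 (by rw [hb1, abs_one])
  -- the coordinates of stage `m` of the points of the leaf
  have hfo : Tendsto (fun k => fo d m (zh δ (rk (φ k), ψ (rk (φ k))))) atTop (𝓝 (zh δ v1)) := by
    rw [hv1q]
    exact ((continuous_orb d m).tendsto q).comp hlim
  have hfo' : Tendsto (fun k => fo d m (zh δ (rk (φ k), ψ (rk (φ k))))) atTop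
      (𝓝[{q | FS δ q = 0}] (zh δ v1)) := by
    refine tendsto_nhdsWithin_iff.2 ⟨hfo, Eventually.of_forall fun k => ?_⟩
    show FS δ _ = 0
    rw [FS_fo]
    exact (hqW (φ k)).1
  have hLam : Tendsto (fun k => Lam δ v1.2 (fo d m (zh δ (rk (φ k), ψ (rk (φ k)))))) atTop
      (𝓝 v1) := by
    have h1 := (Lam_smoothAt (δ := δ) hv1).continuousAt.tendsto.comp hfo
    rw [Lam_zh hv1] at h1
    exact h1
  have hev1 := hfo'.eventually (eventually_zh_Lam (δ := δ) hv1)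
  have hev2 : ∀ᶠ k in atTop, |(Lam δ v1.2 (fo d m (zh δ (rk (φ k), ψ (rk (φ k)))))).1 - v1.1| < ρ :=
    by
    have h1 : Continuous fun w : ℝ × ℝ => |w.1 - v1.1| := (continuous_fst.sub continuous_const).abs
    have h2 := (h1.tendsto v1).comp hLam
    simp only [sub_self, abs_zero] at h2
    exact h2.eventually (gt_mem_nhds hρ)
  have hev3 : ∀ᶠ k in atTop, |(Lam δ v1.2 (fo d m (zh δ (rk (φ k), ψ (rk (φ k)))))).2 - v1.2| < ρ :=
    by
    have h1 : Continuous fun w : ℝ × ℝ => |w.2 - v1.2| := (continuous_snd.sub continuous_const).abs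
    have h2 := (h1.tendsto v1).comp hLam
    simp only [sub_self, abs_zero] at h2
    exact h2.eventually (gt_mem_nhds hρ)
  obtain ⟨k, ⟨hwU, hwz⟩, hw1, hw2⟩ := (hev1.and (hev2.and hev3)).exists
  set w := Lam δ v1.2 (fo d m (zh δ (rk (φ k), ψ (rk (φ k))))) with hw
  set zk := rk (φ k) with hzk
  have hzk1 : |zk| < 1 := hrk (φ k)
  have hqk : zh δ (zk, ψ zk) ∈ WS δ d := hqW (φ k)
  have hzew : ze δ w = orb d (ze δ (zk, ψ zk)) m := tp_inj hwz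
  have hAliw : Alive (shd d m) (ze δ w) := by
    rw [hzew]
    refine alive_of_mem_WS hE hδ hd hqk m ?_
    have : (orb d (pt (zh δ (zk, ψ zk))) m).z = w.1 := by
      have h1 : (ze δ w).z = w.1 := rfl
      rw [← h1, hzew]
      rfl
    rw [this]
    exact le_of_lt hwU
  obtain ⟨χ, hχ0, hχ⟩ := hLeaf δ κ (shd d m) θ hδ hκ1 hκ hd' hθ w hwU hAliw
  have hχL : Leaf θ δ (shd d m) χ := hχ
  obtain ⟨⟨z', hz', hz'1⟩, -⟩ := hhit χ hχL w.1 hwU hw1 (by rw [hχ0]; exact hw2)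
  rw [hb1] at hz'1
  -- the end point
  set p' := borb d m (ze δ (z', χ z')) with hp'
  have hz'U : (z', χ z') ∈ U := hz'
  have hFp' : FS δ (tp p') = 0 := by
    have : tp p' = go d m (zh δ (z', χ z')) := rfl
    rw [this, FS_go]
    exact zh_FS hC hz'U
  have hOp' : OnS δ p' := FS_tp.1 hFp'
  have horb : orb d p' m = ze δ (z', χ z') := orb_borb d m _
  have hWp' : tp p' ∈ WS δ d := by
    refine mem_WS_of_alive hE hδ hd hFp' m ?_ ?_
    · rw [pt_tp, horb]; exact le_of_lt hz'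
    · rw [pt_tp, horb]; exact (hχ z' hz').2
  have hAp' : Alive d p' := by
    have h1 := alive_of_mem_WS hE hδ hd hWp' 0 (by
      show |p'.z| ≤ 1
      rw [hz'1, abs_one])
    rw [shd_zero] at h1
    exact h1
  -- the chain
  have T1 : Tr d (vc δ d 0 (v.1, ψ v.1)) (ψ v.1) (vc δ d 0 (zk, ψ zk)) (ψ zk) :=
    hSl δ κ θ d hx 0 ψ hψL v.1 zk hv hzk1
  have hAtk : At δ d 0 (zk, ψ zk) := ⟨hzk1, by rw [shd_zero]; exact (hψ zk hzk1).2⟩
  have T2 : Tr d (vc δ d 0 (zk, ψ zk)) (ψ zk) (vc δ d m w) w.2 := by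
    refine (hSw δ κ θ d hx m w (vc δ d 0 (zk, ψ zk)) (ψ zk) ⟨hwU, hAliw⟩ ?_ ?_ ?_ ?_).1
    · exact vc_smooth hC hzk1
    · exact Eventually.of_forall fun s => (hC δ).1 (zk, s) hzk1
    · exact hzew.symm
    · exact (hUn δ d hδ hd).1 0 (zk, ψ zk) hAtk
  have T3 : Tr d (vc δ d m (w.1, χ w.1)) (χ w.1) (vc δ d m (z', χ z')) (χ z') :=
    hSl δ κ θ d hx m χ hχL w.1 z' hwU hz'
  rw [hχ0] at T3
  have T3' : Tr d (vc δ d m w) w.2 (vc δ d m (z', χ z')) (χ z') := T3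
  rw [hψ0] at T1
  have T1' : Tr d (fun t => ze δ (v.1, t)) v.2 (vc δ d 0 (zk, ψ zk)) (ψ zk) := T1
  have hAtz : At δ d m (z', χ z') := ⟨hz', (hχ z' hz').2⟩
  have T := Tr_trans (Tr_trans T1' T2) T3'
  obtain ⟨E, hE1 | hE1⟩ := cases_one hOp' hz'1
  · refine ⟨E, Tr_trans T ?_⟩
    have hAl : Alive (shd d 0) (lin (2 * δ) E) := by rw [shd_zero, hE1]; exact hAp'
    refine (hSw δ κ θ d hx m (z', χ z') (lin (2 * δ)) E hAtz (lin_smooth δ E)
      (Eventually.of_forall fun s => OnS_lin δ s) ?_ ?_).2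
    · rw [hE1]; exact horb
    · exact (hUn δ d hδ hd).2 0 E hAl
  · refine ⟨E, Tr_trans T ?_⟩
    have hlE : lin (2 * δ) E = sgm p' := by rw [← hE1, sgm_sgm]
    have hAl : Alive (shd d 0) (lin (2 * δ) E) := by
      rw [shd_zero, hlE]; exact Alive_sgm hAp'
    have T4 : Tr d (vc δ d m (z', χ z')) (χ z') (fun s => sgm (lin (2 * δ) s)) E := by
      refine (hSw δ κ θ d hx m (z', χ z') (fun s => sgm (lin (2 * δ) s)) E hAtz (lin_smooth' δ E)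
        (Eventually.of_forall fun s => OnS_sgm (OnS_lin δ s)) ?_ ?_).2
      · show orb d (sgm (lin (2 * δ) E)) m = _
        rw [hE1]; exact horb
      · exact Unb_sgm ((hUn δ d hδ hd).2 0 E hAl)
    refine Tr_congr 0 (fun M s => ?_) (fun M s => ?_) T4
    · rw [zero_add]
    · rw [zero_add]
      exact ZM_sgm d M (lin (2 * δ)) s

theorem tEnd (hSl : GSlide) (hSw : GSw) (hUn : GUnb) (hH : GHit) (hLeaf : SLeaf) (hE : SEsc)
    (hC : SCoord) : GEnd := by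
  intro δ κ θ d hx n v hv
  have hx' : Cx δ κ θ (shd d n) := ⟨hx.hδ, hx.hκ1, hx.hκ, hx.hθ, fun k => hx.hd _⟩
  obtain ⟨E, hT⟩ := end0 hSl hSw hUn hH hLeaf hE hC hx' hv.1 hv.2
  exact ⟨E, Tr_shift hT⟩

end Pool.Agent.H249.GiEnd
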