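import Mathlib

set_option autoImplicit false
open Complex Metric Set Filter Topology

namespace Pool.Agent.H249

/-- Bound for the logarithmic derivative of a zero free function. -/
lemma logder_bound {G : ℂ → ℂ} (hG : Differentiable ℂ G) {z0 : ℂ} {R K : ℝ} (hR : 0 < R)
    (hne : ∀ z ∈ ball z0 R, G z ≠ 0) (hb : ∀ z ∈ ball z0 R, ‖G z‖ ≤ K) :
    ‖deriv G z0 / G z0‖ ≤ 4 * (Real.log (K / ‖G z0‖) + 1) / R := by
  have h0 : G z0 ≠ 0 := hne z0 (mem_ball_self hR)
  have hG0 : 0 < ‖G z0‖ := norm_pos_iff.2 h0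
  have hK : ‖G z0‖ ≤ K := hb z0 (mem_ball_self hR)
  have hK0 : 0 < K := hG0.trans_le hK
  have hlog : 0 ≤ Real.log (K / ‖G z0‖) := Real.log_nonneg (by rw [le_div_iff₀ hG0]; linarith)
  set M := Real.log (K / ‖G z0‖) + 1 with hM
  have hMp : 0 < M := by linarith
  have hmem : ∀ w ∈ ball (0:ℂ) R, z0 + w ∈ ball z0 R := by
    intro w hw
    rw [mem_ball, dist_eq_norm] at hw ⊢
    simpa using hw
  have hGd : ∀ w, HasDerivAt (fun w => G (z0 + w)) (deriv G (z0 + w)) w := by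
    intro w
    have h1 := (hG (z0 + w)).hasDerivAt
    have h2 : HasDerivAt (fun w => z0 + w) 1 w := (hasDerivAt_id w).const_add z0
    have := HasDerivAt.comp w h1 h2
    simpa [Function.comp_def] using this
  have hG' : Differentiable ℂ (deriv G) := by
    have : ContDiff ℂ (1 + 1) G := hG.contDiff
    exact (contDiff_succ_iff_deriv.1 this).2.2.differentiable (by norm_num)
  have hd : DifferentiableOn ℂ (fun w => deriv G (z0 + w) / G (z0 + w)) (ball 0 R) := by
    refine DifferentiableOn.div ?_ ?_ ?_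
    · exact (hG'.comp (by fun_prop : Differentiable ℂ fun w => z0 + w)).differentiableOn
    · exact fun w _ => (hGd w).differentiableAt.differentiableWithinAt
    · exact fun w hw => hne _ (hmem w hw)
  obtain ⟨h, hh⟩ := hd.isExactOn_ball
  have hfd : ∀ w ∈ ball (0:ℂ) R, HasDerivAt (fun w => h w - h 0) (deriv G (z0 + w) / G (z0 + w)) w :=
    fun w hw => (hh w hw).sub_const _
  have hder : ∀ w ∈ ball (0:ℂ) R, HasDerivAt (fun w => exp (-(h w - h 0)) * G (z0 + w)) 0 w := by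
    intro w hw
    have h1 := ((hfd w hw).neg.cexp).mul (hGd w)
    refine h1.congr_deriv ?_
    have := hne _ (hmem w hw)
    simp only [Pi.neg_apply]
    field_simp
    ring
  have hconst : ∀ w ∈ ball (0:ℂ) R, exp (-(h w - h 0)) * G (z0 + w) = G z0 := by
    intro w hw
    have := isOpen_ball.is_const_of_deriv_eq_zero (convex_ball (0:ℂ) R).isPreconnected
      (fun w hw => (hder w hw).differentiableAt.differentiableWithinAt)
      (fun w hw => (hder w hw).deriv) hw (mem_ball_self hR)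
    simpa using this
  have hre : ∀ w ∈ ball (0:ℂ) R, (h w - h 0).re ≤ M := by
    intro w hw
    have h1 := hconst w hw
    have h2 : ‖G (z0 + w)‖ = ‖G z0‖ * Real.exp (h w - h 0).re := by
      rw [← h1, norm_mul, Complex.norm_exp, neg_re, mul_assoc, mul_comm ‖G (z0 + w)‖, ← mul_assoc,
        ← Real.exp_add, neg_add_cancel, Real.exp_zero, one_mul]
    have h3 := hb _ (hmem w hw)
    rw [h2] at h3
    have h4 : Real.exp (h w - h 0).re ≤ K / ‖G z0‖ := by
      rw [le_div_iff₀ hG0]; linarith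
    have h5 := (Real.le_log_iff_exp_le (by positivity)).2 h4
    linarith
  have hbc : ∀ w ∈ ball (0:ℂ) R, ‖h w - h 0‖ ≤ 2 * M * ‖w‖ / (R - ‖w‖) := by
    intro w hw
    exact borelCaratheodory_zero (f := fun w => h w - h 0) hMp
      (fun w hw => (hfd w hw).differentiableAt.differentiableWithinAt)
      (fun w hw => hre w hw) hR hw (by simp)
  have hsub : closedBall (0:ℂ) (R / 2) ⊆ ball 0 R := closedBall_subset_ball (by linarith)
  have hc := norm_deriv_le_of_forall_mem_sphere_norm_le (c := (0:ℂ)) (R := R / 2) (C := 2 * M)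
    (f := fun w => h w - h 0) (by positivity)
    (DifferentiableOn.diffContOnCl (fun w hw => (hfd w (hsub (by
      rwa [closure_ball _ (by positivity)] at hw))).differentiableAt.differentiableWithinAt))
    (fun w hw => by
      have h1 : ‖w‖ = R / 2 := by simpa using hw
      have h2 := hbc w (hsub (sphere_subset_closedBall hw))
      rw [h1] at h2
      refine h2.trans (le_of_eq ?_)
      field_simp
      ring)
  rw [(hfd 0 (mem_ball_self hR)).deriv, add_zero] at hc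
  refine hc.trans (le_of_eq ?_)
  field_simp
  ring

/-- Division by a linear factor. -/
lemma div_factor {F : ℂ → ℂ} (hF : Differentiable ℂ F) {a : ℂ} (ha : F a = 0) :
    ∃ G : ℂ → ℂ, Differentiable ℂ G ∧ ∀ z, F z = (z - a) * G z := by
  refine ⟨dslope F a, ?_, fun z => ?_⟩
  · rw [← differentiableOn_univ]
    exact (differentiableOn_dslope (by simp)).2 hF.differentiableOn
  · have := sub_smul_dslope F a z
    rw [ha, sub_zero, smul_eq_mul] at this
    exact this.symm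

/-- Data after dividing out `n` real zeros. -/
def Ch (F : ℂ → ℂ) (z0 : ℂ) (R : ℝ) (n : ℕ) : Prop :=
  ∃ G : ℂ → ℂ, Differentiable ℂ G ∧ (∀ z, G z = 0 → F z = 0) ∧
    ‖F z0‖ ≤ R ^ n * ‖G z0‖ ∧ (∀ z ∈ sphere z0 (4 * R), (3 * R) ^ n * ‖G z‖ ≤ ‖F z‖) ∧
    (deriv F z0 / F z0).im ≤ (deriv G z0 / G z0).im

lemma im_inv_nonpos {z0 a : ℂ} (h0 : 0 < z0.im) (ha : a.im = 0) : (1 / (z0 - a)).im ≤ 0 := by
  rw [one_div, inv_im]
  have : (z0 - a).im = z0.im := by rw [sub_im, ha, sub_zero]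
  rw [this, neg_div]
  have h2 : 0 ≤ z0.im / normSq (z0 - a) := div_nonneg h0.le (normSq_nonneg _)
  linarith

lemma logder_factor {G G1 : ℂ → ℂ} (hG1 : Differentiable ℂ G1) {a z0 : ℂ}
    (h : ∀ z, G z = (z - a) * G1 z) (hne : G z0 ≠ 0) :
    deriv G z0 / G z0 = 1 / (z0 - a) + deriv G1 z0 / G1 z0 := by
  have e1 : G = fun z => (z - a) * G1 z := funext h
  have e2 : HasDerivAt G (1 * G1 z0 + (z0 - a) * deriv G1 z0) z0 := by
    rw [e1]
    exact ((hasDerivAt_id z0).sub_const a).mul (hG1 z0).hasDerivAt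
  rw [h z0] at hne
  have h1 := left_ne_zero_of_mul hne
  have h2 := right_ne_zero_of_mul hne
  rw [e2.deriv, h z0]
  field_simp

lemma Ch.step {F : ℂ → ℂ} {z0 : ℂ} {R : ℝ} {n : ℕ} (hR : 0 < R) (h0 : 0 < z0.im) (hF0 : F z0 ≠ 0)
    (hreal : ∀ z, F z = 0 → z.im = 0) {G : ℂ → ℂ} (hG : Differentiable ℂ G)
    (g1 : ∀ z, G z = 0 → F z = 0) (g2 : ‖F z0‖ ≤ R ^ n * ‖G z0‖)
    (g3 : ∀ z ∈ sphere z0 (4 * R), (3 * R) ^ n * ‖G z‖ ≤ ‖F z‖)
    (g4 : (deriv F z0 / F z0).im ≤ (deriv G z0 / G z0).im) {a : ℂ} (ha : a ∈ ball z0 R)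
    (hGa : G a = 0) : Ch F z0 R (n + 1) := by
  obtain ⟨G1, hG1, hf⟩ := div_factor hG hGa
  have hGz : G z0 ≠ 0 := fun h => hF0 (g1 _ h)
  have hai : a.im = 0 := hreal a (g1 a hGa)
  rw [mem_ball, dist_eq_norm] at ha
  refine ⟨G1, hG1, fun z hz => g1 z (by rw [hf z, hz, mul_zero]), ?_, ?_, ?_⟩
  · refine g2.trans ?_
    rw [hf z0, norm_mul, pow_succ, mul_assoc]
    gcongr
    rw [norm_sub_rev]; exact ha.le
  · intro z hz
    have h1 := g3 z hz
    rw [hf z, norm_mul] at h1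
    rw [mem_sphere, dist_eq_norm] at hz
    have h2 : 3 * R ≤ ‖z - a‖ := by
      have : ‖z - z0‖ ≤ ‖z - a‖ + ‖a - z0‖ := norm_sub_le_norm_sub_add_norm_sub _ _ _
      linarith
    calc (3 * R) ^ (n + 1) * ‖G1 z‖ = (3 * R) ^ n * ((3 * R) * ‖G1 z‖) := by rw [pow_succ]; ring
      _ ≤ (3 * R) ^ n * (‖z - a‖ * ‖G1 z‖) := by gcongr
      _ ≤ _ := h1
  · rw [logder_factor hG1 hf hGz, add_im] at g4
    have := im_inv_nonpos h0 hai
    linarith

lemma Ch.bound {F : ℂ → ℂ} {z0 : ℂ} {R M : ℝ} {n : ℕ} (hR : 0 < R)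
    (hM : ∀ z ∈ sphere z0 (4 * R), ‖F z‖ ≤ M) {G : ℂ → ℂ} (hG : Differentiable ℂ G)
    (g3 : ∀ z ∈ sphere z0 (4 * R), (3 * R) ^ n * ‖G z‖ ≤ ‖F z‖) :
    ∀ z ∈ ball z0 R, ‖G z‖ ≤ M / (3 * R) ^ n := by
  intro z hz
  refine norm_le_of_forall_mem_frontier_norm_le (U := ball z0 (4 * R)) isBounded_ball
    hG.diffContOnCl ?_ (subset_closure (ball_subset_ball (by linarith) hz))
  intro w hw
  rw [frontier_ball _ (by positivity)] at hw
  rw [le_div_iff₀ (by positivity)]
  have := g3 w hw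
  have := hM w hw
  linarith

/-- The finite version of the inequality. -/
lemma nev_R {F : ℂ → ℂ} (hF : Differentiable ℂ F) {z0 : ℂ} {R M : ℝ} (hR : 0 < R) (h0 : 0 < z0.im)
    (hreal : ∀ z, F z = 0 → z.im = 0) (hM : ∀ z ∈ sphere z0 (4 * R), ‖F z‖ ≤ M) :
    (deriv F z0 / F z0).im ≤ 4 * (Real.log (M / ‖F z0‖) + 1) / R := by
  have hF0 : F z0 ≠ 0 := fun h => h0.ne' (hreal _ h)
  have hFp : 0 < ‖F z0‖ := norm_pos_iff.2 hF0
  have hch0 : Ch F z0 R 0 := ⟨F, hF, fun z h => h, by simp, by simp, le_rfl⟩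
  obtain ⟨n, hn, hn1⟩ : ∃ n, Ch F z0 R n ∧ ¬ Ch F z0 R (n + 1) := by
    by_contra hcon
    push Not at hcon
    have hall : ∀ n, Ch F z0 R n := fun n => Nat.rec hch0 (fun n ih => hcon n ih) n
    obtain ⟨n, hn⟩ := pow_unbounded_of_one_lt (M / ‖F z0‖) (by norm_num : (1:ℝ) < 3)
    obtain ⟨G, hG, g1, g2, g3, g4⟩ := hall n
    have h1 := Ch.bound hR hM hG g3 z0 (mem_ball_self hR)
    have h2 : ‖F z0‖ ≤ R ^ n * (M / (3 * R) ^ n) := g2.trans (by gcongr)
    have h3 : R ^ n * (M / (3 * R) ^ n) = M / 3 ^ n := by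
      rw [mul_pow]; field_simp
    rw [h3, le_div_iff₀ (by positivity)] at h2
    rw [div_lt_iff₀ hFp] at hn
    linarith
  obtain ⟨G, hG, g1, g2, g3, g4⟩ := hn
  have hb := Ch.bound hR hM hG g3
  have hne : ∀ z ∈ ball z0 R, G z ≠ 0 := by
    intro z hz hGz
    exact hn1 (Ch.step hR h0 hF0 hreal hG g1 g2 g3 g4 hz hGz)
  have hl := logder_bound hG hR hne hb
  have hG0 : 0 < ‖G z0‖ := norm_pos_iff.2 (hne z0 (mem_ball_self hR))
  have hM0 : 0 < M := by
    have := hb z0 (mem_ball_self hR)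
    have h5 : 0 < M / (3 * R) ^ n := hG0.trans_le this
    have := mul_pos h5 (by positivity : 0 < (3 * R) ^ n)
    rwa [div_mul_cancel₀ _ (by positivity)] at this
  have h6 : M / (3 * R) ^ n / ‖G z0‖ ≤ M / ‖F z0‖ := by
    rw [div_div]
    refine div_le_div_of_nonneg_left hM0.le hFp ?_
    refine g2.trans ?_
    gcongr
    linarith
  refine g4.trans ((le_abs_self _).trans ((abs_im_le_norm _).trans (hl.trans ?_)))
  gcongr

/-- Minimal exponential type. -/
def MinType (F : ℂ → ℂ) : Prop := ∀ δ : ℝ, 0 < δ → ∃ A : ℝ, ∀ z, ‖F z‖ ≤ A * Real.exp (δ * ‖z‖)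

lemma nev {F : ℂ → ℂ} (hF : Differentiable ℂ F) (hT : MinType F) {z0 : ℂ} (h0 : 0 < z0.im)
    (hreal : ∀ z, F z = 0 → z.im = 0) : (deriv F z0 / F z0).im ≤ 0 := by
  have hF0 : F z0 ≠ 0 := fun h => h0.ne' (hreal _ h)
  have hFp : 0 < ‖F z0‖ := norm_pos_iff.2 hF0
  refine le_of_forall_pos_le_add fun η hη => ?_
  rw [zero_add]
  obtain ⟨A0, hA0⟩ := hT (η / 32) (by positivity)
  set A := |A0| + 1 with hA
  have hAp : 0 < A := by positivity
  have hAb : ∀ z, ‖F z‖ ≤ A * Real.exp (η / 32 * ‖z‖) := fun z => (hA0 z).trans (by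
    gcongr; rw [hA]; have := le_abs_self A0; linarith)
  set Q := |4 * (Real.log (A / ‖F z0‖) + η / 32 * ‖z0‖ + 1)| + 1 with hQ
  have hQp : 0 < Q := by positivity
  set R := 2 * Q / η with hR
  have hRp : 0 < R := by positivity
  have h1 := nev_R hF (M := A * Real.exp (η / 32 * (‖z0‖ + 4 * R))) hRp h0 hreal (by
    intro z hz
    refine (hAb z).trans ?_
    rw [mem_sphere, dist_eq_norm] at hz
    have : ‖z‖ ≤ ‖z0‖ + 4 * R := by
      have := norm_add_le (z - z0) z0
      rw [sub_add_cancel] at this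
      linarith
    gcongr)
  refine h1.trans ?_
  have e1 : Real.log (A * Real.exp (η / 32 * (‖z0‖ + 4 * R)) / ‖F z0‖)
      = Real.log (A / ‖F z0‖) + η / 32 * (‖z0‖ + 4 * R) := by
    rw [mul_div_right_comm, Real.log_mul (by positivity) (Real.exp_pos _).ne', Real.log_exp]
  rw [e1, div_le_iff₀ hRp]
  have h3 := le_abs_self (4 * (Real.log (A / ‖F z0‖) + η / 32 * ‖z0‖ + 1))
  have h4 : η * R = 2 * Q := by rw [hR]; field_simp
  nlinarith [h3, h4]

lemma MinType.div {F F1 : ℂ → ℂ} (hF : MinType F) (h1 : Differentiable ℂ F1) {a : ℂ}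
    (h : ∀ z, F z = (z - a) * F1 z) : MinType F1 := by
  intro δ hδ
  obtain ⟨A, hA⟩ := hF δ hδ
  obtain ⟨B, hB⟩ := (isCompact_closedBall a 1).exists_bound_of_continuousOn h1.continuous.continuousOn
  refine ⟨|A| + |B|, fun z => ?_⟩
  have he : 1 ≤ Real.exp (δ * ‖z‖) := Real.one_le_exp (by positivity)
  by_cases hz : ‖z - a‖ ≤ 1
  · have := hB z (by rw [mem_closedBall, dist_eq_norm]; exact hz)
    calc ‖F1 z‖ ≤ |B| := this.trans (le_abs_self B)
      _ ≤ (|A| + |B|) * 1 := by have := abs_nonneg A; linarith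
      _ ≤ _ := by gcongr
  · push Not at hz
    have h2 := hA z
    rw [h z, norm_mul] at h2
    calc ‖F1 z‖ = 1 * ‖F1 z‖ := (one_mul _).symm
      _ ≤ ‖z - a‖ * ‖F1 z‖ := by gcongr
      _ ≤ A * Real.exp (δ * ‖z‖) := h2
      _ ≤ (|A| + |B|) * Real.exp (δ * ‖z‖) := by
        gcongr
        have := abs_nonneg B; have := le_abs_self A; linarith

/-- Strict version. -/
lemma nev_strict {F : ℂ → ℂ} (hF : Differentiable ℂ F) (hT : MinType F) {z0 a : ℂ} (h0 : 0 < z0.im)
    (hreal : ∀ z, F z = 0 → z.im = 0) (ha : F a = 0) :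
    (deriv F z0 / F z0).im ≤ (1 / (z0 - a)).im := by
  have hF0 : F z0 ≠ 0 := fun h => h0.ne' (hreal _ h)
  obtain ⟨F1, hF1, hf⟩ := div_factor hF ha
  rw [logder_factor hF1 hf hF0, add_im]
  have := nev hF1 (hT.div hF1 hf) h0 (fun z hz => hreal z (by rw [hf z, hz, mul_zero]))
  linarith

/-- Real entire functions. -/
lemma real_deriv {F : ℂ → ℂ} (hF : Differentiable ℂ F) {f : ℝ → ℝ} (hf : ∀ x : ℝ, F x = (f x : ℂ))
    (x : ℝ) : HasDerivAt f (deriv F x).re x ∧ deriv F x = (((deriv F x).re : ℝ) : ℂ) := by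
  have h1 : HasDerivAt (fun y : ℝ => F y) (deriv F x) x := (hF x).hasDerivAt.comp_ofReal
  have e1 : (fun y : ℝ => F y) = fun y => (f y : ℂ) := funext hf
  rw [e1] at h1
  have h2 : HasDerivAt (fun y : ℝ => ((f y : ℂ)).re) (deriv F x).re x :=
    (Complex.reCLM.hasFDerivAt.comp_hasDerivAt x h1)
  have h3 : HasDerivAt f (deriv F x).re x := by simpa using h2
  exact ⟨h3, h1.unique h3.ofReal_comp⟩

lemma deriv_entire {F : ℂ → ℂ} (hF : Differentiable ℂ F) : Differentiable ℂ (deriv F) := by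
  have : ContDiff ℂ (1 + 1) F := hF.contDiff
  exact (contDiff_succ_iff_deriv.1 this).2.2.differentiable (by norm_num)

/-- The logarithmic derivative is strictly decreasing. -/
lemma logder_neg {F : ℂ → ℂ} (hF : Differentiable ℂ F) (hT : MinType F)
    (hreal : ∀ z, F z = 0 → z.im = 0) {a : ℂ} (ha : F a = 0) {f : ℝ → ℝ}
    (hf : ∀ x : ℝ, F x = (f x : ℂ)) {x : ℝ} (hx : f x ≠ 0) :
    ∃ d, d < 0 ∧ HasDerivAt (fun y => deriv f y / f y) d x := by
  have hFx : F x ≠ 0 := by rw [hf x]; exact_mod_cast hx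
  have hL : HasDerivAt (fun z => deriv F z / F z)
      ((deriv (deriv F) x * F x - deriv F x * deriv F x) / F x ^ 2) (x:ℂ) :=
    (deriv_entire hF x).hasDerivAt.div (hF x).hasDerivAt hFx
  set L' := (deriv (deriv F) x * F x - deriv F x * deriv F x) / F x ^ 2 with hL'
  have hd : ∀ y : ℝ, deriv f y = (deriv F y).re := fun y => (real_deriv hF hf y).1.deriv
  have hLr : ∀ y : ℝ, deriv F y / F y = ((deriv f y / f y : ℝ) : ℂ) := by
    intro y
    rw [(real_deriv hF hf y).2, hf y, hd y]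
    push_cast
    rfl
  have hg : HasDerivAt (fun y : ℝ => deriv f y / f y) L'.re x := by
    have h1 : HasDerivAt (fun y : ℝ => deriv F y / F y) L' x := hL.comp_ofReal
    have e1 : (fun y : ℝ => deriv F y / F y) = fun y => ((deriv f y / f y : ℝ) : ℂ) := funext hLr
    rw [e1] at h1
    have h2 := (Complex.reCLM.hasFDerivAt.comp_hasDerivAt x h1)
    simpa [Function.comp_def] using h2
  have hai : a.im = 0 := hreal a ha
  refine ⟨L'.re, ?_, hg⟩
  have hxa : (x:ℂ) - a ≠ 0 := by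
    intro h
    apply hFx
    rw [sub_eq_zero.1 h, ha]
  have hNp : 0 < normSq ((x:ℂ) - a) := normSq_pos.2 hxa
  -- the limit along the imaginary direction
  have hslope := hasDerivAt_iff_tendsto_slope.1 hL
  have hcurve : Tendsto (fun y : ℝ => (x:ℂ) + y * I) (𝓝[>] 0) (𝓝[≠] (x:ℂ)) := by
    refine tendsto_nhdsWithin_iff.2 ⟨?_, ?_⟩
    · have : Continuous fun y : ℝ => (x:ℂ) + y * I := by fun_prop
      have h := this.tendsto 0
      simp only [ofReal_zero, zero_mul, add_zero] at h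
      exact h.mono_left nhdsWithin_le_nhds
    · filter_upwards [self_mem_nhdsWithin] with y hy
      have hy' : (0:ℝ) < y := hy
      simp only [mem_compl_iff, mem_singleton_iff, add_eq_left, mul_eq_zero, ofReal_eq_zero, I_ne_zero, or_false]
      exact hy'.ne'
  have hlim := hslope.comp hcurve
  have hlim2 := (Complex.continuous_re.tendsto L').comp hlim
  have hbound : Tendsto (fun y : ℝ => -(1 / normSq ((x:ℂ) + y * I - a))) (𝓝[>] 0) (𝓝 (-(1 / normSq ((x:ℂ) - a)))) := by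
    have hc : ContinuousAt (fun y : ℝ => -(1 / normSq ((x:ℂ) + y * I - a))) 0 := by
      refine ContinuousAt.neg (ContinuousAt.div (by fun_prop) ?_ (by simpa using hxa))
      exact (continuous_normSq.comp (by fun_prop)).continuousAt
    have h := hc.tendsto
    simp only [ofReal_zero, zero_mul, add_zero] at h
    exact h.mono_left nhdsWithin_le_nhds
  have hle : L'.re ≤ -(1 / normSq ((x:ℂ) - a)) := by
    refine le_of_tendsto_of_tendsto hlim2 hbound ?_
    filter_upwards [self_mem_nhdsWithin] with y hy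
    have hy' : (0:ℝ) < y := hy
    have him : ((x:ℂ) + y * I).im = y := by simp
    have h1 := nev_strict hF hT (z0 := (x:ℂ) + y * I) (by rw [him]; exact hy') hreal ha
    have h2 : (1 / ((x:ℂ) + y * I - a)).im = -(y / normSq ((x:ℂ) + y * I - a)) := by
      rw [one_div, inv_im, sub_im, him, hai, sub_zero, neg_div]
    rw [h2] at h1
    have h3 : ((Complex.re ∘ slope (fun z => deriv F z / F z) ↑x ∘ fun y : ℝ => (x:ℂ) + y * I) y) =
        (deriv F ((x:ℂ) + y * I) / F ((x:ℂ) + y * I)).im / y := by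
      simp only [Function.comp_apply, slope_def_field, add_sub_cancel_left]
      rw [hLr x]
      set W := deriv F ((x:ℂ) + y * I) / F ((x:ℂ) + y * I)
      have e : (W - ((deriv f x / f x : ℝ) : ℂ)) / ((y:ℂ) * I) = ((W - ((deriv f x / f x : ℝ) : ℂ)) * (-I)) / (y:ℂ) := by
        have : (y:ℂ) ≠ 0 := by exact_mod_cast hy'.ne'
        field_simp
        rw [I_sq]
        ring
      rw [e, div_ofReal_re]
      simp
    show ((Complex.re ∘ slope (fun z => deriv F z / F z) ↑x ∘ fun y : ℝ => (x:ℂ) + y * I) y) ≤ _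
    rw [h3, div_le_iff₀ hy']
    refine h1.trans (le_of_eq ?_)
    ring
  have : 0 < 1 / normSq ((x:ℂ) - a) := by positivity
  linarith

/-- Strict logarithmic concavity between zeros. -/
lemma log_concave {F : ℂ → ℂ} (hF : Differentiable ℂ F) (hT : MinType F)
    (hreal : ∀ z, F z = 0 → z.im = 0) {a : ℂ} (ha : F a = 0) {f : ℝ → ℝ}
    (hf : ∀ x : ℝ, F x = (f x : ℂ)) {u w : ℝ} (hpos : ∀ x ∈ Icc u w, 0 < f x) :
    StrictConcaveOn ℝ (Icc u w) (fun x => Real.log (f x)) := by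
  have hd : ∀ y : ℝ, HasDerivAt f (deriv f y) y := fun y =>
    (real_deriv hF hf y).1.differentiableAt.hasDerivAt
  have hfc : Continuous f := continuous_iff_continuousAt.2 fun y => (hd y).continuousAt
  refine strictConcaveOn_of_deriv2_neg (convex_Icc u w) ?_ ?_
  · exact hfc.continuousOn.log fun x hx => (hpos x hx).ne'
  · intro x hx
    rw [interior_Icc] at hx
    have hxp := hpos x ⟨hx.1.le, hx.2.le⟩
    obtain ⟨d, hd0, hd1⟩ := logder_neg hF hT hreal ha hf hxp.ne'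
    have he : deriv (fun x => Real.log (f x)) =ᶠ[𝓝 x] fun y => deriv f y / f y := by
      filter_upwards [Ioo_mem_nhds hx.1 hx.2] with y hy
      exact ((hd y).log (hpos y ⟨hy.1.le, hy.2.le⟩).ne').deriv
    show deriv (deriv fun x => Real.log (f x)) x < 0
    rw [he.deriv_eq, hd1.deriv]
    exact hd0

/-- Consequences for values equal at two points. -/
lemma uni_between {F : ℂ → ℂ} (hF : Differentiable ℂ F) (hT : MinType F)
    (hreal : ∀ z, F z = 0 → z.im = 0) {a : ℂ} (ha : F a = 0) {f : ℝ → ℝ}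
    (hf : ∀ x : ℝ, F x = (f x : ℂ)) {u v x c : ℝ} (hpos : ∀ x ∈ Icc u v, 0 < f x)
    (hu : c ≤ f u) (hv : c ≤ f v) (hc : 0 < c) (h1 : u < x) (h2 : x < v) : c < f x := by
  have hcc := log_concave hF hT hreal ha hf hpos
  have huv : u < v := h1.trans h2
  set t := (v - x) / (v - u) with ht
  have h3 : 0 < v - u := by linarith
  have ht0 : 0 < t := div_pos (by linarith) h3
  have ht1 : 0 < 1 - t := by
    rw [ht, sub_pos, div_lt_one h3]; linarith
  have hx : t • u + (1 - t) • v = x := by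
    simp only [smul_eq_mul, ht]
    field_simp
    ring
  have h4 := hcc.2 (left_mem_Icc.2 huv.le) (right_mem_Icc.2 huv.le) huv.ne ht0 ht1 (by ring)
  rw [hx] at h4
  have h5 : Real.log c ≤ Real.log (f u) := Real.log_le_log hc hu
  have h6 : Real.log c ≤ Real.log (f v) := Real.log_le_log hc hv
  have h7 : Real.log c < Real.log (f x) := by
    refine lt_of_le_of_lt ?_ h4
    simp only [smul_eq_mul]
    nlinarith
  exact (Real.log_lt_log_iff hc (hpos x ⟨h1.le, h2.le⟩)).1 h7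

end Pool.Agent.H249
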