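import Pool.Graph.R_seed8.H535R3.KM
import Pool.Agent.H249.NL

set_option autoImplicit false
open Complex Set Filter Topology

namespace Pool.Agent.H249

/-- Entire dependence of the solution on a parameter which enters linearly. -/
theorem entire_dep {E : Type*} [NormedAddCommGroup E] [NormedSpace ℂ E] [CompleteSpace E]
    {A B : ℝ → E →L[ℂ] E} (hA : Continuous A) (hB : Continuous B) {KA KB : ℝ}
    (hKA : ∀ t, ‖A t‖ ≤ KA) (hKB : ∀ t, ‖B t‖ ≤ KB) {X : ℂ → ℝ → E}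
    (hX : ∀ z t, HasDerivAt (X z) (A t (X z t) + z • B t (X z t)) t) {x0 : E}
    (h0 : ∀ z, X z 0 = x0) {T : ℝ} (hT : 0 ≤ T) : Differentiable ℂ (fun z => X z T) := by
  have hKA0 : 0 ≤ KA := (norm_nonneg _).trans (hKA 0)
  have hKB0 : 0 ≤ KB := (norm_nonneg _).trans (hKB 0)
  have nA : ∀ t x, ‖A t x‖ ≤ KA * ‖x‖ := fun t x => (A t).le_of_opNorm_le (hKA t) x
  have nB : ∀ t x, ‖B t x‖ ≤ KB * ‖x‖ := fun t x => (B t).le_of_opNorm_le (hKB t) x
  intro z
  let _ : NormedSpace ℝ E := NormedSpace.restrictScalars ℝ ℂ E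
  -- the derivative with respect to the parameter
  obtain ⟨Y, hY0, hY⟩ : ∃ Y : ℝ → E, Y 0 = 0 ∧
      ∀ t, HasDerivAt Y (A t (Y t) + z • B t (Y t) + B t (X z t)) t := by
    let F : ℝ → E × E → E × E := fun t p => (A t p.1 + z • B t p.1, A t p.2 + z • B t p.2 + B t p.1)
    have hlip : ∀ t, LipschitzWith ⟨KA + ‖z‖ * KB + KB, by positivity⟩ (F t) := by
      intro t
      refine LipschitzWith.of_dist_le_mul fun p q => ?_
      rw [dist_eq_norm, dist_eq_norm]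
      have e1 : F t p - F t q = (A t (p.1 - q.1) + z • B t (p.1 - q.1),
          A t (p.2 - q.2) + z • B t (p.2 - q.2) + B t (p.1 - q.1)) := by
        simp only [F, Prod.mk_sub_mk, map_sub, smul_sub]
        congr 1 <;> abel
      have h1 : ‖p.1 - q.1‖ ≤ ‖p - q‖ := norm_fst_le (p - q)
      have h2 : ‖p.2 - q.2‖ ≤ ‖p - q‖ := norm_snd_le (p - q)
      have hpq := norm_nonneg (p - q)
      rw [e1, Prod.norm_mk]
      change _ ≤ (KA + ‖z‖ * KB + KB) * ‖p - q‖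
      refine max_le ?_ ?_
      · refine (norm_add_le _ _).trans ?_
        rw [norm_smul]
        have := nA t (p.1 - q.1)
        have := nB t (p.1 - q.1)
        calc ‖A t (p.1 - q.1)‖ + ‖z‖ * ‖B t (p.1 - q.1)‖
            ≤ KA * ‖p - q‖ + ‖z‖ * (KB * ‖p - q‖) := by
              gcongr
              · exact (nA t _).trans (by gcongr)
              · exact (nB t _).trans (by gcongr)
          _ ≤ _ := by nlinarith
      · refine (norm_add_le _ _).trans ?_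
        refine (add_le_add (norm_add_le _ _) le_rfl).trans ?_
        rw [norm_smul]
        calc ‖A t (p.2 - q.2)‖ + ‖z‖ * ‖B t (p.2 - q.2)‖ + ‖B t (p.1 - q.1)‖
            ≤ KA * ‖p - q‖ + ‖z‖ * (KB * ‖p - q‖) + KB * ‖p - q‖ := by
              gcongr
              · exact (nA t _).trans (by gcongr)
              · exact (nB t _).trans (by gcongr)
              · exact (nB t _).trans (by gcongr)
          _ = _ := by ring
    have hcont : Continuous (Function.uncurry F) := by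
      have c1 : Continuous fun p : ℝ × (E × E) => A p.1 p.2.1 :=
        (hA.comp continuous_fst).clm_apply (by fun_prop)
      have c2 : Continuous fun p : ℝ × (E × E) => A p.1 p.2.2 :=
        (hA.comp continuous_fst).clm_apply (by fun_prop)
      have c3 : Continuous fun p : ℝ × (E × E) => B p.1 p.2.1 :=
        (hB.comp continuous_fst).clm_apply (by fun_prop)
      have c4 : Continuous fun p : ℝ × (E × E) => B p.1 p.2.2 :=
        (hB.comp continuous_fst).clm_apply (by fun_prop)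
      exact (c1.add (c3.const_smul z)).prodMk ((c2.add (c4.const_smul z)).add c3)
    obtain ⟨Q, hQ0, hQ⟩ := Haraux.global_ode F _ hlip hcont (x0, 0)
    have q1 : ∀ t, HasDerivAt (fun t => (Q t).1) (A t (Q t).1 + z • B t (Q t).1) t := fun t =>
      (ContinuousLinearMap.fst ℝ E E).hasFDerivAt.comp_hasDerivAt t (hQ t)
    have q2 : ∀ t, HasDerivAt (fun t => (Q t).2) (A t (Q t).2 + z • B t (Q t).2 + B t (Q t).1) t :=
      fun t => (ContinuousLinearMap.snd ℝ E E).hasFDerivAt.comp_hasDerivAt t (hQ t)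
    have heq : (fun t => (Q t).1) = X z := by
      refine ODE_solution_unique_univ (v := fun t x => A t x + z • B t x) (s := fun _ => univ)
        (K := ⟨KA + ‖z‖ * KB, by positivity⟩) (fun t => LipschitzWith.lipschitzOnWith ?_)
        (fun t => ⟨q1 t, trivial⟩) (fun t => ⟨hX z t, trivial⟩) (t₀ := 0) ?_
      · refine LipschitzWith.of_dist_le_mul fun p q => ?_
        rw [dist_eq_norm, dist_eq_norm]
        have e1 : A t p + z • B t p - (A t q + z • B t q) = A t (p - q) + z • B t (p - q) := by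
          simp only [map_sub, smul_sub]; abel
        rw [e1]
        refine (norm_add_le _ _).trans ?_
        rw [norm_smul]
        change _ ≤ (KA + ‖z‖ * KB) * ‖p - q‖
        calc ‖A t (p - q)‖ + ‖z‖ * ‖B t (p - q)‖
            ≤ KA * ‖p - q‖ + ‖z‖ * (KB * ‖p - q‖) := by
              gcongr
              · exact nA t _
              · exact nB t _
          _ = _ := by ring
      · simp only [hQ0, h0]
    refine ⟨fun t => (Q t).2, by simp [hQ0], fun t => ?_⟩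
    have := q2 t
    rw [show (Q t).1 = X z t from congrFun heq t] at this
    exact this
  have hYc : Continuous Y := continuous_iff_continuousAt.2 fun t => (hY t).continuousAt
  obtain ⟨M, hM⟩ := (isCompact_Icc (a := (0:ℝ)) (b := T)).exists_bound_of_continuousOn hYc.continuousOn
  have hM0 : 0 ≤ M := (norm_nonneg _).trans (hM 0 ⟨le_rfl, hT⟩)
  set K := KA + (‖z‖ + 1) * KB + 1 with hK
  have hKp : 0 < K := by positivity
  set C := KB * M / K * (Real.exp (K * T) - 1) with hC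
  have hC0 : 0 ≤ C := by
    have : 1 ≤ Real.exp (K * T) := Real.one_le_exp (by positivity)
    have : 0 ≤ Real.exp (K * T) - 1 := by linarith
    positivity
  have hmain : ∀ h : ℂ, ‖h‖ ≤ 1 → ‖X (z + h) T - X z T - h • Y T‖ ≤ ‖h‖ ^ 2 * C := by
    intro h hh
    have hW : ∀ t, HasDerivAt (fun t => X (z + h) t - X z t - h • Y t)
        (A t (X (z + h) t - X z t - h • Y t) + (z + h) • B t (X (z + h) t - X z t - h • Y t) +
          h ^ 2 • B t (Y t)) t := by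
      intro t
      have hs : HasDerivAt (fun t => h • Y t) (h • (A t (Y t) + z • B t (Y t) + B t (X z t))) t :=
        (hY t).const_smul h
      refine (((hX (z + h) t).sub (hX z t)).sub hs).congr_deriv ?_
      simp only [map_sub, map_smul]
      module
    have hg := norm_le_gronwallBound_of_norm_deriv_right_le (a := 0) (b := T) (δ := 0) (K := K)
      (ε := ‖h‖ ^ 2 * (KB * M)) (f := fun t => X (z + h) t - X z t - h • Y t)
      (continuous_iff_continuousAt.2 fun t => (hW t).continuousAt).continuousOn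
      (fun t _ => (hW t).hasDerivWithinAt) (by simp [h0, hY0]) (fun t ht => by
        set W := X (z + h) t - X z t - h • Y t with hWd
        have h1 : ‖z + h‖ ≤ ‖z‖ + 1 := (norm_add_le _ _).trans (by linarith)
        have h2 := hM t ⟨ht.1, ht.2.le⟩
        calc _ ≤ ‖A t W‖ + ‖(z + h) • B t W‖ + ‖h ^ 2 • B t (Y t)‖ :=
              (norm_add_le _ _).trans (add_le_add (norm_add_le _ _) le_rfl)
          _ ≤ KA * ‖W‖ + (‖z‖ + 1) * (KB * ‖W‖) + ‖h‖ ^ 2 * (KB * M) := by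
              rw [norm_smul, norm_smul, norm_pow]
              gcongr
              · exact nA t _
              · exact nB t _
              · exact (nB t _).trans (by gcongr)
          _ ≤ _ := by
              have := norm_nonneg W
              rw [hK]; nlinarith) T ⟨hT, le_rfl⟩
    rw [gronwallBound_of_K_ne_0 hKp.ne', sub_zero] at hg
    refine hg.trans (le_of_eq ?_)
    rw [hC]
    ring
  refine HasDerivAt.differentiableAt (f' := Y T) ?_
  rw [hasDerivAt_iff_isLittleO, Asymptotics.isLittleO_iff]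
  intro c hc
  have hδ : 0 < min 1 (c / (C + 1)) := by positivity
  filter_upwards [Metric.ball_mem_nhds z hδ] with w hw
  rw [Metric.mem_ball, dist_eq_norm] at hw
  have h1 := hmain (w - z) (hw.le.trans (min_le_left _ _))
  rw [add_sub_cancel] at h1
  refine h1.trans ?_
  have h2 : ‖w - z‖ * (C + 1) ≤ c := by
    have := hw.le.trans (min_le_right _ _)
    rwa [le_div_iff₀ (by positivity)] at this
  have h3 := norm_nonneg (w - z)
  calc ‖w - z‖ ^ 2 * C = ‖w - z‖ * (‖w - z‖ * C) := by ring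
    _ ≤ ‖w - z‖ * (‖w - z‖ * (C + 1)) := by gcongr; linarith
    _ ≤ ‖w - z‖ * c := by gcongr
    _ = _ := by ring

/-- The linear system. -/
noncomputable def vR (l m ξ : ℂ) (t : ℝ) (x : ℂ × ℂ) : ℂ × ℂ :=
  (I * x.2, -(I * (l + 2 * m * Real.cos t) * x.2) - I * ξ * x.1)

/-- Solutions of the linear system. -/
def RSol (l m ξ : ℂ) (X : ℝ → ℂ × ℂ) : Prop := ∀ t, HasDerivAt X (vR l m ξ t (X t)) t

lemma norm_cos_le (t : ℝ) : ‖((Real.cos t : ℝ) : ℂ)‖ ≤ 1 := by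
  rw [Complex.norm_real, Real.norm_eq_abs]; exact Real.abs_cos_le_one t

lemma coef_le (l m : ℂ) (t : ℝ) : ‖I * (l + 2 * m * Real.cos t)‖ ≤ ‖l‖ + 2 * ‖m‖ := by
  have h2 := norm_cos_le t
  rw [norm_mul, norm_I, one_mul]
  refine (norm_add_le _ _).trans ?_
  rw [norm_mul, norm_mul, Complex.norm_ofNat]
  have : 2 * ‖m‖ * ‖((Real.cos t : ℝ) : ℂ)‖ ≤ 2 * ‖m‖ * 1 := by gcongr
  linarith

lemma vR_norm (l m ξ : ℂ) (t : ℝ) (x : ℂ × ℂ) :
    ‖vR l m ξ t x‖ ≤ (1 + ‖l‖ + 2 * ‖m‖ + ‖ξ‖) * ‖x‖ := by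
  have h1 := coef_le l m t
  have h2 : ‖x.1‖ ≤ ‖x‖ := norm_fst_le x
  have h3 : ‖x.2‖ ≤ ‖x‖ := norm_snd_le x
  have hx := norm_nonneg x
  have hl := norm_nonneg l
  have hm := norm_nonneg m
  have hξ := norm_nonneg ξ
  rw [vR, Prod.norm_mk]
  refine max_le ?_ ?_
  · rw [norm_mul, norm_I, one_mul]
    nlinarith
  · refine (norm_sub_le _ _).trans ?_
    rw [norm_neg, norm_mul, norm_mul (I * ξ), norm_mul I ξ, norm_I, one_mul]
    calc _ ≤ (‖l‖ + 2 * ‖m‖) * ‖x‖ + ‖ξ‖ * ‖x‖ := by gcongr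
      _ ≤ _ := by nlinarith

lemma vR_sub (l m ξ : ℂ) (t : ℝ) (x y : ℂ × ℂ) :
    vR l m ξ t x - vR l m ξ t y = vR l m ξ t (x - y) := by
  simp only [vR, Prod.mk_sub_mk, Prod.fst_sub, Prod.snd_sub]
  congr 1 <;> ring

lemma vR_lip (l m ξ : ℂ) (t : ℝ) :
    LipschitzWith ⟨1 + ‖l‖ + 2 * ‖m‖ + ‖ξ‖, by positivity⟩ (vR l m ξ t) := by
  refine LipschitzWith.of_dist_le_mul fun x y => ?_
  rw [dist_eq_norm, dist_eq_norm, vR_sub]
  exact vR_norm _ _ _ _ _

lemma sR_exists (l m ξ : ℂ) (x : ℂ × ℂ) : ∃ X : ℝ → ℂ × ℂ, X 0 = x ∧ RSol l m ξ X := by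
  refine Haraux.global_ode (vR l m ξ) _ (vR_lip l m ξ) ?_ x
  unfold vR Function.uncurry
  fun_prop

lemma RSol.unique {l m ξ : ℂ} {X Y : ℝ → ℂ × ℂ} (hX : RSol l m ξ X) (hY : RSol l m ξ Y) {t0 : ℝ}
    (h : X t0 = Y t0) : X = Y :=
  ODE_solution_unique_univ (v := vR l m ξ) (s := fun _ => univ)
    (fun t => (vR_lip l m ξ t).lipschitzOnWith) (fun t => ⟨hX t, trivial⟩)
    (fun t => ⟨hY t, trivial⟩) h

/-- The solution with initial value `x`. -/
noncomputable def sR (l m ξ : ℂ) (x : ℂ × ℂ) : ℝ → ℂ × ℂ := Classical.choose (sR_exists l m ξ x)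

lemma sR_zero (l m ξ : ℂ) (x : ℂ × ℂ) : sR l m ξ x 0 = x :=
  (Classical.choose_spec (sR_exists l m ξ x)).1

lemma sR_sol (l m ξ : ℂ) (x : ℂ × ℂ) : RSol l m ξ (sR l m ξ x) :=
  (Classical.choose_spec (sR_exists l m ξ x)).2

lemma RSol.cont {l m ξ : ℂ} {X : ℝ → ℂ × ℂ} (hX : RSol l m ξ X) : Continuous X :=
  continuous_iff_continuousAt.2 fun t => (hX t).continuousAt

lemma RSol.fst {l m ξ : ℂ} {X : ℝ → ℂ × ℂ} (hX : RSol l m ξ X) (t : ℝ) :
    HasDerivAt (fun t => (X t).1) (I * (X t).2) t := H535R3.hd_fst (hX t)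

lemma RSol.snd {l m ξ : ℂ} {X : ℝ → ℂ × ℂ} (hX : RSol l m ξ X) (t : ℝ) :
    HasDerivAt (fun t => (X t).2) (-(I * (l + 2 * m * Real.cos t) * (X t).2) - I * ξ * (X t).1) t :=
  H535R3.hd_snd (hX t)

lemma RSol.of_parts {l m ξ : ℂ} {r η : ℝ → ℂ} (h1 : ∀ t, HasDerivAt r (I * η t) t)
    (h2 : ∀ t, HasDerivAt η (-(I * (l + 2 * m * Real.cos t) * η t) - I * ξ * r t) t) :
    RSol l m ξ (fun t => (r t, η t)) := fun t => (h1 t).prodMk (h2 t)

lemma RSol.lin {l m ξ : ℂ} {X Y : ℝ → ℂ × ℂ} (hX : RSol l m ξ X) (hY : RSol l m ξ Y) (u v : ℂ) :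
    RSol l m ξ (fun t => (u * (X t).1 + v * (Y t).1, u * (X t).2 + v * (Y t).2)) := by
  refine RSol.of_parts (fun t => ?_) (fun t => ?_)
  · exact (((hX.fst t).const_mul u).add ((hY.fst t).const_mul v)).congr_deriv (by ring)
  · exact (((hX.snd t).const_mul u).add ((hY.snd t).const_mul v)).congr_deriv (by ring)

lemma RSol.rep {l m ξ : ℂ} {X : ℝ → ℂ × ℂ} (hX : RSol l m ξ X) (t : ℝ) :
    X t = ((X 0).1 * (sR l m ξ (1, 0) t).1 + (X 0).2 * (sR l m ξ (0, 1) t).1,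
      (X 0).1 * (sR l m ξ (1, 0) t).2 + (X 0).2 * (sR l m ξ (0, 1) t).2) := by
  refine congrFun (hX.unique ((sR_sol l m ξ (1, 0)).lin (sR_sol l m ξ (0, 1)) (X 0).1 (X 0).2)
    (t0 := 0) ?_) t
  simp only [sR_zero]
  ext <;> simp

/-- The trace of the monodromy. -/
noncomputable def Th (l m ξ : ℂ) : ℂ :=
  (sR l m ξ (1, 0) (2 * Real.pi)).1 + (sR l m ξ (0, 1) (2 * Real.pi)).2

/-- auxiliary linear maps -/
noncomputable def L1 (a b c d : ℂ) : (ℂ × ℂ) →L[ℂ] (ℂ × ℂ) :=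
  (a • ContinuousLinearMap.fst ℂ ℂ ℂ + b • ContinuousLinearMap.snd ℂ ℂ ℂ).prod
    (c • ContinuousLinearMap.fst ℂ ℂ ℂ + d • ContinuousLinearMap.snd ℂ ℂ ℂ)

lemma L1_apply (a b c d : ℂ) (x : ℂ × ℂ) : L1 a b c d x = (a * x.1 + b * x.2, c * x.1 + d * x.2) := rfl

lemma sR_diff_xi (l m : ℂ) (x0 : ℂ × ℂ) :
    Differentiable ℂ (fun ξ => sR l m ξ x0 (2 * Real.pi)) := by
  refine entire_dep (A := fun t => L1 0 I 0 (-(I * l)) + ((Real.cos t : ℝ) : ℂ) • L1 0 0 0 (-(2 * I * m)))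
    (B := fun _ => L1 0 0 (-I) 0) (KA := ‖L1 0 I 0 (-(I * l))‖ + ‖L1 0 0 0 (-(2 * I * m))‖)
    (KB := ‖L1 0 0 (-I) 0‖) (x0 := x0) (by fun_prop) (by fun_prop) ?_ (fun _ => le_rfl) ?_
    (fun z => sR_zero l m z x0) (by positivity)
  · intro t
    refine (norm_add_le _ _).trans ?_
    rw [norm_smul]
    have := norm_cos_le t
    have := norm_nonneg (L1 0 0 0 (-(2 * I * m)))
    nlinarith
  · intro z t
    refine (sR_sol l m z x0 t).congr_deriv ?_
    simp only [vR, add_apply, smul_apply, L1_apply,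
      Prod.smul_mk, Prod.mk_add_mk, smul_eq_mul]
    congr 1 <;> ring

lemma sR_diff_m (l ξ : ℂ) (x0 : ℂ × ℂ) :
    Differentiable ℂ (fun m => sR l m ξ x0 (2 * Real.pi)) := by
  refine entire_dep (A := fun _ => L1 0 I (-(I * ξ)) (-(I * l)))
    (B := fun t => ((Real.cos t : ℝ) : ℂ) • L1 0 0 0 (-(2 * I)))
    (KA := ‖L1 0 I (-(I * ξ)) (-(I * l))‖)
    (KB := ‖L1 0 0 0 (-(2 * I))‖) (x0 := x0) (by fun_prop) (by fun_prop) (fun _ => le_rfl) ?_ ?_
    (fun z => sR_zero l z ξ x0) (by positivity)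
  · intro t
    rw [norm_smul]
    have := norm_cos_le t
    have := norm_nonneg (L1 0 0 0 (-(2 * I)))
    nlinarith
  · intro z t
    refine (sR_sol l z ξ x0 t).congr_deriv ?_
    simp only [vR, smul_apply, L1_apply,
      Prod.smul_mk, Prod.mk_add_mk, smul_eq_mul]
    congr 1 <;> ring

lemma Th_diff_xi (l m : ℂ) : Differentiable ℂ (Th l m) := by
  have h1 : Differentiable ℂ fun ξ => (sR l m ξ (1, 0) (2 * Real.pi)).1 := (sR_diff_xi l m (1, 0)).fst
  have h2 : Differentiable ℂ fun ξ => (sR l m ξ (0, 1) (2 * Real.pi)).2 := (sR_diff_xi l m (0, 1)).snd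
  exact h1.add h2

lemma Th_diff_m (l ξ : ℂ) : Differentiable ℂ (fun m => Th l m ξ) := by
  have h1 : Differentiable ℂ fun m => (sR l m ξ (1, 0) (2 * Real.pi)).1 := (sR_diff_m l ξ (1, 0)).fst
  have h2 : Differentiable ℂ fun m => (sR l m ξ (0, 1) (2 * Real.pi)).2 := (sR_diff_m l ξ (0, 1)).snd
  exact h1.add h2

/-- Growth in the scaled variables. -/
lemma RSol.growth {l m ξ : ℂ} {X : ℝ → ℂ × ℂ} (hX : RSol l m ξ X) {ρ : ℝ} (hρ : 1 ≤ ρ)
    (hξ : ‖ξ‖ ≤ ρ ^ 2) : ‖((X (2 * Real.pi)).1, ((ρ⁻¹ : ℝ) : ℂ) * (X (2 * Real.pi)).2)‖ ≤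
      ‖((X 0).1, ((ρ⁻¹ : ℝ) : ℂ) * (X 0).2)‖ * Real.exp ((ρ + ‖l‖ + 2 * ‖m‖) * (2 * Real.pi)) := by
  have hρ0 : 0 < ρ := by linarith
  have hρc : (ρ : ℂ) ≠ 0 := by exact_mod_cast hρ0.ne'
  set Y : ℝ → ℂ × ℂ := fun t => ((X t).1, ((ρ⁻¹ : ℝ) : ℂ) * (X t).2) with hYd
  have hY : ∀ t, HasDerivAt Y (I * ρ * (Y t).2,
      -(I * (l + 2 * m * Real.cos t) * (Y t).2) - I * (ξ * ((ρ⁻¹ : ℝ) : ℂ)) * (Y t).1) t := by
    intro t
    refine HasDerivAt.prodMk ((hX.fst t).congr_deriv ?_)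
      (((hX.snd t).const_mul ((ρ⁻¹ : ℝ) : ℂ)).congr_deriv ?_)
    · simp only [hYd]; push_cast; field_simp
    · simp only [hYd]; ring
  have hK : 0 < ρ + ‖l‖ + 2 * ‖m‖ := by positivity
  have hg := norm_le_gronwallBound_of_norm_deriv_right_le (a := 0) (b := 2 * Real.pi)
    (δ := ‖Y 0‖) (K := ρ + ‖l‖ + 2 * ‖m‖) (ε := 0) (f := Y)
    (continuous_iff_continuousAt.2 fun t => (hY t).continuousAt).continuousOn
    (fun t _ => (hY t).hasDerivWithinAt) le_rfl (fun t _ => by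
      rw [add_zero, Prod.norm_mk]
      have h1 := coef_le l m t
      have h2 : ‖(Y t).1‖ ≤ ‖Y t‖ := norm_fst_le _
      have h3 : ‖(Y t).2‖ ≤ ‖Y t‖ := norm_snd_le _
      have hx := norm_nonneg (Y t)
      have hl := norm_nonneg l
      have hm := norm_nonneg m
      refine max_le ?_ ?_
      · rw [norm_mul, norm_mul, norm_I, one_mul, Complex.norm_real, Real.norm_of_nonneg hρ0.le]
        calc ρ * ‖(Y t).2‖ ≤ ρ * ‖Y t‖ := by gcongr
          _ ≤ _ := by nlinarith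
      · refine (norm_sub_le _ _).trans ?_
        rw [norm_neg, norm_mul, norm_mul (I * (ξ * ((ρ⁻¹ : ℝ) : ℂ))), norm_mul I (ξ * ((ρ⁻¹ : ℝ) : ℂ)),
          norm_I, one_mul, norm_mul ξ, Complex.norm_real, Real.norm_of_nonneg (by positivity)]
        have h4 : ‖ξ‖ * ρ⁻¹ ≤ ρ := by
          rw [← div_eq_mul_inv, div_le_iff₀ hρ0]; nlinarith
        calc _ ≤ (‖l‖ + 2 * ‖m‖) * ‖Y t‖ + ρ * ‖Y t‖ := by gcongr
          _ = _ := by ring) (2 * Real.pi) ⟨by positivity, le_rfl⟩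
  rw [gronwallBound_of_K_ne_0 hK.ne', sub_zero] at hg
  simp only [zero_div, zero_mul, add_zero] at hg
  exact hg

lemma Th_growth (l m ξ : ℂ) : ‖Th l m ξ‖ ≤
    2 * Real.exp ((1 + √‖ξ‖ + ‖l‖ + 2 * ‖m‖) * (2 * Real.pi)) := by
  set ρ := 1 + √‖ξ‖ with hρ
  have hs := Real.sqrt_nonneg ‖ξ‖
  have h1 : 1 ≤ ρ := by linarith
  have hρ0 : 0 < ρ := by linarith
  have h2 : ‖ξ‖ ≤ ρ ^ 2 := by
    have := Real.sq_sqrt (norm_nonneg ξ)
    nlinarith
  have g1 := (sR_sol l m ξ (1, 0)).growth h1 h2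
  have g2 := (sR_sol l m ξ (0, 1)).growth h1 h2
  rw [sR_zero] at g1 g2
  set E := Real.exp ((ρ + ‖l‖ + 2 * ‖m‖) * (2 * Real.pi)) with hE
  have k1 : ‖(sR l m ξ (1, 0) (2 * Real.pi)).1‖ ≤ E := by
    refine ((norm_fst_le _).trans g1).trans (le_of_eq ?_)
    simp [Prod.norm_mk]
  have k2 : ‖(sR l m ξ (0, 1) (2 * Real.pi)).2‖ ≤ E := by
    have h3 := (norm_snd_le _).trans g2
    simp only [Prod.norm_mk, norm_mul, Complex.norm_real, Real.norm_of_nonneg (inv_nonneg.2 hρ0.le),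
      norm_zero, mul_one] at h3
    rw [max_eq_right (by positivity)] at h3
    have h4 := mul_le_mul_of_nonneg_left h3 hρ0.le
    rw [← mul_assoc, ← mul_assoc, mul_inv_cancel₀ hρ0.ne', one_mul, one_mul] at h4
    exact h4
  rw [Th]
  refine (norm_add_le _ _).trans ?_
  linarith

lemma minType_F (l m : ℂ) : MinType (fun ξ => 2 - Th l m ξ) := by
  intro δ hδ
  refine ⟨2 + 2 * Real.exp ((1 + ‖l‖ + 2 * ‖m‖) * (2 * Real.pi) + Real.pi ^ 2 / δ), fun ξ => ?_⟩
  have h1 := Th_growth l m ξ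
  have h2 : √‖ξ‖ * (2 * Real.pi) ≤ δ * ‖ξ‖ + Real.pi ^ 2 / δ := by
    have hs := Real.sq_sqrt (norm_nonneg ξ)
    have h3 : 0 ≤ (δ * √‖ξ‖ - Real.pi) ^ 2 / δ := by positivity
    have h4 : (δ * √‖ξ‖ - Real.pi) ^ 2 / δ = δ * ‖ξ‖ + Real.pi ^ 2 / δ - √‖ξ‖ * (2 * Real.pi) := by
      field_simp
      rw [← hs]
      simp only [Real.sqrt_sq (Real.sqrt_nonneg _)]
      ring
    linarith
  have h5 : Real.exp ((1 + √‖ξ‖ + ‖l‖ + 2 * ‖m‖) * (2 * Real.pi)) ≤
      Real.exp ((1 + ‖l‖ + 2 * ‖m‖) * (2 * Real.pi) + Real.pi ^ 2 / δ) * Real.exp (δ * ‖ξ‖) := by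
    rw [← Real.exp_add]
    refine Real.exp_le_exp.2 ?_
    linarith
  have h6 : 1 ≤ Real.exp (δ * ‖ξ‖) := Real.one_le_exp (by positivity)
  calc ‖2 - Th l m ξ‖ ≤ 2 + ‖Th l m ξ‖ := (norm_sub_le _ _).trans (by simp)
    _ ≤ 2 + 2 * (Real.exp ((1 + ‖l‖ + 2 * ‖m‖) * (2 * Real.pi) + Real.pi ^ 2 / δ) *
      Real.exp (δ * ‖ξ‖)) := by linarith
    _ ≤ _ := by nlinarith

/-- The Wronskian. -/
lemma RSol.wronsk {l m ξ : ℂ} {X Y : ℝ → ℂ × ℂ} (hX : RSol l m ξ X) (hY : RSol l m ξ Y) (t : ℝ) :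
    exp (I * (l * t + 2 * m * Real.sin t)) * ((X t).1 * (Y t).2 - (Y t).1 * (X t).2) =
      (X 0).1 * (Y 0).2 - (Y 0).1 * (X 0).2 := by
  have hd : ∀ t : ℝ, HasDerivAt (fun t : ℝ => exp (I * (l * t + 2 * m * Real.sin t)) *
      ((X t).1 * (Y t).2 - (Y t).1 * (X t).2)) 0 t := by
    intro t
    have h1 : HasDerivAt (fun t : ℝ => I * (l * (t:ℂ) + 2 * m * (Real.sin t : ℝ)))
        (I * (l * 1 + 2 * m * (Real.cos t : ℝ))) t :=
      ((ofRealCLM.hasDerivAt (x := t)).const_mul l |>.add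
        ((Real.hasDerivAt_sin t).ofReal_comp.const_mul (2 * m))).const_mul I
    have h2 := h1.cexp.mul (((hX.fst t).mul (hY.snd t)).sub ((hY.fst t).mul (hX.snd t)))
    refine h2.congr_deriv ?_
    simp only [Pi.sub_apply, Pi.mul_apply]
    ring
  have hc := is_const_of_deriv_eq_zero (fun t => (hd t).differentiableAt) (fun t => (hd t).deriv) t 0
  simpa using hc

lemma RSol.wronsk_int {l : ℤ} {m ξ : ℂ} {X Y : ℝ → ℂ × ℂ} (hX : RSol l m ξ X) (hY : RSol l m ξ Y) :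
    (X (2 * Real.pi)).1 * (Y (2 * Real.pi)).2 - (Y (2 * Real.pi)).1 * (X (2 * Real.pi)).2 =
      (X 0).1 * (Y 0).2 - (Y 0).1 * (X 0).2 := by
  have h := hX.wronsk hY (2 * Real.pi)
  have e : exp (I * (l * ((2 * Real.pi : ℝ) : ℂ) + 2 * m * Real.sin (2 * Real.pi))) = 1 := by
    rw [Real.sin_two_pi, exp_eq_one_iff]
    exact ⟨l, by push_cast; ring⟩
  rw [e, one_mul] at h
  exact h

/-- Eigenvectors of the monodromy. -/
lemma eigen_exists {l : ℤ} {m ξ : ℂ} {κ : ℂ} (h : κ ^ 2 - Th l m ξ * κ + 1 = 0) :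
    ∃ X : ℝ → ℂ × ℂ, RSol l m ξ X ∧ X 0 ≠ 0 ∧ X (2 * Real.pi) = κ • X 0 := by
  set A := (sR l m ξ (1, 0) (2 * Real.pi)).1 with hA
  set B := (sR l m ξ (0, 1) (2 * Real.pi)).1 with hB
  set C := (sR l m ξ (1, 0) (2 * Real.pi)).2 with hC
  set D := (sR l m ξ (0, 1) (2 * Real.pi)).2 with hD
  have hdet : A * D - B * C = 1 := by
    have := (sR_sol (l:ℂ) m ξ (1, 0)).wronsk_int (sR_sol (l:ℂ) m ξ (0, 1))
    simp only [sR_zero] at this
    rw [hA, hB, hC, hD, this]; simp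
  have hTh : Th l m ξ = A + D := rfl
  rw [hTh] at h
  have hz : (A - κ) * (D - κ) - B * C = 0 := by linear_combination hdet + h
  obtain ⟨u, v, huv, h1, h2⟩ : ∃ u v : ℂ, (u ≠ 0 ∨ v ≠ 0) ∧ u * A + v * B = κ * u ∧
      u * C + v * D = κ * v := by
    by_cases hb : B = 0 ∧ A = κ
    · by_cases hc : D = κ
      · exact ⟨0, 1, Or.inr one_ne_zero, by rw [hb.1]; ring, by rw [hc]; ring⟩
      · refine ⟨κ - D, C, Or.inl (sub_ne_zero.2 (Ne.symm hc)), ?_, ?_⟩
        · rw [hb.1, hb.2]; ring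
        · ring
    · refine ⟨B, κ - A, ?_, by ring, by linear_combination -hz⟩
      by_cases hB0 : B = 0
      · right
        intro h3
        exact hb ⟨hB0, (sub_eq_zero.1 h3).symm⟩
      · exact Or.inl hB0
  refine ⟨fun t => (u * (sR l m ξ (1, 0) t).1 + v * (sR l m ξ (0, 1) t).1,
    u * (sR l m ξ (1, 0) t).2 + v * (sR l m ξ (0, 1) t).2),
    (sR_sol _ _ _ _).lin (sR_sol _ _ _ _) u v, ?_, ?_⟩
  · simp only [sR_zero]
    intro h3
    rw [Prod.ext_iff] at h3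
    simp only [mul_one, mul_zero, add_zero, zero_add, Prod.fst_zero, Prod.snd_zero] at h3
    exact huv.elim (fun h => h h3.1) (fun h => h h3.2)
  · simp only [sR_zero, Prod.smul_mk, smul_eq_mul]
    congr 1
    · rw [← hA, ← hB, h1]; ring
    · rw [← hC, ← hD, h2]; ring

/-- Conversely an eigenvalue satisfies the characteristic equation. -/
lemma char_of_eigen {l : ℤ} {m ξ : ℂ} {κ : ℂ} {X : ℝ → ℂ × ℂ} (hX : RSol l m ξ X) (h0 : X 0 ≠ 0)
    (h : X (2 * Real.pi) = κ • X 0) : κ ^ 2 - Th l m ξ * κ + 1 = 0 := by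
  set A := (sR l m ξ (1, 0) (2 * Real.pi)).1 with hA
  set B := (sR l m ξ (0, 1) (2 * Real.pi)).1 with hB
  set C := (sR l m ξ (1, 0) (2 * Real.pi)).2 with hC
  set D := (sR l m ξ (0, 1) (2 * Real.pi)).2 with hD
  have hdet : A * D - B * C = 1 := by
    have := (sR_sol (l:ℂ) m ξ (1, 0)).wronsk_int (sR_sol (l:ℂ) m ξ (0, 1))
    simp only [sR_zero] at this
    rw [hA, hB, hC, hD, this]; simp
  have hTh : Th l m ξ = A + D := rfl
  rw [hTh]
  have hr := hX.rep (2 * Real.pi)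
  rw [h, Prod.ext_iff] at hr
  simp only [Prod.smul_fst, Prod.smul_snd, smul_eq_mul] at hr
  rw [← hA, ← hB, ← hC, ← hD] at hr
  obtain ⟨h1, h2⟩ := hr
  set u := (X 0).1
  set v := (X 0).2
  have e1 : (κ ^ 2 - (A + D) * κ + 1) * u = 0 := by
    linear_combination (κ - D) * h1 + B * h2 - u * hdet
  have e2 : (κ ^ 2 - (A + D) * κ + 1) * v = 0 := by
    linear_combination (κ - A) * h2 + C * h1 - v * hdet
  by_contra hne
  apply h0
  rw [Prod.ext_iff]
  exact ⟨(mul_eq_zero.1 e1).resolve_left hne, (mul_eq_zero.1 e2).resolve_left hne⟩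

end Pool.Agent.H249
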