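import Pool.Agent.H249.CL

set_option autoImplicit false
open Set Filter Topology
open H535R3 (Sol fl P Cc Kx)

namespace Pool.Agent.H249

/-- Displacement of the point `π / 2`. -/
noncomputable def dp (b a ε : ℝ) : ℝ := P b a ε (Real.pi / 2) - Real.pi / 2
/-- Displacement of the point `- π / 2`. -/
noncomputable def dq (b a ε : ℝ) : ℝ := P b a ε (-(Real.pi / 2)) + Real.pi / 2

lemma dp_cont : Continuous fun x : ℝ × ℝ × ℝ => dp x.1 x.2.1 x.2.2 := by
  have h := H535R3.continuous_P
  exact (h.comp (by fun_prop : Continuous fun x : ℝ × ℝ × ℝ =>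
    ((x.1, x.2.1, x.2.2, Real.pi / 2) : ℝ × ℝ × ℝ × ℝ))).sub continuous_const

lemma dq_cont : Continuous fun x : ℝ × ℝ × ℝ => dq x.1 x.2.1 x.2.2 := by
  have h := H535R3.continuous_P
  exact (h.comp (by fun_prop : Continuous fun x : ℝ × ℝ × ℝ =>
    ((x.1, x.2.1, x.2.2, -(Real.pi / 2)) : ℝ × ℝ × ℝ × ℝ))).add continuous_const

lemma dp_lt_of_b {b b' a ε : ℝ} (h : b < b') : dp b a ε < dp b' a ε :=
  sub_lt_sub_right (H535R3.P_lt_of_b h) _

lemma dq_lt_of_b {b b' a ε : ℝ} (h : b < b') : dq b a ε < dq b' a ε := by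
  have := H535R3.P_lt_of_b (a := a) (ε := ε) (x := -(Real.pi / 2)) h
  simp only [dq]
  linarith

lemma dp_dq (b a ε : ℝ) : |dp b a ε - dq b a ε| < Real.pi := by
  have hpi := Real.pi_pos
  have h1 : P b a ε (-(Real.pi / 2)) < P b a ε (Real.pi / 2) := H535R3.P_mono b a ε (by linarith)
  have h2 : P b a ε (Real.pi / 2) < P b a ε (-(Real.pi / 2) + 2 * Real.pi * (1:ℤ)) :=
    H535R3.P_mono b a ε (by push_cast; linarith)
  rw [H535R3.P_add b a ε (-(Real.pi / 2)) 1] at h2
  push_cast at h2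
  rw [abs_lt, dp, dq]
  constructor <;> linarith

lemma dp_eq {b a ε : ℝ} {k : ℤ} (h : dp b a ε = 2 * Real.pi * k) :
    P b a ε (Real.pi / 2) = Real.pi / 2 + 2 * Real.pi * k ∧ Kx b a ε (Real.pi / 2) = 0 := by
  have h1 : P b a ε (Real.pi / 2) = Real.pi / 2 + 2 * Real.pi * k := by
    rw [dp] at h; linarith
  exact ⟨h1, H535R3.Kx_sym h1⟩

lemma dq_eq {b a ε : ℝ} {k : ℤ} (h : dq b a ε = 2 * Real.pi * k) :
    P b a ε (-(Real.pi / 2)) = -(Real.pi / 2) + 2 * Real.pi * k ∧ Kx b a ε (-(Real.pi / 2)) = 0 := by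
  have h1 : P b a ε (-(Real.pi / 2)) = -(Real.pi / 2) + 2 * Real.pi * k := by
    rw [dq] at h; linarith
  refine ⟨h1, ?_⟩
  have h2 := H535R3.P_neg b a ε (-(Real.pi / 2))
  rw [show -(Real.pi / 2) + Real.pi = Real.pi / 2 by ring] at h2
  rw [h2.2]
  exact H535R3.Kx_sym (m := k) (by linarith [h2.1])

lemma both_eq {b a ε : ℝ} {k : ℤ} (h1 : dp b a ε = 2 * Real.pi * k) (h2 : dq b a ε = 2 * Real.pi * k)
    (x : ℝ) : P b a ε x = x + 2 * Real.pi * k := by
  obtain ⟨p1, p2⟩ := dp_eq h1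
  obtain ⟨q1, q2⟩ := dq_eq h2
  rcases H535R3.dich p1 q1 (by
    rw [show (-(Real.pi / 2) - Real.pi / 2) / 2 = -(Real.pi / 2) by ring, Real.sin_neg,
      Real.sin_pi_div_two]
    norm_num) with h | h
  · exact h.1 x
  · exact absurd p2 h.1

/-- Locking in terms of the two displacements. -/
lemma lock_iff {b a ε : ℝ} {k : ℤ} : (∃ x, P b a ε x = x + 2 * Real.pi * k) ↔
    (dp b a ε - 2 * Real.pi * k) * (dq b a ε - 2 * Real.pi * k) ≤ 0 := by
  have hpi := Real.pi_pos
  constructor
  · rintro ⟨x1, hx1⟩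
    have hx2 := H535R3.P_reflect hx1
    by_cases hs : Real.sin (((Real.pi - x1) - x1) / 2) = 0
    · rcases H535R3.sym_of_cos hx1 hs with h | h
      · have : dp b a ε - 2 * Real.pi * k = 0 := by rw [dp, h]; ring
        rw [this, zero_mul]
      · have : dq b a ε - 2 * Real.pi * k = 0 := by rw [dq, h]; ring
        rw [this, mul_zero]
    · have k1 := H535R3.key hx1 hx2 (Real.pi / 2)
      have k2 := H535R3.key hx1 hx2 (-(Real.pi / 2))
      have c1 := H535R3.close hx1 (x := Real.pi / 2)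
      have c2 := H535R3.close hx1 (x := -(Real.pi / 2))
      set s := Real.sin (((Real.pi - x1) - x1) / 2) with hsd
      set K1 := Kx b a ε x1
      set K2 := Kx b a ε (Real.pi - x1)
      have f1 : ∀ K : ℝ, Real.exp (-(K + K2)) - Real.exp (-(K + K1)) =
          Real.exp (-K) * (Real.exp (-K2) - Real.exp (-K1)) := by
        intro K
        rw [neg_add, neg_add, Real.exp_add, Real.exp_add]; ring
      rw [f1] at k1 k2
      have a1 : Real.sin ((Real.pi / 2 - (Real.pi - x1)) / 2) = -Real.sin ((Real.pi / 2 - x1) / 2) := by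
        rw [← Real.sin_neg]; congr 1; ring
      have a2 : Real.sin ((-(Real.pi / 2) - (Real.pi - x1)) / 2) = Real.sin ((-(Real.pi / 2) - x1) / 2) := by
        rw [show (-(Real.pi / 2) - (Real.pi - x1)) / 2 = -((-(Real.pi / 2) - x1) / 2 + Real.pi) by ring,
          Real.sin_neg, Real.sin_add_pi, neg_neg]
      rw [a1] at k1
      rw [a2] at k2
      set A := Real.sin ((Real.pi / 2 - x1) / 2)
      set B := Real.sin ((-(Real.pi / 2) - x1) / 2)
      set G := Real.exp (-K2) - Real.exp (-K1)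
      set E1 := Real.exp (-Kx b a ε (Real.pi / 2)) with hE1
      set E2 := Real.exp (-Kx b a ε (-(Real.pi / 2))) with hE2
      have hE1p : 0 < E1 := Real.exp_pos _
      have hE2p : 0 < E2 := Real.exp_pos _
      have u1 : P b a ε (Real.pi / 2) - 2 * Real.pi * k - Real.pi / 2 = dp b a ε - 2 * Real.pi * k := by
        rw [dp]; ring
      have u2 : P b a ε (-(Real.pi / 2)) - 2 * Real.pi * k - -(Real.pi / 2) =
          dq b a ε - 2 * Real.pi * k := by
        rw [dq]; ring
      rw [u1] at k1 c1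
      rw [u2] at k2 c2
      set u := dp b a ε - 2 * Real.pi * k
      set v := dq b a ε - 2 * Real.pi * k
      have hprod : (Real.sin (u / 2) * Real.sin (v / 2)) * s ^ 2 = -(A ^ 2 * B ^ 2 * (E1 * E2) * G ^ 2) := by
        calc (Real.sin (u / 2) * Real.sin (v / 2)) * s ^ 2
            = (Real.sin (u / 2) * s) * (Real.sin (v / 2) * s) := by ring
          _ = _ := by rw [k1, k2]; ring
      have hs2 : 0 < s ^ 2 := by positivity
      have hle : Real.sin (u / 2) * Real.sin (v / 2) ≤ 0 := by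
        by_contra h
        push Not at h
        have h1 := mul_pos h hs2
        have h2 : 0 ≤ A ^ 2 * B ^ 2 * (E1 * E2) * G ^ 2 := by positivity
        linarith
      rw [abs_lt] at c1 c2
      by_contra hcon
      push Not at hcon
      rcases pos_and_pos_or_neg_and_neg_of_mul_pos hcon with ⟨h1, h2⟩ | ⟨h1, h2⟩
      · have g1 : 0 < Real.sin (u / 2) := Real.sin_pos_of_pos_of_lt_pi (by linarith) (by linarith)
        have g2 : 0 < Real.sin (v / 2) := Real.sin_pos_of_pos_of_lt_pi (by linarith) (by linarith)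
        have := mul_pos g1 g2
        linarith
      · have g1 : Real.sin (u / 2) < 0 := Real.sin_neg_of_neg_of_neg_pi_lt (by linarith) (by linarith)
        have g2 : Real.sin (v / 2) < 0 := Real.sin_neg_of_neg_of_neg_pi_lt (by linarith) (by linarith)
        have := mul_pos_of_neg_of_neg g1 g2
        linarith
  · intro h
    have hc : Continuous fun x => P b a ε x - x - 2 * Real.pi * k :=
      ((H535R3.continuous_Px b a ε).sub continuous_id).sub continuous_const
    have e1 : P b a ε (Real.pi / 2) - Real.pi / 2 - 2 * Real.pi * k = dp b a ε - 2 * Real.pi * k := rfl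
    have e2 : P b a ε (-(Real.pi / 2)) - -(Real.pi / 2) - 2 * Real.pi * k =
        dq b a ε - 2 * Real.pi * k := by rw [dq]; ring
    rcases mul_nonpos_iff.1 h with ⟨h1, h2⟩ | ⟨h1, h2⟩
    · obtain ⟨x, hx⟩ := mem_range_of_exists_le_of_exists_ge hc (c := 0)
        ⟨-(Real.pi / 2), by rw [e2]; exact h2⟩ ⟨Real.pi / 2, by rw [e1]; exact h1⟩
      exact ⟨x, by linarith⟩
    · obtain ⟨x, hx⟩ := mem_range_of_exists_le_of_exists_ge hc (c := 0)
        ⟨Real.pi / 2, by rw [e1]; exact h1⟩ ⟨-(Real.pi / 2), by rw [e2]; exact h2⟩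
      exact ⟨x, by linarith⟩

end Pool.Agent.H249
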