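import Pool.Agent.H249.CC

set_option autoImplicit false
open Set Filter Topology
open H535R3 (Sol fl P Cc Kx MM)

namespace Pool.Agent.H249

lemma ms_cont_b (σ a ε : ℝ) : Continuous fun b => ms σ b a ε :=
  (ms_cont σ).comp (by fun_prop : Continuous fun b : ℝ => ((b, a, ε) : ℝ × ℝ × ℝ))

lemma ms_cont_a (σ b ε : ℝ) : Continuous fun a => ms σ b a ε :=
  (ms_cont σ).comp (by fun_prop : Continuous fun a : ℝ => ((b, a, ε) : ℝ × ℝ × ℝ))

lemma ms_lt_of_b {σ b b' a ε : ℝ} (h : b < b') : ms σ b a ε < ms σ b' a ε := by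
  have h1 := dp_lt_of_b (a := a) (ε := ε) h
  have h2 := dq_lt_of_b (a := a) (ε := ε) h
  unfold ms
  by_cases hσ : 0 < σ
  · simp only [if_pos hσ]
    exact lt_min ((min_le_left _ _).trans_lt h1) ((min_le_right _ _).trans_lt h2)
  · simp only [if_neg hσ]
    exact max_lt (h1.trans_le (le_max_left _ _)) (h2.trans_le (le_max_right _ _))

/-- Boundary points in terms of the extremal displacement. -/
lemma bd_iff {σ b a ε : ℝ} (hσ : σ = 1 ∨ σ = -1) {k : ℤ} :
    ((∃ x, P b a ε x = x + 2 * Real.pi * k) ∧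
      ∀ b', 0 < σ * (b' - b) → ¬ ∃ x, P b' a ε x = x + 2 * Real.pi * k) ↔
      ms σ b a ε = 2 * Real.pi * k := by
  simp only [lock_iff]
  set Λ := 2 * Real.pi * (k:ℝ) with hΛ
  have cp : Continuous fun b => dp b a ε :=
    dp_cont.comp (by fun_prop : Continuous fun b : ℝ => ((b, a, ε) : ℝ × ℝ × ℝ))
  have cq : Continuous fun b => dq b a ε :=
    dq_cont.comp (by fun_prop : Continuous fun b : ℝ => ((b, a, ε) : ℝ × ℝ × ℝ))
  rcases hσ with rfl | rfl
  · simp only [ms, if_pos (show (0:ℝ) < 1 by norm_num), one_mul]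
    constructor
    · rintro ⟨h1, h2⟩
      have h3 : Λ ≤ dp b a ε ∧ Λ ≤ dq b a ε := by
        by_contra hcon
        rw [not_and_or, not_le, not_le] at hcon
        rcases hcon with hc | hc
        · have h4 : Λ ≤ dq b a ε := by
            by_contra h5
            push Not at h5
            linarith [mul_pos_of_neg_of_neg (sub_neg.2 hc) (sub_neg.2 h5)]
          obtain ⟨b', h5, h6⟩ := ((freq_gt b).and_eventually
            ((cp.tendsto b).eventually (gt_mem_nhds hc))).exists
          refine h2 b' (by linarith) ?_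
          have h7 := dq_lt_of_b (a := a) (ε := ε) h5
          exact (mul_neg_of_neg_of_pos (sub_neg.2 h6) (by linarith)).le
        · have h4 : Λ ≤ dp b a ε := by
            by_contra h5
            push Not at h5
            linarith [mul_pos_of_neg_of_neg (sub_neg.2 h5) (sub_neg.2 hc)]
          obtain ⟨b', h5, h6⟩ := ((freq_gt b).and_eventually
            ((cq.tendsto b).eventually (gt_mem_nhds hc))).exists
          refine h2 b' (by linarith) ?_
          have h7 := dp_lt_of_b (a := a) (ε := ε) h5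
          exact (mul_neg_of_pos_of_neg (by linarith) (sub_neg.2 h6)).le
      refine le_antisymm ?_ (le_min h3.1 h3.2)
      by_contra hcon
      push Not at hcon
      have h4 := lt_min_iff.1 hcon
      linarith [mul_pos (sub_pos.2 h4.1) (sub_pos.2 h4.2)]
    · intro h
      have h1 : Λ ≤ dp b a ε := h ▸ min_le_left _ _
      have h2 : Λ ≤ dq b a ε := h ▸ min_le_right _ _
      refine ⟨?_, fun b' hb' => ?_⟩
      · rcases min_choice (dp b a ε) (dq b a ε) with h3 | h3
        · rw [← h3, h, sub_self, zero_mul]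
        · rw [← h3, h, sub_self, mul_zero]
      · push Not
        have h4 := dp_lt_of_b (a := a) (ε := ε) (show b < b' by linarith)
        have h5 := dq_lt_of_b (a := a) (ε := ε) (show b < b' by linarith)
        exact mul_pos (by linarith) (by linarith)
  · simp only [ms, if_neg (show ¬ (0:ℝ) < -1 by norm_num)]
    constructor
    · rintro ⟨h1, h2⟩
      have h3 : dp b a ε ≤ Λ ∧ dq b a ε ≤ Λ := by
        by_contra hcon
        rw [not_and_or, not_le, not_le] at hcon
        rcases hcon with hc | hc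
        · have h4 : dq b a ε ≤ Λ := by
            by_contra h5
            push Not at h5
            linarith [mul_pos (sub_pos.2 hc) (sub_pos.2 h5)]
          obtain ⟨b', h5, h6⟩ := ((freq_lt b).and_eventually
            ((cp.tendsto b).eventually (lt_mem_nhds hc))).exists
          refine h2 b' (by linarith) ?_
          have h7 := dq_lt_of_b (a := a) (ε := ε) h5
          exact (mul_neg_of_pos_of_neg (sub_pos.2 h6) (by linarith)).le
        · have h4 : dp b a ε ≤ Λ := by
            by_contra h5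
            push Not at h5
            linarith [mul_pos (sub_pos.2 h5) (sub_pos.2 hc)]
          obtain ⟨b', h5, h6⟩ := ((freq_lt b).and_eventually
            ((cq.tendsto b).eventually (lt_mem_nhds hc))).exists
          refine h2 b' (by linarith) ?_
          have h7 := dp_lt_of_b (a := a) (ε := ε) h5
          exact (mul_neg_of_neg_of_pos (by linarith) (sub_pos.2 h6)).le
      refine le_antisymm (max_le h3.1 h3.2) ?_
      by_contra hcon
      push Not at hcon
      have h4 := max_lt_iff.1 hcon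
      linarith [mul_pos_of_neg_of_neg (sub_neg.2 h4.1) (sub_neg.2 h4.2)]
    · intro h
      have h1 : dp b a ε ≤ Λ := h ▸ le_max_left _ _
      have h2 : dq b a ε ≤ Λ := h ▸ le_max_right _ _
      refine ⟨?_, fun b' hb' => ?_⟩
      · rcases max_choice (dp b a ε) (dq b a ε) with h3 | h3
        · rw [← h3, h, sub_self, zero_mul]
        · rw [← h3, h, sub_self, mul_zero]
      · push Not
        have h4 := dp_lt_of_b (a := a) (ε := ε) (show b' < b by linarith)
        have h5 := dq_lt_of_b (a := a) (ε := ε) (show b' < b by linarith)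
        exact mul_pos_of_neg_of_neg (by linarith) (by linarith)

lemma cvx_gt {x y c t : ℝ} (ht : t ∈ Icc (0:ℝ) 1) (hx : c < x) (hy : c < y) : c < x + t * (y - x) := by
  rcases le_total x y with h | h
  · nlinarith [mul_nonneg ht.1 (sub_nonneg.2 h)]
  · nlinarith [mul_nonneg (sub_nonneg.2 ht.2) (sub_nonneg.2 h)]

lemma cvx_lt {x y c t : ℝ} (ht : t ∈ Icc (0:ℝ) 1) (hx : x < c) (hy : y < c) : x + t * (y - x) < c := by
  have := cvx_gt (x := -x) (y := -y) (c := -c) ht (by linarith) (by linarith)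
  linarith

/-- The scaled form of the main result. -/
theorem scaled {n : ℕ} {k : ℤ} {ε0 a0 σ : ℝ} (hk : 0 ≤ k) (hε : 0 < ε0) (ha : 0 < a0)
    (h1 : ms σ ((n:ℝ) + 1) a0 ε0 = 2 * Real.pi * k)
    (h2 : ∃ δ > 0, ∀ b a, |b - ((n:ℝ) + 1)| < δ → |a - a0| < δ → ms σ b a ε0 = 2 * Real.pi * k →
      (n:ℝ) + 1 ≤ b)
    (h3 : ∃ δ > 0, ∀ ε a, ε0 - δ < ε → ε < ε0 → |a - a0| < δ →
      ms σ ((n:ℝ) + 1) a ε ≠ 2 * Real.pi * k) : False := by
  obtain ⟨δ2, hδ2, h2⟩ := h2
  obtain ⟨δ, hδ, h3⟩ := h3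
  have hpi := Real.pi_pos
  set Λ := 2 * Real.pi * (k:ℝ) with hΛ
  have cms : Continuous fun x : ℝ × ℝ => ms σ ((n:ℝ) + 1) x.2 x.1 :=
    (ms_cont σ).comp (by fun_prop : Continuous fun x : ℝ × ℝ => (((n:ℝ) + 1, x.2, x.1) : ℝ × ℝ × ℝ))
  -- the segment argument
  have seg : ∀ ε a ε' a', (ε0 - δ < ε ∧ ε < ε0 ∧ |a - a0| < δ) → (ε0 - δ < ε' ∧ ε' < ε0 ∧ |a' - a0| < δ) →
      Λ < ms σ ((n:ℝ) + 1) a ε → Λ < ms σ ((n:ℝ) + 1) a' ε' := by
    intro ε a ε' a' g1 g2 hlt
    have hc : Continuous fun t : ℝ => ms σ ((n:ℝ) + 1) (a + t * (a' - a)) (ε + t * (ε' - ε)) :=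
      cms.comp (by fun_prop : Continuous fun t : ℝ => ((ε + t * (ε' - ε), a + t * (a' - a)) : ℝ × ℝ))
    have := stay_gt hc (u := 0) (v := 1) (c := Λ) (fun t ht => by
      rw [uIcc_of_le zero_le_one] at ht
      have g1' := abs_lt.1 g1.2.2
      have g2' := abs_lt.1 g2.2.2
      refine h3 _ _ (cvx_gt ht g1.1 g2.1) (cvx_lt ht g1.2.1 g2.2.1) ?_
      have k1 := cvx_gt ht (show a0 - δ < a by linarith) (show a0 - δ < a' by linarith)
      have k2 := cvx_lt ht (show a < a0 + δ by linarith) (show a' < a0 + δ by linarith)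
      rw [abs_lt]
      constructor <;> linarith) (by simpa using hlt)
    simpa using this
  by_cases hpos : ∃ ε a, (ε0 - δ < ε ∧ ε < ε0 ∧ |a - a0| < δ) ∧ Λ < ms σ ((n:ℝ) + 1) a ε
  · obtain ⟨ε', a', g, hg⟩ := hpos
    -- limit
    have hge : ∀ a, |a - a0| < δ → Λ ≤ ms σ ((n:ℝ) + 1) a ε0 := by
      intro a ha'
      have ht := ((ms_cont_eps σ ((n:ℝ) + 1) a).tendsto ε0).mono_left (nhdsWithin_le_nhds (s := Iio ε0))
      refine ge_of_tendsto ht ?_
      filter_upwards [self_mem_nhdsWithin, mem_nhdsWithin_of_mem_nhds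
        (Ioi_mem_nhds (show ε0 - δ < ε0 by linarith))] with ε h4 h5
      exact (seg _ _ _ _ g ⟨h5, h4, ha'⟩ hg).le
    -- the value at a smaller abscissa
    have hsm : ms σ ((n:ℝ) + 1 - δ2 / 2) a0 ε0 < Λ := by
      rw [← h1]
      exact ms_lt_of_b (by linarith)
    have hev := ((ms_cont_a σ ((n:ℝ) + 1 - δ2 / 2) ε0).tendsto a0).eventually (gt_mem_nhds hsm)
    rw [Metric.eventually_nhds_iff] at hev
    obtain ⟨δ3, hδ3, hev⟩ := hev
    refine lemmaD (n := n) (σ := σ) (k := k) (a0 := a0) hε (δ := min δ (min δ2 δ3)) (by positivity) ?_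
    intro a ha'
    have b1 : |a - a0| < δ := ha'.trans_le (min_le_left _ _)
    have b2 : |a - a0| < δ2 := ha'.trans_le ((min_le_right _ _).trans (min_le_left _ _))
    have b3 : |a - a0| < δ3 := ha'.trans_le ((min_le_right _ _).trans (min_le_right _ _))
    have c1 := hge a b1
    have c2 := hev (show dist a a0 < δ3 by rw [Real.dist_eq]; exact b3)
    by_contra hne
    have c3 : Λ < ms σ ((n:ℝ) + 1) a ε0 := lt_of_le_of_ne c1 (Ne.symm hne)
    obtain ⟨b, hb, hbΛ⟩ := intermediate_value_Icc (f := fun b => ms σ b a ε0)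
      (show (n:ℝ) + 1 - δ2 / 2 ≤ (n:ℝ) + 1 by linarith) (ms_cont_b σ a ε0).continuousOn
      (show Λ ∈ Icc _ _ from ⟨c2.le, c3.le⟩)
    have hb2 : b < (n:ℝ) + 1 := by
      refine lt_of_le_of_ne hb.2 ?_
      rintro rfl
      exact hne hbΛ
    have := h2 b a (by rw [abs_lt]; constructor <;> linarith [hb.1]) b2 hbΛ
    linarith
  · push Not at hpos
    have hneg : ∀ᶠ ε in 𝓝 ε0, ε < ε0 → ms σ ((n:ℝ) + 1) (2 * (a0 / 2)) ε < 2 * Real.pi * k := by
      filter_upwards [Ioi_mem_nhds (show ε0 - δ < ε0 by linarith)] with ε h4 h5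
      rw [show 2 * (a0 / 2) = a0 by ring]
      have hz : |a0 - a0| < δ := by rw [sub_self, abs_zero]; exact hδ
      exact lt_of_le_of_ne (hpos ε a0 ⟨h4, h5, hz⟩) (h3 ε a0 h4 h5 hz)
    have h1' : ms σ ((n:ℝ) + 1) (2 * (a0 / 2)) ε0 = 2 * Real.pi * k := by
      rw [show 2 * (a0 / 2) = a0 by ring]; exact h1
    have hμ : 0 < a0 / 2 := by positivity
    rcases lt_trichotomy k ((n:ℤ) + 1) with hlt | heq | hgt
    · rcases Int.even_or_odd ((n:ℤ) + 1 + k) with hev | hodd
      · exact caseB hμ hε hk (by omega) hev h1' hneg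
      · exact caseA hμ hε hk (by omega) hodd h1' hneg
    · subst heq
      exact caseC hμ hε h1' hδ (fun ε a g1 g2 g3 => by
        rw [show 2 * (a0 / 2) = a0 by ring] at g3
        exact h3 ε a g1 g2 g3)
    · -- too large numbers
      have h4 := abs_lt.1 (dp_dq ((n:ℝ) + 1) (2 * (a0 / 2)) ε0)
      have h5 : (n:ℝ) + 1 + 1 ≤ k := by exact_mod_cast hgt
      have h6 := axis_le' (n := n) hμ hε
      have h7 : 2 * Real.pi * (((n:ℤ) + 1 : ℤ) : ℝ) + Real.pi < 2 * Real.pi * k := by
        push_cast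
        nlinarith
      rcases ms_or σ ((n:ℝ) + 1) (2 * (a0 / 2)) ε0 with h8 | h8
      · rw [h1'] at h8
        exact h6 ⟨by linarith, by linarith⟩
      · rw [h1'] at h8
        exact h6 ⟨by linarith, by linarith⟩

end Pool.Agent.H249
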