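import Mathlib
import Pool.Agent.H576.RD.Stm

/-!
# The last case of the group of order 16 (`S_D4d2`), by helper249 for helper576
-/

set_option autoImplicit false

namespace Pool.Agent.H249

open Pool.Agent.H576.RD

namespace RDD

/-! ### Coordinates -/

theorem E_ext {v w : E} (h0 : v 0 = w 0) (h1 : v 1 = w 1) (h2 : v 2 = w 2) : v = w := by
  ext i
  fin_cases i
  · exact h0
  · exact h1
  · exact h2

theorem nsq (v : E) : ‖v‖ ^ 2 = v 0 ^ 2 + v 1 ^ 2 + v 2 ^ 2 := by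
  rw [EuclideanSpace.norm_sq_eq, Fin.sum_univ_three]
  simp only [Real.norm_eq_abs, sq_abs]

theorem inn (v w : E) : inner ℝ v w = v 0 * w 0 + v 1 * w 1 + v 2 * w 2 := by
  rw [PiLp.inner_apply, Fin.sum_univ_three]
  simp only [RCLike.inner_apply, conj_trivial]
  ring

theorem e0 : e2 0 = 0 := by simp [e2]
theorem e1 : e2 1 = 0 := by simp [e2]
theorem e22 : e2 2 = 1 := by simp [e2]

theorem add_co (v w : E) (i : Fin 3) : (v + w) i = v i + w i := rfl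
theorem sub_co (v w : E) (i : Fin 3) : (v - w) i = v i - w i := rfl
theorem neg_co (v : E) (i : Fin 3) : (-v) i = -(v i) := rfl
theorem smul_co (t : ℝ) (v : E) (i : Fin 3) : (t • v) i = t * v i := rfl

theorem norm_lt {v : E} {a : ℝ} (ha : 0 ≤ a) (h : v 0 ^ 2 + v 1 ^ 2 + v 2 ^ 2 < a ^ 2) : ‖v‖ < a := by
  rw [← nsq] at h
  exact lt_of_pow_lt_pow_left₀ 2 ha h

/-- `cos 45° = sin 45°` -/
noncomputable def cc : ℝ := √2 / 2

theorem cc2 : cc * cc = 1 / 2 := by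
  have := Real.mul_self_sqrt (show (0 : ℝ) ≤ 2 by norm_num)
  unfold cc
  nlinarith

theorem cc_pos : 0 < cc := by
  unfold cc
  positivity

theorem rr_eq (v : E) : rrE (Real.pi / 4) v = !₂[cc * v 0 - cc * v 1, cc * v 0 + cc * v 1, -(v 2)] := by
  unfold rrE cc
  rw [Real.cos_pi_div_four, Real.sin_pi_div_four]

/-- The rotoreflection as a linear isometry. -/
noncomputable def rrL : LI where
  toFun := rrE (Real.pi / 4)
  invFun := fun v => !₂[cc * v 0 + cc * v 1, cc * v 1 - cc * v 0, -(v 2)]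
  map_add' := by
    intro v w
    rw [rr_eq, rr_eq, rr_eq]
    apply E_ext
    · show cc * (v 0 + w 0) - cc * (v 1 + w 1) = (cc * v 0 - cc * v 1) + (cc * w 0 - cc * w 1)
      ring
    · show cc * (v 0 + w 0) + cc * (v 1 + w 1) = (cc * v 0 + cc * v 1) + (cc * w 0 + cc * w 1)
      ring
    · show -(v 2 + w 2) = -(v 2) + -(w 2)
      ring
  map_smul' := by
    intro t v
    rw [rr_eq, rr_eq]
    apply E_ext
    · show cc * (t * v 0) - cc * (t * v 1) = t * (cc * v 0 - cc * v 1)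
      ring
    · show cc * (t * v 0) + cc * (t * v 1) = t * (cc * v 0 + cc * v 1)
      ring
    · show -(t * v 2) = t * -(v 2)
      ring
  left_inv := by
    intro v
    rw [rr_eq]
    apply E_ext
    · show cc * (cc * v 0 - cc * v 1) + cc * (cc * v 0 + cc * v 1) = v 0
      linear_combination (2 * v 0) * cc2
    · show cc * (cc * v 0 + cc * v 1) - cc * (cc * v 0 - cc * v 1) = v 1
      linear_combination (2 * v 1) * cc2
    · show -(-(v 2)) = v 2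
      ring
  right_inv := by
    intro v
    rw [rr_eq]
    apply E_ext
    · show cc * (cc * v 0 + cc * v 1) - cc * (cc * v 1 - cc * v 0) = v 0
      linear_combination (2 * v 0) * cc2
    · show cc * (cc * v 0 + cc * v 1) + cc * (cc * v 1 - cc * v 0) = v 1
      linear_combination (2 * v 1) * cc2
    · show -(-(v 2)) = v 2
      ring
  norm_map' := by
    intro v
    show ‖rrE (Real.pi / 4) v‖ = ‖v‖
    have h : ‖rrE (Real.pi / 4) v‖ ^ 2 = ‖v‖ ^ 2 := by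
      rw [nsq, nsq, rr_eq]
      show (cc * v 0 - cc * v 1) ^ 2 + (cc * v 0 + cc * v 1) ^ 2 + (-(v 2)) ^ 2 = _
      linear_combination (2 * v 0 ^ 2 + 2 * v 1 ^ 2) * cc2
    exact (pow_left_inj₀ (norm_nonneg _) (norm_nonneg _) two_ne_zero).1 h

theorem rrL_apply (v : E) : rrL v = rrE (Real.pi / 4) v := rfl

theorem rrL0 (v : E) : rrL v 0 = cc * v 0 - cc * v 1 := by
  rw [rrL_apply, rr_eq]
  rfl

theorem rrL1 (v : E) : rrL v 1 = cc * v 0 + cc * v 1 := by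
  rw [rrL_apply, rr_eq]
  rfl

theorem rrL2 (v : E) : rrL v 2 = -(v 2) := by
  rw [rrL_apply, rr_eq]
  rfl

/-- A symmetry of the cluster which preserves the absolute value of the height. -/
structure Gd (X : Set E) (g : LI) : Prop where
  sym : ∀ v : E, ‖v‖ ≤ 2 → (v ∈ X ↔ g v ∈ X)
  sq : ∀ v : E, (g v) 2 ^ 2 = v 2 ^ 2

theorem Gd.one (X : Set E) : Gd X 1 := ⟨fun _ _ => Iff.rfl, fun _ => rfl⟩

theorem Gd.rr {X : Set E} (hs : Sym X 2 (rrE (Real.pi / 4))) : Gd X rrL :=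
  ⟨fun v hv => hs v hv, fun v => by rw [rrL2]; ring⟩

theorem Gd.mul {X : Set E} {g h : LI} (hg : Gd X g) (hh : Gd X h) : Gd X (g * h) := by
  refine ⟨fun v hv => ?_, fun v => ?_⟩
  · show v ∈ X ↔ g (h v) ∈ X
    rw [hh.sym v hv]
    exact hg.sym _ (by rwa [LinearIsometryEquiv.norm_map])
  · show (g (h v)) 2 ^ 2 = v 2 ^ 2
    rw [hg.sq, hh.sq]

/-- The quarter turn. -/
noncomputable def qq : LI := rrL * rrL

theorem qq_apply (v : E) : qq v = rrL (rrL v) := rfl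

theorem qq0 (v : E) : qq v 0 = -(v 1) := by
  rw [qq_apply, rrL0, rrL0, rrL1]
  linear_combination (-2 * v 1) * cc2

theorem qq1 (v : E) : qq v 1 = v 0 := by
  rw [qq_apply, rrL1, rrL0, rrL1]
  linear_combination (2 * v 0) * cc2

theorem qq2 (v : E) : qq v 2 = v 2 := by
  rw [qq_apply, rrL2, rrL2]
  ring

theorem Gd.q {X : Set E} (hs : Sym X 2 (rrE (Real.pi / 4))) : Gd X qq := (Gd.rr hs).mul (Gd.rr hs)

theorem normal1 {X : Set E} (hs : Sym X 2 (rrE (Real.pi / 4))) (v : E) (h1 : v 1 = 0)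
    (h0 : v 0 ≠ 0) : ∃ g : LI, Gd X g ∧ (g v) 1 = 0 ∧ 0 < (g v) 0 := by
  rcases lt_or_gt_of_ne h0 with h | h
  · refine ⟨qq * qq, (Gd.q hs).mul (Gd.q hs), ?_, ?_⟩
    · show (qq (qq v)) 1 = 0
      rw [qq1, qq0, h1, neg_zero]
    · show 0 < (qq (qq v)) 0
      rw [qq0, qq1]
      linarith
  · exact ⟨1, Gd.one X, h1, h⟩

theorem normal2 {X : Set E} (hs : Sym X 2 (rrE (Real.pi / 4))) (v : E) (h0 : v 0 = 0)
    (h1 : v 1 ≠ 0) : ∃ g : LI, Gd X g ∧ (g v) 1 = 0 ∧ 0 < (g v) 0 := by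
  obtain ⟨g, hg, k1, k0⟩ := normal1 hs (qq v) (by rw [qq1, h0])
    (by rw [qq0]; exact neg_ne_zero.2 h1)
  exact ⟨g * qq, hg.mul (Gd.q hs), k1, k0⟩

/-- Turning a vector on a mirror plane to the azimuth `0`. -/
theorem normal {X : Set E} (hs : Sym X 2 (rrE (Real.pi / 4))) (v : E) (hoff : Off v)
    (hm : v 0 = 0 ∨ v 1 = 0 ∨ v 0 = v 1 ∨ v 0 = -(v 1)) :
    ∃ g : LI, Gd X g ∧ (g v) 1 = 0 ∧ 0 < (g v) 0 := by
  have hc := cc_pos
  rcases hm with h | h | h | h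
  · have h1 : v 1 ≠ 0 := by
      rcases hoff with h2 | h2
      · exact absurd h h2
      · exact h2
    exact normal2 hs v h h1
  · have h1 : v 0 ≠ 0 := by
      rcases hoff with h2 | h2
      · exact h2
      · exact absurd h h2
    exact normal1 hs v h h1
  · have h1 : v 0 ≠ 0 := by
      rcases hoff with h2 | h2
      · exact h2
      · rw [h]; exact h2
    obtain ⟨g, hg, k1, k0⟩ := normal2 hs (rrL v) (by rw [rrL0, h, sub_self])
      (by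
        rw [rrL1, ← h]
        have : cc * v 0 + cc * v 0 = (2 * cc) * v 0 := by ring
        rw [this]
        exact mul_ne_zero (by linarith) h1)
    exact ⟨g * rrL, hg.mul (Gd.rr hs), k1, k0⟩
  · have h1 : v 0 ≠ 0 := by
      rcases hoff with h2 | h2
      · exact h2
      · rw [h]; exact neg_ne_zero.2 h2
    obtain ⟨g, hg, k1, k0⟩ := normal1 hs (rrL v) (by rw [rrL1, h]; ring)
      (by
        have h3 : v 1 = -(v 0) := by rw [h]; ring
        rw [rrL0, h3]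
        have : cc * v 0 - cc * -(v 0) = (2 * cc) * v 0 := by ring
        rw [this]
        exact mul_ne_zero (by linarith) h1)
    exact ⟨g * rrL, hg.mul (Gd.rr hs), k1, k0⟩

/-! ### The hypotheses -/

/-- All the facts which are used. -/
structure Ctx (X : Set E) (L τ : ℝ) : Prop where
  L0 : 0 < L
  L2 : L ≤ 2
  L3 : L ^ 2 ≤ 3
  t0 : 0 < τ
  tL : τ < L
  zero : (0 : E) ∈ X
  nn : Nn X 9
  sg : Sym X 2 (rrE (Real.pi / 4))
  sm : Sym X 2 mirE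
  min : MinD X τ
  A : ∀ x ∈ X, ∀ φ : LI, Eqv X 0 x 9 φ → x + τ • φ e2 ∈ X ∧ x - τ • φ e2 ∈ X ∧
      ∀ y ∈ X, ‖y - x‖ < L → ∃ t : ℝ, y - x = t • φ e2
  B : ∀ x ∈ X, ∀ y ∈ X, y ≠ x → ‖y - x‖ < L → ∀ φ ψ : LI, Eqv X 0 x 9 φ → Eqv X 0 y 9 ψ →
      ψ e2 = φ e2 ∨ ψ e2 = -φ e2
  C : ∀ y ∈ X, ‖y‖ = L → Off y →
      (y 0 = 0 ∨ y 1 = 0 ∨ y 0 = y 1 ∨ y 0 = -(y 1)) ∧ 2 * |y 2| ≤ τ ∧
        0.121 * L ^ 2 ≤ y 2 ^ 2 ∧ y 2 ^ 2 ≤ L ^ 2 / 2

section

variable {X : Set E} {L τ : ℝ}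

theorem Ctx.A0 (h : Ctx X L τ) : τ • e2 ∈ X ∧ -(τ • e2) ∈ X ∧
    ∀ y ∈ X, ‖y‖ < L → ∃ t : ℝ, y = t • e2 := by
  obtain ⟨h1, h2, h3⟩ := h.A 0 h.zero 1 (Eqv.refl X 0 9)
  have e : (1 : LI) e2 = e2 := rfl
  rw [e, zero_add] at h1
  rw [e, zero_sub] at h2
  refine ⟨h1, h2, fun y hy hyL => ?_⟩
  obtain ⟨t, ht⟩ := h3 y hy (by rwa [sub_zero])
  rw [e, sub_zero] at ht
  exact ⟨t, ht⟩

/-- Frames: membership. -/
theorem fr {x : E} {φ : LI} (hφ : Eqv X 0 x 9 φ) {v : E} (hv : ‖v‖ ≤ 2) :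
    v ∈ X ↔ x + φ v ∈ X := by
  have := hφ v (hv.trans (by norm_num))
  rwa [zero_add] at this

/-- The third coordinate, when the axis is preserved. -/
theorem third {φ : LI} {ε : ℝ} (hε : ε ^ 2 = 1) (hφ : φ e2 = ε • e2) (v : E) :
    (φ v) 2 = ε * v 2 := by
  have h1 : inner ℝ (φ v) e2 = (φ v) 2 := by
    rw [inn, e0, e1, e22]
    ring
  have h2 : e2 = ε • φ e2 := by
    rw [hφ, smul_smul, ← sq, hε, one_smul]
  have h3 : inner ℝ (φ v) (ε • φ e2) = ε * inner ℝ v e2 := by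
    rw [inner_smul_right, LinearIsometryEquiv.inner_map_map]
  have h4 : inner ℝ v e2 = v 2 := by
    rw [inn, e0, e1, e22]
    ring
  rw [← h2, h1, h4] at h3
  exact h3

/-- The vector at the neighbour on the axis. -/
theorem exW (h : Ctx X L τ) {y : E} (hy : y ∈ X) (hyL : ‖y‖ = L) (hy1 : y 1 = 0)
    (hy0 : 0 < y 0) {Z : E} {φ : LI} (hφ : Eqv X 0 Z 9 φ) {ε : ℝ} (hε : ε ^ 2 = 1)
    (hφe : φ e2 = ε • e2) :
    ∃ w : E, Z + w ∈ X ∧ w 2 = -(y 2) ∧ w 0 ^ 2 + w 1 ^ 2 = y 0 ^ 2 ∧ w 1 ^ 2 ≤ w 0 ^ 2 ∧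
      0 ≤ w 0 := by
  have hnorm : y 0 ^ 2 + y 2 ^ 2 = L ^ 2 := by
    rw [← hyL, nsq, hy1]
    ring
  obtain ⟨v, hv, hvL, hv2⟩ : ∃ v ∈ X, ‖v‖ = L ∧ ε * v 2 = -(y 2) := by
    have h1 : (ε - 1) * (ε + 1) = 0 := by linear_combination hε
    rcases mul_eq_zero.1 h1 with h2 | h2
    · refine ⟨rrL y, (h.sg y (by rw [hyL]; exact h.L2)).1 hy, ?_, ?_⟩
      · rw [LinearIsometryEquiv.norm_map, hyL]
      · rw [rrL2, sub_eq_zero.1 h2, one_mul]
    · refine ⟨y, hy, hyL, ?_⟩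
      have : ε = -1 := by linarith
      rw [this]
      ring
  have hvs : v 2 ^ 2 = y 2 ^ 2 := by
    have : (ε * v 2) ^ 2 = y 2 ^ 2 := by rw [hv2]; ring
    rw [mul_pow, hε, one_mul] at this
    exact this
  have hn2 : ∀ g : LI, ‖g v‖ ≤ 2 := fun g => by
    rw [LinearIsometryEquiv.norm_map, hvL]
    exact h.L2
  have hv' : ‖v‖ ≤ 2 := by rw [hvL]; exact h.L2
  have m1 : Z + φ v ∈ X := (fr hφ hv').1 hv
  have mq : qq v ∈ X := ((Gd.q h.sg).sym v hv').1 hv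
  have m2 : Z + φ (qq v) ∈ X := (fr hφ (hn2 qq)).1 mq
  have mqq : qq (qq v) ∈ X := ((Gd.q h.sg).sym _ (hn2 qq)).1 mq
  have n3 : ‖qq (qq v)‖ ≤ 2 := by rw [LinearIsometryEquiv.norm_map]; exact hn2 qq
  have m3 : Z + φ (qq (qq v)) ∈ X := (fr hφ n3).1 mqq
  have mqqq : qq (qq (qq v)) ∈ X := ((Gd.q h.sg).sym _ n3).1 mqq
  have n4 : ‖qq (qq (qq v))‖ ≤ 2 := by rw [LinearIsometryEquiv.norm_map]; exact n3
  have m4 : Z + φ (qq (qq (qq v))) ∈ X := (fr hφ n4).1 mqqq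
  -- heights
  have k1 : (φ v) 2 = -(y 2) := by rw [third hε hφe, hv2]
  have k2 : (φ (qq v)) 2 = -(y 2) := by rw [third hε hφe, qq2, hv2]
  have k3 : (φ (qq (qq v))) 2 = -(y 2) := by rw [third hε hφe, qq2, qq2, hv2]
  have k4 : (φ (qq (qq (qq v)))) 2 = -(y 2) := by rw [third hε hφe, qq2, qq2, qq2, hv2]
  -- opposite vectors
  have opp : ∀ u : E, φ (qq (qq u)) = (2 * u 2 * ε) • e2 - φ u := by
    intro u
    have e3 : qq (qq u) = (2 * u 2) • e2 - u := by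
      apply E_ext
      · rw [qq0, qq1, sub_co, smul_co, e0]
        ring
      · rw [qq1, qq0, sub_co, smul_co, e1]
        ring
      · rw [qq2, qq2, sub_co, smul_co, e22]
        ring
    rw [e3, map_sub, map_smul, hφe, smul_smul]
  have o0 : ∀ u : E, (φ (qq (qq u))) 0 = -((φ u) 0) := by
    intro u
    rw [opp, sub_co, smul_co, e0]
    ring
  have o1 : ∀ u : E, (φ (qq (qq u))) 1 = -((φ u) 1) := by
    intro u
    rw [opp, sub_co, smul_co, e1]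
    ring
  -- norms
  have r1 : (φ v) 0 ^ 2 + (φ v) 1 ^ 2 = y 0 ^ 2 := by
    have := nsq (φ v)
    rw [LinearIsometryEquiv.norm_map, hvL, k1] at this
    linarith
  have r2 : (φ (qq v)) 0 ^ 2 + (φ (qq v)) 1 ^ 2 = y 0 ^ 2 := by
    have := nsq (φ (qq v))
    rw [LinearIsometryEquiv.norm_map, LinearIsometryEquiv.norm_map, hvL, k2] at this
    linarith
  have r3 : (φ v) 0 * (φ (qq v)) 0 + (φ v) 1 * (φ (qq v)) 1 = 0 := by
    have h1 : inner ℝ (φ v) (φ (qq v)) = inner ℝ v (qq v) := LinearIsometryEquiv.inner_map_map _ _ _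
    rw [inn, inn, k1, k2, qq0, qq1, qq2] at h1
    linear_combination h1 + hvs
  obtain ⟨a, ha⟩ : ∃ a, a = (φ v) 0 := ⟨_, rfl⟩
  obtain ⟨b, hb⟩ : ∃ b, b = (φ v) 1 := ⟨_, rfl⟩
  obtain ⟨c, hc⟩ : ∃ c, c = (φ (qq v)) 0 := ⟨_, rfl⟩
  obtain ⟨e, he⟩ : ∃ e, e = (φ (qq v)) 1 := ⟨_, rfl⟩
  rw [← ha, ← hb] at r1
  rw [← hc, ← he] at r2
  rw [← ha, ← hb, ← hc, ← he] at r3
  have r4 : (c ^ 2 - b ^ 2) * (a ^ 2 + b ^ 2) = 0 := by
    linear_combination (a * c - b * e) * r3 + b ^ 2 * (r2 - r1)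
  have hpos : 0 < a ^ 2 + b ^ 2 := by rw [r1]; positivity
  have r5 : c ^ 2 = b ^ 2 := by
    rcases mul_eq_zero.1 r4 with h5 | h5
    · linarith
    · exact absurd h5 hpos.ne'
  have r6 : e ^ 2 = a ^ 2 := by linarith
  rcases le_or_gt (b ^ 2) (a ^ 2) with h7 | h7
  · rcases le_or_gt 0 a with h8 | h8
    · refine ⟨φ v, m1, k1, ?_, ?_, ?_⟩
      · rw [← ha, ← hb]; exact r1
      · rw [← ha, ← hb]; exact h7
      · rw [← ha]; exact h8
    · refine ⟨φ (qq (qq v)), m3, k3, ?_, ?_, ?_⟩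
      · rw [o0, o1, ← ha, ← hb, neg_sq, neg_sq]; exact r1
      · rw [o0, o1, ← ha, ← hb, neg_sq, neg_sq]; exact h7
      · rw [o0, ← ha]; linarith
  · rcases le_or_gt 0 c with h8 | h8
    · refine ⟨φ (qq v), m2, k2, ?_, ?_, ?_⟩
      · rw [← hc, ← he]; exact r2
      · rw [← hc, ← he]; linarith
      · rw [← hc]; exact h8
    · refine ⟨φ (qq (qq (qq v))), m4, k4, ?_, ?_, ?_⟩
      · rw [o0, o1, ← hc, ← he, neg_sq, neg_sq]; exact r2
      · rw [o0, o1, ← hc, ← he, neg_sq, neg_sq]; linarith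
      · rw [o0, ← hc]; linarith

/-! ### Numbers -/

theorem lowb {x : ℝ} (hL : 0 < L) (hx : 0 ≤ x) (h : 0.121 * L ^ 2 ≤ x ^ 2) : 0.34 * L ≤ x := by
  refine (pow_le_pow_iff_left₀ (by positivity) hx two_ne_zero).1 ?_
  nlinarith [sq_nonneg L]

theorem upb {x : ℝ} (hL : 0 < L) (hx : 0 ≤ x) (h : x ^ 2 ≤ L ^ 2 / 2) : x ≤ 0.71 * L := by
  refine (pow_le_pow_iff_left₀ hx (by positivity) two_ne_zero).1 ?_
  nlinarith [sq_nonneg L]

theorem cc_low : 0.707 ≤ cc := by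
  refine (pow_le_pow_iff_left₀ (by norm_num) cc_pos.le two_ne_zero).1 ?_
  rw [sq cc, cc2]
  norm_num

theorem mirpar {t t' f0 f1 f2 x0 x1 x2 : ℝ} (h0 : x0 = t * f0) (h1 : x1 = t * f1)
    (h2 : x2 = t * f2) (h0' : x0 = t' * f0) (h1' : -x1 = t' * f1) (h2' : x2 = t' * f2) :
    x1 = 0 ∨ (x0 = 0 ∧ x2 = 0) := by
  by_cases ht : t = t'
  · left
    rw [← ht] at h1'
    linarith
  · right
    have h3 : t - t' ≠ 0 := sub_ne_zero.2 ht
    constructor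
    · have h4 : (t - t') * f0 = 0 := by linarith
      rcases mul_eq_zero.1 h4 with h5 | h5
      · exact absurd h5 h3
      · rw [h0, h5, mul_zero]
    · have h4 : (t - t') * f2 = 0 := by linarith
      rcases mul_eq_zero.1 h4 with h5 | h5
      · exact absurd h5 h3
      · rw [h2, h5, mul_zero]

theorem mir0 (v : E) : mirE v 0 = v 0 := rfl
theorem mir1 (v : E) : mirE v 1 = -(v 1) := rfl
theorem mir2 (v : E) : mirE v 2 = v 2 := rfl

/-- The neighbour on the axis. -/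
theorem exZ (h : Ctx X L τ) {s : ℝ} (hs : s = 1 ∨ s = -1) :
    (s * τ) • e2 ∈ X ∧ ‖(s * τ) • e2‖ = τ := by
  have hn : ‖e2‖ = 1 := by
    have h1 : ‖e2‖ ^ 2 = 1 := by
      rw [nsq, e0, e1, e22]
      norm_num
    exact (pow_eq_one_iff_of_nonneg (norm_nonneg _) two_ne_zero).1 h1
  have ht := h.t0
  constructor
  · rcases hs with h1 | h1
    · rw [h1, one_mul]
      exact h.A0.1
    · rw [h1, neg_one_mul, neg_smul]
      exact h.A0.2.1
  · rw [norm_smul, hn, mul_one, Real.norm_eq_abs, abs_mul]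
    rcases hs with h1 | h1
    · rw [h1, abs_one, one_mul, abs_of_pos ht]
    · rw [h1, abs_neg, abs_one, one_mul, abs_of_pos ht]

/-- Items (3), (4): `τ = 2 h`. -/
theorem step4 (h : Ctx X L τ) {y : E} (hy : y ∈ X) (hyL : ‖y‖ = L) (hy1 : y 1 = 0)
    (hy0 : 0 < y 0) {s : ℝ} (hs : s = 1 ∨ s = -1) (hη : 0 < s * y 2) (hτη : 2 * (s * y 2) ≤ τ)
    (hlow : 0.34 * L ≤ s * y 2) (hup : s * y 2 ≤ 0.71 * L) : s * τ = 2 * y 2 := by
  obtain ⟨hZ, hZn⟩ := exZ h hs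
  have hss : s * s = 1 := by
    rcases hs with h1 | h1 <;> rw [h1] <;> norm_num
  have hL0 := h.L0
  have ht0 := h.t0
  have htL := h.tL
  obtain ⟨Z, hZdef⟩ : ∃ Z : E, Z = (s * τ) • e2 := ⟨_, rfl⟩
  rw [← hZdef] at hZ hZn
  have hZ0 : Z ≠ 0 := by
    intro h1
    rw [h1, norm_zero] at hZn
    linarith
  obtain ⟨φ, hφ⟩ := h.nn 0 h.zero Z hZ
  obtain ⟨ε, hε, hφe⟩ : ∃ ε : ℝ, ε ^ 2 = 1 ∧ φ e2 = ε • e2 := by
    rcases h.B 0 h.zero Z hZ hZ0 (by rw [sub_zero, hZn]; exact htL) 1 φ (Eqv.refl X 0 9) hφ with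
      h1 | h1
    · refine ⟨1, by norm_num, ?_⟩
      rw [one_smul]
      exact h1
    · refine ⟨-1, by norm_num, ?_⟩
      rw [neg_one_smul]
      exact h1
  obtain ⟨w, hw, hw2, hwr, hw10, hw0⟩ := exW h hy hyL hy1 hy0 hφ hε hφe
  obtain ⟨q, hq⟩ : ∃ q : E, q = Z + w := ⟨_, rfl⟩
  rw [← hq] at hw
  have q0 : q 0 = w 0 := by rw [hq, hZdef, add_co, smul_co, e0]; ring
  have q1 : q 1 = w 1 := by rw [hq, hZdef, add_co, smul_co, e1]; ring
  have q2 : q 2 = s * τ - y 2 := by rw [hq, hZdef, add_co, smul_co, e22, hw2]; ring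
  obtain ⟨η, hηd⟩ : ∃ η : ℝ, η = s * y 2 := ⟨_, rfl⟩
  rw [← hηd] at hη hτη hlow hup
  have hy2 : y 2 = s * η := by rw [hηd, ← mul_assoc, hss, one_mul]
  have hρ : y 0 ^ 2 + η ^ 2 = L ^ 2 := by
    rw [← hyL, nsq, hy1, hy2]
    linear_combination (-η ^ 2) * hss
  have hk : (s * τ - y 2 - y 2) ^ 2 = (τ - 2 * η) ^ 2 := by
    rw [hy2]
    linear_combination ((τ - 2 * η) ^ 2) * hss
  have hk' : (s * τ - y 2) ^ 2 = (τ - η) ^ 2 := by
    rw [hy2]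
    linear_combination ((τ - η) ^ 2) * hss
  -- the distances
  have hw7 : 0.707 * y 0 ≤ w 0 := by
    refine (pow_le_pow_iff_left₀ (by positivity) hw0 two_ne_zero).1 ?_
    nlinarith [sq_nonneg (y 0)]
  have b1 : (w 0 - y 0) ^ 2 + w 1 ^ 2 ≤ 0.586 * y 0 ^ 2 := by
    nlinarith [mul_le_mul_of_nonneg_left hw7 hy0.le]
  have b2 : (τ - 2 * η) ^ 2 ≤ (L - 2 * η) ^ 2 :=
    pow_le_pow_left₀ (by linarith) (by linarith) 2
  have b3 : 0.586 * (L ^ 2 - η ^ 2) + (L - 2 * η) ^ 2 < L ^ 2 := by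
    nlinarith [mul_nonneg (sub_nonneg.2 hlow) (sub_nonneg.2 hup), mul_pos hL0 hη, mul_pos hL0 hL0]
  have b4 : (w 0 - y 0) ^ 2 + w 1 ^ 2 + (τ - 2 * η) ^ 2 < L ^ 2 := by
    have : y 0 ^ 2 = L ^ 2 - η ^ 2 := by linarith
    rw [this] at b1
    linarith
  have d1 : ‖q - y‖ < L := by
    apply norm_lt hL0.le
    rw [sub_co, sub_co, sub_co, q0, q1, q2, hy1, sub_zero, hk]
    exact b4
  have b5 : (τ - η) ^ 2 ≤ (L - η) ^ 2 := pow_le_pow_left₀ (by linarith) (by linarith) 2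
  have d2 : ‖q‖ < 2 := by
    apply norm_lt (by norm_num)
    rw [q0, q1, q2, hk']
    have := h.L3
    nlinarith [mul_le_mul_of_nonneg_left hlow hL0.le]
  have hm : mirE q ∈ X := (h.sm q d2.le).1 hw
  have d3 : ‖mirE q - y‖ < L := by
    apply norm_lt hL0.le
    rw [sub_co, sub_co, sub_co, mir0, mir1, mir2, q0, q1, q2, hy1, sub_zero, neg_sq, hk]
    exact b4
  obtain ⟨ψ, hψ⟩ := h.nn 0 h.zero y hy
  obtain ⟨t, ht⟩ := (h.A y hy ψ hψ).2.2 q hw d1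
  obtain ⟨t', ht'⟩ := (h.A y hy ψ hψ).2.2 (mirE q) hm d3
  have c0 : w 0 - y 0 = t * (ψ e2) 0 := by rw [← smul_co, ← ht, sub_co, q0]
  have c1 : w 1 = t * (ψ e2) 1 := by rw [← smul_co, ← ht, sub_co, q1, hy1, sub_zero]
  have c2 : s * τ - y 2 - y 2 = t * (ψ e2) 2 := by rw [← smul_co, ← ht, sub_co, q2]
  have c0' : w 0 - y 0 = t' * (ψ e2) 0 := by rw [← smul_co, ← ht', sub_co, mir0, q0]
  have c1' : -(w 1) = t' * (ψ e2) 1 := by
    rw [← smul_co, ← ht', sub_co, mir1, q1, hy1, sub_zero]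
  have c2' : s * τ - y 2 - y 2 = t' * (ψ e2) 2 := by rw [← smul_co, ← ht', sub_co, mir2, q2]
  rcases mirpar c0 c1 c2 c0' c1' c2' with k | ⟨-, k⟩
  · have k1 : w 0 = y 0 := by
      rw [k] at hwr
      have : w 0 ^ 2 = y 0 ^ 2 := by linarith
      exact (pow_left_inj₀ hw0 hy0.le two_ne_zero).1 this
    by_contra hne
    have hqy : y ≠ q := by
      intro h1
      apply hne
      have h2 : q 2 = y 2 := by rw [← h1]
      rw [q2] at h2
      linarith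
    have h3 := h.min.le y hy q hw hqy
    have h4 : ‖q - y‖ < τ := by
      apply norm_lt ht0.le
      rw [sub_co, sub_co, sub_co, q0, q1, q2, hy1, sub_zero, hk, k, k1]
      nlinarith
    linarith
  · linarith

/-- Item (5). -/
theorem step5 (h : Ctx X L τ) {y : E} (hy : y ∈ X) (hyL : ‖y‖ = L) (hy1 : y 1 = 0)
    (hy0 : 0 < y 0) {s : ℝ} (hs : s = 1 ∨ s = -1) (hlow : 0.34 * L ≤ s * y 2)
    (hsτ : s * τ = 2 * y 2) : False := by
  obtain ⟨hZ, hZn⟩ := exZ h hs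
  have hss : s * s = 1 := by
    rcases hs with h1 | h1 <;> rw [h1] <;> norm_num
  have hL0 := h.L0
  have ht0 := h.t0
  have htL := h.tL
  have hL2 := h.L2
  obtain ⟨Z, hZdef⟩ : ∃ Z : E, Z = (s * τ) • e2 := ⟨_, rfl⟩
  rw [← hZdef] at hZ hZn
  have hτ : τ = 2 * (s * y 2) := by
    have : s * (s * τ) = s * (2 * y 2) := by rw [hsτ]
    rw [← mul_assoc, hss, one_mul] at this
    linarith
  have hτL : 0.68 * L ≤ τ := by linarith
  obtain ⟨φ, hφ⟩ := h.nn 0 h.zero y hy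
  have hen : ‖φ e2‖ = 1 := by
    rw [LinearIsometryEquiv.norm_map]
    have h1 : ‖e2‖ ^ 2 = 1 := by
      rw [nsq, e0, e1, e22]
      norm_num
    exact (pow_eq_one_iff_of_nonneg (norm_nonneg _) two_ne_zero).1 h1
  -- no point of `X` at distance `L` on the axis
  have par : ∀ p ∈ X, ∀ t : ℝ, p = y + t • φ e2 → t ^ 2 = L ^ 2 → False := by
    intro p hp t hpt ht
    obtain ⟨A1, A2, -⟩ := h.A y hy φ hφ
    have h1 : t = L ∨ t = -L := sq_eq_sq_iff_eq_or_eq_neg.1 ht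
    rcases h1 with h1 | h1
    · have h2 : p - (y + τ • φ e2) = (L - τ) • φ e2 := by
        rw [hpt, h1, sub_smul]
        abel
      have h3 : ‖p - (y + τ • φ e2)‖ = L - τ := by
        rw [h2, norm_smul, hen, mul_one, Real.norm_eq_abs, abs_of_pos (by linarith)]
      have h4 : y + τ • φ e2 ≠ p := by
        intro h5
        rw [h5, sub_self, norm_zero] at h3
        linarith
      have h5 := h.min.le _ A1 p hp h4
      rw [h3] at h5
      linarith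
    · have h2 : p - (y - τ • φ e2) = (-(L - τ)) • φ e2 := by
        rw [hpt, h1, neg_smul, neg_smul, sub_smul]
        abel
      have h3 : ‖p - (y - τ • φ e2)‖ = L - τ := by
        rw [h2, norm_smul, hen, mul_one, Real.norm_eq_abs, abs_neg, abs_of_pos (by linarith)]
      have h4 : y - τ • φ e2 ≠ p := by
        intro h5
        rw [h5, sub_self, norm_zero] at h3
        linarith
      have h5 := h.min.le _ A2 p hp h4
      rw [h3] at h5
      linarith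
  -- vectors at `y` in the frame of `y`
  have vec : ∀ p ∈ X, ‖p - y‖ = L → φ.symm (p - y) ∈ X ∧ ‖φ.symm (p - y)‖ = L ∧
      Off (φ.symm (p - y)) := by
    intro p hp hpL
    have n1 : ‖φ.symm (p - y)‖ = L := by rw [LinearIsometryEquiv.norm_map, hpL]
    have n2 : φ (φ.symm (p - y)) = p - y := LinearIsometryEquiv.apply_symm_apply φ _
    refine ⟨?_, n1, ?_⟩
    · rw [fr hφ (by rw [n1]; exact hL2), n2, add_sub_cancel]
      exact hp
    · by_contra hoff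
      unfold Off at hoff
      rw [not_or, not_not, not_not] at hoff
      obtain ⟨k0, k1⟩ := hoff
      have n3 : φ.symm (p - y) = (φ.symm (p - y) 2) • e2 := by
        apply E_ext
        · rw [smul_co, e0, k0, mul_zero]
        · rw [smul_co, e1, k1, mul_zero]
        · rw [smul_co, e22, mul_one]
      refine par p hp (φ.symm (p - y) 2) ?_ ?_
      · rw [← map_smul, ← n3, n2, add_sub_cancel]
      · rw [← n1, nsq, k0, k1]
        ring
  have hZy : ‖Z - y‖ = L := by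
    have h1 : ‖Z - y‖ ^ 2 = L ^ 2 := by
      rw [← hyL, nsq, nsq y, sub_co, sub_co, sub_co, hZdef, smul_co, smul_co, smul_co, e0, e1, e22,
        hy1, hsτ]
      ring
    exact (pow_left_inj₀ (norm_nonneg _) hL0.le two_ne_zero).1 h1
  obtain ⟨m1, n1, o1⟩ := vec 0 h.zero (by rw [zero_sub, norm_neg, hyL])
  obtain ⟨m2, n2, o2⟩ := vec Z hZ hZy
  have f1 : φ (φ.symm (0 - y)) = 0 - y := LinearIsometryEquiv.apply_symm_apply φ _
  have f2 : φ (φ.symm (Z - y)) = Z - y := LinearIsometryEquiv.apply_symm_apply φ _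
  obtain ⟨P1, hP1⟩ : ∃ P : E, P = φ.symm (0 - y) := ⟨_, rfl⟩
  obtain ⟨P2, hP2⟩ : ∃ P : E, P = φ.symm (Z - y) := ⟨_, rfl⟩
  rw [← hP1] at m1 n1 o1 f1
  rw [← hP2] at m2 n2 o2 f2
  obtain ⟨mp, -, lo1, up1⟩ := h.C P1 m1 n1 o1
  obtain ⟨-, -, lo2, up2⟩ := h.C P2 m2 n2 o2
  obtain ⟨g, hg, g1, g0⟩ := normal h.sg P1 o1 mp
  obtain ⟨Q1, hQ1⟩ : ∃ Q : E, Q = g P1 := ⟨_, rfl⟩
  obtain ⟨Q2, hQ2⟩ : ∃ Q : E, Q = g P2 := ⟨_, rfl⟩
  rw [← hQ1] at g1 g0
  have i1 : ‖Q1‖ = L := by rw [hQ1, LinearIsometryEquiv.norm_map, n1]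
  have i2 : ‖Q2‖ = L := by rw [hQ2, LinearIsometryEquiv.norm_map, n2]
  have j2 : Q2 ∈ X := by rw [hQ2]; exact (hg.sym P2 (by rw [n2]; exact hL2)).1 m2
  have s1 : Q1 2 ^ 2 = P1 2 ^ 2 := by rw [hQ1, hg.sq]
  have s2 : Q2 2 ^ 2 = P2 2 ^ 2 := by rw [hQ2, hg.sq]
  rw [← s1] at lo1 up1
  rw [← s2] at lo2 up2
  -- the turned frame
  obtain ⟨ψ, hψ⟩ : ∃ ψ : LI, ∀ v, ψ v = φ (g.symm v) := ⟨g.symm.trans φ, fun _ => rfl⟩
  have p1 : ψ Q1 = 0 - y := by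
    rw [hψ, hQ1, LinearIsometryEquiv.symm_apply_apply, f1]
  have p2 : ψ Q2 = Z - y := by
    rw [hψ, hQ2, LinearIsometryEquiv.symm_apply_apply, f2]
  have line : ∀ v ∈ X, ‖v‖ ≤ 2 → ‖v - Q1‖ < L → ∃ t : ℝ, v - Q1 = t • ψ.symm e2 := by
    intro v hv hv2 hvQ
    have h1 : g.symm v ∈ X := by
      rw [hg.sym _ (by rwa [LinearIsometryEquiv.norm_map]), LinearIsometryEquiv.apply_symm_apply]
      exact hv
    have h2 : y + φ (g.symm v) ∈ X := (fr hφ (by rwa [LinearIsometryEquiv.norm_map])).1 h1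
    have h3 : y + φ (g.symm v) = ψ (v - Q1) := by
      rw [map_sub, p1, hψ]
      abel
    rw [h3] at h2
    obtain ⟨t, ht⟩ := h.A0.2.2 _ h2 (by rwa [LinearIsometryEquiv.norm_map])
    refine ⟨t, ?_⟩
    rw [← map_smul, ← ht, LinearIsometryEquiv.symm_apply_apply]
  have z1 : ψ (Q2 - Q1) = (s * τ) • e2 := by
    rw [map_sub, p1, p2, ← hZdef]
    abel
  have z2 : Q2 - Q1 = (s * τ) • ψ.symm e2 := by
    rw [← map_smul, ← z1, LinearIsometryEquiv.symm_apply_apply]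
  have z3 : ‖Q2 - Q1‖ = τ := by
    rw [← LinearIsometryEquiv.norm_map ψ, z1, ← hZdef, hZn]
  have hf0 : Q2 0 - Q1 0 = s * τ * (ψ.symm e2) 0 := by rw [← smul_co, ← z2, sub_co]
  have hf1 : Q2 1 = s * τ * (ψ.symm e2) 1 := by rw [← smul_co, ← z2, sub_co, g1, sub_zero]
  have hf2 : Q2 2 - Q1 2 = s * τ * (ψ.symm e2) 2 := by rw [← smul_co, ← z2, sub_co]
  have r1 : Q1 0 ^ 2 + Q1 2 ^ 2 = L ^ 2 := by
    rw [← i1, nsq, g1]
    ring
  have r2 : Q2 0 ^ 2 + Q2 1 ^ 2 + Q2 2 ^ 2 = L ^ 2 := by rw [← i2, nsq]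
  have r3 : (Q2 0 - Q1 0) ^ 2 + Q2 1 ^ 2 + (Q2 2 - Q1 2) ^ 2 = τ ^ 2 := by
    rw [← z3, nsq, sub_co, sub_co, sub_co, g1, sub_zero]
  -- the second vector lies in the same mirror plane
  have hD1 : Q2 1 = 0 := by
    have h1 : mirE Q2 ∈ X := (h.sm Q2 (by rw [i2]; exact hL2)).1 j2
    have h2 : ‖mirE Q2‖ ≤ 2 := by
      have h3 : ‖mirE Q2‖ ^ 2 = L ^ 2 := by
        rw [nsq, mir0, mir1, mir2, ← r2]
        ring
      rw [(pow_left_inj₀ (norm_nonneg _) hL0.le two_ne_zero).1 h3]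
      exact hL2
    have h3 : ‖mirE Q2 - Q1‖ < L := by
      apply norm_lt hL0.le
      rw [sub_co, sub_co, sub_co, mir0, mir1, mir2, g1, sub_zero, neg_sq, r3]
      exact pow_lt_pow_left₀ htL ht0.le two_ne_zero
    obtain ⟨t, ht⟩ := line _ h1 h2 h3
    have k0 : Q2 0 - Q1 0 = t * (ψ.symm e2) 0 := by rw [← smul_co, ← ht, sub_co, mir0]
    have k1 : -(Q2 1) = t * (ψ.symm e2) 1 := by
      rw [← smul_co, ← ht, sub_co, mir1, g1, sub_zero]
    have k2 : Q2 2 - Q1 2 = t * (ψ.symm e2) 2 := by rw [← smul_co, ← ht, sub_co, mir2]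
    rcases mirpar hf0 hf1 hf2 k0 k1 k2 with k | ⟨k, k'⟩
    · exact k
    · have k3 : Q2 0 = Q1 0 := by linarith
      have k4 : Q2 2 = Q1 2 := by linarith
      rw [k3, k4] at r2
      have k5 : Q2 1 ^ 2 = 0 := by linarith
      exact pow_eq_zero_iff two_ne_zero |>.1 k5
  have hf1' : (ψ.symm e2) 1 = 0 := by
    rw [hD1] at hf1
    have hsτ0 : s * τ ≠ 0 := by
      apply mul_ne_zero _ ht0.ne'
      intro h1
      rw [h1] at hss
      norm_num at hss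
    rcases mul_eq_zero.1 hf1.symm with h1 | h1
    · exact absurd h1 hsτ0
    · exact h1
  rw [hD1] at r2 r3
  obtain ⟨A, hA⟩ : ∃ A : ℝ, A = Q1 0 := ⟨_, rfl⟩
  obtain ⟨B, hB⟩ : ∃ B : ℝ, B = Q1 2 := ⟨_, rfl⟩
  obtain ⟨C, hC⟩ : ∃ C : ℝ, C = Q2 0 := ⟨_, rfl⟩
  obtain ⟨D, hD⟩ : ∃ D : ℝ, D = Q2 2 := ⟨_, rfl⟩
  rw [← hA] at g0
  rw [← hA, ← hB] at r1
  rw [← hC, ← hD] at r2
  rw [← hA, ← hB, ← hC, ← hD] at r3
  rw [← hB] at lo1 up1
  rw [← hD] at lo2 up2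
  have hτ2 : τ ^ 2 < L ^ 2 := pow_lt_pow_left₀ htL ht0.le two_ne_zero
  have hτ3 : (0.68 * L) ^ 2 ≤ τ ^ 2 := pow_le_pow_left₀ (by positivity) hτL 2
  have hLL : 0 < L ^ 2 := by positivity
  have hC0 : 0 < C := by
    by_contra hc
    push Not at hc
    have : 0 ≤ A * (-C) := mul_nonneg g0.le (by linarith)
    nlinarith
  -- bounds
  have bB1 := lowb hL0 (abs_nonneg B) (by rw [sq_abs]; exact lo1)
  have bB2 := upb hL0 (abs_nonneg B) (by rw [sq_abs]; exact up1)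
  have bD1 := lowb hL0 (abs_nonneg D) (by rw [sq_abs]; exact lo2)
  have bD2 := upb hL0 (abs_nonneg D) (by rw [sq_abs]; exact up2)
  have bA1 : 0.7 * L ≤ A := by
    refine (pow_le_pow_iff_left₀ (by positivity) g0.le two_ne_zero).1 ?_
    nlinarith
  have bA2 : A ≤ 0.94 * L := by
    refine (pow_le_pow_iff_left₀ g0.le (by positivity) two_ne_zero).1 ?_
    nlinarith
  have bC1 : 0.7 * L ≤ C := by
    refine (pow_le_pow_iff_left₀ (by positivity) hC0.le two_ne_zero).1 ?_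
    nlinarith
  have bC2 : C ≤ 0.94 * L := by
    refine (pow_le_pow_iff_left₀ hC0.le (by positivity) two_ne_zero).1 ?_
    nlinarith
  have dAC : (C - A) ^ 2 ≤ (0.24 * L) ^ 2 := sq_le_sq' (by linarith) (by linarith)
  have dBD : (|D| - |B|) ^ 2 ≤ (0.37 * L) ^ 2 := sq_le_sq' (by linarith) (by linarith)
  have hBD : B * D ≠ 0 := by
    intro h1
    rcases mul_eq_zero.1 h1 with h2 | h2
    · rw [h2, abs_zero] at bB1
      linarith
    · rw [h2, abs_zero] at bD1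
      linarith
  have hexp : (|D| - |B|) ^ 2 = D ^ 2 + B ^ 2 - 2 * |B * D| := by
    rw [abs_mul]
    have h1 := sq_abs B
    have h2 := sq_abs D
    linear_combination h1 + h2
  rcases lt_or_gt_of_ne hBD with hneg | hpos
  · rw [abs_of_neg hneg] at hexp
    have hq3 : rrL Q2 ∈ X := (h.sg Q2 (by rw [i2]; exact hL2)).1 j2
    have hq4 : ‖rrL Q2‖ ≤ 2 := by rw [LinearIsometryEquiv.norm_map, i2]; exact hL2
    have hcl := cc_low
    have hcc := cc2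
    have hq5 : ‖rrL Q2 - Q1‖ < L := by
      apply norm_lt hL0.le
      rw [sub_co, sub_co, sub_co, rrL0, rrL1, rrL2, g1, hD1, ← hA, ← hB, ← hC, ← hD]
      have h1 : (cc * C - cc * 0 - A) ^ 2 + (cc * C + cc * 0 - 0) ^ 2 + (-D - B) ^ 2 =
          (C - A) ^ 2 + (2 - 2 * cc) * (A * C) + (|D| - |B|) ^ 2 := by
        rw [hexp]
        linear_combination (2 * C ^ 2) * hcc
      rw [h1]
      have h2 : A * C ≤ 0.879 * L ^ 2 := by nlinarith [sq_nonneg (A - C)]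
      have h3 : 0 ≤ A * C := mul_nonneg g0.le hC0.le
      have h4 : (2 - 2 * cc) * (A * C) ≤ 0.586 * (A * C) :=
        mul_le_mul_of_nonneg_right (by linarith) h3
      nlinarith
    obtain ⟨t, ht⟩ := line _ hq3 hq4 hq5
    have h1 : (rrL Q2 - Q1) 1 = 0 := by rw [ht, smul_co, hf1', mul_zero]
    rw [sub_co, rrL1, g1, hD1, ← hC, mul_zero, add_zero, sub_zero] at h1
    have := mul_pos cc_pos hC0
    linarith
  · rw [abs_of_pos hpos] at hexp
    have h1 : (C - A) ^ 2 + (|D| - |B|) ^ 2 = τ ^ 2 := by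
      rw [hexp, ← r3]
      ring
    nlinarith

end

end RDD

open RDD in
theorem rd_d4d2 : Pool.Agent.H576.RD.S_D4d2 := by
  intro r X L d τ h hdL hL3 ht0 htL hmin hA hB hC
  have hc : Ctx X L τ := ⟨h.Lpos, h.L2, hL3, ht0, htL, h.zero, h.nn, h.sg, h.sm, hmin, hA, hB, hC⟩
  have hL0 := hc.L0
  obtain ⟨v, hv, hvd, hvo⟩ := h.datt
  rw [hdL] at hvd
  obtain ⟨hm, -, -, -⟩ := hC v hv hvd hvo
  obtain ⟨g, hg, g1, g0⟩ := normal h.sg v hvo hm
  have hy : g v ∈ X := (hg.sym v (by rw [hvd]; exact h.L2)).1 hv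
  have hyL : ‖g v‖ = L := by rw [LinearIsometryEquiv.norm_map, hvd]
  obtain ⟨y, hyd⟩ : ∃ y : E, y = g v := ⟨_, rfl⟩
  rw [← hyd] at hy hyL g1 g0
  obtain ⟨-, c1, c2, c3⟩ := hC y hy hyL (Or.inl g0.ne')
  have habs : |y 2| ^ 2 = y 2 ^ 2 := sq_abs _
  rw [← habs] at c2 c3
  have l1 := lowb hL0 (abs_nonneg _) c2
  have l2 := upb hL0 (abs_nonneg _) c3
  obtain ⟨s, hs, hsy⟩ : ∃ s : ℝ, (s = 1 ∨ s = -1) ∧ s * y 2 = |y 2| := by
    rcases abs_cases (y 2) with ⟨h1, -⟩ | ⟨h1, -⟩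
    · exact ⟨1, Or.inl rfl, by rw [h1, one_mul]⟩
    · exact ⟨-1, Or.inr rfl, by rw [h1]; ring⟩
  rw [← hsy] at l1 l2 c1
  have hpos : 0 < s * y 2 := by
    have : 0 < 0.34 * L := by positivity
    linarith
  exact step5 hc hy hyL g1 g0 hs l1 (step4 hc hy hyL g1 g0 hs hpos c1 l1 l2)

end Pool.Agent.H249
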