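import Pool.Agent.H249.SP

set_option autoImplicit false
open Complex Set Filter Topology ComplexConjugate
open H535R3 (Sol fl P Cc Kx ZSol ZZ zv)

namespace Pool.Agent.H249

/-- The half factor. -/
noncomputable def UB (l μ : ℝ) (t : ℝ) : ℂ :=
  exp (-(I * (((l * t + 2 * μ * Real.sin t) / 2 : ℝ) : ℂ)))

lemma UB_norm (l μ t : ℝ) : ‖UB l μ t‖ = 1 := by
  rw [UB, show -(I * (((l * t + 2 * μ * Real.sin t) / 2 : ℝ) : ℂ)) =
    ((-((l * t + 2 * μ * Real.sin t) / 2) : ℝ) : ℂ) * I by push_cast; ring]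
  exact norm_exp_ofReal_mul_I _

lemma UB_deriv (l μ t : ℝ) :
    HasDerivAt (UB l μ) (-(I * (((l + 2 * μ * Real.cos t) / 2 : ℝ) : ℂ)) * UB l μ t) t := by
  have h1 : HasDerivAt (fun t : ℝ => (l * t + 2 * μ * Real.sin t) / 2)
      ((l * 1 + 2 * μ * Real.cos t) / 2) t :=
    (((hasDerivAt_id t).const_mul l).add ((Real.hasDerivAt_sin t).const_mul (2 * μ))).div_const 2
  have h2 := ((h1.ofReal_comp.const_mul I).neg).cexp
  refine h2.congr_deriv ?_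
  simp only [UB, Pi.neg_apply, mul_one]
  ring

lemma UB_zero (l μ : ℝ) : UB l μ 0 = 1 := by simp [UB]

lemma exp_pi_int (k : ℤ) : exp (I * ((Real.pi * k : ℝ) : ℂ)) = (((-1 : ℝ) ^ k : ℝ) : ℂ) := by
  rw [show I * ((Real.pi * k : ℝ) : ℂ) = (k:ℂ) * (Real.pi * I) by push_cast; ring, exp_int_mul,
    exp_pi_mul_I]
  push_cast
  rfl

lemma sg_neg (k : ℤ) : ((-1:ℝ) ^ (-k)) = (-1) ^ k := by
  rw [zpow_neg, ← inv_zpow, inv_neg, inv_one]

lemma sg_mul (k : ℤ) : ((-1:ℝ) ^ k) * (-1) ^ k = 1 := by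
  rw [← mul_zpow]; simp

lemma UB_two_pi (l : ℤ) (μ : ℝ) : UB l μ (2 * Real.pi) = (((-1 : ℝ) ^ l : ℝ) : ℂ) := by
  rw [UB, Real.sin_two_pi, ← sg_neg, ← exp_pi_int]
  congr 1
  push_cast
  ring

/-- The lift of a solution of the real-linear equation. -/
noncomputable def XZ (l μ e : ℝ) (Z : ℝ → ℂ) (t : ℝ) : ℂ × ℂ :=
  (UB l μ t * Z t, -(e * (UB l μ t * conj (Z t))))

lemma hasDerivAt_conj' {f : ℝ → ℂ} {f' : ℂ} {t : ℝ} (h : HasDerivAt f f' t) :
    HasDerivAt (fun t => conj (f t)) (conj f') t := by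
  exact (Complex.conjCLE.toContinuousLinearMap.hasFDerivAt.comp_hasDerivAt t h)

lemma XZ_sol {l : ℤ} {μ e : ℝ} {Z : ℝ → ℂ} (h : ZSol l (2 * μ) (2 * e) Z) :
    RSol l μ ((e ^ 2 : ℝ) : ℂ) (XZ l μ e Z) := by
  refine RSol.of_parts (fun t => ?_) (fun t => ?_)
  · refine ((UB_deriv l μ t).mul (h t)).congr_deriv ?_
    simp only [zv]
    push_cast
    ring
  · refine ((((UB_deriv l μ t).mul (hasDerivAt_conj' (h t))).const_mul (e:ℂ)).neg).congr_deriv ?_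
    simp only [zv, map_sub, map_mul, conj_I, conj_ofReal, conj_conj]
    push_cast
    ring

lemma XZ_zero (l μ e : ℝ) (Z : ℝ → ℂ) : XZ l μ e Z 0 = (Z 0, -(e * conj (Z 0))) := by
  simp [XZ, UB_zero]

lemma XZ_two_pi (l : ℤ) (μ e : ℝ) (Z : ℝ → ℂ) : XZ l μ e Z (2 * Real.pi) =
    ((((-1 : ℝ) ^ l : ℝ) : ℂ) * Z (2 * Real.pi),
      -(e * ((((-1 : ℝ) ^ l : ℝ) : ℂ) * conj (Z (2 * Real.pi))))) := by
  simp only [XZ, UB_two_pi]

lemma ZZ_two_pi {b a e x : ℝ} {k : ℤ} (h : P b a (2 * e) x = x + 2 * Real.pi * k) :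
    ZZ (2 * e) (fl b a (2 * e) x) (2 * Real.pi) =
      (((-1 : ℝ) ^ k * Real.exp (Kx b a (2 * e) x) : ℝ) : ℂ) * ZZ (2 * e) (fl b a (2 * e) x) 0 := by
  have h1 : fl b a (2 * e) x (2 * Real.pi) = x + 2 * Real.pi * k := h
  have hk : (((-1 : ℝ) ^ k * Real.exp (Kx b a (2 * e) x) : ℝ) : ℂ) =
      exp (I * ((Real.pi * k : ℝ) : ℂ)) * exp ((Kx b a (2 * e) x : ℝ) : ℂ) := by
    rw [exp_pi_int, ← ofReal_exp, ← ofReal_mul]
  rw [hk, ZZ, ZZ, h1, H535R3.Cc_zero, H535R3.fl_zero, ← exp_add, ← exp_add, Kx]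
  congr 1
  push_cast
  ring

lemma Th_of_lock {l : ℤ} {μ e x : ℝ} {k : ℤ}
    (h : P l (2 * μ) (2 * e) x = x + 2 * Real.pi * k) :
    Th l μ ((e ^ 2 : ℝ) : ℂ) =
      (((-1 : ℝ) ^ (l + k) * (Real.exp (Kx l (2 * μ) (2 * e) x) + Real.exp (-Kx l (2 * μ) (2 * e) x)) : ℝ) : ℂ) := by
  set φ := fl l (2 * μ) (2 * e) x with hφ
  set K := Kx l (2 * μ) (2 * e) x with hK
  have hZ := H535R3.ZZ_sol (H535R3.fl_sol l (2 * μ) (2 * e) x)
  have hX := XZ_sol hZ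
  have hz0 := H535R3.ZZ_ne (2 * e) (fl l (2 * μ) (2 * e) x) 0
  set κ : ℝ := (-1 : ℝ) ^ (l + k) * Real.exp K with hκ
  have hκ0 : κ ≠ 0 := mul_ne_zero (zpow_ne_zero _ (by norm_num)) (Real.exp_pos _).ne'
  have hzp : ((-1:ℝ)) ^ (l + k) = (-1) ^ l * (-1) ^ k := zpow_add₀ (by norm_num) _ _
  have hch := char_of_eigen (κ := (κ:ℂ)) hX (by
      rw [XZ_zero]
      intro h0
      rw [Prod.ext_iff] at h0
      exact hz0 h0.1) (by
      rw [XZ_two_pi, XZ_zero, ZZ_two_pi h, Prod.smul_mk]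
      congr 1
      · rw [smul_eq_mul, hκ, hzp]
        push_cast
        ring
      · rw [smul_eq_mul, map_mul, conj_ofReal, hκ, hzp]
        push_cast
        ring)
  have hκc : (κ:ℂ) ≠ 0 := by exact_mod_cast hκ0
  have h2 : Th l μ ((e ^ 2 : ℝ) : ℂ) = κ + (κ:ℂ)⁻¹ := by
    field_simp
    linear_combination -hch
  rw [h2, ← ofReal_inv, ← ofReal_add]
  congr 1
  have h3 : ((-1:ℝ) ^ (l + k))⁻¹ = (-1) ^ (l + k) := by rw [← zpow_neg, sg_neg]
  rw [hκ, mul_inv, h3, Real.exp_neg]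
  ring

/-- A linear algebra fact. -/
lemma eig2 {F : Type*} [Field F] {A B C D κ : F} (hz : (A - κ) * (D - κ) - B * C = 0) :
    ∃ u v : F, (u ≠ 0 ∨ v ≠ 0) ∧ u * A + v * B = κ * u ∧ u * C + v * D = κ * v := by
  by_cases hb : B = 0 ∧ A = κ
  · by_cases hc : D = κ
    · exact ⟨0, 1, Or.inr one_ne_zero, by rw [hb.1]; ring, by rw [hc]; ring⟩
    · refine ⟨κ - D, C, Or.inl (sub_ne_zero.2 (Ne.symm hc)), ?_, ?_⟩
      · rw [hb.1, hb.2]; ring
      · ring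
  · refine ⟨B, κ - A, ?_, by ring, by linear_combination -hz⟩
    by_cases hB0 : B = 0
    · right
      intro h3
      exact hb ⟨hB0, (sub_eq_zero.1 h3).symm⟩
    · exact Or.inl hB0

lemma ZSol_lin {b a ε : ℝ} {Z W : ℝ → ℂ} (hZ : ZSol b a ε Z) (hW : ZSol b a ε W) (u v : ℝ) :
    ZSol b a ε (fun t => u * Z t + v * W t) := by
  intro t
  refine (((hZ t).const_mul (u:ℂ)).add ((hW t).const_mul (v:ℂ))).congr_deriv ?_
  simp only [zv, map_add, map_mul, conj_ofReal]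
  ring

/-- Sine criterion. -/
lemma fixed_of_im {b a e : ℝ} {φ : ℝ → ℝ} (h : Sol b a (2 * e) φ)
    (him : (conj (ZZ (2 * e) φ 0) * ZZ (2 * e) φ (2 * Real.pi)).im = 0) :
    ∃ k : ℤ, P b a (2 * e) (φ 0) = φ 0 + 2 * Real.pi * k := by
  rw [H535R3.ZZ_form] at him
  have h1 := (mul_eq_zero.1 him).resolve_left (Real.exp_pos _).ne'
  obtain ⟨k, hk⟩ := Real.sin_eq_zero_iff.1 h1
  refine ⟨k, ?_⟩
  have h2 : P b a (2 * e) (φ 0) = φ (2 * Real.pi) := by rw [P, ← h.eq_fl]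
  rw [h2]
  linarith

/-- The trace is real at real parameters, and if it is at least two in modulus there is a
periodic solution. -/
lemma Th_real {l : ℤ} {μ e : ℝ} (he : e ≠ 0) : (Th l μ ((e ^ 2 : ℝ) : ℂ)).im = 0 ∧
    (2 ≤ |(Th l μ ((e ^ 2 : ℝ) : ℂ)).re| → ∃ (x : ℝ) (k : ℤ),
      P l (2 * μ) (2 * e) x = x + 2 * Real.pi * k) := by
  have s1 := H535R3.fl_sol l (2 * μ) (2 * e) (Real.pi / 2)
  have s2 := H535R3.fl_sol l (2 * μ) (2 * e) (3 * Real.pi / 2)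
  set Z1 := ZZ (2 * e) (fl l (2 * μ) (2 * e) (Real.pi / 2)) with hZ1
  set Z2 := ZZ (2 * e) (fl l (2 * μ) (2 * e) (3 * Real.pi / 2)) with hZ2
  have z1 : ZSol l (2 * μ) (2 * e) Z1 := H535R3.ZZ_sol s1
  have z2 : ZSol l (2 * μ) (2 * e) Z2 := H535R3.ZZ_sol s2
  have z10 : Z1 0 = 1 := by
    rw [hZ1, ZZ, H535R3.Cc_zero, H535R3.fl_zero]; simp
  have z20 : Z2 0 = I := by
    rw [hZ2, ZZ, H535R3.Cc_zero, H535R3.fl_zero]
    rw [show ((2 * e / 2 * 0 : ℝ) : ℂ) + I * (((3 * Real.pi / 2 - Real.pi / 2) / 2 : ℝ) : ℂ) =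
      Real.pi / 2 * I by push_cast; ring]
    exact exp_pi_div_two_mul_I
  set a1 := Z1 (2 * Real.pi) with ha1
  set a2 := Z2 (2 * Real.pi) with ha2
  have hX1 := XZ_sol z1
  have hX2 := XZ_sol z2
  have r1 := hX1.rep (2 * Real.pi)
  have r2 := hX2.rep (2 * Real.pi)
  rw [XZ_two_pi, XZ_zero, z10, Prod.ext_iff] at r1
  rw [XZ_two_pi, XZ_zero, z20, Prod.ext_iff] at r2
  rw [← ha1] at r1
  rw [← ha2] at r2
  simp only [map_one, conj_I, mul_one] at r1 r2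
  have w := hX1.wronsk_int hX2
  rw [XZ_two_pi, XZ_two_pi, XZ_zero, XZ_zero, z10, z20, ← ha1, ← ha2] at w
  simp only [map_one, conj_I, mul_one] at w
  have hTh : Th l μ ((e ^ 2 : ℝ) : ℂ) = (sR l μ ((e ^ 2 : ℝ) : ℂ) (1, 0) (2 * Real.pi)).1 +
    (sR l μ ((e ^ 2 : ℝ) : ℂ) (0, 1) (2 * Real.pi)).2 := rfl
  set A := (sR l μ ((e ^ 2 : ℝ) : ℂ) (1, 0) (2 * Real.pi)).1
  set B := (sR l μ ((e ^ 2 : ℝ) : ℂ) (0, 1) (2 * Real.pi)).1
  set C := (sR l μ ((e ^ 2 : ℝ) : ℂ) (1, 0) (2 * Real.pi)).2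
  set D := (sR l μ ((e ^ 2 : ℝ) : ℂ) (0, 1) (2 * Real.pi)).2
  obtain ⟨r11, r12⟩ := r1
  obtain ⟨r21, r22⟩ := r2
  have hec : (e:ℂ) ≠ 0 := by exact_mod_cast he
  set σ : ℂ := (((-1 : ℝ) ^ l : ℝ) : ℂ) with hσ
  have hσ2 : σ * σ = 1 := by rw [hσ, ← ofReal_mul, sg_mul, ofReal_one]
  have hA : 2 * A = σ * (a1 - I * a2) := by
    linear_combination -r11 + I * r21 + (A + e * B) * I_sq
  have hD : 2 * D = σ * (conj a1 + I * conj a2) := by
    have : (e:ℂ) * (2 * D) = e * (σ * (conj a1 + I * conj a2)) := by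
      linear_combination r12 + I * r22 + (C + e * D) * I_sq
    exact mul_left_cancel₀ hec this
  have hTr : Th l μ ((e ^ 2 : ℝ) : ℂ) = (((-1 : ℝ) ^ l * (a1.re + a2.im) : ℝ) : ℂ) := by
    rw [hTh]
    have h1 : a1 - I * a2 + (conj a1 + I * conj a2) = ((2 * (a1.re + a2.im) : ℝ) : ℂ) := by
      apply Complex.ext
      · simp; ring
      · simp
    have h2 : 2 * (A + D) = 2 * (((-1 : ℝ) ^ l * (a1.re + a2.im) : ℝ) : ℂ) := by
      push_cast at h1 ⊢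
      rw [show ((-1:ℂ)) ^ l = σ by rw [hσ]; push_cast; rfl]
      linear_combination hA + hD + σ * h1
    exact mul_left_cancel₀ two_ne_zero h2
  refine ⟨by rw [hTr, ofReal_im], fun hge => ?_⟩
  have hdet : a1.re * a2.im - a1.im * a2.re = 1 := by
    have h1 : a1 * conj a2 - a2 * conj a1 = -(2 * I) := by
      have h2 : (e:ℂ) * (a1 * conj a2 - a2 * conj a1) = e * (-(2 * I)) := by
        have h3 : -(e:ℂ) * (σ * σ) * (a1 * conj a2 - a2 * conj a1) = 2 * e * I := by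
          linear_combination w
        rw [hσ2] at h3
        linear_combination -h3
      exact mul_left_cancel₀ hec h2
    have h4 := congrArg Complex.im h1
    simp at h4
    linarith
  set τ := a1.re + a2.im with hτ
  have hτ2 : 4 ≤ τ ^ 2 := by
    rw [hTr, ofReal_re, abs_mul, abs_zpow, abs_neg, abs_one, one_zpow, one_mul] at hge
    rw [← sq_abs]
    nlinarith
  set κ := (τ + √(τ ^ 2 - 4)) / 2 with hκ
  have hs := Real.sq_sqrt (show 0 ≤ τ ^ 2 - 4 by linarith)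
  have hκe : κ ^ 2 - τ * κ + 1 = 0 := by
    rw [hκ]
    nlinarith
  obtain ⟨u, v, huv, e1, e2⟩ := eig2 (A := a1.re) (B := a2.re) (C := a1.im) (D := a2.im) (κ := κ) (by
    rw [hτ] at hκe
    linear_combination hκe + hdet)
  have hZ := ZSol_lin z1 z2 u v
  have hZ0 : (u:ℂ) * Z1 0 + v * Z2 0 ≠ 0 := by
    rw [z10, z20]
    intro h0
    have h1 := congrArg Complex.re h0
    have h2 := congrArg Complex.im h0
    simp at h1 h2
    exact huv.elim (fun h => h h1) (fun h => h h2)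
  have hZ2p : (u:ℂ) * Z1 (2 * Real.pi) + v * Z2 (2 * Real.pi) = κ * (u * Z1 0 + v * Z2 0) := by
    rw [← ha1, ← ha2, z10, z20]
    apply Complex.ext
    · simp; linarith
    · simp; linarith
  obtain ⟨κ0, φ, hκ0, hφ, hrep⟩ := hZ.rep hZ0
  have h0 := hrep 0
  have h2p := hrep (2 * Real.pi)
  have hκ0c : (κ0:ℂ) ≠ 0 := by exact_mod_cast hκ0.ne'
  have hrel : ZZ (2 * e) φ (2 * Real.pi) = κ * ZZ (2 * e) φ 0 := by
    apply mul_left_cancel₀ hκ0c
    rw [← h2p, hZ2p, h0]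
    ring
  obtain ⟨k, hk⟩ := fixed_of_im hφ (by
    rw [hrel]
    rw [show conj (ZZ (2 * e) φ 0) * ((κ:ℂ) * ZZ (2 * e) φ 0) =
      ((κ * normSq (ZZ (2 * e) φ 0) : ℝ) : ℂ) by
        push_cast
        rw [← mul_conj]; ring]
    exact ofReal_im _)
  exact ⟨φ 0, k, hk⟩

/-- Reality of the trace at all real parameters. -/
lemma Th_im (l : ℤ) (m ξ : ℝ) : (Th l m ξ).im = 0 := by
  have hconj : ∀ x : ℂ × ℂ, (conj x.1 = x.1) → (conj x.2 = x.2) → ∀ t,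
      sR l m ξ x (-t) = (conj (sR l m ξ x t).1, conj (sR l m ξ x t).2) := by
    intro x h1 h2 t
    have hX := sR_sol l m ξ x
    have hY : RSol l m ξ (fun t => (conj (sR l m ξ x (-t)).1, conj (sR l m ξ x (-t)).2)) := by
      refine RSol.of_parts (fun t => ?_) (fun t => ?_)
      · have h3 := (hX.fst (-t)).scomp t (hasDerivAt_neg t)
        refine (hasDerivAt_conj' h3).congr_deriv ?_
        simp
      · have h3 := (hX.snd (-t)).scomp t (hasDerivAt_neg t)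
        refine (hasDerivAt_conj' h3).congr_deriv ?_
        simp only [map_mul, map_sub, map_neg, map_add, conj_I, conj_ofReal, map_intCast,
          Real.cos_neg, map_ofNat, neg_smul, one_smul]
        ring
    have h3 := hX.unique hY (t0 := 0) (by
      simp only [neg_zero, sR_zero]
      rw [h1, h2])
    have h4 := congrFun h3 (-t)
    simp only [neg_neg] at h4
    exact h4
  have hs : ∀ x : ℂ × ℂ, RSol l m ξ (fun t => sR l m ξ x (t - 2 * Real.pi)) := by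
    intro x t
    have h2 := (sR_sol l m ξ x (t - 2 * Real.pi)).comp_sub_const t (2 * Real.pi)
    refine h2.congr_deriv ?_
    simp only [vR, Real.cos_sub_two_pi]
  have k1 := (hs (1, 0)).rep (2 * Real.pi)
  have k2 := (hs (0, 1)).rep (2 * Real.pi)
  simp only [sub_self, zero_sub, sR_zero] at k1 k2
  rw [hconj (1, 0) (by simp) (by simp), Prod.ext_iff] at k1
  rw [hconj (0, 1) (by simp) (by simp), Prod.ext_iff] at k2
  have hdet := (sR_sol (l:ℂ) m ξ (1, 0)).wronsk_int (sR_sol (l:ℂ) m ξ (0, 1))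
  simp only [sR_zero] at hdet
  have hTh : Th l m ξ = (sR l m ξ (1, 0) (2 * Real.pi)).1 + (sR l m ξ (0, 1) (2 * Real.pi)).2 := rfl
  set A := (sR l m ξ (1, 0) (2 * Real.pi)).1
  set B := (sR l m ξ (0, 1) (2 * Real.pi)).1
  set C := (sR l m ξ (1, 0) (2 * Real.pi)).2
  set D := (sR l m ξ (0, 1) (2 * Real.pi)).2
  obtain ⟨k11, k12⟩ := k1
  simp only at k11 k12
  have hD : conj A = D := by
    have h1 : A * D - B * C = 1 := by linear_combination hdet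
    linear_combination (-(conj A)) * h1 - D * k11 + B * k12
  rw [hTh, ← hD, add_im, conj_im]
  ring

end Pool.Agent.H249
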