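import Pool.Agent.H249.FR

set_option autoImplicit false
open Complex Set Filter Topology ComplexConjugate
open H535R3 (cf cf_expand cf_bound exp_per summable_inv_sq int_ek)

namespace Pool.Agent.H249

/-- Exchange of sum and integral. -/
lemma int_tsum {ι : Type*} [Countable ι] {a : ι → ℂ} (ha : Summable fun k => ‖a k‖) {g : ℝ → ℂ}
    (hg : Continuous g) {e : ι → ℝ → ℂ} (he : ∀ k, Continuous (e k)) (hb : ∀ k t, ‖e k t‖ ≤ 1) :
    HasSum (fun k => a k * ∫ t in (-Real.pi)..Real.pi, e k t * g t)
      (∫ t in (-Real.pi)..Real.pi, (∑' k, a k * e k t) * g t) := by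
  obtain ⟨C, hC⟩ := (isCompact_Icc (a := -Real.pi) (b := Real.pi)).exists_bound_of_continuousOn
    hg.continuousOn
  have hpi := Real.pi_pos
  have h1 : HasSum (fun k => ∫ t in (-Real.pi)..Real.pi, (a k * e k t) * g t)
      (∫ t in (-Real.pi)..Real.pi, (∑' k, a k * e k t) * g t) := by
    refine intervalIntegral.hasSum_integral_of_dominated_convergence (fun k _ => ‖a k‖ * C) ?_ ?_ ?_ ?_ ?_
    · intro k
      have := he k
      exact (by fun_prop : Continuous fun t : ℝ => (a k * e k t) * g t).aestronglyMeasurable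
    · intro k
      refine Eventually.of_forall fun t ht => ?_
      rw [uIoc_of_le (by linarith)] at ht
      rw [norm_mul, norm_mul]
      have h2 := hC t ⟨ht.1.le, ht.2⟩
      have h3 := hb k t
      have h4 := norm_nonneg (a k)
      calc ‖a k‖ * ‖e k t‖ * ‖g t‖ ≤ ‖a k‖ * 1 * C := by gcongr
        _ = _ := by ring
    · exact Eventually.of_forall fun t _ => ha.mul_right C
    · exact intervalIntegrable_const
    · refine Eventually.of_forall fun t _ => ?_
      have hs : Summable fun k => a k * e k t := by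
        refine Summable.of_norm_bounded ha fun k => ?_
        rw [norm_mul]
        have h3 := hb k t
        have h4 := norm_nonneg (a k)
        nlinarith
      exact hs.hasSum.mul_right _
  refine h1.congr_fun fun k => ?_
  rw [← intervalIntegral.integral_const_mul]
  congr 1
  funext t
  ring

/-- Fourier series. -/
noncomputable def FS (c : ℤ → ℂ) (t : ℝ) : ℂ := ∑' k, c k * exp (I * k * t)

/-- Fast decay. -/
def Fast (c : ℤ → ℂ) : Prop := Summable fun k : ℤ => (1 + |(k:ℝ)|) * ‖c k‖

lemma Fast.norm {c : ℤ → ℂ} (h : Fast c) : Summable fun k => ‖c k‖ := by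
  refine Summable.of_nonneg_of_le (fun k => norm_nonneg _) (fun k => ?_) h
  have := abs_nonneg (k:ℝ)
  have := norm_nonneg (c k)
  nlinarith

lemma FS_summable {c : ℤ → ℂ} (h : Summable fun k => ‖c k‖) (t : ℝ) :
    Summable fun k : ℤ => c k * exp (I * k * t) := by
  refine Summable.of_norm_bounded h fun k => ?_
  rw [norm_mul, norm_ep, mul_one]

lemma Fast.deriv {c : ℤ → ℂ} (h : Fast c) (t : ℝ) :
    HasDerivAt (FS c) (FS (fun k => I * k * c k) t) t := by
  have hd : HasDerivAt (FS c) (∑' k : ℤ, c k * (exp (I * k * t) * (I * k))) t := by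
    refine hasDerivAt_tsum (𝕜 := ℝ) (u := fun k : ℤ => (1 + |(k:ℝ)|) * ‖c k‖) (y₀ := 0) h
      (g := fun (k : ℤ) (t : ℝ) => c k * exp (I * k * t))
      (g' := fun (k : ℤ) (t : ℝ) => c k * (exp (I * k * t) * (I * k))) ?_ ?_ (FS_summable h.norm 0) t
    · intro k t
      have h2 : HasDerivAt (fun t : ℝ => I * k * (t : ℂ)) (I * k * 1) t :=
        (ofRealCLM.hasDerivAt (x := t)).const_mul (I * k)
      rw [mul_one] at h2
      exact h2.cexp.const_mul _
    · intro k t
      rw [norm_mul, norm_mul, norm_ep, norm_mul, norm_I, one_mul, one_mul, Complex.norm_intCast]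
      nlinarith [norm_nonneg (c k)]
  refine hd.congr_deriv ?_
  rw [FS]
  refine tsum_congr fun k => ?_
  ring

lemma FS_shift (c : ℤ → ℂ) (m : ℤ) (t : ℝ) : exp (I * m * t) * FS c t = FS (fun k => c (k - m)) t := by
  rw [FS, FS, ← tsum_mul_left, ← (Equiv.subRight m).tsum_eq]
  refine tsum_congr fun k => ?_
  simp only [Equiv.subRight_apply]
  rw [mul_left_comm, ← exp_add]
  congr 2
  push_cast; ring

lemma FS_add {c d : ℤ → ℂ} (hc : Summable fun k => ‖c k‖) (hd : Summable fun k => ‖d k‖) (t : ℝ) :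
    FS (fun k => c k + d k) t = FS c t + FS d t := by
  rw [FS, FS, FS, ← (FS_summable hc t).tsum_add (FS_summable hd t)]
  refine tsum_congr fun k => ?_
  ring

lemma FS_cmul (x : ℂ) (c : ℤ → ℂ) (t : ℝ) : FS (fun k => x * c k) t = x * FS c t := by
  rw [FS, FS, ← tsum_mul_left]
  refine tsum_congr fun k => ?_
  ring

lemma FS_per (c : ℤ → ℂ) (t : ℝ) : FS c (t + 2 * Real.pi) = FS c t := by
  rw [FS, FS]
  refine tsum_congr fun k => ?_
  congr 1
  rw [exp_eq_exp_iff_exists_int]
  exact ⟨k, by push_cast; ring⟩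

lemma cf_FS {c : ℤ → ℂ} (h : Summable fun k => ‖c k‖) (j : ℤ) : cf (FS c) j = c j := by
  have h1 := int_tsum h (g := fun t : ℝ => exp (-(I * j * t))) (by fun_prop)
    (e := fun (k : ℤ) (t : ℝ) => exp (I * k * t)) (fun k => by fun_prop) (fun k t => (norm_ep k t).le)
  have h2 : ∀ k : ℤ, c k * ∫ t in (-Real.pi)..Real.pi, exp (I * k * t) * exp (-(I * j * t))
      = if k = j then (c j : ℂ) * (2 * Real.pi) else 0 := by
    intro k
    have h3 : ∀ t : ℝ, exp (I * k * t) * exp (-(I * j * t)) = exp (I * ((k - j : ℤ) : ℂ) * t) := by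
      intro t
      rw [← exp_add]
      congr 1
      push_cast; ring
    simp_rw [h3]
    rw [int_ek]
    by_cases hkj : k = j
    · subst hkj; simp
    · rw [if_neg hkj, if_neg (sub_ne_zero.2 hkj), mul_zero]
  simp_rw [h2] at h1
  have h4 := (hasSum_ite_eq j ((c j : ℂ) * (2 * Real.pi))).unique h1
  unfold cf
  have e : (fun t : ℝ => FS c t * exp (-(I * j * t))) =
      fun t : ℝ => (∑' k, c k * exp (I * k * t)) * exp (-(I * j * t)) := rfl
  rw [e, ← h4]
  have : (Real.pi : ℂ) ≠ 0 := by exact_mod_cast Real.pi_ne_zero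
  push_cast
  field_simp

/-- Parseval pairing. -/
lemma pairing {f g : ℝ → ℂ} (hf : Continuous f) (hper : ∀ t, f (t + 2 * Real.pi) = f t)
    (hs : Summable fun k => ‖cf f k‖) (hg : Continuous g) :
    HasSum (fun k => conj (cf f k) * ((2 * Real.pi : ℝ) * cf g k))
      (∫ t in (-Real.pi)..Real.pi, conj (f t) * g t) := by
  have h1 := int_tsum (a := fun k => conj (cf f k)) (by simpa using hs) hg
    (e := fun (k : ℤ) (t : ℝ) => exp (-(I * k * t))) (fun k => by fun_prop) (fun k t => (norm_em k t).le)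
  have e1 : ∀ t : ℝ, (∑' k : ℤ, conj (cf f k) * exp (-(I * k * t))) = conj (f t) := by
    intro t
    have h2 := cf_expand hf hper hs.of_norm t
    have h3 := h2.map (starRingEnd ℂ) continuous_conj
    rw [← h3.tsum_eq]
    refine tsum_congr fun k => ?_
    simp only [Function.comp_apply]
    rw [map_mul, ← exp_conj]
    congr 2
    simp only [map_mul, conj_I, conj_ofReal, map_intCast]
    ring
  simp_rw [e1] at h1
  refine h1.congr_fun fun k => ?_
  congr 1
  unfold cf
  rw [← mul_assoc, ← ofReal_mul]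
  have hpi := Real.pi_ne_zero
  rw [show (2 * Real.pi * (1 / (2 * Real.pi)) : ℝ) = 1 by field_simp, ofReal_one, one_mul]
  congr 1
  funext t
  ring

lemma Fast.of_bound {c : ℤ → ℂ} {D : ℝ} (h : ∀ k : ℤ, ‖c k‖ * (1 + |(k:ℝ)|) ^ 3 ≤ D) : Fast c := by
  refine Summable.of_nonneg_of_le (fun k => by positivity) (fun k => ?_) (summable_inv_sq.mul_left D)
  have hk : 0 < 1 + |(k:ℝ)| := by positivity
  rw [mul_one_div, le_div_iff₀ (by positivity)]
  calc _ = ‖c k‖ * (1 + |(k:ℝ)|) ^ 3 := by ring
    _ ≤ D := h k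

lemma summable_shift {c : ℤ → ℂ} (h : Summable fun k => ‖c k‖) (m : ℤ) :
    Summable fun k => ‖c (k - m)‖ :=
  (Equiv.summable_iff (Equiv.subRight m)).2 h

/-- Sequences satisfying the recursion give solutions. -/
lemma RSol_of_seq {l m ξ : ℂ} {R H : ℤ → ℂ} (hR : Fast R) (hH : Fast H)
    (h1 : ∀ k : ℤ, H k = k * R k)
    (h2 : ∀ k : ℤ, (k + l) * H k + m * (H (k - 1) + H (k + 1)) = -ξ * R k) :
    RSol l m ξ (fun t => (FS R t, FS H t)) := by
  refine RSol.of_parts (fun t => ?_) (fun t => ?_)
  · refine (hR.deriv t).congr_deriv ?_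
    rw [← FS_cmul]
    congr 1
    funext k
    rw [h1 k]; ring
  · refine (hH.deriv t).congr_deriv ?_
    have hs1 := summable_shift hH.norm 1
    have hs2 := summable_shift hH.norm (-1)
    have e : (fun k : ℤ => I * k * H k) = fun k => ((-(I * l)) * H k + (-(I * m)) * H (k - 1)) +
        ((-(I * m)) * H (k - -1) + (-(I * ξ)) * R k) := by
      funext k
      rw [show k - -1 = k + 1 by ring]
      linear_combination I * h2 k
    have n1 : Summable fun k => ‖(-(I * l)) * H k‖ := by
      simp_rw [norm_mul]; exact hH.norm.mul_left _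
    have n2 : Summable fun k => ‖(-(I * m)) * H (k - 1)‖ := by
      simp_rw [norm_mul]; exact hs1.mul_left _
    have n3 : Summable fun k => ‖(-(I * m)) * H (k - -1)‖ := by
      simp_rw [norm_mul]; exact hs2.mul_left _
    have n4 : Summable fun k => ‖(-(I * ξ)) * R k‖ := by
      simp_rw [norm_mul]; exact hR.norm.mul_left _
    have n12 : Summable fun k => ‖(-(I * l)) * H k + (-(I * m)) * H (k - 1)‖ :=
      Summable.of_nonneg_of_le (fun _ => norm_nonneg _) (fun _ => norm_add_le _ _) (n1.add n2)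
    have n34 : Summable fun k => ‖(-(I * m)) * H (k - -1) + (-(I * ξ)) * R k‖ :=
      Summable.of_nonneg_of_le (fun _ => norm_nonneg _) (fun _ => norm_add_le _ _) (n3.add n4)
    rw [e, FS_add n12 n34, FS_add n1 n2, FS_add n3 n4, FS_cmul, FS_cmul, FS_cmul, FS_cmul,
      ← FS_shift, ← FS_shift]
    have h3 : ((Real.cos t : ℝ) : ℂ) = (exp (I * (1:ℤ) * t) + exp (I * (-1:ℤ) * t)) / 2 := by
      rw [ofReal_cos, Complex.cos]
      congr 2
      · congr 1; push_cast; ring
      · congr 1; push_cast; ring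
    rw [h3]
    ring

/-- The factor `exp (-i B)`. -/
noncomputable def EB (l m : ℂ) (t : ℝ) : ℂ := exp (-(I * (l * t + 2 * m * Real.sin t)))

lemma EB_deriv (l m : ℂ) (t : ℝ) :
    HasDerivAt (EB l m) (-(I * (l + 2 * m * Real.cos t)) * EB l m t) t := by
  have h1 : HasDerivAt (fun t : ℝ => -(I * (l * (t:ℂ) + 2 * m * (Real.sin t : ℝ))))
      (-(I * (l * 1 + 2 * m * (Real.cos t : ℝ)))) t :=
    ((((ofRealCLM.hasDerivAt (x := t)).const_mul l).add
      ((Real.hasDerivAt_sin t).ofReal_comp.const_mul (2 * m))).const_mul I).neg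
  exact h1.cexp.congr_deriv (by rw [EB]; ring)

lemma EB_zero (l m : ℂ) : EB l m 0 = 1 := by simp [EB]

lemma EB_two_pi (l : ℤ) (m : ℂ) : EB l m (2 * Real.pi) = 1 := by
  rw [EB, Real.sin_two_pi, exp_eq_one_iff]
  exact ⟨-l, by push_cast; ring⟩

/-- The symmetry. -/
lemma RSol.sym {l m ξ : ℂ} {X : ℝ → ℂ × ℂ} (hX : RSol l m ξ X) :
    RSol l m ξ (fun t => (EB l m t * (X (-t)).2, ξ * (EB l m t * (X (-t)).1))) := by
  have h1 : ∀ t : ℝ, HasDerivAt (fun t => (X (-t)).1) (-(I * (X (-t)).2)) t := fun t => by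
    have := (hX.fst (-t)).scomp t (hasDerivAt_neg t)
    exact this.congr_deriv (by simp)
  have h2 : ∀ t : ℝ, HasDerivAt (fun t => (X (-t)).2)
      (-(-(I * (l + 2 * m * Real.cos t) * (X (-t)).2) - I * ξ * (X (-t)).1)) t := fun t => by
    have := (hX.snd (-t)).scomp t (hasDerivAt_neg t)
    exact this.congr_deriv (by simp)
  refine RSol.of_parts (fun t => ?_) (fun t => ?_)
  · exact ((EB_deriv l m t).mul (h2 t)).congr_deriv (by ring)
  · exact (((EB_deriv l m t).mul (h1 t)).const_mul ξ).congr_deriv (by ring)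

lemma cf_neg_arg (f : ℝ → ℂ) (k : ℤ) : cf (fun t => f (-t)) k = cf f (-k) := by
  unfold cf
  congr 1
  have h1 : ∀ t : ℝ, f (-t) * exp (-(I * k * t)) =
      (fun s : ℝ => f s * exp (-(I * ((-k : ℤ) : ℂ) * s))) (-t) := by
    intro t
    simp only
    congr 2
    push_cast; ring
  simp_rw [h1]
  rw [intervalIntegral.integral_comp_neg (fun s : ℝ => f s * exp (-(I * ((-k : ℤ) : ℂ) * s))), neg_neg]

/-- Multiplication by the exponential of a monomial. -/
lemma cf_exp_mul {m : ℂ} {g : ℝ → ℂ} (hg : Continuous g) (s k : ℤ)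
    (h : ∀ n : ℕ, cf g (k - s * n) = 0) : cf (fun t => exp (m * exp (I * s * t)) * g t) k = 0 := by
  have ha : Summable fun n : ℕ => ‖m ^ n / (n.factorial : ℂ)‖ := by
    have := Real.summable_pow_div_factorial ‖m‖
    refine this.congr fun n => ?_
    rw [norm_div, norm_pow, Complex.norm_natCast]
  have h1 := int_tsum ha (g := fun t : ℝ => g t * exp (-(I * k * t))) (by fun_prop)
    (e := fun (n : ℕ) (t : ℝ) => exp (I * ((s * n : ℤ) : ℂ) * t)) (fun n => by fun_prop)
    (fun n t => (norm_ep _ t).le)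
  have e1 : ∀ t : ℝ, (∑' n : ℕ, m ^ n / (n.factorial : ℂ) * exp (I * ((s * n : ℤ) : ℂ) * t)) =
      exp (m * exp (I * s * t)) := by
    intro t
    have hexp : ∀ z : ℂ, exp z = ∑' n : ℕ, z ^ n / (n.factorial : ℂ) := fun z => by
      rw [Complex.exp_eq_exp_ℂ, NormedSpace.exp_eq_tsum_div]
    rw [hexp (m * exp (I * s * t))]
    refine tsum_congr fun n => ?_
    rw [mul_pow, ← Complex.exp_nat_mul]
    rw [show (n:ℂ) * (I * s * t) = I * ((s * n : ℤ) : ℂ) * t by push_cast; ring]
    ring
  simp_rw [e1] at h1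
  have h2 : ∀ n : ℕ, ∫ t in (-Real.pi)..Real.pi, exp (I * ((s * n : ℤ) : ℂ) * t) *
      (g t * exp (-(I * k * t))) = 0 := by
    intro n
    have h3 := h n
    unfold cf at h3
    have h4 : ((1 / (2 * Real.pi) : ℝ) : ℂ) ≠ 0 := by
      have := Real.pi_pos
      exact_mod_cast (by positivity : (1 / (2 * Real.pi) : ℝ) ≠ 0)
    rw [← (mul_eq_zero.1 h3).resolve_left h4]
    congr 1
    funext t
    have : exp (-(I * ((k - s * n : ℤ) : ℂ) * t)) = exp (I * ((s * n : ℤ) : ℂ) * t) * exp (-(I * k * t)) := by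
      rw [← exp_add]; congr 1; push_cast; ring
    rw [this]
    ring
  simp_rw [h2, mul_zero] at h1
  have h5 := h1.unique hasSum_zero
  unfold cf
  have e2 : (fun t : ℝ => exp (m * exp (I * s * t)) * g t * exp (-(I * k * t))) =
      fun t : ℝ => exp (m * exp (I * s * t)) * (g t * exp (-(I * k * t))) := by
    funext t; ring
  rw [e2, h5, mul_zero]

/-- Support of the periodic solution. -/
theorem support {l : ℤ} (hl : 1 ≤ l) {m ξ : ℂ} (hξ : ξ ≠ 0) {X : ℝ → ℂ × ℂ} (hX : RSol l m ξ X)
    (hper : X (2 * Real.pi) = X 0) (h0 : X 0 ≠ 0)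
    (hone : ∀ Y, RSol l m ξ Y → Y (2 * Real.pi) = Y 0 → ∃ c : ℂ, ∀ t, Y t = c • X t) (k : ℤ)
    (hk : 1 ≤ k) : cR X k = 0 := by
  have hXc := hX.cont
  have hp := hX.per hper
  obtain ⟨D, hD⟩ := hX.decay hper 3
  have hDR : ∀ k : ℤ, ‖cR X k‖ * (1 + |(k:ℝ)|) ^ 3 ≤ D := fun k => by
    refine le_trans ?_ (hD k)
    have := norm_nonneg (cH X k)
    gcongr
    linarith
  have hDH : ∀ k : ℤ, ‖cH X k‖ * (1 + |(k:ℝ)|) ^ 3 ≤ D := fun k => by
    refine le_trans ?_ (hD k)
    have := norm_nonneg (cR X k)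
    gcongr
    linarith
  have hD0 : 0 ≤ D := le_trans (by positivity) (hDR 0)
  have hH0 : cH X 0 = 0 := by rw [hX.rec1 hper 0]; simp
  set Hp : ℤ → ℂ := fun k => if 1 ≤ k then cH X k else 0 with hHp
  set Rp : ℤ → ℂ := fun k => if 1 ≤ k then cR X k else if k = 0 then -(m * cH X 1) / ξ else 0 with hRp
  have hRp0 : Rp 0 = -(m * cH X 1) / ξ := by simp [hRp]
  have fH : Fast Hp := Fast.of_bound (D := D) fun k => by
    by_cases h : 1 ≤ k
    · simp only [hHp, if_pos h]; exact hDH k
    · simp only [hHp, if_neg h, norm_zero, zero_mul]; exact hD0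
  have fR : Fast Rp := Fast.of_bound (D := D + ‖-(m * cH X 1) / ξ‖) fun k => by
    have hn := norm_nonneg (-(m * cH X 1) / ξ)
    by_cases h : 1 ≤ k
    · simp only [hRp, if_pos h]; exact (hDR k).trans (by linarith)
    · by_cases h2 : k = 0
      · rw [h2, hRp0]
        simp only [Int.cast_zero, abs_zero, add_zero, one_pow, mul_one]
        linarith
      · simp only [hRp, if_neg h, if_neg h2, norm_zero, zero_mul]; linarith
  have hY : RSol l m ξ (fun t => (FS Rp t, FS Hp t)) := by
    refine RSol_of_seq fR fH (fun k => ?_) (fun k => ?_)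
    · by_cases h : 1 ≤ k
      · simp only [hRp, hHp, if_pos h]; exact hX.rec1 hper k
      · by_cases h2 : k = 0
        · simp only [hHp, h2]; simp
        · simp only [hRp, hHp, if_neg h, if_neg h2, mul_zero]
    · have hr := hX.rec2 hper k
      rcases lt_trichotomy k 0 with h | h | h
      · have a1 : ¬ 1 ≤ k := by omega
        have a2 : ¬ 1 ≤ k - 1 := by omega
        have a3 : ¬ 1 ≤ k + 1 := by omega
        simp only [hRp, hHp, if_neg a1, if_neg a2, if_neg a3, if_neg h.ne]
        ring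
      · subst h
        rw [hRp0]
        simp only [hHp, zero_sub, zero_add, Int.cast_zero]
        rw [if_neg (by omega), if_neg (by omega), if_pos le_rfl]
        field_simp
        ring
      · have a1 : 1 ≤ k := by omega
        have a3 : 1 ≤ k + 1 := by omega
        have a2 : Hp (k - 1) = cH X (k - 1) := by
          by_cases h2 : 1 ≤ k - 1
          · simp only [hHp, if_pos h2]
          · have : k - 1 = 0 := by omega
            rw [this, hH0]
            simp [hHp]
        rw [a2]
        simp only [hRp, hHp, if_pos a1, if_pos a3]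
        exact hr
  obtain ⟨c, hc⟩ := hone _ hY (by
    have e1 := FS_per Rp 0
    have e2 := FS_per Hp 0
    rw [zero_add] at e1 e2
    simp only [e1, e2])
  have hcH : ∀ k, Hp k = c * cH X k := by
    intro k
    have h1 := cf_FS fH.norm k
    have h2 : FS Hp = fun t => c * (X t).2 := by
      funext t
      have := hc t
      rw [Prod.ext_iff] at this
      exact this.2
    rw [h2, cf_cmul] at h1
    exact h1.symm
  have hcR : ∀ k, Rp k = c * cR X k := by
    intro k
    have h1 := cf_FS fR.norm k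
    have h2 : FS Rp = fun t => c * (X t).1 := by
      funext t
      have := hc t
      rw [Prod.ext_iff] at this
      exact this.1
    rw [h2, cf_cmul] at h1
    exact h1.symm
  by_cases hc0 : c = 0
  · have h1 := hcR k
    rw [hc0, zero_mul] at h1
    simpa only [hRp, if_pos hk] using h1
  · exfalso
    have nH : ∀ k : ℤ, k ≤ 0 → cH X k = 0 := by
      intro k hk
      have h1 := hcH k
      simp only [hHp, if_neg (show ¬ 1 ≤ k by omega)] at h1
      exact (mul_eq_zero.1 h1.symm).resolve_left hc0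
    have nR : ∀ k : ℤ, k < 0 → cR X k = 0 := by
      intro k hk
      have h1 := hcR k
      simp only [hRp, if_neg (show ¬ 1 ≤ k by omega), if_neg (show ¬ k = 0 by omega)] at h1
      exact (mul_eq_zero.1 h1.symm).resolve_left hc0
    have hm2 : X (-(2 * Real.pi)) = X 0 := by
      have := hp (-(2 * Real.pi))
      rw [neg_add_cancel] at this
      exact this.symm
    obtain ⟨lam, hlam⟩ := hone _ hX.sym (by
      simp only [EB_two_pi, EB_zero, hm2, neg_zero])
    -- the two representations
    set G : ℝ → ℂ := fun t => exp (m * exp (I * (-1 : ℤ) * t)) * (X (-t)).2 with hG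
    have hG2 : G = fun t : ℝ => lam * (exp (I * l * t) * (exp (m * exp (I * (1 : ℤ) * t)) * (X t).1)) := by
      funext t
      have h1 := hlam t
      rw [Prod.ext_iff] at h1
      have h2 : EB l m t * (X (-t)).2 = lam * (X t).1 := h1.1
      have h3 : EB l m t * (exp (I * l * t) * exp (m * exp (I * (1 : ℤ) * t))) =
          exp (m * exp (I * (-1 : ℤ) * t)) := by
        rw [EB, ← exp_add, ← exp_add]
        congr 1
        have h4 : ((Real.sin t : ℝ) : ℂ) = (exp (I * (-1:ℤ) * t) - exp (I * (1:ℤ) * t)) * I / 2 := by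
          rw [ofReal_sin, Complex.sin]
          congr 3
          · congr 1; push_cast; ring
          · congr 1; push_cast; ring
        rw [h4]
        ring_nf
        rw [I_sq]
        ring
      simp only [hG]
      rw [← h3]
      linear_combination (exp (I * l * t) * exp (m * exp (I * (1 : ℤ) * t))) * h2
    have hzero : ∀ k, cf G k = 0 := by
      intro k
      by_cases hk : 0 ≤ k
      · refine cf_exp_mul (g := fun t => (X (-t)).2) (by fun_prop) (-1) k fun n => ?_
        rw [cf_neg_arg (fun t => (X t).2)]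
        exact nH _ (by omega)
      · rw [hG2, cf_cmul, cf_shift]
        have : cf (fun t => exp (m * exp (I * (1 : ℤ) * t)) * (X t).1) (k - l) = 0 := by
          refine cf_exp_mul (g := fun t => (X t).1) (by fun_prop) 1 (k - l) fun n => ?_
          exact nR _ (by omega)
        rw [this, mul_zero]
    have hGz := zero_of_cf (G := G) (by
        rw [hG]; fun_prop) (fun t => by
        simp only [hG]
        congr 1
        · congr 2
          rw [exp_eq_exp_iff_exists_int]
          exact ⟨-1, by push_cast; ring⟩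
        · have := hp (-(t + 2 * Real.pi))
          rw [show -(t + 2 * Real.pi) + 2 * Real.pi = -t by ring] at this
          rw [this]) hzero
    have hη : ∀ t, (X t).2 = 0 := by
      intro t
      have h1 := hGz (-t)
      simp only [hG, neg_neg] at h1
      exact (mul_eq_zero.1 h1).resolve_left (exp_ne_zero _)
    exact h0 (hX.zero_of_snd hξ hη 0)

/-- The sign of the pairing. -/
theorem pairing_neg {l : ℤ} (hl : 1 ≤ l) {m ξ : ℂ} (hξ : ξ ≠ 0) {X : ℝ → ℂ × ℂ} (hX : RSol l m ξ X)
    (hper : X (2 * Real.pi) = X 0) (h0 : X 0 ≠ 0)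
    (hone : ∀ Y, RSol l m ξ Y → Y (2 * Real.pi) = Y 0 → ∃ c : ℂ, ∀ t, Y t = c • X t) :
    ∃ q : ℝ, q < 0 ∧ ∫ t in (-Real.pi)..Real.pi, conj (X t).1 * (X t).2 = (q : ℂ) := by
  have hXc := hX.cont
  have hp := hX.per hper
  have hsup := support hl hξ hX hper h0 hone
  obtain ⟨D, hD⟩ := hX.decay hper 3
  have hs : Summable fun k => ‖cR X k‖ := by
    refine (Fast.of_bound (D := D) fun k => ?_).norm
    refine le_trans ?_ (hD k)
    have := norm_nonneg (cH X k)
    gcongr
    linarith
  have hpair := pairing (f := fun t => (X t).1) (g := fun t => (X t).2) (by fun_prop)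
    (fun t => by rw [hp]) hs (by fun_prop)
  have hpi := Real.pi_pos
  have e1 : ∀ k : ℤ, conj (cf (fun t => (X t).1) k) * ((2 * Real.pi : ℝ) * cf (fun t => (X t).2) k) =
      ((2 * Real.pi * (k * normSq (cR X k)) : ℝ) : ℂ) := by
    intro k
    have h1 := hX.rec1 hper k
    simp only [cH, cR] at h1 ⊢
    rw [h1]
    push_cast
    rw [← mul_conj]
    ring
  simp_rw [e1] at hpair
  have hre := (Complex.hasSum_re hpair)
  have him := (Complex.hasSum_im hpair)
  simp only [ofReal_re, ofReal_im] at hre him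
  have him0 := him.unique hasSum_zero
  refine ⟨(∫ t in (-Real.pi)..Real.pi, conj (X t).1 * (X t).2).re, ?_, ?_⟩
  · obtain ⟨k, hk⟩ : ∃ k, cH X k ≠ 0 := by
      by_contra hcon
      push Not at hcon
      have hz := zero_of_cf (G := fun t => (X t).2) (by fun_prop) (fun t => by rw [hp]) hcon
      exact h0 (hX.zero_of_snd hξ hz 0)
    have hk1 := hX.rec1 hper k
    have hkR : cR X k ≠ 0 := fun h => hk (by rw [hk1, h, mul_zero])
    have hkn : k < 0 := by
      by_contra h
      push Not at h
      rcases h.eq_or_lt with h | h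
      · apply hk; rw [hk1, ← h]; simp
      · exact hkR (hsup k (by omega))
    refine hasSum_lt (i := k) (fun j => ?_) ?_ hre hasSum_zero
    · by_cases hj : 1 ≤ j
      · rw [hsup j hj]; simp
      · have h1 : (j:ℝ) ≤ 0 := by exact_mod_cast (by omega : j ≤ 0)
        have h2 := normSq_nonneg (cR X j)
        have h3 : (j:ℝ) * normSq (cR X j) ≤ 0 := mul_nonpos_of_nonpos_of_nonneg h1 h2
        nlinarith
    · have h1 : (k:ℝ) < 0 := by exact_mod_cast hkn
      have h2 : 0 < normSq (cR X k) := normSq_pos.2 hkR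
      have h3 : (k:ℝ) * normSq (cR X k) < 0 := mul_neg_of_neg_of_pos h1 h2
      nlinarith
  · apply Complex.ext
    · simp
    · rw [him0]; simp

end Pool.Agent.H249
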