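import Pool.Agent.H724.ST.Br

/-!
# Star problem: immortal pairs of the two kinds (`S_BR`), by helper249 for helper724
-/

set_option autoImplicit false

namespace Pool.Agent.H249.STBR

open Pool.Agent.H724.ST
open Pool.Agent.H724.DL (Pay RS DS Act act dn drun Imm Tiled lok)

section

variable {Γ W : Type} {R : RS Γ W} {D p : ℕ} {G : List ℕ} {T1 T2 : List Bool}
  {e : Pay Γ ≃ Fin p} {st : DS W ≃ Fin D} {n : ℕ}

/-- The runs of the two kinds of checkers correspond. -/
theorem run_eq (h0 : (st DS.idle).val = 0)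
    (hd : ∀ (d : DS W) (i : Fin (n + 2)) (P P' : Pay Γ),
      (dn R n (some (d, i)) P P' = none →
        (CT D p G T1 T2 n).dl (1 + (st d).val * (n + 2) + i.val) (e P).val (e P').val = 0) ∧
      ∀ d' i', dn R n (some (d, i)) P P' = some (d', i') →
        (CT D p G T1 T2 n).dl (1 + (st d).val * (n + 2) + i.val) (e P).val (e P').val =
          1 + (st d').val * (n + 2) + i'.val)
    (X Y : ℕ → Pay Γ) (i j : ℕ) : ∀ t,
      (drun R n X Y i j t = none →
        run (CT D p G T1 T2 n) (fun a => (e (X a)).val) (fun a => (e (Y a)).val) i j t = 0) ∧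
      ∀ d c, drun R n X Y i j t = some (d, c) →
        run (CT D p G T1 T2 n) (fun a => (e (X a)).val) (fun a => (e (Y a)).val) i j t =
          1 + (st d).val * (n + 2) + c.val := by
  intro t
  induction t with
  | zero =>
    refine ⟨fun h => ?_, fun d c h => ?_⟩
    · have h1 : (some (DS.idle, 0) : Option (DS W × Fin (n + 2))) = none := h
      cases h1
    · have h1 : (some (DS.idle, 0) : Option (DS W × Fin (n + 2))) = some (d, c) := h
      have h2 := Option.some.inj h1
      have h3 : DS.idle = d := congrArg Prod.fst h2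
      have h4 : (0 : Fin (n + 2)) = c := congrArg Prod.snd h2
      rw [← h3, ← h4, h0]
      simp [run]
  | succ t ih =>
    have e1 : drun R n X Y i j (t + 1) = dn R n (drun R n X Y i j t) (X (i + t)) (Y (j + t)) := rfl
    have e2 : run (CT D p G T1 T2 n) (fun a => (e (X a)).val) (fun a => (e (Y a)).val) i j (t + 1) =
      if run (CT D p G T1 T2 n) (fun a => (e (X a)).val) (fun a => (e (Y a)).val) i j t = 0 then 0
      else (CT D p G T1 T2 n).dl
        (run (CT D p G T1 T2 n) (fun a => (e (X a)).val) (fun a => (e (Y a)).val) i j t)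
        (e (X (i + t))).val (e (Y (j + t))).val := rfl
    rw [e1, e2]
    rcases hr : drun R n X Y i j t with _ | ⟨d, c⟩
    · rw [if_pos (ih.1 hr)]
      refine ⟨fun _ => rfl, fun d' c' h => ?_⟩
      have h1 : (none : Option (DS W × Fin (n + 2))) = some (d', c') := h
      cases h1
    · have h1 := ih.2 d c hr
      rw [h1, if_neg (by omega)]
      exact hd d c _ _

end

theorem br (h1 : S_TAB) : S_BR := by
  intro Γ W _ _ _ R
  obtain ⟨D, p, G, T1, T2, e, st, h0, hall⟩ := h1 Γ W R
  refine ⟨D, p, G, T1, T2, fun n => ?_⟩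
  obtain ⟨hwf, hl1, hl2, hd⟩ := hall n
  refine ⟨hwf, ?_, ?_⟩
  · rintro ⟨X, Y, hI⟩
    refine ⟨fun a => (e (X a)).val, fun a => (e (Y a)).val, ?_, ?_, ?_⟩
    · intro m
      exact ⟨fun i _ => ⟨(e (X i)).isLt, (hl1 _).2 (hI.lx i)⟩, fun i _ => (hl2 _ _).2 (hI.phx i)⟩
    · intro m
      exact ⟨fun i _ => ⟨(e (Y i)).isLt, (hl1 _).2 (hI.ly i)⟩, fun i _ => (hl2 _ _).2 (hI.phy i)⟩
    · intro i j t
      rcases hr : drun R n X Y i j t with _ | ⟨d, c⟩
      · exact absurd hr (hI.nf i j t)
      · rw [(run_eq h0 hd X Y i j t).2 d c hr]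
        omega
  · intro x y hI
    have hx : ∀ i, x i < p := fun i => ((hI.cx (i + 1)).1 i (Nat.lt_succ_self i)).1
    have hy : ∀ i, y i < p := fun i => ((hI.cy (i + 1)).1 i (Nat.lt_succ_self i)).1
    have hx1 : ∀ i, (CT D p G T1 T2 n).l1 (x i) = true := fun i =>
      ((hI.cx (i + 1)).1 i (Nat.lt_succ_self i)).2
    have hy1 : ∀ i, (CT D p G T1 T2 n).l1 (y i) = true := fun i =>
      ((hI.cy (i + 1)).1 i (Nat.lt_succ_self i)).2
    have hx2 : ∀ i, (CT D p G T1 T2 n).l2 (x i) (x (i + 1)) = true := fun i =>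
      (hI.cx (i + 2)).2 i (Nat.lt_succ_self _)
    have hy2 : ∀ i, (CT D p G T1 T2 n).l2 (y i) (y (i + 1)) = true := fun i =>
      (hI.cy (i + 2)).2 i (Nat.lt_succ_self _)
    have hex : (fun a => (e (e.symm ⟨x a, hx a⟩)).val) = x := by
      funext a
      rw [Equiv.apply_symm_apply]
    have hey : (fun a => (e (e.symm ⟨y a, hy a⟩)).val) = y := by
      funext a
      rw [Equiv.apply_symm_apply]
    have hex' : ∀ a, (e (e.symm ⟨x a, hx a⟩)).val = x a := fun a => congrFun hex a
    have hey' : ∀ a, (e (e.symm ⟨y a, hy a⟩)).val = y a := fun a => congrFun hey a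
    refine ⟨fun a => e.symm ⟨x a, hx a⟩, fun a => e.symm ⟨y a, hy a⟩, ⟨?_, ?_, ?_, ?_, ?_⟩, ?_⟩
    · intro i
      apply (hl2 _ _).1
      rw [hex' i, hex' (i + 1)]
      exact hx2 i
    · intro i
      apply (hl2 _ _).1
      rw [hey' i, hey' (i + 1)]
      exact hy2 i
    · intro i
      apply (hl1 _).1
      rw [hex' i]
      exact hx1 i
    · intro i
      apply (hl1 _).1
      rw [hey' i]
      exact hy1 i
    · intro i j t hn
      have h2 := (run_eq h0 hd (fun a => e.symm ⟨x a, hx a⟩) (fun a => e.symm ⟨y a, hy a⟩) i j t).1 hn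
      rw [hex, hey] at h2
      exact hI.nf i j t h2
    · intro i j hij
      have : (⟨x i, hx i⟩ : Fin p) = ⟨x j, hx j⟩ := Fin.ext hij
      show e.symm ⟨x i, hx i⟩ = e.symm ⟨x j, hx j⟩
      rw [this]

end Pool.Agent.H249.STBR
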