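import Pool.Agent.H770.GS.TF

/-! # Project TF (helper770): conclusion -/

set_option autoImplicit false

open MeasureTheory Set intervalIntegral Filter Topology

namespace Pool.Agent.H249.TF20

open Pool.Agent.H770.GS

/-- the final comparison -/
theorem aux {F Z E M T K I c : ℝ} (hF : 0 ≤ F) (hZ : 0 < Z) (hc : 0 ≤ c)
    (h1 : F * E * M - c * T ≤ Z * I) (h2 : T ≤ F * K) (h3 : c * K ≤ E * M) : 0 ≤ I := by
  have h4 : c * T ≤ c * (F * K) := mul_le_mul_of_nonneg_left h2 hc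
  have h5 : F * (c * K) ≤ F * (E * M) := mul_le_mul_of_nonneg_left h3 hF
  have h6 : 0 ≤ Z * I := by
    have e1 : F * (E * M) = F * E * M := by ring
    have e2 : F * (c * K) = c * (F * K) := by ring
    linarith
  exact nonneg_of_mul_nonneg_right h6 hZ

theorem t_TF20 : S_TF20 := by
  intro h11 h12 h13 h2 h3 h5 h6 h7 h8 h9 h10 h14 h15 h16 h17 h18 h19 ε b k hε1 hε2 hb hb3 hk hkb
  have hε : 0 < ε := by linarith
  have hz : 0 < zt ε := (h2 ε hε).1
  set κ := 2 * ε / zt ε * 0.052 with hκ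
  have hκ0 : 0 ≤ κ := by positivity
  have hZ : 0 < zt ε / (2 * ε) := by positivity
  have hb1 : b ≤ 1 := by nlinarith
  have hcf : 0 ≤ cf ε (b * Real.pi) := by
    have hpi := Real.pi_pos
    have hx0 : 0 ≤ b * Real.pi := by positivity
    have hx1 : b * Real.pi ≤ Real.pi := by nlinarith
    refine le_trans ?_ ((h6 h2 ε hε).1 _ hx0 hx1)
    rw [Real.sinc_of_ne_zero (by positivity)]
    exact div_nonneg (Real.sin_nonneg_of_nonneg_of_le_pi hx0 hx1) hx0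
  have hF : 0 ≤ cf ε (b * Real.pi) ^ k := pow_nonneg hcf k
  have hrat : ∀ x, 0 ≤ x → x ≤ 12 / 5 → cf ε x ≤ Real.sinc x * (1 + κ * x ^ 2) :=
    fun x hx1 hx2 => h12 h2 ε x hε hx1 hx2
  have hmain := fun (s : ℝ) (hs1 : 1 ≤ s) (hs2 : s ≤ k * b ^ 2)
    (hs3 : 0 < s * vv ε / 2 - κ * b ^ 2) =>
    h11 h2 h3 h5 h6 h7 h8 h9 h10 ε b s κ k hε hb hb3 hk hs1 hs2 hκ0 hrat hs3
  obtain ⟨t1, t2⟩ := h13 h2 h3 h6 h12 ε b k hε hε2 hb hb3 hk hkb
  rcases le_total b (1 / 2) with hb2 | hb2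
  · obtain ⟨g1, g2⟩ := h18 h14 h15 h2 h16 h17 ε b hε1 hε2 hb hb2
    have g3 := hmain 1 le_rfl hkb (by rw [one_mul]; exact g1)
    have g4 := t1 hb2
    refine aux (c := 1.07) hF hZ (by norm_num) ?_ g4 g2
    refine le_trans (le_of_eq ?_) g3
    ring
  · obtain ⟨g1, g2⟩ := h19 h14 h15 h2 h16 h17 ε b hε1 hε2 hb2 hb3
    have g3 := hmain (4 * b ^ 2) (by nlinarith) (by
      have : (4 : ℝ) ≤ k := by exact_mod_cast hk
      nlinarith [sq_nonneg b]) g1
    have g4 := t2 hb2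
    refine aux (c := 1.07) hF hZ (by norm_num) ?_ g4 g2
    refine le_trans (le_of_eq ?_) g3
    ring

end Pool.Agent.H249.TF20
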