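import Pool.Agent.H316.TF.Lem

/-!
# Project TF (for helper316): Fox derivatives through the Magnus group (helper249)
-/

set_option autoImplicit false

namespace Pool.Agent.H316.TF

open Finsupp

namespace FoxAux

/-- right translation by `c` -/
noncomputable def sr {I B : Type} [Group B] (c : B) :
    ((I × B) →₀ ℤ) →+ ((I × B) →₀ ℤ) :=
  Finsupp.mapDomain.addMonoidHom fun s : I × B => (s.1, s.2 * c)

theorem sr_apply {I B : Type} [Group B] (c : B) (v : (I × B) →₀ ℤ) :
    sr c v = Finsupp.mapDomain (fun s : I × B => (s.1, s.2 * c)) v := rfl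

theorem sr_mul {I B : Type} [Group B] (c d : B) (v : (I × B) →₀ ℤ) :
    sr (c * d) v = sr d (sr c v) := by
  rw [sr_apply, sr_apply, sr_apply, ← Finsupp.mapDomain_comp]
  have h : (fun s : I × B => (s.1, s.2 * (c * d))) =
      (fun s : I × B => (s.1, s.2 * d)) ∘ fun s : I × B => (s.1, s.2 * c) := by
    funext s
    exact Prod.ext rfl (mul_assoc _ _ _).symm
  rw [h]

theorem sr_one {I B : Type} [Group B] (v : (I × B) →₀ ℤ) : sr (1 : B) v = v := by
  rw [sr_apply]
  have h : (fun s : I × B => (s.1, s.2 * (1 : B))) = id := by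
    funext s
    exact Prod.ext rfl (mul_one _)
  rw [h, Finsupp.mapDomain_id]

/-- the Magnus group -/
structure Mag (I B : Type) where
  b : B
  v : (I × B) →₀ ℤ

theorem Mag.ext' {I B : Type} {m m' : Mag I B} (h : m.b = m'.b) (h' : m.v = m'.v) : m = m' := by
  obtain ⟨b, v⟩ := m
  obtain ⟨b', v'⟩ := m'
  change b = b' at h
  change v = v' at h'
  rw [h, h']

section mag

variable {I B : Type} [Group B]

noncomputable instance : Mul (Mag I B) := ⟨fun m m' => ⟨m.b * m'.b, sr m'.b m.v + m'.v⟩⟩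

noncomputable instance : One (Mag I B) := ⟨⟨1, 0⟩⟩

noncomputable instance : Inv (Mag I B) := ⟨fun m => ⟨m.b⁻¹, - sr m.b⁻¹ m.v⟩⟩

theorem mul_b (m m' : Mag I B) : (m * m').b = m.b * m'.b := rfl

theorem mul_v (m m' : Mag I B) : (m * m').v = sr m'.b m.v + m'.v := rfl

theorem one_b : (1 : Mag I B).b = 1 := rfl

theorem one_v : (1 : Mag I B).v = 0 := rfl

theorem inv_b (m : Mag I B) : (m⁻¹).b = m.b⁻¹ := rfl

theorem inv_v (m : Mag I B) : (m⁻¹).v = - sr m.b⁻¹ m.v := rfl

noncomputable instance : Group (Mag I B) :=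
  Group.ofLeftAxioms
    (fun m m' m'' => Mag.ext' (mul_assoc _ _ _) (by
      rw [mul_v, mul_v, mul_v, mul_v, mul_b, map_add, sr_mul, add_assoc]))
    (fun m => Mag.ext' (one_mul _) (by rw [mul_v, one_v, map_zero, zero_add]))
    (fun m => Mag.ext' (inv_mul_cancel _) (by
      rw [mul_v, inv_v, map_neg, ← sr_mul, inv_mul_cancel, sr_one, neg_add_cancel, one_v]))

/-- the projection to `B` -/
noncomputable def bh : Mag I B →* B where
  toFun m := m.b
  map_one' := rfl
  map_mul' _ _ := rfl

theorem bh_apply (m : Mag I B) : bh m = m.b := rfl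

/-- the fundamental operator -/
noncomputable def fd (x : I → B) : ((I × B) →₀ ℤ) →+ (B →₀ ℤ) :=
  (Finsupp.mapDomain.addMonoidHom fun s : I × B => x s.1 * s.2) -
    Finsupp.mapDomain.addMonoidHom fun s : I × B => s.2

theorem fd_apply (x : I → B) (v : (I × B) →₀ ℤ) : fd x v =
    Finsupp.mapDomain (fun s : I × B => x s.1 * s.2) v -
      Finsupp.mapDomain (fun s : I × B => s.2) v := rfl

theorem fd_single (x : I → B) (i : I) (b : B) :
    fd x (Finsupp.single (i, b) 1) = Finsupp.single (x i * b) 1 - Finsupp.single b 1 := by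
  rw [fd_apply, Finsupp.mapDomain_single, Finsupp.mapDomain_single]

theorem fd_sr (x : I → B) (c : B) (v : (I × B) →₀ ℤ) :
    fd x (sr c v) = Finsupp.mapDomain.addMonoidHom (fun b : B => b * c) (fd x v) := by
  rw [fd_apply, fd_apply, map_sub]
  change Finsupp.mapDomain (fun s : I × B => x s.1 * s.2) (Finsupp.mapDomain
      (fun s : I × B => (s.1, s.2 * c)) v) - Finsupp.mapDomain (fun s : I × B => s.2)
        (Finsupp.mapDomain (fun s : I × B => (s.1, s.2 * c)) v) =
    Finsupp.mapDomain (fun b : B => b * c) (Finsupp.mapDomain (fun s : I × B => x s.1 * s.2) v) -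
      Finsupp.mapDomain (fun b : B => b * c) (Finsupp.mapDomain (fun s : I × B => s.2) v)
  rw [← Finsupp.mapDomain_comp, ← Finsupp.mapDomain_comp, ← Finsupp.mapDomain_comp,
    ← Finsupp.mapDomain_comp]
  have h : (fun s : I × B => x s.1 * s.2) ∘ (fun s : I × B => (s.1, s.2 * c)) =
      (fun b : B => b * c) ∘ fun s : I × B => x s.1 * s.2 := by
    funext s
    exact (mul_assoc _ _ _).symm
  rw [h]
  rfl

/-- the elements which satisfy the fundamental identity -/
noncomputable def K (x : I → B) : Subgroup (Mag I B) where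
  carrier := {m | fd x m.v = Finsupp.single m.b 1 - Finsupp.single 1 1}
  mul_mem' {m m'} h h' := by
    change fd x m.v = _ at h
    change fd x m'.v = _ at h'
    change fd x (m * m').v = Finsupp.single (m * m').b 1 - Finsupp.single 1 1
    rw [mul_v, map_add, fd_sr, h, h', map_sub]
    change Finsupp.mapDomain (fun b : B => b * m'.b) (Finsupp.single m.b 1) -
      Finsupp.mapDomain (fun b : B => b * m'.b) (Finsupp.single 1 1) + _ = _
    rw [Finsupp.mapDomain_single, Finsupp.mapDomain_single, mul_b, one_mul]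
    abel
  one_mem' := by
    change fd x (1 : Mag I B).v = Finsupp.single (1 : Mag I B).b 1 - Finsupp.single 1 1
    rw [one_v, one_b, map_zero, sub_self]
  inv_mem' {m} h := by
    change fd x m.v = _ at h
    change fd x (m⁻¹).v = Finsupp.single (m⁻¹).b 1 - Finsupp.single 1 1
    rw [inv_v, map_neg, fd_sr, h, map_sub]
    change -(Finsupp.mapDomain (fun b : B => b * m.b⁻¹) (Finsupp.single m.b 1) -
      Finsupp.mapDomain (fun b : B => b * m.b⁻¹) (Finsupp.single 1 1)) = _
    rw [Finsupp.mapDomain_single, Finsupp.mapDomain_single, inv_b, one_mul, mul_inv_cancel]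
    abel

theorem mem_K (x : I → B) (m : Mag I B) :
    m ∈ K x ↔ fd x m.v = Finsupp.single m.b 1 - Finsupp.single 1 1 := Iff.rfl

theorem gen_mem (x : I → B) (i : I) : (⟨x i, Finsupp.single (i, 1) 1⟩ : Mag I B) ∈ K x := by
  rw [mem_K]
  change fd x (Finsupp.single (i, 1) 1) = Finsupp.single (x i) 1 - Finsupp.single 1 1
  rw [fd_single, mul_one]

/-- the second component of a homomorphism over `π` -/
theorem fox_of {Γ : Type} [Group Γ] (π : Γ →* B) (y : I → Γ) (Ψ : Γ →* Mag I B)
    (hb : ∀ g, (Ψ g).b = π g) (hK : ∀ g, Ψ g ∈ K fun i => π (y i))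
    (hy : ∀ i, (Ψ (y i)).v = Finsupp.single (i, 1) 1) : Fox π y fun g => (Ψ g).v where
  crossed g h := by
    change (Ψ (g * h)).v = Finsupp.mapDomain (fun s : I × B => (s.1, s.2 * π h)) (Ψ g).v + (Ψ h).v
    rw [map_mul, mul_v, hb h, sr_apply]
  fund g := by
    have h := (mem_K _ _).1 (hK g)
    rw [hb g, fd_apply] at h
    exact h
  gen := hy

theorem comm_of_one (m m' : Mag I B) (h : m.b = 1) (h' : m'.b = 1) : m * m' = m' * m := by
  refine Mag.ext' ?_ ?_
  · rw [mul_b, mul_b, h, h']
  · rw [mul_v, mul_v, h, h', sr_one, sr_one, add_comm]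

end mag

end FoxAux

open FoxAux

theorem t_foxZ : S_foxZ := by
  intro G _ π t ht
  let T : Mag Unit (Multiplicative ℤ) := ⟨Multiplicative.ofAdd 1, Finsupp.single ((), 1) 1⟩
  let Ψ : Multiplicative ℤ →* Mag Unit (Multiplicative ℤ) := zpowersHom _ T
  have hT : Ψ (Multiplicative.ofAdd 1) = T := by
    change T ^ (Multiplicative.toAdd (Multiplicative.ofAdd (1 : ℤ))) = T
    rw [toAdd_ofAdd, zpow_one]
  have hid : (bh : Mag Unit (Multiplicative ℤ) →* _).comp Ψ = MonoidHom.id _ := by
    apply MonoidHom.ext_mint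
    change bh (Ψ (Multiplicative.ofAdd 1)) = Multiplicative.ofAdd 1
    rw [hT]
    rfl
  have hb : ∀ a, (Ψ a).b = a := fun a => DFunLike.congr_fun hid a
  have hx : (fun i : Unit => π ((fun _ : Unit => t) i)) = fun _ => Multiplicative.ofAdd 1 :=
    funext fun _ => ht
  have hK : ∀ a, Ψ a ∈ K fun _ : Unit => (Multiplicative.ofAdd 1 : Multiplicative ℤ) := by
    intro a
    have h1 : T ∈ K fun _ : Unit => (Multiplicative.ofAdd 1 : Multiplicative ℤ) :=
      gen_mem _ ()
    exact Subgroup.zpow_mem _ h1 _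
  refine ⟨fun g => ((Ψ.comp π) g).v, fox_of π (fun _ : Unit => t) (Ψ.comp π) ?_ ?_ ?_⟩
  · intro g
    exact hb (π g)
  · intro g
    rw [hx]
    exact hK (π g)
  · intro i
    change (Ψ (π t)).v = _
    rw [ht, hT]

theorem t_fox : S_fox := by
  intro I R _
  let Φ₀ : FreeGroup I →* Mag I (FreeGroup I ⧸ R) :=
    FreeGroup.lift fun i => ⟨QuotientGroup.mk' R (FreeGroup.of i), Finsupp.single (i, 1) 1⟩
  have hof : ∀ i, Φ₀ (FreeGroup.of i) =
      ⟨QuotientGroup.mk' R (FreeGroup.of i), Finsupp.single (i, 1) 1⟩ := fun i =>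
    FreeGroup.lift_apply_of
  have hcomp : (bh : Mag I (FreeGroup I ⧸ R) →* _).comp Φ₀ = QuotientGroup.mk' R := by
    apply FreeGroup.ext_hom
    intro i
    change bh (Φ₀ (FreeGroup.of i)) = _
    rw [hof]
    rfl
  have hb0 : ∀ g, (Φ₀ g).b = QuotientGroup.mk' R g := fun g => DFunLike.congr_fun hcomp g
  have hker : ∀ g ∈ ⁅R, R⁆, Φ₀ g = 1 := by
    have h : ⁅R, R⁆ ≤ Φ₀.ker := by
      rw [Subgroup.commutator_le]
      intro g hg h hh
      rw [MonoidHom.mem_ker, map_commutatorElement, commutatorElement_eq_one_iff_mul_comm]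
      refine comm_of_one _ _ ?_ ?_
      · rw [hb0]
        exact (QuotientGroup.eq_one_iff g).2 hg
      · rw [hb0]
        exact (QuotientGroup.eq_one_iff h).2 hh
    exact fun g hg => h hg
  have hK0 : ∀ g, Φ₀ g ∈ K fun i => QuotientGroup.mk' R (FreeGroup.of i) := by
    have h : Subgroup.closure (Set.range (FreeGroup.of : I → FreeGroup I)) ≤
        (K fun i => QuotientGroup.mk' R (FreeGroup.of i)).comap Φ₀ := by
      rw [Subgroup.closure_le]
      rintro _ ⟨i, rfl⟩
      change Φ₀ (FreeGroup.of i) ∈ K fun i => QuotientGroup.mk' R (FreeGroup.of i)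
      rw [hof]
      exact gen_mem (fun i => QuotientGroup.mk' R (FreeGroup.of i)) i
    intro g
    have hg : g ∈ Subgroup.closure (Set.range (FreeGroup.of : I → FreeGroup I)) := by
      rw [FreeGroup.closure_range_of]
      exact Subgroup.mem_top g
    exact h hg
  refine ⟨fun g => ((QuotientGroup.lift ⁅R, R⁆ Φ₀ hker) g).v,
    fox_of (pr R) (fun i => ((FreeGroup.of i : FreeGroup I) : FreeGroup I ⧸ ⁅R, R⁆))
      (QuotientGroup.lift ⁅R, R⁆ Φ₀ hker) ?_ ?_ ?_⟩
  · intro g
    induction g using QuotientGroup.induction_on with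
    | H g => exact hb0 g
  · intro g
    induction g using QuotientGroup.induction_on with
    | H g => exact hK0 g
  · intro i
    change (Φ₀ (FreeGroup.of i)).v = _
    rw [hof]

end Pool.Agent.H316.TF
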