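import Pool.Agent.H770.GS.TB

/-!
Task TH2 (project TH, helper770): the value at `(1, 1, 0, …, 0) / √2` (helper249).
-/

set_option autoImplicit false

open MeasureTheory Set intervalIntegral Filter Topology

namespace Pool.Agent.H249.TH2

open Pool.Agent.H770.GS
open Pool.Agent.Helper82.GC

theorem cv_const (r b c v : ℝ) : cv r b (fun _ => c) v = c * Zr r := by
  unfold cv Zr W
  rw [intervalIntegral.integral_mul_const, mul_comm]

theorem dens_const (r b c : ℝ) : ∀ k : ℕ,
    dens r (List.replicate k b) (fun _ => c) = fun _ => c * Zr r ^ k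
  | 0 => by
    rw [List.replicate_zero, dens_nil, pow_zero, mul_one]
  | k + 1 => by
    rw [List.replicate_succ, dens_cons, dens_const r b c k]
    funext v
    rw [cv_const, pow_succ, mul_assoc]

theorem sqrt_two_I2 (r : ℝ) : Real.sqrt 2 * I2 r = Zr (Real.sqrt 2 * r) := by
  unfold I2 Zr
  have h := intervalIntegral.mul_integral_comp_mul_left (a := -r) (b := r)
    (f := fun x : ℝ => Real.exp (-x ^ 2 / 2)) (Real.sqrt 2)
  have e : ∀ p : ℝ, Real.exp (-(Real.sqrt 2 * p) ^ 2 / 2) = Real.exp (-p ^ 2) := by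
    intro p
    congr 1
    rw [mul_pow, Real.sq_sqrt (by norm_num)]
    ring
  simp only [e] at h
  rw [h, mul_neg]

theorem pt_zero {r : ℝ} (hr : 0 < r) : pt r 0 = I2 r := by
  have h0 : 0 ≤ I2 r := by
    unfold I2
    exact intervalIntegral.integral_nonneg (by linarith) fun x _ => (Real.exp_pos _).le
  have h1 : fL r |(0 : ℝ)| = I2 r := by
    unfold fL
    rw [abs_zero]
    norm_num
  unfold pt
  rw [h1]
  exact max_eq_left h0

theorem th2 : ∀ (r : ℝ) (k : ℕ), 0 < r →
    FF r k 0 = Zr (Real.sqrt 2 * r) * Zr r ^ k := by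
  intro r k hr
  unfold FF
  have e : (fun z : ℝ => pt r (Real.sqrt 0 * z)) = fun _ => I2 r := by
    funext z
    rw [Real.sqrt_zero, zero_mul, pt_zero hr]
  rw [e, dens_const, add_zero, ← mul_assoc, sqrt_two_I2]

end Pool.Agent.H249.TH2
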