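import Mathlib
import Pool.Agent.H812.Tm.Spec2
import Pool.Graph.R_seed8.W216.Stu.Hyp

/-!
# The slope field is `C¹` (part `SField` of the project of helper812)
-/

set_option autoImplicit false

open Real Filter Topology
open scoped ContDiff

namespace Pool.Agent.H249.TmSField

open Pool.Agent.W811.Stu Pool.Agent.H812.Tm

/-! ### preliminaries -/

theorem isOpen_U : IsOpen U := isOpen_lt continuous_fst.abs continuous_const

theorem onS_ze (δ : ℝ) {v : ℝ × ℝ} (hv : v ∈ U) : OnS δ (ze δ v) := by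
  have h1 : v.1 ^ 2 < 1 := (sq_lt_one_iff_abs_lt_one v.1).2 hv
  have h2 : Bf δ v.1 ^ 2 * (1 - v.1 ^ 2) = 1 + δ ^ 2 - v.1 ^ 2 := by
    unfold Bf
    rw [Real.sq_sqrt (div_nonneg (by nlinarith [sq_nonneg δ]) (by linarith))]
    exact div_mul_cancel₀ _ (by linarith)
  have h3 : √(1 - v.1 ^ 2) ^ 2 = 1 - v.1 ^ 2 := Real.sq_sqrt (by linarith)
  have h4 := Real.sin_sq_add_cos_sq v.2
  unfold OnS ze
  simp only
  linear_combination (Bf δ v.1) ^ 2 * (sin v.2) ^ 2 * h3 +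
    (Bf δ v.1) ^ 2 * (1 - v.1 ^ 2) * h4 + h2

theorem dt_ne (hDt : SDt) {δ : ℝ} (hδ : δ ≠ 0) {d : ℕ → ℕ} (hd : ∀ k, 1 ≤ d k) {m : ℕ}
    (hm : 2 ≤ m) {v : ℝ × ℝ} (hv : v ∈ U) (hy : |Yf δ d m v| < cc δ) :
    dt (Yf δ d m) v ≠ 0 := by
  have h1 : v.1 ^ 2 < 1 := (sq_lt_one_iff_abs_lt_one v.1).2 hv
  have h2 : (orb d (ze δ v) m).y ^ 2 < 1 + δ ^ 2 := by
    rw [← cc_sq]
    exact sq_lt_sq' (abs_lt.1 hy).1 (abs_lt.1 hy).2
  have h3 := (cmpY hδ zero_le_one (by have := sq_pos_of_ne_zero hδ; linarith) hd hm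
    (onS_ze δ hv) (show (ze δ v).z ^ 2 ≤ 1 from h1.le) h2).2.2
  rw [(hDt δ d m).2.2 v hv]
  exact div_ne_zero (neg_ne_zero.2 h3) (Real.sqrt_pos.2 (by linarith)).ne'

theorem cd_fd {f : ℝ × ℝ → ℝ} (hf : ContDiffOn ℝ ∞ f U) (u : ℝ × ℝ) :
    ContDiffOn ℝ 1 (fun v => fderiv ℝ f v u) U := by
  have h1 : ContDiffOn ℝ 1 (fderiv ℝ f) U :=
    hf.fderiv_of_isOpen isOpen_U (by
      have h2 : ((2 : ℕ∞) : WithTop ℕ∞) ≤ ((⊤ : ℕ∞) : WithTop ℕ∞) := WithTop.coe_le_coe.2 le_top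
      rw [one_add_one_eq_two]
      exact h2)
  exact h1.clm_apply contDiffOn_const

theorem cd_sl {f : ℝ × ℝ → ℝ} (hf : ContDiffOn ℝ ∞ f U) {v : ℝ × ℝ} (hv : v ∈ U)
    (h : dt f v ≠ 0) : ContDiffAt ℝ 1 (sl f) v := by
  have hU := isOpen_U.mem_nhds hv
  exact ((cd_fd hf (1, 0)).contDiffAt hU).neg.div ((cd_fd hf (0, 1)).contDiffAt hU) h

theorem cd_prod (hDt : SDt) {δ κ : ℝ} (hδ : δ ≠ 0) (hκ : κ < cc δ) {θ : ℝ → ℝ}
    (hθ : Cut κ θ) {d : ℕ → ℕ} (hd : ∀ k, 1 ≤ d k) {m : ℕ} (hm : 2 ≤ m) :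
    ContDiffOn ℝ 1 (fun v => θ (Yf δ d m v) * sl (Yf δ d m) v) U := by
  intro v hv
  apply ContDiffAt.contDiffWithinAt
  have hY := (hDt δ d m).1
  have hYa : ContDiffAt ℝ 1 (Yf δ d m) v :=
    (hY.contDiffAt (isOpen_U.mem_nhds hv)).of_le (by exact_mod_cast le_top)
  rcases lt_or_ge |Yf δ d m v| (cc δ) with h | h
  · have h1 := cd_sl hY hv (dt_ne hDt hδ hd hm hv h)
    have h2 : ContDiffAt ℝ 1 θ (Yf δ d m v) :=
      hθ.smooth.contDiffAt.of_le (by exact_mod_cast le_top)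
    exact (h2.comp v hYa).mul h1
  · have h1 : ∀ᶠ w in 𝓝 v, κ < |Yf δ d m w| :=
      hYa.continuousAt.abs.eventually_const_lt (lt_of_lt_of_le hκ h)
    refine (contDiffAt_const (c := (0 : ℝ))).congr_of_eventuallyEq ?_
    filter_upwards [h1] with w hw
    rw [hθ.zero _ hw.le, zero_mul]

theorem cd_cut (hDt : SDt) {δ κ : ℝ} {θ : ℝ → ℝ} (hθ : Cut κ θ) (d : ℕ → ℕ) (m : ℕ) :
    ContDiffOn ℝ 1 (fun v => θ (Yf δ d m v)) U :=
  (hθ.smooth.of_le (by exact_mod_cast le_top)).comp_contDiffOn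
    ((hDt δ d m).1.of_le (by exact_mod_cast le_top))

/-! ### periodicity -/

theorem fd_per {f : ℝ × ℝ → ℝ} (h : ∀ z ϑ, f (z, ϑ + 2 * π) = f (z, ϑ)) (z ϑ : ℝ) :
    fderiv ℝ f (z, ϑ + 2 * π) = fderiv ℝ f (z, ϑ) := by
  have h1 : (fun x : ℝ × ℝ => f (x + (0, 2 * π))) = f := by
    funext x
    obtain ⟨x1, x2⟩ := x
    have e : ((x1, x2) : ℝ × ℝ) + (0, 2 * π) = (x1, x2 + 2 * π) := by
      rw [Prod.mk_add_mk, add_zero]
    rw [e]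
    exact h x1 x2
  have h2 := fderiv_comp_add_right (𝕜 := ℝ) (f := f) (x := (z, ϑ)) (0, 2 * π)
  rw [h1] at h2
  rw [h2, Prod.mk_add_mk, add_zero]

theorem sl_per {f : ℝ × ℝ → ℝ} (h : ∀ z ϑ, f (z, ϑ + 2 * π) = f (z, ϑ)) (z ϑ : ℝ) :
    sl f (z, ϑ + 2 * π) = sl f (z, ϑ) := by
  unfold sl dz dt
  rw [fd_per h]

theorem T_per (hDt : SDt) (δ : ℝ) (d : ℕ → ℕ) (j k : ℕ) (z ϑ : ℝ) :
    Tf δ d j k (z, ϑ + 2 * π) = Tf δ d j k (z, ϑ) := by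
  rw [Tf_eq]
  exact (hDt δ _ (j + 1)).2.1 z ϑ

theorem H_per (hDt : SDt) (θ : ℝ → ℝ) (δ : ℝ) (d : ℕ → ℕ) (j : ℕ) (z ϑ : ℝ) :
    Hf θ δ d j (z, ϑ + 2 * π) = Hf θ δ d j (z, ϑ) := by
  unfold Hf
  rw [(hDt δ d j).2.1 z ϑ, (hDt δ d (j + 1)).2.1 z ϑ, sl_per (hDt δ d j).2.1,
    sl_per (hDt δ d (j + 1)).2.1]
  congr 2
  refine Finset.sum_congr rfl fun k _ => ?_
  rw [T_per hDt, T_per hDt, sl_per (T_per hDt δ d j k), sl_per (T_per hDt δ d j (k + 1))]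

theorem sg_per (hDt : SDt) (θ : ℝ → ℝ) (δ : ℝ) (d : ℕ → ℕ) (z ϑ : ℝ) :
    sg θ δ d (z, ϑ + 2 * π) = sg θ δ d (z, ϑ) := by
  unfold sg
  rw [(hDt δ d 3).2.1 z ϑ, (hDt δ d 2).2.1 z ϑ, sl_per (hDt δ d 3).2.1, sl_per (hDt δ d 2).2.1]
  congr 1
  exact tsum_congr fun j => H_per hDt θ δ d (j + 3) z ϑ

/-! ### sums -/

theorem half_le (n : ℕ) : ((1 : ℝ) / 2) ^ (n / 2) ≤ 2 * ((3 : ℝ) / 4) ^ n := by
  obtain ⟨k, hk | hk⟩ := Nat.even_or_odd' n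
  · rw [hk, Nat.mul_div_cancel_left k two_pos, pow_mul]
    have h1 : ((1 : ℝ) / 2) ^ k ≤ (((3 : ℝ) / 4) ^ 2) ^ k :=
      pow_le_pow_left₀ (by norm_num) (by norm_num) k
    have h2 : 0 ≤ (((3 : ℝ) / 4) ^ 2) ^ k := by positivity
    linarith
  · have e : n / 2 = k := by omega
    rw [e, hk, pow_succ, pow_mul]
    have h1 : ((1 : ℝ) / 2) ^ k ≤ (((3 : ℝ) / 4) ^ 2) ^ k :=
      pow_le_pow_left₀ (by norm_num) (by norm_num) k
    have h2 : 0 ≤ (((3 : ℝ) / 4) ^ 2) ^ k := by positivity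
    linarith

theorem summ : Summable (fun n : ℕ => ((1 : ℝ) / 2) ^ (n / 2)) :=
  Summable.of_nonneg_of_le (fun n => by positivity) half_le
    ((summable_geometric_of_lt_one (by norm_num) (by norm_num)).mul_left 2)

theorem bd_shift {C x : ℝ} (hC : 0 < C) (M i : ℕ) (h : x * 2 ^ ((i + M) / 2) ≤ C) :
    x ≤ C * ((1 : ℝ) / 2) ^ (M / 2) * ((1 : ℝ) / 2) ^ (i / 2) := by
  have h1 : x ≤ C * ((1 : ℝ) / 2) ^ ((i + M) / 2) := by
    rw [one_div, inv_pow, ← div_eq_mul_inv, le_div_iff₀ (by positivity)]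
    exact h
  refine h1.trans ?_
  rw [mul_assoc, ← pow_add]
  exact mul_le_mul_of_nonneg_left
    (pow_le_pow_of_le_one (by norm_num) (by norm_num) (by omega)) hC.le

/-- the sum of the terms is `C¹` on the strips -/
theorem cd_tsum (hTerm : STerm) {δ κ : ℝ} (hδ : δ ≠ 0) (hκ1 : 1 < κ) (hκ : κ < cc δ)
    {θ : ℝ → ℝ} (hθ : Cut κ θ) {d : ℕ → ℕ} (hd : ∀ k, 1 ≤ d k) :
    ContDiffOn ℝ 1 (fun v => ∑' j, Hf θ δ d (j + 3) v) U := by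
  intro v hv
  apply ContDiffAt.contDiffWithinAt
  obtain ⟨r, hr1, hr2⟩ := exists_between (show |v.1| < 1 from hv)
  obtain ⟨C, hC, hT⟩ := hTerm δ κ r d θ hδ hκ1 hκ hr2 hd hθ
  have ho : IsOpen {w : ℝ × ℝ | |w.1| < r} := isOpen_lt continuous_fst.abs continuous_const
  have hsub : {w : ℝ × ℝ | |w.1| < r} ⊆ U := fun w hw => lt_trans hw hr2
  have hconv : Convex ℝ {w : ℝ × ℝ | |w.1| < r} := by
    have e : {w : ℝ × ℝ | |w.1| < r} = (Set.Ioo (-r) r) ×ˢ (Set.univ : Set ℝ) := by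
      ext w
      simp [abs_lt]
    rw [e]
    exact (convex_Ioo _ _).prod convex_univ
  have hd1 : ∀ n (x : ℝ × ℝ), x ∈ {w : ℝ × ℝ | |w.1| < r} →
      HasFDerivAt (Hf θ δ d (n + 3)) (fderiv ℝ (Hf θ δ d (n + 3)) x) x := by
    intro n x hx
    exact (((hT (n + 3) (by omega)).1.contDiffAt (isOpen_U.mem_nhds (hsub hx))).differentiableAt
      one_ne_zero).hasFDerivAt
  have hd2 : ∀ n (x : ℝ × ℝ), x ∈ {w : ℝ × ℝ | |w.1| < r} →
      ‖fderiv ℝ (Hf θ δ d (n + 3)) x‖ ≤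
        C * ((1 : ℝ) / 2) ^ (3 / 2) * ((1 : ℝ) / 2) ^ (n / 2) := by
    intro n x hx
    exact bd_shift hC 3 n ((hT (n + 3) (by omega)).2 x (le_of_lt hx)).2
  have hd3 : ∀ n (x : ℝ × ℝ), x ∈ {w : ℝ × ℝ | |w.1| < r} →
      ‖Hf θ δ d (n + 3) x‖ ≤
        C * ((1 : ℝ) / 2) ^ (3 / 2) * ((1 : ℝ) / 2) ^ (n / 2) := by
    intro n x hx
    exact bd_shift hC 3 n ((hT (n + 3) (by omega)).2 x (le_of_lt hx)).1
  have hS := summ.mul_left (C * ((1 : ℝ) / 2) ^ (3 / 2))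
  rw [contDiffAt_one_iff]
  refine ⟨fun x => ∑' n, fderiv ℝ (Hf θ δ d (n + 3)) x, {w : ℝ × ℝ | |w.1| < r},
    ho.mem_nhds hr1, ?_, ?_⟩
  · refine continuousOn_tsum (fun n => ?_) hS hd2
    have h1 : ContDiffOn ℝ 0 (fderiv ℝ (Hf θ δ d (n + 3))) U :=
      (hT (n + 3) (by omega)).1.fderiv_of_isOpen isOpen_U (by norm_num)
    exact h1.continuousOn.mono hsub
  · intro x hx
    exact hasFDerivAt_tsum_of_isPreconnected hS ho hconv.isPreconnected hd1 hd2 hx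
      (Summable.of_norm_bounded hS fun n => hd3 n x hx) hx

/-! ### the telescoping identity -/

theorem tele (hAl : SAl) {δ κ : ℝ} (hδ : δ ≠ 0)
    {θ : ℝ → ℝ} (hθ : Cut κ θ) {d : ℕ → ℕ} (hd : ∀ k, 1 ≤ d k) {v : ℝ × ℝ} (hv : v ∈ U) {M : ℕ}
    (hM : |Yf δ d M v| ≤ 1) (n : ℕ) (hn : n + 3 ≤ M) :
    θ (Yf δ d 3 v) * sl (Yf δ d 3) v +
        (1 - θ (Yf δ d 3 v)) * (θ (Yf δ d 2 v) * sl (Yf δ d 2) v) +
        ∑ j ∈ Finset.range n, Hf θ δ d (j + 3) v =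
      θ (Yf δ d (n + 3) v) * sl (Yf δ d (n + 3)) v +
        (1 - θ (Yf δ d (n + 3) v)) * (θ (Yf δ d (n + 2) v) * sl (Yf δ d (n + 2)) v) := by
  have hal : ∀ j < M, |Yf δ d j v| ≤ 1 ∨ |Yf δ d (j + 1) v| ≤ 1 :=
    hAl 1 le_rfl d hd (ze δ v) (show |v.1| ≤ 1 from le_of_lt hv) M hM
  induction n with
  | zero => simp
  | succ n ih =>
    rw [Finset.sum_range_succ, ← add_assoc, ih (by omega)]
    unfold Hf
    have e1 : n + 1 + 3 = n + 3 + 1 := by ring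
    have e2 : n + 1 + 2 = n + 3 := by ring
    rw [e1, e2]
    rcases le_or_gt |Yf δ d (n + 3) v| 1 with h | h
    · rw [hθ.one _ h]
      ring
    · have h1 : |Yf δ d (n + 3 + 1) v| ≤ 1 := by
        rcases hal (n + 3) (by omega) with h2 | h2
        · exact absurd h2 (not_le.2 h)
        · exact h2
      have h2 : |Yf δ d (n + 2) v| ≤ 1 := by
        rcases hal (n + 2) (by omega) with h2 | h2
        · exact h2
        · exact absurd h2 (not_le.2 h)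
      obtain ⟨K, hK⟩ := Pool.Agent.W216.Stu.Hyp.hyp δ 1 0 hδ zero_le_one (cc_pos δ)
      have e3 : (orb d (ze δ v) (n + 3)).z = (orb d (ze δ v) (n + 2)).y := orb_succ_z d _ (n + 2)
      have h3 := (hK (orb d (ze δ v) (n + 3)) (d (n + 3)) ((onS_ze δ hv).orb d (n + 3)) h
        (by rw [e3]; exact h2) h1).1
      have h4 : ∀ k ∈ Finset.range (d (n + 3)),
          θ (Tf δ d (n + 3) k v) * θ (Tf δ d (n + 3) (k + 1) v) *
            (sl (Tf δ d (n + 3) (k + 1)) v - sl (Tf δ d (n + 3) k) v) =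
          sl (Tf δ d (n + 3) (k + 1)) v - sl (Tf δ d (n + 3) k) v := by
        intro k hk
        have hk' := Finset.mem_range.1 hk
        have a1 : |Tf δ d (n + 3) k v| ≤ 1 := h3 k hk'.le
        have a2 : |Tf δ d (n + 3) (k + 1) v| ≤ 1 := h3 (k + 1) hk'
        rw [hθ.one _ a1, hθ.one _ a2]
        ring
      rw [Finset.sum_congr rfl h4,
        Finset.sum_range_sub (fun k => sl (Tf δ d (n + 3) k) v), Tf_last,
        show n + 3 = n + 2 + 1 from rfl, Tf_zero, hθ.one _ h1, hθ.one _ h2]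
      ring

/-- **SField** -/
theorem tSField (hTerm : STerm) (hAl : SAl) (hDt : SDt) : SField := by
  intro δ κ d θ hδ hκ1 hκ hd hθ
  refine ⟨?_, sg_per hDt θ δ d, ?_⟩
  · refine ContDiffOn.add (ContDiffOn.add (cd_prod hDt hδ hκ hθ hd (by norm_num)) ?_)
      (cd_tsum hTerm hδ hκ1 hκ hθ hd)
    exact (contDiffOn_const.sub (cd_cut hDt hθ d 3)).mul (cd_prod hDt hδ hκ hθ hd le_rfl)
  · intro r hr
    obtain ⟨C, hC, hT⟩ := hTerm δ κ r d θ hδ hκ1 hκ hr hd hθ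
    have hS0 : 0 ≤ ∑' i : ℕ, ((1 : ℝ) / 2) ^ (i / 2) := tsum_nonneg fun i => by positivity
    refine ⟨C * ∑' i : ℕ, ((1 : ℝ) / 2) ^ (i / 2) + 1, by positivity, ?_⟩
    intro v hv M hM hY
    have hvU : v ∈ U := lt_of_le_of_lt hv hr
    obtain ⟨n, rfl⟩ : ∃ n, M = n + 3 := ⟨M - 3, by omega⟩
    have h1 := tele hAl hδ hθ hd hvU hY n le_rfl
    rw [hθ.one _ hY] at h1
    have hb : ∀ i, ‖Hf θ δ d (i + n + 3) v‖ ≤
        C * ((1 : ℝ) / 2) ^ ((n + 3) / 2) * ((1 : ℝ) / 2) ^ (i / 2) := by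
      intro i
      refine bd_shift hC (n + 3) i ?_
      have h2 := ((hT (i + n + 3) (by omega)).2 v hv).1
      rw [add_assoc] at h2 ⊢
      exact h2
    have hb0 : ∀ i, ‖Hf θ δ d (i + 3) v‖ ≤
        C * ((1 : ℝ) / 2) ^ (3 / 2) * ((1 : ℝ) / 2) ^ (i / 2) := by
      intro i
      exact bd_shift hC 3 i ((hT (i + 3) (by omega)).2 v hv).1
    have hs0 : Summable (fun i => Hf θ δ d (i + 3) v) :=
      Summable.of_norm_bounded (summ.mul_left _) hb0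
    have h2 := hs0.sum_add_tsum_nat_add n
    have h3 : sg θ δ d v - sl (Yf δ d (n + 3)) v = ∑' i, Hf θ δ d (i + n + 3) v := by
      unfold sg
      rw [← h2]
      linarith
    have h4 : ‖∑' i, Hf θ δ d (i + n + 3) v‖ ≤
        C * ((1 : ℝ) / 2) ^ ((n + 3) / 2) * ∑' i : ℕ, ((1 : ℝ) / 2) ^ (i / 2) :=
      tsum_of_norm_bounded (summ.hasSum.mul_left _) hb
    rw [h3]
    have h5 : ((1 : ℝ) / 2) ^ ((n + 3) / 2) * 2 ^ ((n + 3) / 2) = 1 := by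
      rw [← mul_pow]
      norm_num
    have h6 := mul_le_mul_of_nonneg_right h4 (by positivity : (0 : ℝ) ≤ 2 ^ ((n + 3) / 2))
    rw [Real.norm_eq_abs] at h6
    refine h6.trans ?_
    have h7 : C * ((1 : ℝ) / 2) ^ ((n + 3) / 2) * (∑' i : ℕ, ((1 : ℝ) / 2) ^ (i / 2)) *
        2 ^ ((n + 3) / 2) = C * (∑' i : ℕ, ((1 : ℝ) / 2) ^ (i / 2)) *
          (((1 : ℝ) / 2) ^ ((n + 3) / 2) * 2 ^ ((n + 3) / 2)) := by ring
    rw [h7, h5]
    linarith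

end Pool.Agent.H249.TmSField
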