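import Pool.Agent.H252.UQ.Iface

/-!
# Project UQ, S_BUMP: small disjoint bumps of almost full measure on the cube
-/

set_option autoImplicit false

noncomputable section

namespace Pool.Agent.H249.UQB

open MeasureTheory Set Filter Topology
open scoped CompactlySupported
open Pool.Agent.N300.UN

/-- the measure of a positive functional -/
theorem riesz {X : Type} [TopologicalSpace X] [CompactSpace X] [T2Space X] [MeasurableSpace X]
    [BorelSpace X] (μ : C(X, ℝ) →ₗ[ℝ] ℝ) (hμ : ∀ f : C(X, ℝ), (∀ x, 0 ≤ f x) → 0 ≤ μ f) :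
    ∃ ν : Measure X, IsFiniteMeasure ν ∧ ν.Regular ∧ ∀ f : C(X, ℝ), ∫ x, f x ∂ν = μ f := by
  let Λ : C_c(X, ℝ) →ₚ[ℝ] ℝ :=
  { toFun g := μ g.toContinuousMap
    map_add' g g' := by
      rw [← map_add]
      rfl
    map_smul' c g := by
      rw [RingHom.id_apply, ← map_smul]
      rfl
    monotone' g g' hgg' := by
      have h1 : 0 ≤ μ (g'.toContinuousMap - g.toContinuousMap) := by
        apply hμ
        intro x
        have h2 : g x ≤ g' x := hgg' x
        show 0 ≤ g' x - g x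
        linarith
      rw [map_sub] at h1
      show μ g.toContinuousMap ≤ μ g'.toContinuousMap
      linarith }
  refine ⟨RealRMK.rieszMeasure Λ, inferInstance, inferInstance, fun f => ?_⟩
  let f' : C_c(X, ℝ) := ⟨f, HasCompactSupport.of_compactSpace _⟩
  exact RealRMK.integral_rieszMeasure Λ f'

/-- a finite partition into small measurable sets -/
theorem partition {X : Type} [PseudoMetricSpace X] [CompactSpace X] [MeasurableSpace X]
    [BorelSpace X] {e : ℝ} (he : 0 < e) : ∃ (N : ℕ) (p : Fin N → X) (E : Fin N → Set X),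
    (∀ j, MeasurableSet (E j)) ∧ (∀ j, E j ⊆ Metric.ball (p j) e) ∧
    (∀ i j, i ≠ j → Disjoint (E i) (E j)) ∧ ∀ x, ∃ j, x ∈ E j := by
  obtain ⟨t, -, htf, ht⟩ := finite_cover_balls_of_compact (isCompact_univ (X := X)) he
  have := htf.fintype
  let φ := (Fintype.equivFin t).symm
  refine ⟨Fintype.card t, fun j => (φ j : X),
    fun j => {x | x ∈ Metric.ball (φ j : X) e ∧ ∀ i < j, x ∉ Metric.ball (φ i : X) e}, ?_, ?_, ?_,
    ?_⟩
  · intro j
    have h1 : {x | x ∈ Metric.ball (φ j : X) e ∧ ∀ i < j, x ∉ Metric.ball (φ i : X) e} =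
        Metric.ball (φ j : X) e ∩ ⋂ i ∈ Finset.univ.filter (fun i => i < j),
          (Metric.ball (φ i : X) e)ᶜ := by
      ext x
      simp
    show MeasurableSet {x | x ∈ Metric.ball (φ j : X) e ∧ ∀ i < j, x ∉ Metric.ball (φ i : X) e}
    rw [h1]
    exact Metric.isOpen_ball.measurableSet.inter
      (Finset.measurableSet_biInter _ fun i _ => Metric.isOpen_ball.measurableSet.compl)
  · intro j x hx
    exact hx.1
  · intro i j hij
    refine Set.disjoint_left.2 fun x hx hx' => ?_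
    rcases lt_or_gt_of_ne hij with h | h
    · exact hx'.2 i h hx.1
    · exact hx.2 j h hx'.1
  · intro x
    have h1 : ∃ j, x ∈ Metric.ball (φ j : X) e := by
      obtain ⟨y, hy, hxy⟩ := mem_iUnion₂.1 (ht (mem_univ x))
      refine ⟨φ.symm ⟨y, hy⟩, ?_⟩
      rw [Equiv.apply_symm_apply]
      exact hxy
    obtain ⟨j, hj, hmin⟩ := WellFounded.has_min (wellFounded_lt (α := Fin (Fintype.card t)))
      {j | x ∈ Metric.ball (φ j : X) e} h1
    exact ⟨j, hj, fun i hi hx => hmin i hx hi⟩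

section bump

variable {n : ℕ}

/-- a point far away -/
theorem far (hn : 1 ≤ n) (p : Cube n) : ∃ x : Cube n, 1 / 2 ≤ dist x p := by
  let i : Fin n := ⟨0, hn⟩
  by_cases h : (p i : ℝ) ≤ 1 / 2
  · refine ⟨fun _ => 1, ?_⟩
    refine le_trans ?_ (dist_le_pi_dist _ p i)
    rw [Subtype.dist_eq, Real.dist_eq, abs_of_nonneg]
    · show 1 / 2 ≤ (1 : ℝ) - p i
      linarith
    · show 0 ≤ (1 : ℝ) - p i
      linarith
  · refine ⟨fun _ => 0, ?_⟩
    refine le_trans ?_ (dist_le_pi_dist _ p i)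
    rw [dist_comm, Subtype.dist_eq, Real.dist_eq, abs_of_nonneg]
    · show 1 / 2 ≤ (p i : ℝ) - 0
      linarith
    · show 0 ≤ (p i : ℝ) - 0
      linarith

/-- the distance to a closed set as a continuous function -/
def dK (K : Set (Cube n)) : C(Cube n, ℝ) := ⟨fun x => Metric.infDist x K,
  Metric.continuous_infDist_pt K⟩

/-- bumps -/
def bp (c δ : ℝ) (K : Set (Cube n)) : C(Cube n, ℝ) :=
  ⟨fun x => max 0 (min 1 (c - 4 * Metric.infDist x K / δ)),
    continuous_const.max (continuous_const.min (continuous_const.sub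
      ((continuous_const.mul (Metric.continuous_infDist_pt K)).div_const δ)))⟩

theorem bp_apply (c δ : ℝ) (K : Set (Cube n)) (x : Cube n) :
    bp c δ K x = max 0 (min 1 (c - 4 * Metric.infDist x K / δ)) := rfl

theorem bp_mem (c δ : ℝ) (K : Set (Cube n)) (x : Cube n) : 0 ≤ bp c δ K x ∧ bp c δ K x ≤ 1 := by
  rw [bp_apply]
  exact ⟨le_max_left _ _, max_le zero_le_one (min_le_left _ _)⟩

theorem bp_one {c δ : ℝ} {K : Set (Cube n)} {x : Cube n}
    (h : 1 ≤ c - 4 * Metric.infDist x K / δ) : bp c δ K x = 1 := by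
  rw [bp_apply, min_eq_left h, max_eq_right zero_le_one]

theorem bp_ne {c δ : ℝ} {K : Set (Cube n)} {x : Cube n} (h : bp c δ K x ≠ 0) :
    0 < c - 4 * Metric.infDist x K / δ := by
  by_contra h1
  apply h
  rw [bp_apply, max_eq_left]
  exact (min_le_right _ _).trans (not_lt.1 h1)

theorem bp_zero {c δ : ℝ} {K : Set (Cube n)} {x : Cube n}
    (h : c - 4 * Metric.infDist x K / δ ≤ 0) : bp c δ K x = 0 := by
  rw [bp_apply, max_eq_left]
  exact (min_le_right _ _).trans h

/-- one bump -/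
theorem one (hn : 1 ≤ n) (μ : C(Cube n, ℝ) →ₗ[ℝ] ℝ)
    (h0 : ∀ f : C(Cube n, ℝ), (∀ x, 0 ≤ f x) → 0 ≤ μ f)
    (h1 : ∀ f : C(Cube n, ℝ), (∀ x, 0 ≤ f x) → μ f = 0 → f = 0) {δ : ℝ} (hδ : 0 < δ)
    (hδ' : δ ≤ 1 / 4) {K : Set (Cube n)} (hK : K.Nonempty) {p : Cube n}
    (hp : K ⊆ Metric.ball p (1 / 4)) : μ (bp 2 δ K) < μ (bp 4 δ K * bp 4 δ K) := by
  have h2 : ∀ x, 0 ≤ (bp 4 δ K * bp 4 δ K - bp 2 δ K) x := by
    intro x
    show 0 ≤ bp 4 δ K x * bp 4 δ K x - bp 2 δ K x
    by_cases h : bp 2 δ K x = 0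
    · rw [h, sub_zero]
      exact mul_self_nonneg _
    · have h3 := bp_ne h
      rw [bp_one (c := 4) (by linarith)]
      have := (bp_mem 2 δ K x).2
      linarith
  have h3 := h0 _ h2
  rw [map_sub] at h3
  rcases lt_or_eq_of_le (sub_nonneg.1 h3) with h4 | h4
  · exact h4
  · exfalso
    have h5 : bp 4 δ K * bp 4 δ K - bp 2 δ K = 0 := by
      apply h1 _ h2
      rw [map_sub, h4, sub_self]
    obtain ⟨z, hz⟩ := hK
    obtain ⟨y, hy⟩ := far hn p
    have h6 : 5 * δ / 8 ∈ range fun x : Cube n => Metric.infDist x K := by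
      apply mem_range_of_exists_le_of_exists_ge (Metric.continuous_infDist_pt K)
      · exact ⟨z, by rw [Metric.infDist_zero_of_mem hz]; positivity⟩
      · refine ⟨y, (Metric.le_infDist ⟨z, hz⟩).2 fun w hw => ?_⟩
        have h7 : dist w p < 1 / 4 := hp hw
        have h8 := dist_triangle y w p
        linarith
    obtain ⟨x, hx⟩ := h6
    have hx' : Metric.infDist x K = 5 * δ / 8 := hx
    have h9 : 4 * Metric.infDist x K / δ = 5 / 2 := by
      rw [hx']
      field_simp
      norm_num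
    have h10 : (bp 4 δ K * bp 4 δ K - bp 2 δ K) x = 1 := by
      show bp 4 δ K x * bp 4 δ K x - bp 2 δ K x = 1
      rw [bp_one (c := 4) (by rw [h9]; norm_num), bp_zero (c := 2) (by rw [h9]; norm_num)]
      norm_num
    rw [h5] at h10
    exact zero_ne_one h10

/-- the theorem for an arbitrary finite index set -/
theorem main (hn : 1 ≤ n) (μ : C(Cube n, ℝ) →ₗ[ℝ] ℝ)
    (h0 : ∀ f : C(Cube n, ℝ), (∀ x, 0 ≤ f x) → 0 ≤ μ f)
    (h1 : ∀ f : C(Cube n, ℝ), (∀ x, 0 ≤ f x) → μ f = 0 → f = 0) {ω κ : ℝ} (hω : 0 < ω)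
    (hκ : 0 < κ) :
    ∃ (ι : Type) (_ : Fintype ι) (p : ι → Cube n) (K : ι → Set (Cube n)) (δ : ℝ), 0 < δ ∧
      (∀ j, (K j).Nonempty) ∧
      (∀ i j, i ≠ j → Disjoint (Metric.thickening δ (K i)) (Metric.thickening δ (K j))) ∧
      (∀ j x, x ∈ Metric.thickening δ (K j) → dist x (p j) < ω) ∧
      (∀ j, μ (bp 2 δ (K j)) < μ (bp 4 δ (K j) * bp 4 δ (K j))) ∧
      ∀ u : C(Cube n, ℝ), (∀ x, 0 ≤ u x ∧ u x ≤ 1) → (∀ j, ∀ x ∈ K j, u x = 0) → μ u ≤ κ := by
  obtain ⟨ν, hν1, hν2, hν⟩ := riesz μ h0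
  set e : ℝ := min ω 1 / 4 with he
  have he0 : 0 < e := by
    have := lt_min hω one_pos
    positivity
  have heω : e ≤ ω / 4 := by
    have := min_le_left ω 1
    rw [he]; linarith
  have he1 : e ≤ 1 / 4 := by
    have := min_le_right ω 1
    rw [he]; linarith
  obtain ⟨N, p, E, hE1, hE2, hE3, hE4⟩ := partition (X := Cube n) he0
  -- the compact sets
  have hex : ∀ j, ∃ K ⊆ E j, IsCompact K ∧ ν (E j \ K) < ENNReal.ofReal (κ / (N + 1)) := by
    intro j
    refine (hE1 j).exists_isCompact_sdiff_lt (measure_ne_top _ _) ?_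
    have : 0 < κ / (N + 1) := by positivity
    simpa using this
  choose K hK1 hK2 hK3 using hex
  let ι : Type := {j : Fin N // (K j).Nonempty}
  have hfin : Finite ι := inferInstanceAs (Finite {j : Fin N // (K j).Nonempty})
  have hsmall : ∀ᶠ δ in 𝓝[>] (0 : ℝ), (∀ q : ι × ι, q.1 ≠ q.2 →
      Disjoint (Metric.thickening δ (K q.1.1)) (Metric.thickening δ (K q.2.1))) ∧ δ < e ∧ 0 < δ := by
    refine Filter.Eventually.and ?_ (Filter.Eventually.and ?_ ?_)
    · rw [Filter.eventually_all]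
      intro q
      by_cases hq : q.1 = q.2
      · exact Filter.Eventually.of_forall fun δ h => absurd hq h
      · have hd : Disjoint (K q.1.1) (K q.2.1) :=
          (hE3 _ _ (fun h => hq (Subtype.ext h))).mono (hK1 _) (hK1 _)
        obtain ⟨δ₀, hδ₀, hdis⟩ := hd.exists_thickenings (hK2 _) (hK2 _).isClosed
        filter_upwards [Ioo_mem_nhdsGT hδ₀] with δ hδ _
        exact hdis.mono (Metric.thickening_mono hδ.2.le _) (Metric.thickening_mono hδ.2.le _)
    · filter_upwards [Ioo_mem_nhdsGT he0] with δ hδ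
      exact hδ.2
    · filter_upwards [Ioo_mem_nhdsGT he0] with δ hδ
      exact hδ.1
  obtain ⟨δ, hδ1, hδ2, hδ3⟩ := hsmall.exists
  refine ⟨ι, Fintype.ofFinite ι, fun j => p j.1, fun j => K j.1, δ, hδ3, fun j => j.2,
    fun i j hij => hδ1 (i, j) hij, ?_, ?_, ?_⟩
  · intro j x hx
    obtain ⟨z, hz, hxz⟩ := Metric.mem_thickening_iff.1 hx
    have h3 : dist z (p j.1) < e := hE2 _ (hK1 _ hz)
    have h4 := dist_triangle x z (p j.1)
    linarith
  · intro j
    refine one hn μ h0 h1 hδ3 (by linarith) j.2 (p := p j.1) ?_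
    exact ((hK1 _).trans (hE2 _)).trans (Metric.ball_subset_ball he1)
  · intro u hu hu'
    set C : Set (Cube n) := (⋃ j : ι, K j.1)ᶜ with hC
    have mC : MeasurableSet C :=
      (MeasurableSet.iUnion fun j : ι => (hK2 j.1).measurableSet).compl
    have hCle : ν C ≤ ENNReal.ofReal κ := by
      have hsub : C ⊆ ⋃ j : Fin N, (E j \ K j) := by
        intro x hx
        obtain ⟨j, hj⟩ := hE4 x
        refine mem_iUnion.2 ⟨j, hj, fun hxK => hx ?_⟩
        exact mem_iUnion.2 ⟨⟨j, ⟨x, hxK⟩⟩, hxK⟩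
      calc ν C ≤ ν (⋃ j : Fin N, (E j \ K j)) := measure_mono hsub
        _ ≤ ∑ j : Fin N, ν (E j \ K j) := measure_iUnion_fintype_le _ _
        _ ≤ ∑ _j : Fin N, ENNReal.ofReal (κ / (N + 1)) := Finset.sum_le_sum fun j _ => (hK3 j).le
        _ = ENNReal.ofReal (N * (κ / (N + 1))) := by
          rw [Finset.sum_const, Finset.card_univ, Fintype.card_fin, nsmul_eq_mul,
            ENNReal.ofReal_mul (by positivity), ENNReal.ofReal_natCast]
        _ ≤ ENNReal.ofReal κ := by
          apply ENNReal.ofReal_le_ofReal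
          rw [mul_div_assoc', div_le_iff₀ (by positivity)]
          nlinarith
    rw [← hν u]
    have h3 : ∫ x, u x ∂ν ≤ ∫ x, C.indicator (fun _ => (1 : ℝ)) x ∂ν := by
      apply integral_mono
      · exact u.continuous.integrable_of_hasCompactSupport (HasCompactSupport.of_compactSpace _)
      · exact (integrable_const 1).indicator mC
      · intro x
        by_cases hx : x ∈ C
        · show u x ≤ C.indicator (fun _ => (1 : ℝ)) x
          rw [indicator_of_mem hx]
          exact (hu x).2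
        · show u x ≤ C.indicator (fun _ => (1 : ℝ)) x
          rw [indicator_of_notMem hx]
          obtain ⟨j, hj⟩ := mem_iUnion.1 (not_not.1 hx)
          exact (hu' j x hj).le
    refine h3.trans ?_
    rw [integral_indicator_const _ mC, smul_eq_mul, mul_one]
    exact ENNReal.toReal_le_of_le_ofReal hκ.le hCle

end bump

theorem s_BUMP : Pool.Agent.H252.UQ.S_BUMP := by
  intro n hn μ h0 h1 ω κ hω hκ
  obtain ⟨ι, _, p, K, δ, hδ, hKn, hdis, hdist, hlt, hu⟩ := main hn μ h0 h1 hω hκ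
  let φ := (Fintype.equivFin ι).symm
  have mem : ∀ (j : ι) (x : Cube n), bp 4 δ (K j) x ≠ 0 → x ∈ Metric.thickening δ (K j) := by
    intro j x hx
    have h2 := bp_ne hx
    rw [Metric.mem_thickening_iff_infDist_lt (hKn j)]
    have h3 : 4 * Metric.infDist x (K j) / δ < 4 := by linarith
    rw [div_lt_iff₀ hδ] at h3
    linarith
  refine ⟨Fintype.card ι, fun j => p (φ j), fun j => bp 1 δ (K (φ j)), fun j => bp 2 δ (K (φ j)),
    fun j => bp 4 δ (K (φ j)), fun j x => bp_mem _ _ _ x, fun j x => bp_mem _ _ _ x,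
    fun j x => bp_mem _ _ _ x, ?_, ?_, fun j => hlt (φ j), ?_, ?_, ?_⟩
  · intro j x hx
    have h2 := bp_ne hx
    exact bp_one (by linarith)
  · intro j x hx
    have h2 := bp_ne hx
    exact bp_one (by linarith)
  · intro i j hij x
    by_contra h2
    push Not at h2
    exact Set.disjoint_left.1 (hdis (φ i) (φ j) (fun h => hij (φ.injective h)))
      (mem _ x h2.1) (mem _ x h2.2)
  · intro j x hx
    exact hdist (φ j) x (mem _ x hx)
  · intro u hu1 hu2
    apply hu u hu1
    intro j x hx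
    by_contra h2
    have h3 := hu2 x h2
    have h4 : bp 1 δ (K (φ (φ.symm j))) x ^ 2 ≤ ∑ i, bp 1 δ (K (φ i)) x ^ 2 :=
      Finset.single_le_sum (f := fun i => bp 1 δ (K (φ i)) x ^ 2) (fun i _ => sq_nonneg _)
        (Finset.mem_univ (φ.symm j))
    rw [Equiv.apply_symm_apply, bp_one (by rw [Metric.infDist_zero_of_mem hx]; simp)] at h4
    linarith

end Pool.Agent.H249.UQB
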